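import Pool.Agent.Lib.MP_2b9f9a_al.PX.Fpf28

/-!
# PX, module 6b: fixed points of `H` in a quotient are covered by fixed points of `H`
-/

set_option autoImplicit false

namespace Pool.Agent.PX.Cov28

open Finset

variable {Γ : Type} [Group Γ]

/-- the nontrivial elements of `F` up to conjugation by `H` -/
def cj (F H : Subgroup Γ) : Setoid {y : Γ // y ∈ F ∧ y ≠ 1} where
  r a b := ∃ t ∈ H, t * (a : Γ) * t⁻¹ = b
  iseqv := by
    refine ⟨?_, ?_, ?_⟩
    · intro a
      exact ⟨1, H.one_mem, by simp⟩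
    · rintro a b ⟨t, ht, h⟩
      refine ⟨t⁻¹, H.inv_mem ht, ?_⟩
      rw [← h]
      group
    · rintro a b c ⟨t, ht, h⟩ ⟨s, hs, h'⟩
      refine ⟨s * t, H.mul_mem hs ht, ?_⟩
      rw [← h', ← h]
      group

/-- summing over `F` minus `1` by representatives -/
theorem prod_reps [Finite Γ] (F H : Subgroup Γ)
    (norm : ∀ x ∈ H, ∀ y ∈ F, x * y * x⁻¹ ∈ F)
    (free : ∀ x ∈ H, x ≠ 1 → ∀ y ∈ F, x * y = y * x → y = 1) :
    ∃ R SF SH : Finset Γ, (∀ y, y ∈ SF ↔ y ∈ F) ∧ (∀ y, y ∈ SH ↔ y ∈ H) ∧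
      ∀ (V : Type) [CommGroup V] (f : Γ → V),
      ∏ y ∈ SF, f y = f 1 * ∏ t ∈ SH, ∏ r ∈ R, f (t * r * t⁻¹) := by
  classical
  letI := Fintype.ofFinite Γ
  letI : Fintype (Quotient (cj F H)) := Fintype.ofFinite _
  let rep : Quotient (cj F H) → Γ := fun q => (q.out : {y : Γ // y ∈ F ∧ y ≠ 1})
  refine ⟨univ.image rep, univ.filter (fun y => y ∈ F), univ.filter (fun y => y ∈ H),
    fun y => by simp, fun y => by simp, ?_⟩
  intro V _ f
  have h1 : (univ.filter (fun y : Γ => y ∈ F)) =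
      insert 1 (univ.filter (fun y : Γ => y ∈ F ∧ y ≠ 1)) := by
    ext y
    simp only [mem_filter, mem_univ, true_and, mem_insert]
    constructor
    · intro hy
      by_cases h : y = 1
      · exact Or.inl h
      · exact Or.inr ⟨hy, h⟩
    · rintro (h | h)
      · rw [h]
        exact F.one_mem
      · exact h.1
  have key : ∏ y ∈ univ.filter (fun y : Γ => y ∈ F ∧ y ≠ 1), f y =
      ∏ t ∈ univ.filter (fun t => t ∈ H), ∏ r ∈ univ.image rep, f (t * r * t⁻¹) := by
    rw [← prod_product']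
    symm
    refine prod_bij (fun a _ => a.1 * a.2 * a.1⁻¹) ?_ ?_ ?_ ?_
    · rintro ⟨t, r⟩ h
      simp only [mem_product, mem_filter, mem_univ, true_and, mem_image] at h
      obtain ⟨ht, q, rfl⟩ := h
      simp only [mem_filter, mem_univ, true_and]
      refine ⟨norm t ht _ q.out.2.1, ?_⟩
      intro h1
      apply q.out.2.2
      have h1' : t * (q.out : Γ) * t⁻¹ = 1 := h1
      have h2 : t * (q.out : Γ) = t := mul_inv_eq_one.1 h1'
      exact mul_eq_left.1 h2
    · rintro ⟨t, r⟩ h ⟨t', r'⟩ h' he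
      simp only [mem_product, mem_filter, mem_univ, true_and, mem_image] at h h'
      obtain ⟨ht, q, rfl⟩ := h
      obtain ⟨ht', q', rfl⟩ := h'
      have he' : t * (q.out : Γ) * t⁻¹ = t' * (q'.out : Γ) * t'⁻¹ := he
      have hqq : q = q' := by
        rw [← q.out_eq, ← q'.out_eq]
        apply Quotient.sound
        refine ⟨t'⁻¹ * t, H.mul_mem (H.inv_mem ht') ht, ?_⟩
        have h1 : t'⁻¹ * t * (q.out : Γ) * (t'⁻¹ * t)⁻¹ =
            t'⁻¹ * (t * (q.out : Γ) * t⁻¹) * t' := by
          group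
        rw [h1, he']
        group
      subst hqq
      have h1 : t'⁻¹ * t = 1 := by
        by_contra hne
        apply q.out.2.2
        refine free (t'⁻¹ * t) (H.mul_mem (H.inv_mem ht') ht) hne _ q.out.2.1 ?_
        have h1 : t'⁻¹ * t * (q.out : Γ) = t'⁻¹ * (t * (q.out : Γ) * t⁻¹) * t := by
          group
        rw [h1, he']
        group
      have h2 : t = t' := (inv_mul_eq_one.1 h1).symm
      rw [h2]
    · intro y hy
      simp only [mem_filter, mem_univ, true_and] at hy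
      let a : {y : Γ // y ∈ F ∧ y ≠ 1} := ⟨y, hy⟩
      have h1 : (cj F H).r (Quotient.mk (cj F H) a).out a := Quotient.exact (Quotient.out_eq _)
      obtain ⟨t, ht, h2⟩ := h1
      refine ⟨(t, rep (Quotient.mk (cj F H) a)), ?_, h2⟩
      simp only [mem_product, mem_filter, mem_univ, true_and, mem_image]
      exact ⟨ht, _, rfl⟩
    · intro a _
      rfl
  rw [← key, h1, prod_insert (by simp)]

/-! ### one step: the abelian quotient of `N` -/

section step

variable {N : Type} [Group N] [MulDistribMulAction Γ N]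

/-- the action on the abelianisation -/
noncomputable def rho (γ : Γ) : Abelianization N →* Abelianization N :=
  Abelianization.map (MulDistribMulAction.toMonoidHom N γ)

theorem rho_of (γ : Γ) (n : N) :
    rho γ (Abelianization.of n) = Abelianization.of (γ • n) := rfl

theorem rho_mul (γ δ : Γ) (v : Abelianization N) : rho (γ * δ) v = rho γ (rho δ v) := by
  obtain ⟨n, rfl⟩ := QuotientGroup.mk_surjective v
  change rho (γ * δ) (Abelianization.of n) = rho γ (rho δ (Abelianization.of n))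
  rw [rho_of, rho_of, rho_of, mul_smul]

theorem rho_one (v : Abelianization N) : rho (1 : Γ) v = v := by
  obtain ⟨n, rfl⟩ := QuotientGroup.mk_surjective v
  change rho (1 : Γ) (Abelianization.of n) = Abelianization.of n
  rw [rho_of, one_smul]

/-- if `F` has no fixed points on the abelianisation, then cocycles of `H` are coboundaries -/
theorem cob [Finite Γ] (F H : Subgroup Γ)
    (norm : ∀ x ∈ H, ∀ y ∈ F, x * y * x⁻¹ ∈ F)
    (free : ∀ x ∈ H, x ≠ 1 → ∀ y ∈ F, x * y = y * x → y = 1)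
    (hfix : ∀ v : Abelianization N, (∀ y ∈ F, rho y v = v) → v = 1)
    (c : Γ → Abelianization N) (hc : ∀ x ∈ H, ∀ x' ∈ H, c (x * x') = c x * rho x (c x')) :
    ∃ v : Abelianization N, ∀ x ∈ H, c x * rho x v = v := by
  obtain ⟨R, SF, SH, hSF, hSH, hR⟩ := prod_reps F H norm free
  -- the norm of `F` is trivial
  have hN : ∀ v : Abelianization N, ∏ y ∈ SF, rho y v = 1 := by
    intro v
    apply hfix
    intro y hy
    rw [map_prod]
    refine prod_bij (fun a _ => y * a) ?_ ?_ ?_ ?_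
    · intro a ha
      exact (hSF _).2 (F.mul_mem hy ((hSF a).1 ha))
    · intro a _ b _ h
      exact mul_left_cancel h
    · intro b hb
      exact ⟨y⁻¹ * b, (hSF _).2 (F.mul_mem (F.inv_mem hy) ((hSF b).1 hb)), mul_inv_cancel_left y b⟩
    · intro a _
      rw [rho_mul]
  set θ : Abelianization N → Abelianization N := fun v => ∏ r ∈ R, rho r v with hθ
  have hθm : ∀ u v, θ (u * v) = θ u * θ v := by
    intro u v
    simp only [hθ, map_mul, prod_mul_distrib]
  have hinv : ∀ v : Abelianization N, ∏ t ∈ SH, rho t (θ (rho t⁻¹ v)) = v⁻¹ := by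
    intro v
    have h1 := hR (Abelianization N) (fun y => rho y v)
    rw [hN] at h1
    simp only [rho_one] at h1
    have h2 : ∏ t ∈ SH, rho t (θ (rho t⁻¹ v)) = ∏ t ∈ SH, ∏ r ∈ R, rho (t * r * t⁻¹) v := by
      apply prod_congr rfl
      intro t _
      simp only [hθ]
      rw [map_prod]
      apply prod_congr rfl
      intro r _
      rw [rho_mul, rho_mul]
    rw [h2]
    exact (inv_eq_of_mul_eq_one_right h1.symm).symm
  refine ⟨∏ t ∈ SH, rho t (θ (c t⁻¹)), ?_⟩
  intro x hx
  have h1 : rho x (∏ t ∈ SH, rho t (θ (c t⁻¹))) = ∏ s ∈ SH, rho s (θ (c (s⁻¹ * x))) := by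
    rw [map_prod]
    refine prod_bij (fun a _ => x * a) ?_ ?_ ?_ ?_
    · intro a ha
      exact (hSH _).2 (H.mul_mem hx ((hSH a).1 ha))
    · intro a _ b _ h
      exact mul_left_cancel h
    · intro b hb
      exact ⟨x⁻¹ * b, (hSH _).2 (H.mul_mem (H.inv_mem hx) ((hSH b).1 hb)), mul_inv_cancel_left x b⟩
    · intro a _
      rw [← rho_mul]
      congr 3
      group
  have h2 : ∏ s ∈ SH, rho s (θ (c (s⁻¹ * x))) =
      (∏ s ∈ SH, rho s (θ (c s⁻¹))) * ∏ s ∈ SH, rho s (θ (rho s⁻¹ (c x))) := by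
    rw [← prod_mul_distrib]
    apply prod_congr rfl
    intro s hs
    rw [hc _ (H.inv_mem ((hSH s).1 hs)) _ hx, hθm, map_mul]
  rw [h1, h2, hinv, mul_comm, mul_assoc, inv_mul_cancel, mul_one]

end step

/-- one step in the group -/
theorem step {p : ℕ} [Fact p.Prime] [Finite Γ] {P : Type} [Group P] [Finite P]
    [MulDistribMulAction Γ P] (F H : Subgroup Γ) (hP : IsPGroup p P) (hFro : Fro P F H)
    (N : Subgroup P) (hN : ∀ γ : Γ, ∀ g ∈ N, γ • g ∈ N)
    (g : P) (hg : ∀ x ∈ H, g⁻¹ * (x • g) ∈ N) :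
    ∃ n ∈ N, ∀ x ∈ H, (g * n)⁻¹ * (x • (g * n)) ∈ ⁅N, N⁆ := by
  classical
  letI : MulDistribMulAction Γ N := subAct N hN
  have hcoe : ∀ (γ : Γ) (n : N), ((γ • n : N) : P) = γ • (n : P) := fun γ n => rfl
  have hFroN : Fro N F H := by
    refine ⟨hFro.norm, hFro.fne, hFro.hne, hFro.free, ?_⟩
    intro y hy hy1 n hn
    apply Subtype.ext
    exact hFro.fpf y hy hy1 n (by rw [← hcoe, hn])
  have hPN : IsPGroup p N := hP.to_subgroup N
  have hst : ∀ γ : Γ, ∀ g ∈ commutator N, γ • g ∈ commutator N := by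
    intro γ g hg
    have h1 : (MulDistribMulAction.toMonoidHom N γ) g ∈
        (commutator N).map (MulDistribMulAction.toMonoidHom N γ) :=
      Subgroup.mem_map_of_mem _ hg
    rw [commutator_def, Subgroup.map_commutator] at h1
    exact Subgroup.commutator_mono le_top le_top h1
  have hfix : ∀ v : Abelianization N, (∀ y ∈ F, rho y v = v) → v = 1 := by
    intro v hv
    obtain ⟨n, rfl⟩ := QuotientGroup.mk_surjective v
    obtain ⟨y, hy, hy1⟩ := (Subgroup.ne_bot_iff_exists_ne_one.1 hFro.fne)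
      |> fun ⟨a, ha⟩ => (⟨a, a.2, fun h => ha (Subtype.ext h)⟩ : ∃ y, y ∈ F ∧ y ≠ 1)
    have h1 : n⁻¹ * (y • n) ∈ commutator N := by
      have h2 : Abelianization.of (y • n) = Abelianization.of n := hv y hy
      have h3 : Abelianization.of (n⁻¹ * (y • n)) = 1 := by
        rw [map_mul, map_inv, h2, inv_mul_cancel]
      exact (QuotientGroup.eq_one_iff _).1 h3
    exact (QuotientGroup.eq_one_iff _).2
      (stFpf_28 p Γ N F H hPN hFroN (commutator N) hst y hy hy1 n h1)
  set c : Γ → Abelianization N := fun x =>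
    if hx : x ∈ H then Abelianization.of (⟨g⁻¹ * (x • g), hg x hx⟩ : N) else 1 with hc
  have hcx : ∀ (x : Γ) (hx : x ∈ H), c x = Abelianization.of (⟨g⁻¹ * (x • g), hg x hx⟩ : N) := by
    intro x hx
    simp only [hc, dif_pos hx]
  obtain ⟨v, hv⟩ := cob F H hFro.norm hFro.free hfix c (by
    intro x hx x' hx'
    rw [hcx _ (H.mul_mem hx hx'), hcx _ hx, hcx _ hx', rho_of, ← map_mul]
    congr 1
    apply Subtype.ext
    rw [Subgroup.coe_mul, hcoe]
    change g⁻¹ * ((x * x') • g) = g⁻¹ * (x • g) * (x • (g⁻¹ * (x' • g)))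
    rw [smul_mul', smul_inv', mul_smul]
    group)
  obtain ⟨n, rfl⟩ := QuotientGroup.mk_surjective v
  refine ⟨n, n.2, ?_⟩
  intro x hx
  have h1 : c x * Abelianization.of (x • n) = Abelianization.of n := hv x hx
  rw [hcx x hx] at h1
  have h2 : Abelianization.of (n⁻¹ * ((⟨g⁻¹ * (x • g), hg x hx⟩ : N) * (x • n))) = 1 := by
    rw [map_mul, map_mul, h1, map_inv, inv_mul_cancel]
  have h3 : n⁻¹ * ((⟨g⁻¹ * (x • g), hg x hx⟩ : N) * (x • n)) ∈ commutator N :=
    (QuotientGroup.eq_one_iff _).1 h2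
  have h4 : N.subtype (n⁻¹ * ((⟨g⁻¹ * (x • g), hg x hx⟩ : N) * (x • n))) ∈
      (commutator N).map N.subtype := Subgroup.mem_map_of_mem _ h3
  rw [commutator_def, Subgroup.map_commutator, ← MonoidHom.range_eq_map, Subgroup.range_subtype]
    at h4
  have h5 : N.subtype (n⁻¹ * ((⟨g⁻¹ * (x • g), hg x hx⟩ : N) * (x • n))) =
      (g * (n : P))⁻¹ * (x • (g * (n : P))) := by
    change (n : P)⁻¹ * (g⁻¹ * (x • g) * (x • (n : P))) = _
    rw [smul_mul']
    group
  rw [← h5]
  exact h4

end Pool.Agent.PX.Cov28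

namespace Pool.Agent.PX

open Finset Cov28

theorem stCov_28 : StCov := by
  intro p hp Γ P _ _ _ _ _ F H hP hFro N hNn hN g hg
  have hnil : Group.IsNilpotent P := hP.isNilpotent
  obtain ⟨K, hK⟩ := (Group.isSolvable_def P).1 (inferInstance : Group.IsSolvable P)
  have key : ∀ (i j : ℕ), j + i = K → ∀ (N : Subgroup P), N ≤ derivedSeries P j →
      (∀ γ : Γ, ∀ g ∈ N, γ • g ∈ N) → ∀ g : P, (∀ x ∈ H, g⁻¹ * (x • g) ∈ N) →
      ∃ n ∈ N, ∀ x ∈ H, x • (g * n) = g * n := by
    intro i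
    induction i with
    | zero =>
      intro j hj N hNj _ g hg
      refine ⟨1, N.one_mem, ?_⟩
      intro x hx
      have h1 := hNj (hg x hx)
      rw [add_zero] at hj
      rw [hj, hK, Subgroup.mem_bot, inv_mul_eq_one] at h1
      rw [mul_one]
      exact h1.symm
    | succ i ih =>
      intro j hj N hNj hN g hg
      obtain ⟨n, hn, h1⟩ := step F H hP hFro N hN g hg
      have hst : ∀ γ : Γ, ∀ g ∈ ⁅N, N⁆, γ • g ∈ ⁅N, N⁆ := by
        intro γ g hg
        have h1 : (MulDistribMulAction.toMonoidHom P γ) g ∈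
            (⁅N, N⁆).map (MulDistribMulAction.toMonoidHom P γ) :=
          Subgroup.mem_map_of_mem _ hg
        rw [Subgroup.map_commutator] at h1
        have h2 : N.map (MulDistribMulAction.toMonoidHom P γ) ≤ N := by
          rintro _ ⟨a, ha, rfl⟩
          exact hN γ a ha
        exact Subgroup.commutator_mono h2 h2 h1
      obtain ⟨n', hn', h2⟩ := ih (j + 1) (by omega) ⁅N, N⁆
        (by
          rw [derivedSeries_succ]
          exact Subgroup.commutator_mono hNj hNj) hst (g * n) h1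
      refine ⟨n * n', N.mul_mem hn (Subgroup.commutator_le_self N hn'), ?_⟩
      intro x hx
      rw [← mul_assoc]
      exact h2 x hx
  exact key K 0 (by omega) N (by rw [derivedSeries_zero]; exact le_top) hN g hg

end Pool.Agent.PX
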