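import Pool.Agent.Lib.MP_2b9f9a_al.PX.Defs

/-!
# Lower central series: `[lc i, lc j] <= lc (i + j)`.
-/

set_option autoImplicit false

namespace Pool.Agent.PX

namespace Lc78

variable {G : Type} [Group G]

theorem three (N : Subgroup G) [N.Normal] (H1 H2 H3 : Subgroup G) (h1 : ⁅⁅H2, H3⁆, H1⁆ ≤ N)
    (h2 : ⁅⁅H3, H1⁆, H2⁆ ≤ N) : ⁅⁅H1, H2⁆, H3⁆ ≤ N := by
  have key : ∀ K : Subgroup G, K ≤ N ↔ K.map (QuotientGroup.mk' N) = ⊥ := by
    intro K
    rw [Subgroup.map_eq_bot_iff, QuotientGroup.ker_mk']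
  rw [key, Subgroup.map_commutator, Subgroup.map_commutator] at h1 h2 ⊢
  exact Subgroup.commutator_commutator_eq_bot_of_rotate h1 h2

instance lc_normal (w : ℕ) : (lc G w).Normal := by
  match w with
  | 0 => unfold lc; infer_instance
  | 1 => unfold lc; infer_instance
  | w + 2 =>
    have := lc_normal (w + 1)
    change (⁅lc G (w + 1), (⊤ : Subgroup G)⁆).Normal
    infer_instance

theorem lc_succ (w : ℕ) (hw : 1 ≤ w) : lc G (w + 1) = ⁅lc G w, (⊤ : Subgroup G)⁆ := by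
  obtain ⟨v, rfl⟩ : ∃ v, w = v + 1 := ⟨w - 1, by omega⟩
  rfl

theorem lc_one : lc G 1 = ⊤ := rfl

/-- `[lc i, lc j] <= lc (i + j)`. -/
theorem lcc (j : ℕ) (hj : 1 ≤ j) : ∀ i, 1 ≤ i → ⁅lc G i, lc G j⁆ ≤ lc G (i + j) := by
  induction j, hj using Nat.le_induction with
  | base => intro i hi; rw [lc_succ i hi]; exact le_rfl
  | succ j hj ih =>
    intro i hi
    rw [lc_succ j hj, Subgroup.commutator_comm]
    refine three _ _ _ _ ?_ ?_
    · rw [Subgroup.commutator_comm ⊤, ← lc_succ i hi]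
      have := ih (i + 1) (by omega)
      rwa [show i + 1 + j = i + (j + 1) by omega] at this
    · rw [show i + (j + 1) = i + j + 1 by omega, lc_succ (i + j) (by omega)]
      exact Subgroup.commutator_mono (ih i hi) le_rfl

theorem mem_lcc {i j : ℕ} (hi : 1 ≤ i) (hj : 1 ≤ j) {g h : G} (hg : g ∈ lc G i) (hh : h ∈ lc G j) :
    g * h * g⁻¹ * h⁻¹ ∈ lc G (i + j) :=
  lcc j hj i hi (Subgroup.commutator_mem_commutator hg hh)

end Lc78

end Pool.Agent.PX
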