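import Pool.Agent.Lib.MP_2b9f9a_al.PX.Stmts

/-!
# M11: the graded Lie ring is soluble.
-/

set_option autoImplicit false

namespace Pool.Agent.PX

namespace Sol49

section
variable {P : Type} [Group P]

theorem lc_succ (w : ℕ) : lc P (w + 2) = ⁅lc P (w + 1), (⊤ : Subgroup P)⁆ := rfl

theorem lc_normal : ∀ w, (lc P w).Normal
  | 0 => by change (⊤ : Subgroup P).Normal; infer_instance
  | 1 => by change (⊤ : Subgroup P).Normal; infer_instance
  | w + 2 => by
    haveI := lc_normal (w + 1)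
    rw [lc_succ]; infer_instance

theorem three {A B C N : Subgroup P} [N.Normal] (h1 : ⁅⁅B, C⁆, A⁆ ≤ N) (h2 : ⁅⁅C, A⁆, B⁆ ≤ N) :
    ⁅⁅A, B⁆, C⁆ ≤ N := by
  have key : ∀ X : Subgroup P, X ≤ N ↔ X.map (QuotientGroup.mk' N) = ⊥ := by
    intro X
    rw [Subgroup.map_eq_bot_iff, QuotientGroup.ker_mk']
  rw [key, Subgroup.map_commutator, Subgroup.map_commutator] at h1 h2 ⊢
  exact Subgroup.commutator_commutator_eq_bot_of_rotate h1 h2

/-- `[lc i, lc j] ≤ lc (i + j)` -/
theorem lc_comm : ∀ j i : ℕ, ⁅lc P (i + 1), lc P (j + 1)⁆ ≤ lc P (i + j + 2) := by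
  intro j
  induction j with
  | zero => intro i; exact le_rfl
  | succ j ih =>
    intro i
    haveI := lc_normal (P := P) (i + (j + 1) + 2)
    rw [Subgroup.commutator_comm, lc_succ]
    refine three ?_ ?_
    · rw [Subgroup.commutator_comm ⊤]
      have := ih (i + 1)
      rw [show i + 1 + j + 2 = i + (j + 1) + 2 by ring] at this
      exact this
    · exact Subgroup.commutator_mono (ih i) le_rfl

theorem lc_map {Q : Type} [Group Q] (f : P →* Q) : ∀ w, (lc P w).map f ≤ lc Q w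
  | 0 => le_top
  | 1 => le_top
  | w + 2 => by
    rw [lc_succ, lc_succ, Subgroup.map_commutator]
    exact Subgroup.commutator_mono (lc_map f (w + 1)) le_top

theorem lc_act {Γ : Type} [Group Γ] [MulDistribMulAction Γ P] (w : ℕ) (γ : Γ) (g : P)
    (hg : g ∈ lc P w) : γ • g ∈ lc P w :=
  lc_map (MulDistribMulAction.toMonoidHom P γ) w ⟨g, hg, rfl⟩

theorem Dn_normal (p : ℕ) (n : ℕ) : (Dn p P n).Normal :=
  ⟨fun a ha g => by
    change io p (g * a * g⁻¹) - 1 ∈ Dl p P ^ n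
    have h1 : io p g * io p g⁻¹ = 1 := by rw [← map_mul, mul_inv_cancel, map_one]
    have h : io p (g * a * g⁻¹) - 1 = io p g * (io p a - 1) * io p g⁻¹ := by
      rw [map_mul, map_mul, mul_sub, sub_mul, mul_one, h1]
    rw [h]
    exact Ideal.mul_mem_right _ _ (Ideal.mul_mem_left _ _ ha)⟩

end

section
variable {p : ℕ} {Γ P : Type} [Group Γ] [Group P] [MulDistribMulAction Γ P]
  {L : Type} [LieRing L] {cls : ℕ → P → L} {act : Γ →* AddMonoid.End L}

theorem cls_one (hG : GrL p Γ P L cls act) (w : ℕ) (hw : 1 ≤ w) : cls w 1 = 0 := by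
  have := hG.mul w hw 1 (one_mem _) 1 (one_mem _)
  rw [mul_one] at this
  exact left_eq_add.1 this

theorem cls_inv (hG : GrL p Γ P L cls act) (w : ℕ) (hw : 1 ≤ w) (g : P) (hg : g ∈ lc P w) :
    cls w g⁻¹ = - cls w g := by
  have := hG.mul w hw g⁻¹ (inv_mem hg) g hg
  rw [inv_mul_cancel, cls_one hG w hw] at this
  exact eq_neg_of_add_eq_zero_left this.symm

theorem fixed (hG : GrL p Γ P L cls act) (γ : Γ) (n : ℕ) (f : ℕ → P) (hf : ∀ w, f w ∈ lc P w)
    (h : act γ (∑ w ∈ Finset.Icc 1 n, cls w (f w)) = ∑ w ∈ Finset.Icc 1 n, cls w (f w)) :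
    ∀ w ∈ Finset.Icc 1 n, (f w)⁻¹ * (γ • f w) ∈ Dn p P (w + 1) := by
  intro w hw
  have hmem : ∀ w, (f w)⁻¹ * (γ • f w) ∈ lc P w := fun w =>
    mul_mem (inv_mem (hf w)) (lc_act w γ _ (hf w))
  have h1 := hG.ind n (fun w => (f w)⁻¹ * (γ • f w)) hmem ?_ w hw
  · exact (hG.zero w (Finset.mem_Icc.1 hw).1 _ (hmem w)).1 h1
  · have : ∀ w ∈ Finset.Icc 1 n, cls w ((f w)⁻¹ * (γ • f w)) = - cls w (f w) + act γ (cls w (f w)) := by
      intro w hw
      have hw1 := (Finset.mem_Icc.1 hw).1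
      rw [hG.mul w hw1 _ (inv_mem (hf w)) _ (lc_act w γ _ (hf w)), cls_inv hG w hw1 _ (hf w),
        hG.act_cls γ w hw1 _ (hf w)]
    rw [Finset.sum_congr rfl this, Finset.sum_add_distrib, Finset.sum_neg_distrib, ← map_sum, h,
      neg_add_cancel]

end

end Sol49

open Sol49 in
theorem stSol_49 (hLR : StLR) (hF : StFpf) (hC : StCov) (hFun : StFun) : StSol := by
  intro h d
  obtain ⟨N, hN⟩ := hLR h d
  refine ⟨N, ?_⟩
  intro p _ Γ P _ _ _ _ _ F H hP hFr hH hfix L _ cls act hG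
  -- the group `lc P w`
  have hst : ∀ w, ∀ γ : Γ, ∀ g ∈ lc P w, γ • g ∈ lc P w := fun w γ g hg => lc_act w γ g hg
  have hDst : ∀ (γ : Γ) (n : ℕ), ∀ g ∈ Dn p P n, γ • g ∈ Dn p P n :=
    (hFun p Γ P).2.2.2.2.1
  have hFrw : ∀ w, @Fro Γ _ (lc P w) _ (subAct (lc P w) (hst w)) F H := by
    intro w
    letI := subAct (lc P w) (hst w)
    refine ⟨hFr.norm, hFr.fne, hFr.hne, hFr.free, fun y hy hy1 g hg => ?_⟩
    have := hFr.fpf y hy hy1 (g : P) (congrArg Subtype.val hg)
    exact Subtype.ext this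
  have hfpf : ∀ w, ∀ y ∈ F, y ≠ 1 → ∀ g ∈ lc P w, g⁻¹ * (y • g) ∈ Dn p P (w + 1) →
      g ∈ Dn p P (w + 1) := by
    intro w y hy hy1 g hg hgy
    letI := subAct (lc P w) (hst w)
    haveI := Dn_normal (P := P) p (w + 1)
    have := hF p Γ (lc P w) F H (hP.to_subgroup _) (hFrw w) ((Dn p P (w + 1)).subgroupOf (lc P w))
      (fun γ g hg => by
        rw [Subgroup.mem_subgroupOf] at hg ⊢
        exact hDst γ _ _ hg) y hy hy1 ⟨g, hg⟩ (by
        rw [Subgroup.mem_subgroupOf]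
        exact hgy)
    exact this
  have hcov : ∀ w, ∀ g ∈ lc P w, (∀ x ∈ H, g⁻¹ * (x • g) ∈ Dn p P (w + 1)) →
      ∃ n ∈ lc P w, n ∈ Dn p P (w + 1) ∧ ∀ x ∈ H, x • (g * n) = g * n := by
    intro w g hg hgx
    letI := subAct (lc P w) (hst w)
    haveI := Dn_normal (P := P) p (w + 1)
    obtain ⟨n, hn, hn'⟩ := hC p Γ (lc P w) F H (hP.to_subgroup _) (hFrw w)
      ((Dn p P (w + 1)).subgroupOf (lc P w))
      (fun γ g hg => by
        rw [Subgroup.mem_subgroupOf] at hg ⊢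
        exact hDst γ _ _ hg) ⟨g, hg⟩ (fun x hx => by
        rw [Subgroup.mem_subgroupOf]
        exact hgx x hx)
    exact ⟨n, n.2, hn, fun x hx => congrArg Subtype.val (hn' x hx)⟩
  refine hN L Γ act ⊤ F H hG.act_lie (fun _ _ _ _ => AddSubgroup.mem_top _)
    (fun _ _ _ => AddSubgroup.mem_top _) hFr.norm hFr.fne hFr.hne hFr.free ?_ hH ?_
  · -- fixed point free
    intro y hy hy1 v _ hv
    obtain ⟨n, f, hf, rfl⟩ := hG.span v
    have h1 := fixed hG y n f hf hv
    refine Finset.sum_eq_zero fun w hw => ?_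
    exact (hG.zero w (Finset.mem_Icc.1 hw).1 _ (hf w)).2 (hfpf w y hy hy1 _ (hf w) (h1 w hw))
  · -- fixed points of `H`
    intro C hCm
    let CP : Subgroup P :=
      { carrier := {g | ∀ x ∈ H, x • g = g}
        one_mem' := fun x _ => smul_one x
        mul_mem' := fun {a b} ha hb x hx => by rw [smul_mul', ha x hx, hb x hx]
        inv_mem' := fun {a} ha x hx => by rw [smul_inv', ha x hx] }
    have hCPd : dsg CP d = ⊥ := hfix CP fun g => Iff.rfl
    let DD : ℕ → AddSubgroup L := fun k =>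
      AddSubgroup.closure {z | ∃ w, 1 ≤ w ∧ ∃ c ∈ dsg CP k, c ∈ lc P w ∧ cls w c = z}
    have hD0 : C ≤ DD 0 := by
      intro v hv
      have hv' := ((hCm v).1 hv).2
      obtain ⟨n, f, hf, rfl⟩ := hG.span v
      have h1 : ∀ w ∈ Finset.Icc 1 n, ∀ x ∈ H, (f w)⁻¹ * (x • f w) ∈ Dn p P (w + 1) :=
        fun w hw x hx => fixed hG x n f hf (hv' x hx) w hw
      refine AddSubgroup.sum_mem _ fun w hw => ?_
      have hw1 := (Finset.mem_Icc.1 hw).1
      obtain ⟨m, hm, hmD, hmx⟩ := hcov w (f w) (hf w) (h1 w hw)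
      refine AddSubgroup.subset_closure ⟨w, hw1, f w * m, hmx, mul_mem (hf w) hm, ?_⟩
      rw [hG.mul w hw1 _ (hf w) _ hm, (hG.zero w hw1 m hm).2 hmD, add_zero]
    have hDk : ∀ k, dsr C k ≤ DD k := by
      intro k
      induction k with
      | zero => exact hD0
      | succ k ih =>
        refine (AddSubgroup.closure_le _).2 ?_
        rintro _ ⟨u, hu, v, hv, rfl⟩
        have hu := ih hu
        have hv := ih hv
        refine AddSubgroup.closure_induction (p := fun u _ => ⁅u, v⁆ ∈ DD (k + 1)) ?_ ?_ ?_ ?_ hu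
        · rintro _ ⟨i, hi, a, ha, hai, rfl⟩
          refine AddSubgroup.closure_induction
            (p := fun v _ => ⁅cls i a, v⁆ ∈ DD (k + 1)) ?_ ?_ ?_ ?_ hv
          · rintro _ ⟨j, hj, b, hb, hbj, rfl⟩
            rw [hG.brk i j hi hj a hai b hbj]
            refine AddSubgroup.subset_closure ⟨i + j, by omega, a * b * a⁻¹ * b⁻¹, ?_, ?_, rfl⟩
            · exact Subgroup.commutator_mem_commutator ha hb
            · obtain ⟨i', rfl⟩ : ∃ i', i = i' + 1 := ⟨i - 1, by omega⟩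
              obtain ⟨j', rfl⟩ : ∃ j', j = j' + 1 := ⟨j - 1, by omega⟩
              have := lc_comm (P := P) j' i' (Subgroup.commutator_mem_commutator hai hbj)
              rw [show i' + 1 + (j' + 1) = i' + j' + 2 by ring]
              exact this
          · rw [lie_zero]; exact zero_mem _
          · intro x y _ _ hx hy; rw [lie_add]; exact add_mem hx hy
          · intro x _ hx; rw [lie_neg]; exact neg_mem hx
        · rw [zero_lie]; exact zero_mem _
        · intro x y _ _ hx hy; rw [add_lie]; exact add_mem hx hy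
        · intro x _ hx; rw [neg_lie]; exact neg_mem hx
    rw [eq_bot_iff]
    refine (hDk d).trans ((AddSubgroup.closure_le _).2 ?_)
    rintro _ ⟨w, hw, c, hc, _, rfl⟩
    rw [hCPd, Subgroup.mem_bot] at hc
    rw [hc, cls_one hG w hw]
    exact zero_mem _

end Pool.Agent.PX
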