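import Pool.Agent.Lib.MP_2b9f9a_al.PX.GA_96

/-!
PX (MP_2b9f9a), module 10: the graded Lie ring of a finite group.
-/

set_option autoImplicit false

namespace Pool.Agent.PX

open Finset

namespace Gr96

open GA96

/-! ### The lower central series -/

theorem lc_succ (P : Type) [Group P] (w : ℕ) (hw : 1 ≤ w) :
    lc P (w + 1) = ⁅lc P w, (⊤ : Subgroup P)⁆ := by
  obtain ⟨m, rfl⟩ : ∃ m, w = m + 1 := ⟨w - 1, by omega⟩
  rfl

theorem lc_normal (P : Type) [Group P] (w : ℕ) : (lc P w).Normal := by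
  induction w with
  | zero =>
    change (⊤ : Subgroup P).Normal
    infer_instance
  | succ w ih =>
    rcases Nat.eq_zero_or_pos w with h | h
    · subst h
      change (⊤ : Subgroup P).Normal
      infer_instance
    · rw [lc_succ P w h]
      infer_instance

/-- the three subgroups lemma modulo a normal subgroup -/
theorem three {P : Type} [Group P] (H₁ H₂ H₃ N : Subgroup P) [N.Normal]
    (h1 : ⁅⁅H₂, H₃⁆, H₁⁆ ≤ N) (h2 : ⁅⁅H₃, H₁⁆, H₂⁆ ≤ N) : ⁅⁅H₁, H₂⁆, H₃⁆ ≤ N := by
  have key : ∀ A B C : Subgroup P, ⁅⁅A, B⁆, C⁆ ≤ N ↔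
      ⁅⁅A.map (QuotientGroup.mk' N), B.map (QuotientGroup.mk' N)⁆,
        C.map (QuotientGroup.mk' N)⁆ = ⊥ := by
    intro A B C
    rw [← Subgroup.map_commutator, ← Subgroup.map_commutator, Subgroup.map_eq_bot_iff,
      QuotientGroup.ker_mk']
  rw [key] at h1 h2 ⊢
  exact Subgroup.commutator_commutator_eq_bot_of_rotate h1 h2

theorem lc_comm (P : Type) [Group P] (j : ℕ) (hj : 1 ≤ j) :
    ∀ i, 1 ≤ i → ⁅lc P i, lc P j⁆ ≤ lc P (i + j) := by
  induction j, hj using Nat.le_induction with
  | base =>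
    intro i hi
    rw [lc_succ P i hi]
    exact le_rfl
  | succ j hj ih =>
    intro i hi
    rw [lc_succ P j hj, Subgroup.commutator_comm]
    have := lc_normal P (i + (j + 1))
    apply three
    · -- ⁅⁅⊤, lc i⁆, lc j⁆
      rw [Subgroup.commutator_comm ⊤, ← lc_succ P i hi]
      refine (ih (i + 1) (by omega)).trans (le_of_eq ?_)
      congr 1
      omega
    · rw [show i + (j + 1) = (i + j) + 1 by omega, lc_succ P (i + j) (by omega)]
      exact Subgroup.commutator_mono (ih i hi) le_rfl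

theorem lc_act {Γ P : Type} [Group Γ] [Group P] [MulDistribMulAction Γ P] (γ : Γ) (w : ℕ) :
    ∀ g ∈ lc P w, γ • g ∈ lc P w := by
  have key : (lc P w).map (MulDistribMulAction.toMonoidHom P γ) ≤ lc P w := by
    induction w with
    | zero => exact le_top
    | succ w ih =>
      rcases Nat.eq_zero_or_pos w with h | h
      · subst h
        exact le_top
      · rw [lc_succ P w h, Subgroup.map_commutator]
        exact Subgroup.commutator_mono ih le_top
  intro g hg
  exact key ⟨g, hg, rfl⟩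

/-! ### The components -/

variable {p : ℕ} {P : Type} [Group P]

/-- the elements that agree with `g - 1` modulo `Dl ^ (w + 1)`, for some `g ∈ lc P w` -/
def T (p : ℕ) (P : Type) [Group P] (w : ℕ) (hw : 1 ≤ w) : AddSubgroup (GA p P) where
  carrier := {u | ∃ g ∈ lc P w, u - (io p g - 1) ∈ Dl p P ^ (w + 1)}
  zero_mem' := ⟨1, Subgroup.one_mem _, by simp⟩
  add_mem' := by
    rintro u v ⟨g, hg, hu⟩ ⟨h, hh, hv⟩
    refine ⟨g * h, Subgroup.mul_mem _ hg hh, ?_⟩
    have e : (u + v) - (io p (g * h) - 1) =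
        (u - (io p g - 1)) + (v - (io p h - 1)) - (io p g - 1) * (io p h - 1) := by
      rw [map_mul]
      noncomm_ring
    rw [e]
    refine Submodule.sub_mem _ (Submodule.add_mem _ hu hv) ?_
    exact mul_mem_pow (Dl p P) (by omega) (lc_le w hw hg) (lc_le w hw hh)
  neg_mem' := by
    rintro u ⟨g, hg, hu⟩
    refine ⟨g⁻¹, Subgroup.inv_mem _ hg, ?_⟩
    have h1 : io p g * io p g⁻¹ = 1 := by
      rw [← map_mul, mul_inv_cancel, map_one]
    have e : -u - (io p g⁻¹ - 1) = -(u - (io p g - 1)) + (io p g - 1) * (io p g⁻¹ - 1) := by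
      rw [sub_mul, mul_sub, mul_one, one_mul, h1]
      abel
    rw [e]
    refine Submodule.add_mem _ (Submodule.neg_mem _ hu) ?_
    exact mul_mem_pow (Dl p P) (by omega) (lc_le w hw hg)
      (lc_le w hw (Subgroup.inv_mem _ hg))

theorem mem_T {w : ℕ} {hw : 1 ≤ w} {u : GA p P} :
    u ∈ T p P w hw ↔ ∃ g ∈ lc P w, u - (io p g - 1) ∈ Dl p P ^ (w + 1) := Iff.rfl

theorem T_le {w : ℕ} {hw : 1 ≤ w} {u : GA p P} (hu : u ∈ T p P w hw) : u ∈ Dl p P ^ w := by
  obtain ⟨g, hg, h⟩ := hu
  have e : u = (u - (io p g - 1)) + (io p g - 1) := by abel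
  rw [e]
  exact Submodule.add_mem _ (pow_mono _ (Nat.le_succ w) h) (lc_le w hw hg)

theorem Dl_le_T {w : ℕ} {hw : 1 ≤ w} {u : GA p P} (hu : u ∈ Dl p P ^ (w + 1)) :
    u ∈ T p P w hw := ⟨1, Subgroup.one_mem _, by simpa using hu⟩

theorem io_mem_T {w : ℕ} {hw : 1 ≤ w} {g : P} (hg : g ∈ lc P w) : io p g - 1 ∈ T p P w hw :=
  ⟨g, hg, by simp⟩

theorem T_brk {i j : ℕ} {hi : 1 ≤ i} {hj : 1 ≤ j} {u v : GA p P} (hu : u ∈ T p P i hi)
    (hv : v ∈ T p P j hj) : u * v - v * u ∈ T p P (i + j) (by omega) := by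
  obtain ⟨g, hg, ha⟩ := hu
  obtain ⟨h, hh, hb⟩ := hv
  refine ⟨g * h * g⁻¹ * h⁻¹, ?_, ?_⟩
  · have := Subgroup.commutator_mem_commutator hg hh
    rw [commutatorElement_def] at this
    exact lc_comm P j hj i hi this
  · have hg' : io p g - 1 ∈ Dl p P ^ i := lc_le i hi hg
    have hh' : io p h - 1 ∈ Dl p P ^ j := lc_le j hj hh
    set x := io p g - 1 with hx
    set y := io p h - 1 with hy
    have hd := comm_diff hg' hh'
    have e : u * v - v * u - (io p (g * h * g⁻¹ * h⁻¹) - 1) =
        (x * (v - y) - (v - y) * x) + ((u - x) * v - v * (u - x)) -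
        ((io p (g * h * g⁻¹ * h⁻¹) - 1) - (x * y - y * x)) := by
      noncomm_ring
    rw [e]
    have hv' : v ∈ Dl p P ^ j := T_le (hw := hj) ⟨h, hh, hb⟩
    refine Submodule.sub_mem _ (Submodule.add_mem _ (Submodule.sub_mem _ ?_ ?_)
      (Submodule.sub_mem _ ?_ ?_)) hd
    · exact mul_mem_pow _ (by omega) hg' hb
    · exact mul_mem_pow _ (by omega) hb hg'
    · exact mul_mem_pow _ (by omega) ha hv'
    · exact mul_mem_pow _ (by omega) hv' ha

/-! ### The Lie ring -/

attribute [local instance 100] LieRing.ofAssociativeRing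

open Polynomial in
/-- the polynomials with coefficients in the components -/
def inS (f : (GA p P)[X]) : Prop := f.coeff 0 = 0 ∧ ∀ w (hw : 1 ≤ w), f.coeff w ∈ T p P w hw

open Polynomial in
/-- the null polynomials -/
def inI (f : (GA p P)[X]) : Prop := f.coeff 0 = 0 ∧ ∀ w, 1 ≤ w → f.coeff w ∈ Dl p P ^ (w + 1)

open Polynomial in
theorem coeff_brk (f g : (GA p P)[X]) (n : ℕ) : (f * g - g * f).coeff n =
    ∑ x ∈ antidiagonal n, (f.coeff x.1 * g.coeff x.2 - g.coeff x.2 * f.coeff x.1) := by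
  rw [coeff_sub, coeff_mul, coeff_mul, Finset.sum_sub_distrib]
  congr 1
  exact (Finset.Nat.sum_antidiagonal_swap (n := n)
    (f := fun x => g.coeff x.1 * f.coeff x.2)).symm

open Polynomial in
theorem inS_brk {f g : (GA p P)[X]} (hf : inS f) (hg : inS g) : inS (f * g - g * f) := by
  have key : ∀ n (hn : 1 ≤ n), (f * g - g * f).coeff n ∈ T p P n hn := by
    intro n hn
    rw [coeff_brk]
    refine AddSubgroup.sum_mem _ fun x hx => ?_
    rw [Finset.HasAntidiagonal.mem_antidiagonal] at hx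
    rcases Nat.eq_zero_or_pos x.1 with h1 | h1
    · rw [h1, hf.1, zero_mul, mul_zero, sub_zero]
      exact AddSubgroup.zero_mem _
    · rcases Nat.eq_zero_or_pos x.2 with h2 | h2
      · rw [h2, hg.1, zero_mul, mul_zero, sub_zero]
        exact AddSubgroup.zero_mem _
      · have := T_brk (hf.2 x.1 h1) (hg.2 x.2 h2)
        simp only [hx] at this
        exact this
  refine ⟨?_, key⟩
  rw [coeff_brk, Finset.Nat.antidiagonal_zero, Finset.sum_singleton, hf.1, hg.1]
  simp

open Polynomial in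
theorem inI_brk {f g : (GA p P)[X]} (hf : inS f) (hg : inI g) : inI (f * g - g * f) := by
  refine ⟨?_, fun n hn => ?_⟩
  · rw [coeff_brk, Finset.Nat.antidiagonal_zero, Finset.sum_singleton, hf.1, hg.1]
    simp
  · rw [coeff_brk]
    refine Submodule.sum_mem _ fun x hx => ?_
    rw [Finset.HasAntidiagonal.mem_antidiagonal] at hx
    rcases Nat.eq_zero_or_pos x.1 with h1 | h1
    · rw [h1, hf.1, zero_mul, mul_zero, sub_zero]
      exact Submodule.zero_mem _
    · rcases Nat.eq_zero_or_pos x.2 with h2 | h2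
      · rw [h2, hg.1, zero_mul, mul_zero, sub_zero]
        exact Submodule.zero_mem _
      · have a := T_le (hf.2 x.1 h1)
        have b := hg.2 x.2 h2
        exact Submodule.sub_mem _ (mul_mem_pow _ (by omega) a b) (mul_mem_pow _ (by omega) b a)

open Polynomial in
/-- the Lie ring of polynomials -/
def S0 (p : ℕ) (P : Type) [Group P] : LieSubalgebra ℤ (GA p P)[X] where
  carrier := {f | inS f}
  zero_mem' := ⟨by simp, fun w hw => by simp⟩
  add_mem' := fun {f g} hf hg => ⟨by rw [coeff_add, hf.1, hg.1, add_zero],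
    fun w hw => by rw [coeff_add]; exact AddSubgroup.add_mem _ (hf.2 w hw) (hg.2 w hw)⟩
  smul_mem' := fun c f hf => ⟨by rw [coeff_smul, hf.1, smul_zero],
    fun w hw => by rw [coeff_smul]; exact AddSubgroup.zsmul_mem _ (hf.2 w hw) c⟩
  lie_mem' := fun {f g} hf hg => inS_brk hf hg

theorem mem_S0 {f : Polynomial (GA p P)} : f ∈ S0 p P ↔ inS f := Iff.rfl

/-- the ideal of the null polynomials -/
def I0 (p : ℕ) (P : Type) [Group P] : LieIdeal ℤ (S0 p P) where
  carrier := {f | inI (f : Polynomial (GA p P))}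
  zero_mem' := ⟨by simp, fun w hw => by simp⟩
  add_mem' := fun {f g} hf hg => ⟨by
      change (((f : Polynomial (GA p P)) + (g : Polynomial (GA p P))).coeff 0 = 0)
      rw [Polynomial.coeff_add, hf.1, hg.1, add_zero],
    fun w hw => by
      change (((f : Polynomial (GA p P)) + (g : Polynomial (GA p P))).coeff w ∈ _)
      rw [Polynomial.coeff_add]
      exact Submodule.add_mem _ (hf.2 w hw) (hg.2 w hw)⟩
  smul_mem' := fun c f hf => ⟨by
      change ((c • (f : Polynomial (GA p P))).coeff 0 = 0)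
      rw [Polynomial.coeff_smul, hf.1, smul_zero],
    fun w hw => by
      change ((c • (f : Polynomial (GA p P))).coeff w ∈ _)
      rw [Polynomial.coeff_smul]
      exact Submodule.smul_of_tower_mem _ c (hf.2 w hw)⟩
  lie_mem := fun {f g} hg => inI_brk (mem_S0.1 f.2) hg

theorem mem_I0 {f : S0 p P} : f ∈ I0 p P ↔ inI (f : Polynomial (GA p P)) := Iff.rfl

/-- the graded Lie ring -/
abbrev GrR (p : ℕ) (P : Type) [Group P] : Type := (S0 p P) ⧸ (I0 p P)

/-- the class of a polynomial -/
noncomputable abbrev qk (f : S0 p P) : GrR p P := LieSubmodule.Quotient.mk f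

theorem mk_eq_zero {f : S0 p P} : qk f = 0 ↔ inI (f : Polynomial (GA p P)) :=
  LieSubmodule.Quotient.mk_eq_zero'

theorem mk_eq {f g : S0 p P} :
    qk f = qk g ↔ inI ((f : Polynomial (GA p P)) - (g : Polynomial (GA p P))) := by
  have h : qk f = qk g ↔ f - g ∈ (I0 p P).toSubmodule := Submodule.Quotient.eq _
  rw [h]
  rfl

theorem mono_mem {w : ℕ} (hw : 1 ≤ w) {u : GA p P} (hu : u ∈ T p P w hw) :
    Polynomial.monomial w u ∈ S0 p P := by
  refine ⟨?_, fun n hn => ?_⟩
  · rw [Polynomial.coeff_monomial, if_neg (by omega)]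
  · rw [Polynomial.coeff_monomial]
    split_ifs with h
    · subst h
      exact hu
    · exact AddSubgroup.zero_mem _

theorem inI_mono {w : ℕ} (hw : 1 ≤ w) {u : GA p P} :
    inI (Polynomial.monomial w u) ↔ u ∈ Dl p P ^ (w + 1) := by
  constructor
  · intro h
    have := h.2 w hw
    rwa [Polynomial.coeff_monomial, if_pos rfl] at this
  · intro h
    refine ⟨?_, fun n hn => ?_⟩
    · rw [Polynomial.coeff_monomial, if_neg (by omega)]
    · rw [Polynomial.coeff_monomial]
      split_ifs with h'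
      · subst h'
        exact h
      · exact Submodule.zero_mem _

open Classical in
/-- the classes of the group elements -/
noncomputable def cls (p : ℕ) (P : Type) [Group P] (w : ℕ) (g : P) : GrR p P :=
  if h : 1 ≤ w ∧ g ∈ lc P w then
    qk ⟨Polynomial.monomial w (io p g - 1), mono_mem h.1 (io_mem_T h.2)⟩
  else 0

theorem cls_eq {w : ℕ} (hw : 1 ≤ w) {g : P} (hg : g ∈ lc P w) :
    cls p P w g = qk ⟨Polynomial.monomial w (io p g - 1), mono_mem hw (io_mem_T hg)⟩ := by
  unfold cls
  rw [dif_pos ⟨hw, hg⟩]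

/-! ### The action -/

section act

variable {Γ : Type} [Group Γ] [MulDistribMulAction Γ P]

/-- the action on polynomials -/
noncomputable def pm (p : ℕ) (γ : Γ) : Polynomial (GA p P) →+* Polynomial (GA p P) :=
  Polynomial.mapRingHom (gact p γ : GA p P →ₐ[ZMod p] GA p P).toRingHom

theorem coeff_pm (γ : Γ) (f : Polynomial (GA p P)) (n : ℕ) :
    (pm p γ f).coeff n = gact p γ (f.coeff n) := by
  unfold pm
  rw [Polynomial.coe_mapRingHom, Polynomial.coeff_map]
  rfl

theorem pm_inS (γ : Γ) {f : Polynomial (GA p P)} (hf : inS f) : inS (pm p γ f) := by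
  refine ⟨?_, fun w hw => ?_⟩
  · rw [coeff_pm, hf.1, map_zero]
  · rw [coeff_pm]
    obtain ⟨g, hg, h⟩ := hf.2 w hw
    refine ⟨γ • g, lc_act γ w g hg, ?_⟩
    have := gact_pow γ (w + 1) _ h
    rwa [map_sub, map_sub, map_one, gact_io] at this

theorem pm_inI (γ : Γ) {f : Polynomial (GA p P)} (hf : inI f) : inI (pm p γ f) := by
  refine ⟨?_, fun w hw => ?_⟩
  · rw [coeff_pm, hf.1, map_zero]
  · rw [coeff_pm]
    exact gact_pow γ (w + 1) _ (hf.2 w hw)

/-- the action on `S0` -/
noncomputable def sm (p : ℕ) (γ : Γ) : S0 p P →ₗ[ℤ] S0 p P where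
  toFun f := ⟨pm p γ f, pm_inS γ (mem_S0.1 f.2)⟩
  map_add' f g := by
    apply Subtype.ext
    exact map_add (pm p γ) _ _
  map_smul' c f := by
    apply Subtype.ext
    exact map_zsmul (pm p γ) c _

/-- the action on the graded Lie ring -/
noncomputable def qm (p : ℕ) (γ : Γ) : GrR p P →ₗ[ℤ] GrR p P :=
  Submodule.mapQ (I0 p P).toSubmodule (I0 p P).toSubmodule (sm p γ) fun _ hf => pm_inI γ hf

theorem qm_mk (γ : Γ) (f : S0 p P) : qm p γ (qk f) = qk (sm p γ f) := rfl

theorem pm_one (f : Polynomial (GA p P)) : pm p (1 : Γ) f = f := by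
  ext n
  rw [coeff_pm, gact_one]

theorem pm_mul (γ δ : Γ) (f : Polynomial (GA p P)) : pm p (γ * δ) f = pm p γ (pm p δ f) := by
  ext n
  rw [coeff_pm, coeff_pm, coeff_pm, gact_mul]

theorem mk_surj (x : GrR p P) : ∃ f : S0 p P, qk f = x := by
  obtain ⟨f, hf⟩ := Submodule.Quotient.mk_surjective (I0 p P).toSubmodule x
  exact ⟨f, hf⟩

/-- the action as a homomorphism -/
noncomputable def actm (p : ℕ) (Γ P : Type) [Group Γ] [Group P] [MulDistribMulAction Γ P] :
    Γ →* AddMonoid.End (GrR p P) where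
  toFun γ := (qm p γ).toAddMonoidHom
  map_one' := by
    apply AddMonoidHom.ext
    intro x
    obtain ⟨f, rfl⟩ := mk_surj x
    change qm p (1 : Γ) (qk f) = qk f
    rw [qm_mk]
    congr 1
    apply Subtype.ext
    exact pm_one _
  map_mul' γ δ := by
    apply AddMonoidHom.ext
    intro x
    obtain ⟨f, rfl⟩ := mk_surj x
    change qm p (γ * δ) (qk f) = qm p γ (qm p δ (qk f))
    rw [qm_mk, qm_mk, qm_mk]
    congr 1
    apply Subtype.ext
    exact pm_mul γ δ _

theorem actm_mk (γ : Γ) (f : S0 p P) : actm p Γ P γ (qk f) = qk (sm p γ f) := rfl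

end act

end Gr96

open Gr96 GA96

attribute [local instance 100] LieRing.ofAssociativeRing

theorem stGr_96 : StGr := by
  intro p _ Γ P _ _ _ _
  refine ⟨GrR p P, inferInstance, cls p P, actm p Γ P, ?_⟩
  constructor
  · -- mul
    intro w hw g hg h hh
    rw [cls_eq hw (Subgroup.mul_mem _ hg hh), cls_eq hw hg, cls_eq hw hh]
    rw [show (qk ⟨Polynomial.monomial w (io p g - 1), mono_mem hw (io_mem_T hg)⟩ : GrR p P) +
      qk ⟨Polynomial.monomial w (io p h - 1), mono_mem hw (io_mem_T hh)⟩ =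
      qk (⟨Polynomial.monomial w (io p g - 1), mono_mem hw (io_mem_T hg)⟩ +
        ⟨Polynomial.monomial w (io p h - 1), mono_mem hw (io_mem_T hh)⟩) from rfl, mk_eq]
    change inI (Polynomial.monomial w (io p (g * h) - 1) -
      (Polynomial.monomial w (io p g - 1) + Polynomial.monomial w (io p h - 1)))
    rw [← map_add, ← map_sub, inI_mono hw]
    have e : io p (g * h) - 1 - (io p g - 1 + (io p h - 1)) = (io p g - 1) * (io p h - 1) := by
      rw [map_mul]
      noncomm_ring
    rw [e]
    exact mul_mem_pow _ (by omega) (lc_le w hw hg) (lc_le w hw hh)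
  · -- brk
    intro i j hi hj g hg h hh
    have hc : g * h * g⁻¹ * h⁻¹ ∈ lc P (i + j) := by
      have := Subgroup.commutator_mem_commutator hg hh
      rw [commutatorElement_def] at this
      exact lc_comm P j hj i hi this
    rw [cls_eq hi hg, cls_eq hj hh, cls_eq (by omega) hc]
    rw [show ⁅(qk ⟨Polynomial.monomial i (io p g - 1), mono_mem hi (io_mem_T hg)⟩ : GrR p P),
      qk ⟨Polynomial.monomial j (io p h - 1), mono_mem hj (io_mem_T hh)⟩⁆ =
      qk ⁅(⟨Polynomial.monomial i (io p g - 1), mono_mem hi (io_mem_T hg)⟩ : S0 p P),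
        ⟨Polynomial.monomial j (io p h - 1), mono_mem hj (io_mem_T hh)⟩⁆ from rfl, mk_eq]
    change inI ((Polynomial.monomial i (io p g - 1) * Polynomial.monomial j (io p h - 1) -
      Polynomial.monomial j (io p h - 1) * Polynomial.monomial i (io p g - 1)) -
      Polynomial.monomial (i + j) (io p (g * h * g⁻¹ * h⁻¹) - 1))
    rw [Polynomial.monomial_mul_monomial, Polynomial.monomial_mul_monomial, add_comm j i,
      ← map_sub, ← map_sub, inI_mono (by omega)]
    have hd := comm_diff (p := p) (lc_le i hi hg) (lc_le j hj hh)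
    have e : (io p g - 1) * (io p h - 1) - (io p h - 1) * (io p g - 1) -
        (io p (g * h * g⁻¹ * h⁻¹) - 1) =
        -((io p (g * h * g⁻¹ * h⁻¹) - 1) -
          ((io p g - 1) * (io p h - 1) - (io p h - 1) * (io p g - 1))) := by abel
    rw [e]
    exact Submodule.neg_mem _ hd
  · -- zero
    intro w hw g hg
    rw [cls_eq hw hg, mk_eq_zero]
    exact inI_mono hw
  · -- span
    intro v
    obtain ⟨f, rfl⟩ := mk_surj v
    have hf := mem_S0.1 f.2
    have hex : ∀ w : ℕ, ∃ g : P, g ∈ lc P w ∧ (1 ≤ w →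
        (f : Polynomial (GA p P)).coeff w - (io p g - 1) ∈ Dl p P ^ (w + 1)) := by
      intro w
      rcases Nat.eq_zero_or_pos w with h | h
      · exact ⟨1, Subgroup.one_mem _, fun h' => by omega⟩
      · obtain ⟨g, hg, h'⟩ := hf.2 w h
        exact ⟨g, hg, fun _ => h'⟩
    choose G hG1 hG2 using hex
    refine ⟨(f : Polynomial (GA p P)).natDegree, G, hG1, ?_⟩
    set n := (f : Polynomial (GA p P)).natDegree with hn
    have hsum : ∀ s : Finset ℕ, (∀ w ∈ s, 1 ≤ w) → ∃ F : S0 p P,
        (F : Polynomial (GA p P)) = ∑ w ∈ s, Polynomial.monomial w (io p (G w) - 1) ∧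
        qk F = ∑ w ∈ s, cls p P w (G w) := by
      intro s
      induction s using Finset.induction_on with
      | empty =>
        intro _
        exact ⟨0, by simp, by simp⟩
      | insert a s ha ih =>
        intro hs
        obtain ⟨F, hF1, hF2⟩ := ih fun w hw => hs w (Finset.mem_insert_of_mem hw)
        have ha1 := hs a (Finset.mem_insert_self _ _)
        refine ⟨⟨Polynomial.monomial a (io p (G a) - 1), mono_mem ha1 (io_mem_T (hG1 a))⟩ + F,
          ?_, ?_⟩
        · rw [Finset.sum_insert ha, ← hF1]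
          rfl
        · rw [Finset.sum_insert ha, ← hF2, cls_eq ha1 (hG1 a)]
          rfl
    obtain ⟨F, hF1, hF2⟩ := hsum (Icc 1 n) fun w hw => (Finset.mem_Icc.1 hw).1
    rw [← hF2, mk_eq, hF1]
    have hco : ∀ w, (∑ w ∈ Icc 1 n, Polynomial.monomial w (io p (G w) - 1)).coeff w =
        if w ∈ Icc 1 n then io p (G w) - 1 else 0 := by
      intro w
      rw [Polynomial.finsetSum_coeff]
      simp only [Polynomial.coeff_monomial]
      rw [Finset.sum_ite_eq']
    refine ⟨?_, fun w hw => ?_⟩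
    · rw [Polynomial.coeff_sub, hco, if_neg (by simp), hf.1, sub_zero]
    · rw [Polynomial.coeff_sub, hco]
      split_ifs with h
      · exact hG2 w hw
      · rw [Polynomial.coeff_eq_zero_of_natDegree_lt, sub_zero]
        · exact Submodule.zero_mem _
        · rw [Finset.mem_Icc] at h
          omega
  · -- ind
    intro n G hG h0
    have hsum : ∀ s : Finset ℕ, (∀ w ∈ s, 1 ≤ w) → ∃ F : S0 p P,
        (F : Polynomial (GA p P)) = ∑ w ∈ s, Polynomial.monomial w (io p (G w) - 1) ∧
        qk F = ∑ w ∈ s, cls p P w (G w) := by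
      intro s
      induction s using Finset.induction_on with
      | empty =>
        intro _
        exact ⟨0, by simp, by simp⟩
      | insert a s ha ih =>
        intro hs
        obtain ⟨F, hF1, hF2⟩ := ih fun w hw => hs w (Finset.mem_insert_of_mem hw)
        have ha1 := hs a (Finset.mem_insert_self _ _)
        refine ⟨⟨Polynomial.monomial a (io p (G a) - 1), mono_mem ha1 (io_mem_T (hG a))⟩ + F,
          ?_, ?_⟩
        · rw [Finset.sum_insert ha, ← hF1]
          rfl
        · rw [Finset.sum_insert ha, ← hF2, cls_eq ha1 (hG a)]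
          rfl
    obtain ⟨F, hF1, hF2⟩ := hsum (Icc 1 n) fun w hw => (Finset.mem_Icc.1 hw).1
    rw [← hF2, mk_eq_zero, hF1] at h0
    intro w hw
    have hw1 := (Finset.mem_Icc.1 hw).1
    rw [cls_eq hw1 (hG w), mk_eq_zero]
    refine (inI_mono hw1).2 ?_
    have h1 := h0.2 w hw1
    rw [Polynomial.finsetSum_coeff] at h1
    simp only [Polynomial.coeff_monomial] at h1
    rw [Finset.sum_ite_eq', if_pos hw] at h1
    exact h1
  · -- act_cls
    intro γ w hw g hg
    rw [cls_eq hw hg, cls_eq hw (lc_act γ w g hg), actm_mk]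
    congr 1
    apply Subtype.ext
    change pm p γ (Polynomial.monomial w (io p g - 1)) = Polynomial.monomial w (io p (γ • g) - 1)
    ext1 n
    rw [coeff_pm, Polynomial.coeff_monomial, Polynomial.coeff_monomial]
    split_ifs
    · rw [map_sub, map_one, gact_io]
    · rw [map_zero]
  · -- act_lie
    intro γ x y
    obtain ⟨f, rfl⟩ := mk_surj x
    obtain ⟨g, rfl⟩ := mk_surj y
    rw [show ⁅(qk f : GrR p P), qk g⁆ = qk ⁅f, g⁆ from rfl, actm_mk, actm_mk, actm_mk,
      show ⁅(qk (sm p γ f) : GrR p P), qk (sm p γ g)⁆ = qk ⁅sm p γ f, sm p γ g⁆ from rfl]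
    congr 1
    apply Subtype.ext
    change pm p γ ((f : Polynomial (GA p P)) * (g : Polynomial (GA p P)) -
        (g : Polynomial (GA p P)) * (f : Polynomial (GA p P))) =
      pm p γ (f : Polynomial (GA p P)) * pm p γ (g : Polynomial (GA p P)) -
        pm p γ (g : Polynomial (GA p P)) * pm p γ (f : Polynomial (GA p P))
    rw [map_sub, map_mul, map_mul]
  · -- char
    intro x
    obtain ⟨f, rfl⟩ := mk_surj x
    rw [show p • (qk f : GrR p P) = qk (p • f) from rfl, mk_eq_zero]
    have hz : ((p • f : S0 p P) : Polynomial (GA p P)) = 0 := by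
      change p • (f : Polynomial (GA p P)) = 0
      ext1 n
      rw [Polynomial.coeff_smul, Polynomial.coeff_zero, ← Nat.cast_smul_eq_nsmul (ZMod p),
        ZMod.natCast_self, zero_smul]
    rw [hz]
    exact ⟨by simp, fun w _ => by simp⟩

end Pool.Agent.PX
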