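import Pool.Agent.Lib.MP_2b9f9a_al.PX.Defs

/-!
# Statements of the modules of PX (MP_2b9f9a).  Proofs: `/team-store/PX78.md`.
-/

set_option autoImplicit false

namespace Pool.Agent.PX

open Finset

/-- M1. Elementary facts on the truncated exponential. -/
def StEx : Prop := ∀ (p : ℕ) [Fact p.Prime] (A : Type) [Ring A] [Algebra (ZMod p) A]
  (J : Ideal A) [J.IsTwoSided], J ^ p = ⊥ →
  (∀ u ∈ J, ∀ v ∈ J, u * v = v * u → ex p (u + v) = ex p u * ex p v) ∧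
  (∀ u ∈ J, ex p (-u) * ex p u = 1 ∧ ex p u * ex p (-u) = 1) ∧
  (∀ i, 1 ≤ i → ∀ u ∈ J ^ i, ex p u - 1 - u ∈ J ^ (i + 1)) ∧
  (∀ u ∈ J, ∀ i, 1 ≤ i → ex p u - 1 ∈ J ^ i → u ∈ J ^ i) ∧
  (∀ u ∈ J, ∀ v ∈ J, ex p u = ex p v → u = v) ∧
  (Finite A → ∀ s : A, s - 1 ∈ J → ∃ u ∈ J, ex p u = s)

/-- M1'. Ring homomorphisms commute with `ex` (no hypothesis on `a`). -/
def StExMap : Prop := ∀ (p : ℕ) [Fact p.Prime] (A B : Type) [Ring A] [Algebra (ZMod p) A]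
  [Ring B] [Algebra (ZMod p) B] (f : A →+* B) (a : A), f (ex p a) = ex p (f a)

/-- M2. Conjugation by `ex m` and the logarithmic derivative of `ex m` stay in a Lie ring. -/
def StDer : Prop := ∀ (p : ℕ) [Fact p.Prime] (A : Type) [Ring A] [Algebra (ZMod p) A]
  (J : Ideal A) [J.IsTwoSided], J ^ p = ⊥ →
  ∀ (M : AddSubgroup A), (∀ u ∈ M, u ∈ J) → (∀ u ∈ M, ∀ v ∈ M, u * v - v * u ∈ M) → ∀ m ∈ M,
    (∀ v ∈ M, ex p (-m) * v * ex p m ∈ M) ∧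
    (∀ E : A →+ A, (∀ a b, E (a * b) = E a * b + a * E b) → E m ∈ M →
      ex p (-m) * E (ex p m) ∈ M)

/-- M3. `exp(Lie<X>) = <exp X>` in a graded nilpotent algebra. -/
def StUniv : Prop := ∀ (p : ℕ) [Fact p.Prime] (A : Type) [Ring A] [Algebra (ZMod p) A] [Finite A]
  (J : Ideal A) [J.IsTwoSided], J ^ p = ⊥ →
  ∀ (E : A →+ A), (∀ a b, E (a * b) = E a * b + a * E b) → (∀ a, E a ∈ J) →
  (∀ u ∈ J, E u - u ∈ J ^ 2) →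
  ∀ X : Set A, (∀ x ∈ X, x ∈ J) → (∀ x ∈ X, E x = x) →
  ∀ B : Subgroup Aˣ, B = Subgroup.closure {s : Aˣ | ∃ x ∈ X, (s : A) = ex p x} →
    (∀ m ∈ lieM X, ∃ g ∈ B, (g : A) = ex p m) ∧ (∀ g ∈ B, ∃ m ∈ lieM X, (g : A) = ex p m)

/-- M4. The four consequences for two elements of any nilpotent algebra. -/
def StBCH : Prop := ∀ (p : ℕ) [Fact p.Prime] (A : Type) [Ring A] [Algebra (ZMod p) A]
  (J : Ideal A) [J.IsTwoSided], J ^ p = ⊥ →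
  ∀ u ∈ J, ∀ v ∈ J, ∀ s t : Aˣ, (s : A) = ex p u → (t : A) = ex p v →
    (∃ g ∈ Subgroup.closure {s, t}, (g : A) = ex p (u + v)) ∧
    (∃ g ∈ ⁅Subgroup.closure {s, t}, Subgroup.closure {s, t}⁆, (g : A) = ex p (u * v - v * u)) ∧
    (∀ M N : AddSubgroup A, u ∈ M → v ∈ M → (∀ x ∈ M, ∀ y ∈ M, x * y - y * x ∈ N) → N ≤ M →
      (∃ w ∈ N, ex p u * ex p v = ex p (u + v + w)) ∧
      (∃ w ∈ N, ((s * t * s⁻¹ * t⁻¹ : Aˣ) : A) = ex p w))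

/-- M5. The Lie ring of a finite group `S` inside `1 + J`. -/
def StLog : Prop := ∀ (p : ℕ) [Fact p.Prime] (A : Type) [Ring A] [Algebra (ZMod p) A] [Finite A]
  (J : Ideal A) [J.IsTwoSided], J ^ p = ⊥ →
  ∀ (S : Subgroup Aˣ), (∀ s ∈ S, (s : A) - 1 ∈ J) →
  ∃ K : AddSubgroup A, (K : Set A) = lg p J S ∧ (∀ u ∈ K, ∀ v ∈ K, u * v - v * u ∈ K) ∧
    (∀ k, ∀ u ∈ dsa K k, u ∈ lg p J (dsg S k)) ∧
    (∀ k, ∀ s ∈ dsg S k, ∃ u ∈ dsa K k, (s : A) = ex p u)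

/-- M6a. `F` is fixed point free on quotients. -/
def StFpf : Prop := ∀ (p : ℕ) [Fact p.Prime] (Γ P : Type) [Group Γ] [Finite Γ] [Group P]
  [Finite P] [MulDistribMulAction Γ P] (F H : Subgroup Γ), IsPGroup p P → Fro P F H →
  ∀ (N : Subgroup P) [N.Normal], (∀ γ : Γ, ∀ g ∈ N, γ • g ∈ N) →
  ∀ y ∈ F, y ≠ 1 → ∀ g : P, g⁻¹ * (y • g) ∈ N → g ∈ N

/-- M6b. Fixed points of `H` in a quotient are covered by fixed points of `H`. -/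
def StCov : Prop := ∀ (p : ℕ) [Fact p.Prime] (Γ P : Type) [Group Γ] [Finite Γ] [Group P]
  [Finite P] [MulDistribMulAction Γ P] (F H : Subgroup Γ), IsPGroup p P → Fro P F H →
  ∀ (N : Subgroup P) [N.Normal], (∀ γ : Γ, ∀ g ∈ N, γ • g ∈ N) →
  ∀ g : P, (∀ x ∈ H, g⁻¹ * (x • g) ∈ N) → ∃ n ∈ N, ∀ x ∈ H, x • (g * n) = g * n

/-- M7. The landed Lie ring theorem in the form used here. -/
def StLR : Prop := ∀ h d : ℕ, ∃ N : ℕ, ∀ (W Γ : Type) [LieRing W] [Group Γ]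
  (act : Γ →* AddMonoid.End W) (K : AddSubgroup W) (F H : Subgroup Γ) [Finite F],
  (∀ (g : Γ) (x y : W), act g ⁅x, y⁆ = ⁅act g x, act g y⁆) →
  (∀ u ∈ K, ∀ v ∈ K, ⁅u, v⁆ ∈ K) → (∀ g : Γ, ∀ u ∈ K, act g u ∈ K) →
  (∀ x ∈ H, ∀ y ∈ F, x * y * x⁻¹ ∈ F) → F ≠ ⊥ → H ≠ ⊥ →
  (∀ x ∈ H, x ≠ 1 → ∀ y ∈ F, x * y = y * x → y = 1) →
  (∀ y ∈ F, y ≠ 1 → ∀ v ∈ K, act y v = v → v = 0) →
  Nat.card H = h →
  (∀ C : AddSubgroup W, (∀ v, v ∈ C ↔ v ∈ K ∧ ∀ x ∈ H, act x v = v) → dsr C d = ⊥) →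
  dsr K N = ⊥

/-- M9. Facts on the group algebra. -/
def StGA : Prop := ∀ (p : ℕ) [Fact p.Prime] (P : Type) [Group P] [Finite P],
  (∀ g : P, io p g - 1 ∈ Dl p P) ∧
  (∀ u : GA p P, ∃ c : ZMod p, u - algebraMap (ZMod p) (GA p P) c ∈ Dl p P) ∧
  (∀ u ∈ Dl p P, ∃ g : P, u - (io p g - 1) ∈ Dl p P ^ 2) ∧
  (∀ n, (Dn p P n).Normal) ∧
  (∀ i j, 1 ≤ i → 1 ≤ j → ⁅Dn p P i, Dn p P j⁆ ≤ Dn p P (i + j)) ∧
  (∀ i j, 1 ≤ i → 1 ≤ j → ∀ g ∈ Dn p P i, ∀ h ∈ Dn p P j,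
    (io p (g * h * g⁻¹ * h⁻¹) - 1) - ((io p g - 1) * (io p h - 1) - (io p h - 1) * (io p g - 1))
      ∈ Dl p P ^ (i + j + 1)) ∧
  (∀ w, 1 ≤ w → lc P w ≤ Dn p P w) ∧
  (∀ g : P, g ^ p = 1 → (io p g - 1) ^ p = 0)

/-- M9'. The augmentation ideal of a finite `p`-group is nilpotent. -/
def StNil : Prop := ∀ (p : ℕ) [Fact p.Prime] (P : Type) [Group P] [Finite P], IsPGroup p P →
  ∃ M : ℕ, Dl p P ^ M = ⊥

/-- M9''. Functoriality: automorphisms and subgroups. -/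
def StFun : Prop := ∀ (p : ℕ) [Fact p.Prime] (Γ P : Type) [Group Γ] [Group P] [Finite P]
  [MulDistribMulAction Γ P],
  (∀ (γ : Γ) (g : P), gact p γ (io p g) = io p (γ • g)) ∧
  (∀ (γ δ : Γ) (u : GA p P), gact p (γ * δ) u = gact p γ (gact p δ u)) ∧
  (∀ (u : GA p P), gact p (1 : Γ) u = u) ∧
  (∀ (γ : Γ) (n : ℕ), ∀ u ∈ Dl p P ^ n, gact p γ u ∈ Dl p P ^ n) ∧
  (∀ (γ : Γ) (n : ℕ), ∀ g ∈ Dn p P n, γ • g ∈ Dn p P n) ∧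
  (∀ (Q : Subgroup P) (n m : ℕ), Q ≤ Dn p P n → ∀ q : Q, q ∈ Dn p Q m → (q : P) ∈ Dn p P (n * m))

/-- M8. First use of the Lie ring theorem. -/
def StLaz : Prop := ∀ h d : ℕ, ∃ N : ℕ, ∀ (p : ℕ) [Fact p.Prime] (Γ P : Type) [Group Γ]
  [Finite Γ] [Group P] [Finite P] [MulDistribMulAction Γ P] (F H : Subgroup Γ),
  IsPGroup p P → Fro P F H → Nat.card H = h →
  (∀ C : Subgroup P, (∀ g, g ∈ C ↔ ∀ x ∈ H, x • g = g) → dsg C d = ⊥) →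
  dsg (⊤ : Subgroup P) N ≤ Dn p P p

/-- M8'. Iteration. -/
def StIter : Prop := ∀ h d : ℕ, ∃ N : ℕ, ∀ (p : ℕ) [Fact p.Prime] (Γ P : Type) [Group Γ]
  [Finite Γ] [Group P] [Finite P] [MulDistribMulAction Γ P] (F H : Subgroup Γ),
  IsPGroup p P → Fro P F H → Nat.card H = h →
  (∀ C : Subgroup P, (∀ g, g ∈ C ↔ ∀ x ∈ H, x • g = g) → dsg C d = ⊥) →
  ∀ j : ℕ, dsg (⊤ : Subgroup P) (j * N) ≤ Dn p P (p ^ j)

/-- The properties of the graded Lie ring of a `p`-group with action. -/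
structure GrL (p : ℕ) (Γ P : Type) [Group Γ] [Group P] [MulDistribMulAction Γ P]
    (L : Type) [LieRing L] (cls : ℕ → P → L) (act : Γ →* AddMonoid.End L) : Prop where
  mul : ∀ w, 1 ≤ w → ∀ g ∈ lc P w, ∀ h ∈ lc P w, cls w (g * h) = cls w g + cls w h
  brk : ∀ i j, 1 ≤ i → 1 ≤ j → ∀ g ∈ lc P i, ∀ h ∈ lc P j, ⁅cls i g, cls j h⁆ = cls (i + j) (g * h * g⁻¹ * h⁻¹)
  zero : ∀ w, 1 ≤ w → ∀ g ∈ lc P w, (cls w g = 0 ↔ g ∈ Dn p P (w + 1))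
  span : ∀ v : L, ∃ (n : ℕ) (f : ℕ → P), (∀ w, f w ∈ lc P w) ∧ v = ∑ w ∈ Icc 1 n, cls w (f w)
  ind : ∀ (n : ℕ) (f : ℕ → P), (∀ w, f w ∈ lc P w) → ∑ w ∈ Icc 1 n, cls w (f w) = 0 →
    ∀ w ∈ Icc 1 n, cls w (f w) = 0
  act_cls : ∀ (γ : Γ) (w : ℕ), 1 ≤ w → ∀ g ∈ lc P w, act γ (cls w g) = cls w (γ • g)
  act_lie : ∀ (γ : Γ) (x y : L), act γ ⁅x, y⁆ = ⁅act γ x, act γ y⁆
  char : ∀ x : L, p • x = 0

/-- M10. The graded Lie ring exists. -/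
def StGr : Prop := ∀ (p : ℕ) [Fact p.Prime] (Γ P : Type) [Group Γ] [Group P] [Finite P]
  [MulDistribMulAction Γ P], ∃ (L : Type) (_ : LieRing L) (cls : ℕ → P → L)
    (act : Γ →* AddMonoid.End L), GrL p Γ P L cls act

/-- M11. Second use of the Lie ring theorem: the graded Lie ring is soluble. -/
def StSol : Prop := ∀ h d : ℕ, ∃ N : ℕ, ∀ (p : ℕ) [Fact p.Prime] (Γ P : Type) [Group Γ]
  [Finite Γ] [Group P] [Finite P] [MulDistribMulAction Γ P] (F H : Subgroup Γ),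
  IsPGroup p P → Fro P F H → Nat.card H = h →
  (∀ C : Subgroup P, (∀ g, g ∈ C ↔ ∀ x ∈ H, x • g = g) → dsg C d = ⊥) →
  ∀ (L : Type) [LieRing L] (cls : ℕ → P → L) (act : Γ →* AddMonoid.End L),
    GrL p Γ P L cls act → dsr (⊤ : AddSubgroup L) N = ⊥

/-- M12a. The identity of Magnus and Sanov inside the group algebra. -/
def StEngA : Prop := ∀ (p : ℕ) [Fact p.Prime] (P : Type) [Group P] [Finite P],
  (∀ g : P, g ^ p = 1) → ∀ (w i : ℕ), 1 ≤ w → 1 ≤ i → ∀ g ∈ Dn p P w, ∀ x : Fin (p - 1) → P,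
  (∀ j, x j ∈ Dn p P i) →
  ∑ σ : Equiv.Perm (Fin (p - 1)), ita (io p g - 1) (List.ofFn (fun j => io p (x (σ j)) - 1))
    ∈ Dl p P ^ (w + (p - 1) * i + 1)

/-- M12b. The Engel identity in the graded Lie ring. -/
def StEng : Prop := ∀ (p : ℕ) [Fact p.Prime] (Γ P : Type) [Group Γ] [Group P] [Finite P]
  [MulDistribMulAction Γ P], (∀ g : P, g ^ p = 1) →
  ∀ (L : Type) [LieRing L] (cls : ℕ → P → L) (act : Γ →* AddMonoid.End L),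
    GrL p Γ P L cls act → ∀ i, 1 ≤ i → ∀ x : Fin (p - 1) → P, (∀ j, x j ∈ lc P i) → ∀ a : L,
      ∑ σ : Equiv.Perm (Fin (p - 1)), itb a (List.ofFn (fun j => cls i (x (σ j)))) = 0

/-- The bound of Higgins' theorem. -/
def hb (n : ℕ) : ℕ → ℕ
  | 0 => 0
  | s + 1 => hb n s + n * (hb n s + 1) ^ 2 + 1

/-- M13. Higgins' theorem for graded Lie rings (`Hm w` is the component of degree `w`). -/
def StHig : Prop := ∀ (p : ℕ) [Fact p.Prime] (L : Type) [LieRing L] (Hm : ℕ → AddSubgroup L),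
  (∀ x : L, p • x = 0) →
  (∀ i j, 1 ≤ i → 1 ≤ j → ∀ x ∈ Hm i, ∀ y ∈ Hm j, ⁅x, y⁆ ∈ Hm (i + j)) →
  (∀ w, 1 ≤ w → ∀ z ∈ Hm (w + 1), z ∈ AddSubgroup.closure {z | ∃ x ∈ Hm w, ∃ y ∈ Hm 1, ⁅x, y⁆ = z}) →
  (∀ i, 1 ≤ i → ∀ x : Fin (p - 1) → L, (∀ j, x j ∈ Hm i) → ∀ a : L,
      ∑ σ : Equiv.Perm (Fin (p - 1)), itb a (List.ofFn (fun j => x (σ j))) = 0) →
  ∀ N : ℕ, dsr (⊤ : AddSubgroup L) N = ⊥ → ∀ w, hb (p - 1) N < w → Hm w = ⊥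

/-- M14. The counting argument. -/
def StPBW : Prop := ∀ (p : ℕ) [Fact p.Prime] (P : Type) [Group P] [Finite P], IsPGroup p P →
  (∀ g : P, g ^ p = 1) → ∀ c : ℕ, (∀ w, c < w → ∀ g ∈ lc P w, g ∈ Dn p P (w + 1)) →
  Dn p P (c + 1) = ⊥

/-- M15. Groups of exponent `p`. -/
def StExpP : Prop := ∀ h d : ℕ, ∃ N : ℕ, ∀ (p : ℕ) [Fact p.Prime] (Γ P : Type) [Group Γ]
  [Finite Γ] [Group P] [Finite P] [MulDistribMulAction Γ P] (F H : Subgroup Γ),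
  (∀ g : P, g ^ p = 1) → Fro P F H → Nat.card H = h →
  (∀ C : Subgroup P, (∀ g, g ∈ C ↔ ∀ x ∈ H, x • g = g) → dsg C d = ⊥) →
  dsg (⊤ : Subgroup P) N = ⊥

/-- M16. The theorem. -/
def StMain : Prop := ∀ h d : ℕ, ∃ N : ℕ, ∀ (p : ℕ), p.Prime → ∀ (G : Type) [Group G] [Finite G]
  (F H : Subgroup (MulAut G)), IsPGroup p G →
  (∀ x ∈ H, ∀ y ∈ F, x * y * x⁻¹ ∈ F) →
  F ≠ ⊥ → H ≠ ⊥ →
  (∀ x ∈ H, x ≠ 1 → ∀ y ∈ F, x * y = y * x → y = 1) →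
  (∀ y ∈ F, y ≠ 1 → ∀ g : G, y g = g → g = 1) →
  Nat.card H = h →
  (∀ C : Subgroup G, (∀ g : G, g ∈ C ↔ ∀ x ∈ H, x g = g) → derivedSeries C d = ⊥) →
  derivedSeries G N ≤ Subgroup.closure {g | ∃ x : G, g = x ^ p}

end Pool.Agent.PX
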