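import Pool.Agent.Lib.MP_2b9f9a_al.PX.Stmts

/-!
# PX, module 6a: `F` is fixed point free on quotients
-/

set_option autoImplicit false

namespace Pool.Agent.PX.Fpf28

open Finset

variable {Γ P : Type} [Group Γ] [Group P] [MulDistribMulAction Γ P]

/-- an element without nontrivial fixed points has order prime to `p` -/
theorem not_dvd {p : ℕ} [Fact p.Prime] [Finite Γ] [Finite P] (hP : IsPGroup p P) (F : Subgroup Γ)
    (hF : ∀ y ∈ F, y ≠ 1 → ∀ g : P, y • g = g → g = 1) (y : Γ) (hy : y ∈ F)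
    (hd : p ∣ orderOf y) (g : P) : g = 1 := by
  by_contra hg
  have hp : p.Prime := Fact.out
  have hpos : 0 < orderOf y := orderOf_pos y
  set z : Γ := y ^ (orderOf y / p) with hz
  have hzo : orderOf z = p := by
    have h1 : orderOf y / p ∣ orderOf y := Nat.div_dvd_of_dvd hd
    have h2 : orderOf y / p ≠ 0 := (Nat.div_pos (Nat.le_of_dvd hpos hd) hp.pos).ne'
    rw [hz, orderOf_pow_of_dvd h2 h1]
    exact Nat.div_div_self hd hpos.ne'
  have hz1 : z ≠ 1 := by
    intro h
    rw [h, orderOf_one] at hzo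
    exact hp.one_lt.ne hzo
  have hzF : z ∈ F := F.pow_mem hy _
  have hZ : IsPGroup p (Subgroup.zpowers z) := by
    apply IsPGroup.of_card (n := 1)
    rw [Nat.card_zpowers, hzo, pow_one]
  have hcard : p ∣ Nat.card P := by
    obtain ⟨n, hn⟩ := hP.exists_card_eq
    rw [hn]
    apply dvd_pow_self
    rintro rfl
    rw [pow_zero] at hn
    have := (Nat.card_eq_one_iff_unique.1 hn).1
    exact hg (Subsingleton.elim _ _)
  have h1 : (1 : P) ∈ MulAction.fixedPoints (Subgroup.zpowers z) P := fun a => smul_one a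
  obtain ⟨b, hb, hb1⟩ := hZ.exists_fixed_point_of_prime_dvd_card_of_fixed_point P hcard h1
  exact hb1 (hF z hzF hz1 b (hb ⟨z, Subgroup.mem_zpowers z⟩)).symm

end Pool.Agent.PX.Fpf28

namespace Pool.Agent.PX

open Finset Fpf28

theorem stFpf_28 : StFpf := by
  intro p hp Γ P _ _ _ _ _ F H hP hFro N _ hN y hy hy1 g hg
  by_cases hd : p ∣ orderOf y
  · rw [not_dvd hP F hFro.fpf y hy hd g]
    exact N.one_mem
  -- the map `z ↦ z⁻¹ (y z)` is onto
  have hinj : Function.Injective (fun z : P => z⁻¹ * (y • z)) := by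
    intro z w hzw
    have h1 : z⁻¹ * (y • z) = w⁻¹ * (y • w) := hzw
    have h2 : y • (w * z⁻¹) = w * z⁻¹ := by
      rw [smul_mul', smul_inv']
      have h3 : y • z = z * (w⁻¹ * (y • w)) := by
        rw [← h1, mul_inv_cancel_left]
      rw [h3]
      group
    have h4 := hFro.fpf y hy hy1 _ h2
    exact (mul_inv_eq_one.1 h4).symm
  obtain ⟨z, hz⟩ := (Finite.injective_iff_surjective.1 hinj) g
  have hz' : z⁻¹ * (y • z) = g := hz
  have hq : (QuotientGroup.mk' N) (y • g) = (QuotientGroup.mk' N) g := by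
    have h1 : (QuotientGroup.mk' N) (g⁻¹ * (y • g)) = 1 := (QuotientGroup.eq_one_iff _).2 hg
    rw [map_mul, map_inv, inv_mul_eq_one] at h1
    exact h1.symm
  have key : ∀ k : ℕ, ∃ n ∈ N, z⁻¹ * (y ^ k • z) = g ^ k * n := by
    intro k
    induction k with
    | zero => exact ⟨1, N.one_mem, by rw [pow_zero, one_smul, inv_mul_cancel, pow_zero, mul_one]⟩
    | succ k ih =>
      obtain ⟨n, hn, h⟩ := ih
      refine ⟨(g ^ (k + 1))⁻¹ * (z⁻¹ * (y ^ (k + 1) • z)), ?_, by group⟩
      have h1 : z⁻¹ * (y ^ (k + 1) • z) = g * ((y • g) ^ k * (y • n)) := by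
        rw [← smul_pow', ← smul_mul', ← h, smul_mul', smul_inv', ← mul_smul, ← pow_succ', ← hz']
        group
      rw [h1]
      apply (QuotientGroup.eq_one_iff (N := N) _).1
      change (QuotientGroup.mk' N) _ = 1
      have h2 : (QuotientGroup.mk' N) (y • n) = 1 := (QuotientGroup.eq_one_iff _).2 (hN y n hn)
      rw [map_mul, map_mul, map_mul, map_pow, hq, h2, mul_one, ← pow_succ', map_inv, map_pow,
        inv_mul_cancel]
  obtain ⟨n, hn, h⟩ := key (orderOf y)
  rw [pow_orderOf_eq_one, one_smul, inv_mul_cancel] at h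
  have h1 : (QuotientGroup.mk' N) g ^ orderOf y = 1 := by
    have h2 := congrArg (QuotientGroup.mk' N) h
    have h3 : (QuotientGroup.mk' N) n = 1 := (QuotientGroup.eq_one_iff _).2 hn
    rw [map_one, map_mul, map_pow, h3, mul_one] at h2
    exact h2.symm
  obtain ⟨a, ha⟩ := hP g
  have h2 : (QuotientGroup.mk' N) g ^ (p ^ a) = 1 := by
    rw [← map_pow, ha, map_one]
  have h3 : (orderOf y).Coprime (p ^ a) :=
    (((hp.out.coprime_iff_not_dvd).2 hd).pow_left a).symm
  have h4 : orderOf ((QuotientGroup.mk' N) g) = 1 :=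
    Nat.eq_one_of_dvd_coprimes h3 (orderOf_dvd_of_pow_eq_one h1) (orderOf_dvd_of_pow_eq_one h2)
  exact (QuotientGroup.eq_one_iff _).1 (orderOf_eq_one_iff.1 h4)

end Pool.Agent.PX
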