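import Pool.Agent.Lib.MP_2b9f9a_al.PX.BCHModel_53

set_option autoImplicit false

/-!
# Module M4 of PX
-/

namespace Pool.Agent.PX

namespace B53

open Finset
open scoped commutatorElement

/-! ### Groups generated by two elements -/

theorem conj_comm_mem {G : Type} [Group G] {B : Subgroup G} {c d y : G} (hc : c ∈ B) (hd : d ∈ B)
    (hy : y ∈ B) : y⁻¹ * (c * d * c⁻¹ * d⁻¹) * y ∈ ⁅B, B⁆ := by
  have h : y⁻¹ * (c * d * c⁻¹ * d⁻¹) * y = ⁅y⁻¹ * c * y, y⁻¹ * d * y⁆ := by
    rw [commutatorElement_def]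
    group
  rw [h]
  exact Subgroup.commutator_mem_commutator (B.mul_mem (B.mul_mem (B.inv_mem hy) hc) hy)
    (B.mul_mem (B.mul_mem (B.inv_mem hy) hd) hy)

theorem ab_decomp {G : Type} [Group G] (p : ℕ) (hp : 0 < p) (x y : G) (hx : x ^ p = 1)
    (hy : y ^ p = 1) (g : G) (hg : g ∈ Subgroup.closure {x, y}) :
    ∃ i j : ℕ, ∃ c ∈ ⁅Subgroup.closure {x, y}, Subgroup.closure {x, y}⁆,
      g = x ^ i * y ^ j * c := by
  set B := Subgroup.closure {x, y} with hB
  have hxB : x ∈ B := Subgroup.subset_closure (by simp)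
  have hyB : y ∈ B := Subgroup.subset_closure (by simp)
  have hxi : x⁻¹ = x ^ (p - 1) := by
    rw [inv_eq_iff_mul_eq_one, ← pow_succ', Nat.sub_add_cancel hp, hx]
  have hyi : y⁻¹ = y ^ (p - 1) := by
    rw [inv_eq_iff_mul_eq_one, ← pow_succ', Nat.sub_add_cancel hp, hy]
  have hX : ∀ (n : ℕ) (h : G), (∃ i j : ℕ, ∃ c ∈ ⁅B, B⁆, h = x ^ i * y ^ j * c) →
      ∃ i j : ℕ, ∃ c ∈ ⁅B, B⁆, x ^ n * h = x ^ i * y ^ j * c := by
    rintro n h ⟨i, j, c, hc, rfl⟩
    refine ⟨n + i, j, c, hc, ?_⟩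
    rw [pow_add]
    group
  have hY : ∀ (n : ℕ) (h : G), (∃ i j : ℕ, ∃ c ∈ ⁅B, B⁆, h = x ^ i * y ^ j * c) →
      ∃ i j : ℕ, ∃ c ∈ ⁅B, B⁆, y ^ n * h = x ^ i * y ^ j * c := by
    rintro n h ⟨i, j, c, hc, rfl⟩
    refine ⟨i, n + j, (y ^ (n + j))⁻¹ * ((x ^ i)⁻¹ * y ^ n * ((x ^ i)⁻¹)⁻¹ * (y ^ n)⁻¹) *
      y ^ (n + j) * c, ?_, ?_⟩
    · exact Subgroup.mul_mem _ (conj_comm_mem (B.inv_mem (B.pow_mem hxB i)) (B.pow_mem hyB n)
        (B.pow_mem hyB (n + j))) hc
    · rw [pow_add y n j]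
      group
  rw [hB] at hg
  induction hg using Subgroup.closure_induction_left with
  | one => exact ⟨0, 0, 1, Subgroup.one_mem _, by simp⟩
  | mul_left z hz w hw ih =>
    rcases hz with rfl | hz
    · have := hX 1 w ih
      rwa [pow_one] at this
    · rw [Set.mem_singleton_iff] at hz
      subst hz
      have := hY 1 w ih
      rwa [pow_one] at this
  | inv_mul_cancel z hz w hw ih =>
    rcases hz with rfl | hz
    · rw [hxi]
      exact hX (p - 1) w ih
    · rw [Set.mem_singleton_iff] at hz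
      subst hz
      rw [hyi]
      exact hY (p - 1) w ih

/-! ### The truncated exponential -/

section ex

variable {p : ℕ} {A : Type} [Ring A] [Algebra (ZMod p) A]

theorem ex_sq [Fact p.Prime] {x : A} (hx : x * x = 0) : ex p x = 1 + x := by
  obtain ⟨m, hm⟩ : ∃ m, p = m + 2 := ⟨p - 2, by have := (Fact.out : p.Prime).two_le; omega⟩
  have h : ∀ k ∈ range m, (((k + 1 + 1).factorial : ZMod p)⁻¹) • x ^ (k + 1 + 1) = 0 := by
    intro k _
    rw [pow_succ, pow_succ, mul_assoc, hx, mul_zero, smul_zero]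
  unfold ex
  have h2 : range p = range (m + 1 + 1) := by rw [hm]
  rw [h2, sum_range_succ', sum_range_succ', sum_eq_zero h]
  simp [add_comm]

theorem ex_zero [Fact p.Prime] : ex p (0 : A) = 1 := by
  rw [ex_sq (by simp), add_zero]

theorem p_smul (x : A) : p • x = 0 := by
  rw [← Nat.cast_smul_eq_nsmul (ZMod p), ZMod.natCast_self, zero_smul]

theorem nsmul_eq_of_dvd {n : ℕ} (h : p ∣ n) (x : A) : n • x = 0 := by
  obtain ⟨m, hm⟩ := h
  rw [hm, mul_comm, mul_smul, p_smul (p := p), smul_zero]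

/-- the unit `ex u` -/
def un (hEx : StEx) [Fact p.Prime] (J : Ideal A) [J.IsTwoSided] (hJ : J ^ p = ⊥) (u : A)
    (hu : u ∈ J) : Aˣ :=
  ⟨ex p u, ex p (-u), ((hEx p A J hJ).2.1 u hu).2, ((hEx p A J hJ).2.1 u hu).1⟩

theorem ex_nsmul (hEx : StEx) [Fact p.Prime] (J : Ideal A) [J.IsTwoSided] (hJ : J ^ p = ⊥) (u : A)
    (hu : u ∈ J) (n : ℕ) : ex p u ^ n = ex p (n • u) := by
  induction n with
  | zero => rw [pow_zero, zero_smul, ex_zero]
  | succ n ih =>
    rw [pow_succ, ih, succ_nsmul, (hEx p A J hJ).1 (n • u) (J.nsmul_mem hu n) u hu]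
    rw [smul_mul_assoc, mul_smul_comm]

theorem un_pow (hEx : StEx) [Fact p.Prime] (J : Ideal A) [J.IsTwoSided] (hJ : J ^ p = ⊥) (u : A)
    (hu : u ∈ J) {n : ℕ} (hn : p ∣ n) : un hEx J hJ u hu ^ n = 1 := by
  apply Units.ext
  rw [Units.val_pow_eq_pow_val, Units.val_one]
  show ex p u ^ n = 1
  rw [ex_nsmul hEx J hJ u hu, nsmul_eq_of_dvd hn, ex_zero]

end ex

/-! ### Dual numbers -/

section dual

variable (p : ℕ)

/-- the ideal of the dual numbers -/
def JD : Ideal (DualNumber (ZMod p)) := Ideal.span {DualNumber.eps}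

variable {p}

theorem eps_mem : (DualNumber.eps : DualNumber (ZMod p)) ∈ JD p := Ideal.subset_span rfl

theorem JD_pow [Fact p.Prime] : JD p ^ p = ⊥ := by
  have h : (DualNumber.eps : DualNumber (ZMod p)) ^ p = 0 := by
    have h2 := (Fact.out : p.Prime).two_le
    have h3 : (DualNumber.eps : DualNumber (ZMod p)) ^ 2 = 0 := by
      rw [pow_two, DualNumber.eps_mul_eps]
    exact pow_eq_zero_of_le h2 h3
  unfold JD
  rw [Ideal.span_singleton_pow, h]
  simp

/-- the coefficient of `ε` -/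
def sn : DualNumber (ZMod p) →+ ZMod p :=
  (TrivSqZeroExt.sndHom (ZMod p) (ZMod p)).toAddMonoidHom

theorem sn_eps : sn (DualNumber.eps : DualNumber (ZMod p)) = 1 := rfl

theorem sn_one : sn (1 : DualNumber (ZMod p)) = 0 := rfl

theorem one_add_pow (n : ℕ) : (1 + (DualNumber.eps : DualNumber (ZMod p))) ^ n =
    1 + n • DualNumber.eps := by
  induction n with
  | zero => simp
  | succ n ih =>
    rw [pow_succ, ih, succ_nsmul, add_mul, one_mul, mul_add, mul_one, smul_mul_assoc,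
      DualNumber.eps_mul_eps, smul_zero, add_zero]
    abel

end dual

/-! ### The model -/

section model

variable {p : ℕ} [Fact p.Prime] {T : Type} [Ring T] [Algebra (ZMod p) T] {a b : T}

theorem br_mem {X : Set T} {k : ℕ} {u : T} (h : Br X k u) : u ∈ lieM X :=
  AddSubgroup.subset_closure ⟨k, h⟩

theorem lie_brk {X : Set T} {x y : T} (hx : x ∈ lieM X) (hy : y ∈ lieM X) :
    x * y - y * x ∈ lieM X := by
  unfold lieM at hx
  induction hx using AddSubgroup.closure_induction with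
  | mem x hx =>
    obtain ⟨i, hi⟩ := hx
    unfold lieM at hy
    induction hy using AddSubgroup.closure_induction with
    | mem y hy =>
      obtain ⟨j, hj⟩ := hy
      exact br_mem (Br.brk hi hj)
    | zero => rw [mul_zero, zero_mul, sub_zero]; exact AddSubgroup.zero_mem _
    | add y z _ _ h1 h2 =>
      have : x * (y + z) - (y + z) * x = (x * y - y * x) + (x * z - z * x) := by noncomm_ring
      rw [this]
      exact AddSubgroup.add_mem _ h1 h2
    | neg y _ h1 =>
      have : x * -y - -y * x = -(x * y - y * x) := by noncomm_ring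
      rw [this]
      exact AddSubgroup.neg_mem _ h1
  | zero => rw [mul_zero, zero_mul, sub_zero]; exact AddSubgroup.zero_mem _
  | add x z _ _ h1 h2 =>
    have : (x + z) * y - y * (x + z) = (x * y - y * x) + (z * y - y * z) := by noncomm_ring
    rw [this]
    exact AddSubgroup.add_mem _ h1 h2
  | neg x _ h1 =>
    have : -x * y - y * -x = -(x * y - y * x) := by noncomm_ring
    rw [this]
    exact AddSubgroup.neg_mem _ h1

/-- the brackets -/
def C0 (X : Set T) : AddSubgroup T :=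
  AddSubgroup.closure {z | ∃ x ∈ lieM X, ∃ y ∈ lieM X, x * y - y * x = z}

theorem lie_decomp {m : T} (hm : m ∈ lieM {a, b}) :
    ∃ i j : ℤ, ∃ w ∈ C0 ({a, b} : Set T), m = i • a + j • b + w := by
  have h1 : lieM {a, b} ≤ AddSubgroup.closure {a, b} ⊔ C0 ({a, b} : Set T) := by
    unfold lieM
    rw [AddSubgroup.closure_le]
    rintro u ⟨k, hu⟩
    induction hu with
    | base hx => exact AddSubgroup.mem_sup_left (AddSubgroup.subset_closure hx)
    | zero k _ => exact AddSubgroup.zero_mem _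
    | add _ _ h1 h2 => exact AddSubgroup.add_mem _ h1 h2
    | neg _ h1 => exact AddSubgroup.neg_mem _ h1
    | brk h1 h2 _ _ =>
      exact AddSubgroup.mem_sup_right
        (AddSubgroup.subset_closure ⟨_, br_mem h1, _, br_mem h2, rfl⟩)
  obtain ⟨z, hz, w, hw, rfl⟩ := AddSubgroup.mem_sup.1 (h1 hm)
  obtain ⟨i, j, rfl⟩ := AddSubgroup.mem_closure_pair.1 hz
  exact ⟨i, j, w, hw, rfl⟩

theorem map_lie {X : Set T} {A : Type} [Ring A] (φ : T →+* A) {M : AddSubgroup A}
    (hX : ∀ x ∈ X, φ x ∈ M) (hM : ∀ x ∈ M, ∀ y ∈ M, x * y - y * x ∈ M) {m : T}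
    (hm : m ∈ lieM X) : φ m ∈ M := by
  have h1 : lieM X ≤ M.comap φ.toAddMonoidHom := by
    unfold lieM
    rw [AddSubgroup.closure_le]
    rintro u ⟨k, hu⟩
    show φ u ∈ M
    induction hu with
    | base hx => exact hX _ hx
    | zero k _ => rw [map_zero]; exact M.zero_mem
    | add _ _ h1 h2 => rw [map_add]; exact M.add_mem h1 h2
    | neg _ h1 => rw [map_neg]; exact M.neg_mem h1
    | brk _ _ h1 h2 => rw [map_sub, map_mul, map_mul]; exact hM _ h1 _ h2
  exact h1 hm

theorem map_C0 {X : Set T} {A : Type} [Ring A] (φ : T →+* A) {M N : AddSubgroup A}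
    (hX : ∀ x ∈ X, φ x ∈ M) (hM : ∀ x ∈ M, ∀ y ∈ M, x * y - y * x ∈ N) (hN : N ≤ M) {m : T}
    (hm : m ∈ C0 X) : φ m ∈ N := by
  have h1 : C0 X ≤ N.comap φ.toAddMonoidHom := by
    unfold C0
    rw [AddSubgroup.closure_le]
    rintro _ ⟨x, hx, y, hy, rfl⟩
    show φ (x * y - y * x) ∈ N
    rw [map_sub, map_mul, map_mul]
    exact hM _ (map_lie φ hX (fun x hx y hy => hN (hM x hx y hy)) hx) _
      (map_lie φ hX (fun x hx y hy => hN (hM x hx y hy)) hy)
  exact h1 hm

theorem dual_C0 {X : Set T} (χ : T →+* DualNumber (ZMod p)) {m : T} (hm : m ∈ C0 X) : χ m = 0 := by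
  have h1 : C0 X ≤ (⊥ : AddSubgroup (DualNumber (ZMod p))).comap χ.toAddMonoidHom := by
    unfold C0
    rw [AddSubgroup.closure_le]
    rintro _ ⟨x, _, y, _, rfl⟩
    show χ (x * y - y * x) ∈ (⊥ : AddSubgroup (DualNumber (ZMod p)))
    rw [map_sub, map_mul, map_mul, mul_comm, sub_self]
    exact AddSubgroup.zero_mem _
  exact AddSubgroup.mem_bot.1 (h1 hm)

theorem zsmul_eq_of {i : ℤ} {c : ZMod p} (h : (i : ZMod p) = c) (x : T) : i • x = c • x := by
  rw [← h, Int.cast_smul_eq_zsmul]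

/-- the exponent of a unit with trivial linear part -/
theorem dvd_of_char (hEx : StEx) (hMap : StExMap) (J : Ideal T) [J.IsTwoSided] (hJ : J ^ p = ⊥)
    (ha : a ∈ J) (hb : b ∈ J) (χ : T →+* DualNumber (ZMod p)) (h1 : χ a = DualNumber.eps)
    (h2 : χ b = 0) (B : Subgroup Tˣ) (i j : ℕ) (c : Tˣ) (hc : c ∈ ⁅B, B⁆) (x : T)
    (h : ((un hEx J hJ a ha ^ i * un hEx J hJ b hb ^ j * c : Tˣ) : T) = ex p x) (hx : χ x = 0) :
    p ∣ i := by
  set f : Tˣ →* (DualNumber (ZMod p))ˣ := Units.map (χ : T →* DualNumber (ZMod p)) with hf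
  have hfc : f c = 1 := by
    have h3 : ⁅B, B⁆.map f = ⊥ := by
      rw [Subgroup.map_commutator, Subgroup.commutator_eq_bot_iff_le_centralizer]
      intro z _
      rw [Subgroup.mem_centralizer_iff]
      intro w _
      exact mul_comm w z
    have h4 : f c ∈ ⁅B, B⁆.map f := Subgroup.mem_map_of_mem f hc
    rw [h3] at h4
    exact Subgroup.mem_bot.1 h4
  have h3 : χ ((un hEx J hJ a ha ^ i * un hEx J hJ b hb ^ j * c : Tˣ) : T) = 1 := by
    rw [h, hMap p T _ χ x, hx, ex_zero]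
  have h4 : χ ((un hEx J hJ a ha ^ i * un hEx J hJ b hb ^ j * c : Tˣ) : T) =
      (1 + DualNumber.eps) ^ i := by
    rw [Units.val_mul, Units.val_mul, Units.val_pow_eq_pow_val, Units.val_pow_eq_pow_val, map_mul,
      map_mul, map_pow, map_pow]
    have e1 : χ (un hEx J hJ a ha : T) = 1 + DualNumber.eps := by
      show χ (ex p a) = _
      rw [hMap p T _ χ a, h1, ex_sq DualNumber.eps_mul_eps]
    have e2 : χ (un hEx J hJ b hb : T) = 1 := by
      show χ (ex p b) = _
      rw [hMap p T _ χ b, h2, ex_zero]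
    have e3 : χ (c : T) = 1 := by
      have := congrArg Units.val hfc
      exact this
    rw [e1, e2, e3, one_pow, mul_one, mul_one]
  rw [h3, one_add_pow] at h4
  have h5 : sn (i • (DualNumber.eps : DualNumber (ZMod p))) = 0 := by
    have : i • (DualNumber.eps : DualNumber (ZMod p)) = 0 := by
      rw [left_eq_add] at h4
      exact h4
    rw [this, map_zero]
  rw [map_nsmul, sn_eps, nsmul_one] at h5
  exact (ZMod.natCast_eq_zero_iff i p).1 h5

end model

end B53

open B53 in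
open scoped commutatorElement in
/-- Module M4. -/
theorem stBCH_53 (hEx : StEx) (hMap : StExMap) (hUniv : StUniv) : StBCH := by
  intro p hp A _ _ J' _ hJ' u hu v hv s t hs ht
  obtain ⟨T, _, _, J, _, E, a, b, hfin, hJ, hE1, hE2, hE3, ha, hb, hEa, hEb, huniv⟩ := model53 p
  obtain ⟨φ, hφa, hφb⟩ := huniv A J' hJ' u hu v hv
  obtain ⟨χ, hχa, hχb⟩ := huniv (DualNumber (ZMod p)) (JD p) JD_pow DualNumber.eps eps_mem 0
    (JD p).zero_mem
  obtain ⟨ψ, hψa, hψb⟩ := huniv (DualNumber (ZMod p)) (JD p) JD_pow 0 (JD p).zero_mem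
    DualNumber.eps eps_mem
  set sa := un hEx J hJ a ha with hsa
  set sb := un hEx J hJ b hb with hsb
  have hsav : (sa : T) = ex p a := rfl
  have hsbv : (sb : T) = ex p b := rfl
  set X : Set T := {a, b} with hX
  have hBset : {s : Tˣ | ∃ x ∈ X, (s : T) = ex p x} = {sa, sb} := by
    ext z
    simp only [Set.mem_ofPred_eq, hX, Set.mem_insert_iff, Set.mem_singleton_iff]
    constructor
    · rintro ⟨x, rfl | rfl, hz⟩
      · left; exact Units.ext hz
      · right; exact Units.ext hz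
    · rintro (rfl | rfl)
      · exact ⟨a, Or.inl rfl, rfl⟩
      · exact ⟨b, Or.inr rfl, rfl⟩
  set B : Subgroup Tˣ := Subgroup.closure {sa, sb} with hB
  obtain ⟨U1, U2⟩ := hUniv p T J hJ E hE1 hE2 hE3 X
    (by rintro x (rfl | hx)
        · exact ha
        · rw [Set.mem_singleton_iff] at hx; subst hx; exact hb)
    (by rintro x (rfl | hx)
        · exact hEa
        · rw [Set.mem_singleton_iff] at hx; subst hx; exact hEb) B (by rw [hB, hBset])
  -- the map of the units
  set f : Tˣ →* Aˣ := Units.map (φ : T →* A) with hf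
  have hfa : f sa = s := by
    apply Units.ext
    show φ (ex p a) = s
    rw [hMap p T A φ a, hφa, hs]
  have hfb : f sb = t := by
    apply Units.ext
    show φ (ex p b) = t
    rw [hMap p T A φ b, hφb, ht]
  have hfB : B.map f = Subgroup.closure {s, t} := by
    rw [hB, MonoidHom.map_closure, Set.image_pair, hfa, hfb]
  have haL : a ∈ lieM X := br_mem (Br.base (by simp [hX]))
  have hbL : b ∈ lieM X := br_mem (Br.base (by simp [hX]))
  have haB : sa ∈ B := Subgroup.subset_closure (by simp)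
  have hbB : sb ∈ B := Subgroup.subset_closure (by simp)
  have hfv : ∀ (g : Tˣ) (m : T), (g : T) = ex p m → ((f g : Aˣ) : A) = ex p (φ m) := by
    intro g m h
    show φ (g : T) = _
    rw [h, hMap p T A φ m]
  refine ⟨?_, ?_, ?_⟩
  · obtain ⟨g, hg, hgv⟩ := U1 (a + b) ((lieM X).add_mem haL hbL)
    refine ⟨f g, ?_, ?_⟩
    · rw [← hfB]
      exact Subgroup.mem_map_of_mem f hg
    · rw [hfv g _ hgv, map_add, hφa, hφb]
  · obtain ⟨g, hg, hgv⟩ := U1 (a * b - b * a) (lie_brk haL hbL)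
    obtain ⟨i, j, c, hc, hgc⟩ := ab_decomp p hp.out.pos sa sb
      (un_pow hEx J hJ a ha (dvd_refl p)) (un_pow hEx J hJ b hb (dvd_refl p)) g hg
    have hi : p ∣ i := by
      refine dvd_of_char hEx hMap J hJ ha hb χ hχa hχb B i j c hc (a * b - b * a) ?_ ?_
      · rw [← hgv, hgc]
      · rw [map_sub, map_mul, map_mul, mul_comm, sub_self]
    have hj : p ∣ j := by
      have hc' : (sb ^ j)⁻¹ * (sa ^ i)⁻¹ * (sb ^ j * sa ^ i) ∈ ⁅B, B⁆ := by
        have : (sb ^ j)⁻¹ * (sa ^ i)⁻¹ * (sb ^ j * sa ^ i) = ⁅(sb ^ j)⁻¹, (sa ^ i)⁻¹⁆ := by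
          rw [commutatorElement_def]
          group
        rw [this]
        exact Subgroup.commutator_mem_commutator (B.inv_mem (B.pow_mem hbB j))
          (B.inv_mem (B.pow_mem haB i))
      refine dvd_of_char hEx hMap J hJ hb ha ψ hψb hψa B j i
        ((sa ^ i)⁻¹ * (sb ^ j)⁻¹ * (sa ^ i * sb ^ j) * c) ?_ (a * b - b * a) ?_ ?_
      · refine Subgroup.mul_mem _ ?_ hc
        have : (sa ^ i)⁻¹ * (sb ^ j)⁻¹ * (sa ^ i * sb ^ j) = ⁅(sa ^ i)⁻¹, (sb ^ j)⁻¹⁆ := by
          rw [commutatorElement_def]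
          group
        rw [this]
        exact Subgroup.commutator_mem_commutator (B.inv_mem (B.pow_mem haB i))
          (B.inv_mem (B.pow_mem hbB j))
      · rw [← hgv, hgc]
        congr 1
        show sb ^ j * sa ^ i * ((sa ^ i)⁻¹ * (sb ^ j)⁻¹ * (sa ^ i * sb ^ j) * c) = _
        group
      · rw [map_sub, map_mul, map_mul, mul_comm, sub_self]
    have hgc' : g = c := by
      rw [hgc, un_pow hEx J hJ a ha hi, un_pow hEx J hJ b hb hj, one_mul, one_mul]
    refine ⟨f g, ?_, ?_⟩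
    · rw [hgc', ← hfB, ← Subgroup.map_commutator]
      exact Subgroup.mem_map_of_mem f hc
    · rw [hfv g _ hgv, map_sub, map_mul, map_mul, hφa, hφb]
  · intro M N huM hvM hMN hNM
    have hXM : ∀ x ∈ X, φ x ∈ M := by
      rintro x (rfl | hx)
      · rw [hφa]; exact huM
      · rw [Set.mem_singleton_iff] at hx
        subst hx
        rw [hφb]; exact hvM
    -- the characters of the element `m`
    have hchar : ∀ (i j : ℤ) (w : T), w ∈ C0 X →
        χ (i • a + j • b + w) = i • DualNumber.eps ∧ ψ (i • a + j • b + w) = j • DualNumber.eps := by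
      intro i j w hw
      rw [map_add, map_add, map_zsmul, map_zsmul, hχa, hχb, dual_C0 χ hw, map_add, map_add,
        map_zsmul, map_zsmul, hψa, hψb, dual_C0 ψ hw]
      constructor <;> simp
    have hinj := (hEx p (DualNumber (ZMod p)) (JD p) JD_pow).2.2.2.2.1
    have hcoef : ∀ (i : ℤ) (c : ZMod p), ex p (i • (DualNumber.eps : DualNumber (ZMod p))) =
        ex p (c • DualNumber.eps) → (i : ZMod p) = c := by
      intro i c h
      have h1 := hinj _ (zsmul_mem eps_mem i) _ (by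
        rw [Algebra.smul_def]
        exact (JD p).mul_mem_left _ eps_mem) h
      have h2 := congrArg sn h1
      rw [map_zsmul, sn_eps, zsmul_one] at h2
      rw [h2]
      show c • (1 : ZMod p) = c
      rw [smul_eq_mul, mul_one]
    constructor
    · obtain ⟨m, hm, hmv⟩ := U2 (sa * sb) (B.mul_mem haB hbB)
      obtain ⟨i, j, w, hw, rfl⟩ := lie_decomp hm
      obtain ⟨hc1, hc2⟩ := hchar i j w hw
      rw [Units.val_mul, hsav, hsbv] at hmv
      have h1 : (i : ZMod p) = 1 := by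
        apply hcoef
        rw [← hc1, ← hMap p T _ χ, ← hmv, map_mul, hMap p T _ χ, hMap p T _ χ, hχa, hχb, ex_zero,
          mul_one, one_smul]
      have h2 : (j : ZMod p) = 1 := by
        apply hcoef
        rw [← hc2, ← hMap p T _ ψ, ← hmv, map_mul, hMap p T _ ψ, hMap p T _ ψ, hψa, hψb, ex_zero,
          one_mul, one_smul]
      refine ⟨φ w, map_C0 φ hXM hMN hNM hw, ?_⟩
      have h3 := congrArg φ hmv
      rw [map_mul, hMap p T A φ, hMap p T A φ, hMap p T A φ, hφa, hφb, zsmul_eq_of h1,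
        zsmul_eq_of h2, one_smul, one_smul, map_add, map_add, hφa, hφb] at h3
      exact h3
    · obtain ⟨m, hm, hmv⟩ := U2 (sa * sb * sa⁻¹ * sb⁻¹)
        (B.mul_mem (B.mul_mem (B.mul_mem haB hbB) (B.inv_mem haB)) (B.inv_mem hbB))
      obtain ⟨i, j, w, hw, rfl⟩ := lie_decomp hm
      obtain ⟨hc1, hc2⟩ := hchar i j w hw
      have hone : ∀ (θ : T →+* DualNumber (ZMod p)),
          θ ((sa * sb * sa⁻¹ * sb⁻¹ : Tˣ) : T) = 1 := by
        intro θ
        have h1 : Units.map (θ : T →* DualNumber (ZMod p)) (sa * sb * sa⁻¹ * sb⁻¹) = 1 := by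
          rw [map_mul, map_mul, map_mul, map_inv, map_inv]
          rw [mul_comm ((Units.map (θ : T →* DualNumber (ZMod p))) sa)]
          group
        exact congrArg Units.val h1
      have h1 : (i : ZMod p) = 0 := by
        apply hcoef
        rw [← hc1, ← hMap p T _ χ, ← hmv, hone, zero_smul, ex_zero]
      have h2 : (j : ZMod p) = 0 := by
        apply hcoef
        rw [← hc2, ← hMap p T _ ψ, ← hmv, hone, zero_smul, ex_zero]
      refine ⟨φ w, map_C0 φ hXM hMN hNM hw, ?_⟩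
      have h3 := hfv _ _ hmv
      rw [map_mul, map_mul, map_mul, map_inv, map_inv, hfa, hfb, zsmul_eq_of h1,
        zsmul_eq_of h2, zero_smul, zero_smul, zero_add, zero_add] at h3
      exact h3

end Pool.Agent.PX
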