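import Pool.Agent.Lib.MP_2b9f9a_al.PX.Stmts

/-!
M2 StDer (helper12).
-/

set_option autoImplicit false

namespace Pool.Agent.PX

open Finset

namespace Der12

variable {A : Type} [Ring A]

lemma mul_mem_pow {J : Ideal A} [J.IsTwoSided] {i j : ℕ} {x y : A} (hx : x ∈ J ^ i)
    (hy : y ∈ J ^ j) : x * y ∈ J ^ (i + j) := by
  rw [Ideal.IsTwoSided.pow_add]
  exact Ideal.mul_mem_mul hx hy

/-- `D` iterated -/
def Dit (m : A) : ℕ → A → A
  | 0, v => v
  | k + 1, v => Dit m k v * m - m * Dit m k v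

lemma Dit_mem {M : AddSubgroup A} (hM : ∀ u ∈ M, ∀ v ∈ M, u * v - v * u ∈ M) {m v : A}
    (hm : m ∈ M) (hv : v ∈ M) (k : ℕ) : Dit m k v ∈ M := by
  induction k with
  | zero => exact hv
  | succ k ih => exact hM _ ih _ hm

lemma Dit_eq (m v : A) (k : ℕ) : Dit m k v =
    ∑ ij ∈ antidiagonal k, k.choose ij.1 • ((-m) ^ ij.1 * v * m ^ ij.2) := by
  induction k with
  | zero => simp [Dit]
  | succ k ih =>
    rw [sum_antidiagonal_choose_succ_nsmul (fun i j => (-m) ^ i * v * m ^ j) k]
    rw [Dit, ih, Finset.sum_mul, Finset.mul_sum, sub_eq_add_neg, ← Finset.sum_neg_distrib]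
    congr 1
    · refine Finset.sum_congr rfl fun ij _ => ?_
      rw [smul_mul_assoc, pow_succ, ← mul_assoc]
    · refine Finset.sum_congr rfl fun ij hij => ?_
      have h1 : ij.1 + ij.2 = k := Finset.HasAntidiagonal.mem_antidiagonal.1 hij
      have h2 : k.choose ij.2 = k.choose ij.1 := by
        rw [← h1, Nat.choose_symm_add]
      rw [h2, mul_smul_comm, ← smul_neg, pow_succ']
      congr 1
      noncomm_ring

/-- the second sum -/
lemma Fk_eq (E : A →+ A) (hE : ∀ a b, E (a * b) = E a * b + a * E b) (m : A) (k : ℕ) :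
    ∑ ij ∈ antidiagonal (k + 1), (k + 1).choose ij.1 • ((-m) ^ ij.1 * E (m ^ ij.2)) =
      Dit m k (E m) := by
  rw [sum_antidiagonal_choose_succ_nsmul (fun i j => (-m) ^ i * E (m ^ j)) k, Dit_eq,
    ← Finset.sum_add_distrib]
  refine Finset.sum_congr rfl fun ij hij => ?_
  have h1 : ij.1 + ij.2 = k := Finset.HasAntidiagonal.mem_antidiagonal.1 hij
  have h2 : k.choose ij.2 = k.choose ij.1 := by
    rw [← h1, Nat.choose_symm_add]
  rw [h2, ← smul_add, pow_succ' m, hE, pow_succ (-m)]
  congr 1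
  noncomm_ring

/-- triangular sums -/
lemma sum_tri (p : ℕ) (f : ℕ → ℕ → A) (hf : ∀ i j, p ≤ i + j → f i j = 0) :
    ∑ i ∈ range p, ∑ j ∈ range p, f i j = ∑ k ∈ range p, ∑ ij ∈ antidiagonal k, f ij.1 ij.2 := by
  rw [← Finset.sum_product' (range p) (range p) f]
  rw [← Finset.sum_filter_add_sum_filter_not (range p ×ˢ range p) (fun x => x.1 + x.2 < p)]
  rw [Finset.sum_eq_zero (s := (range p ×ˢ range p).filter (fun x => ¬ x.1 + x.2 < p)), add_zero]
  · have hmaps : ∀ x ∈ (range p ×ˢ range p).filter (fun x => x.1 + x.2 < p),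
        x.1 + x.2 ∈ range p := fun x hx => Finset.mem_range.2 (Finset.mem_filter.1 hx).2
    rw [← Finset.sum_fiberwise_of_maps_to hmaps]
    refine Finset.sum_congr rfl fun k hk => ?_
    refine Finset.sum_congr ?_ fun _ _ => rfl
    ext ⟨i, j⟩
    have hk' := Finset.mem_range.1 hk
    simp only [Finset.mem_filter, Finset.mem_product, Finset.mem_range,
      Finset.HasAntidiagonal.mem_antidiagonal]
    omega
  · intro x hx
    exact hf _ _ (not_lt.1 (Finset.mem_filter.1 hx).2)

lemma fac_ne {p : ℕ} [Fact p.Prime] {k : ℕ} (hk : k < p) : ((k.factorial : ℕ) : ZMod p) ≠ 0 := by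
  rw [Ne, ZMod.natCast_eq_zero_iff]
  intro h
  exact absurd ((Nat.Prime.dvd_factorial (Fact.out (p := p.Prime))).1 h) (by omega)

lemma coef {p : ℕ} [Fact p.Prime] {i j : ℕ} (h : i + j < p) :
    ((i.factorial : ZMod p)⁻¹) * ((j.factorial : ZMod p)⁻¹) =
      (((i + j).factorial : ZMod p)⁻¹) * ((i + j).choose i : ZMod p) := by
  have h1 := Nat.add_choose_mul_factorial_mul_factorial i j
  have h2 : (((i + j).choose i : ℕ) : ZMod p) * (i.factorial : ZMod p) * (j.factorial : ZMod p) =
      ((i + j).factorial : ZMod p) := by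
    rw [← h1, ← Nat.choose_symm_add (a := i) (b := j)]
    push_cast
    ring
  have hi := fac_ne (p := p) (k := i) (by omega)
  have hj := fac_ne (p := p) (k := j) (by omega)
  have hij := fac_ne (p := p) (k := i + j) h
  rw [← mul_inv, eq_inv_mul_iff_mul_eq₀ hij, ← h2]
  field_simp

variable {p : ℕ} [Fact p.Prime] [Algebra (ZMod p) A]

/-- general product -/
lemma prod_eq (m : A) (b : ℕ → A)
    (hb : ∀ i j, p ≤ i + j → (-m) ^ i * b j = 0) :
    ex p (-m) * ∑ j ∈ range p, ((j.factorial : ZMod p)⁻¹) • b j =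
      ∑ k ∈ range p, ((k.factorial : ZMod p)⁻¹) •
        ∑ ij ∈ antidiagonal k, k.choose ij.1 • ((-m) ^ ij.1 * b ij.2) := by
  rw [ex, Finset.sum_mul_sum]
  have h1 : ∑ i ∈ range p, ∑ j ∈ range p,
      ((i.factorial : ZMod p)⁻¹ • (-m) ^ i) * ((j.factorial : ZMod p)⁻¹ • b j) =
      ∑ i ∈ range p, ∑ j ∈ range p,
        ((i.factorial : ZMod p)⁻¹ * (j.factorial : ZMod p)⁻¹) • ((-m) ^ i * b j) := by
    refine Finset.sum_congr rfl fun i _ => Finset.sum_congr rfl fun j _ => ?_
    rw [smul_mul_smul_comm]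
  rw [h1, sum_tri p (fun i j => ((i.factorial : ZMod p)⁻¹ * (j.factorial : ZMod p)⁻¹) •
    ((-m) ^ i * b j))]
  · refine Finset.sum_congr rfl fun k hk => ?_
    rw [Finset.smul_sum]
    refine Finset.sum_congr rfl fun ij hij => ?_
    have h2 : ij.1 + ij.2 = k := Finset.HasAntidiagonal.mem_antidiagonal.1 hij
    have h3 := Finset.mem_range.1 hk
    rw [coef (by omega), h2, mul_smul, Nat.cast_smul_eq_nsmul]
  · intro i j hij
    rw [hb i j hij, smul_zero]

end Der12

open Der12 in
/-- module M2 -/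
theorem stDer_12 : StDer := by
  intro p hp A _ _ J _ hJ M hMJ hM m hm
  have hmJ := hMJ m hm
  have hnm : -m ∈ J := J.neg_mem hmJ
  have hzero : ∀ k, p ≤ k → ∀ x ∈ J ^ k, x = 0 := by
    intro k hk x hx
    have h1 := Ideal.pow_le_pow_right hk hx
    rw [hJ] at h1
    exact (Submodule.mem_bot A).1 h1
  refine ⟨?_, ?_⟩
  · intro v hv
    have hvJ := hMJ v hv
    have h1 : ex p (-m) * v * ex p m = ex p (-m) * ∑ j ∈ range p,
        ((j.factorial : ZMod p)⁻¹) • (v * m ^ j) := by
      rw [mul_assoc]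
      congr 1
      rw [ex, Finset.mul_sum]
      refine Finset.sum_congr rfl fun j _ => ?_
      rw [mul_smul_comm]
    rw [h1, prod_eq m (fun j => v * m ^ j)]
    · refine M.sum_mem fun k _ => ZMod.smul_mem ?_ _
      have h2 := Dit_mem hM hm hv k
      rw [Dit_eq] at h2
      simpa only [mul_assoc] using h2
    · intro i j hij
      refine hzero (i + (1 + j)) (by omega) _ ?_
      refine mul_mem_pow (Ideal.pow_mem_pow hnm i) (mul_mem_pow ?_ (Ideal.pow_mem_pow hmJ j))
      rw [Submodule.pow_one]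
      exact hvJ
  · intro E hE hEm
    have hE1 : E 1 = 0 := by
      have h1 := hE 1 1
      rw [mul_one, one_mul, mul_one] at h1
      exact left_eq_add.1 h1
    have hEJ : ∀ j, E (m ^ j) ∈ J ^ j := by
      intro j
      induction j with
      | zero =>
        rw [pow_zero, hE1]
        exact Submodule.zero_mem _
      | succ j ih =>
        rw [pow_succ, hE]
        refine Submodule.add_mem _ (mul_mem_pow ih ?_) (mul_mem_pow (Ideal.pow_mem_pow hmJ j) ?_)
        · rw [Submodule.pow_one]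
          exact hmJ
        · rw [Submodule.pow_one]
          exact hMJ _ hEm
    have h1 : E (ex p m) = ∑ j ∈ range p, ((j.factorial : ZMod p)⁻¹) • E (m ^ j) := by
      rw [ex, map_sum]
      refine Finset.sum_congr rfl fun j _ => ?_
      rw [ZMod.map_smul]
    rw [h1, prod_eq m (fun j => E (m ^ j))]
    · refine M.sum_mem fun k _ => ZMod.smul_mem ?_ _
      rcases k with - | k
      · simp [hE1]
      · rw [Fk_eq E hE]
        exact Dit_mem hM hm hEm k
    · intro i j hij
      exact hzero (i + j) hij _ (mul_mem_pow (Ideal.pow_mem_pow hnm i) (hEJ j))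

end Pool.Agent.PX
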