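import Pool.Agent.Lib.MP_2b9f9a_al.PX.Stmts

/-!
# Module M12a: the identity of Magnus and Sanov inside the group algebra
-/

set_option autoImplicit false

namespace Pool.Agent.PX

open Finset

namespace EngA

/-! ## Sums over orderings -/

section

variable {ι : Type} [DecidableEq ι] {A : Type} [Ring A]

/-- Sum over the orderings of a finite set. -/
def lam : ℕ → Finset ι → (List ι → A) → A
  | 0, _, Ψ => Ψ []
  | m + 1, V, Ψ => ∑ j ∈ V, lam m (V.erase j) (fun l => Ψ (j :: l))

theorem lam_succ (m : ℕ) (V : Finset ι) (Ψ : List ι → A) :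
    lam (m + 1) V Ψ = ∑ j ∈ V, lam m (V.erase j) (fun l => Ψ (j :: l)) := rfl

theorem sum_perm : ∀ (m : ℕ) (y : Fin m → ι), Function.Injective y → ∀ Ψ : List ι → A,
    ∑ σ : Equiv.Perm (Fin m), Ψ (List.ofFn (fun k => y (σ k))) = lam m (univ.image y) Ψ := by
  intro m
  induction m with
  | zero =>
    intro y _ Ψ
    rw [Fintype.sum_unique]
    rfl
  | succ m ih =>
    intro y hy Ψ
    rw [← Equiv.sum_comp Equiv.Perm.decomposeFin.symm, Fintype.sum_prod_type, lam,
      sum_image (fun a _ b _ h => hy h)]
    refine sum_congr rfl fun j _ => ?_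
    have hy' : Function.Injective fun k : Fin m => y (Equiv.swap 0 j k.succ) :=
      fun a b h => Fin.succ_injective _ ((Equiv.swap 0 j).injective (hy h))
    have him : univ.image (fun k : Fin m => y (Equiv.swap 0 j k.succ)) =
        (univ.image y).erase (y j) := by
      ext v
      simp only [mem_image, mem_univ, true_and, mem_erase]
      constructor
      · rintro ⟨k, rfl⟩
        refine ⟨fun h => ?_, _, rfl⟩
        have h1 := hy h
        have h2 : k.succ = (Equiv.swap 0 j).symm j := by
          rw [Equiv.eq_symm_apply]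
          exact h1
        rw [Equiv.symm_swap, Equiv.swap_apply_right] at h2
        exact Fin.succ_ne_zero _ h2
      · rintro ⟨hv, a, rfl⟩
        have ha : Equiv.swap 0 j a ≠ 0 := by
          intro h
          apply hv
          have h2 : a = Equiv.swap 0 j 0 := by
            have h3 := congrArg (Equiv.swap 0 j) h
            rwa [Equiv.swap_apply_self] at h3
          rw [h2, Equiv.swap_apply_left]
        obtain ⟨k, hk⟩ := Fin.exists_succ_eq.2 ha
        exact ⟨k, by rw [hk, Equiv.swap_apply_self]⟩
    rw [← him, ← ih _ hy']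
    refine sum_congr rfl fun e _ => ?_
    rw [List.ofFn_succ, Equiv.Perm.decomposeFin_symm_apply_zero]
    simp only [Equiv.Perm.decomposeFin_symm_apply_succ]

theorem lam_right (m : ℕ) : ∀ (V : Finset ι) (Ψ : List ι → A),
    lam (m + 1) V Ψ = ∑ j ∈ V, lam m (V.erase j) (fun l => Ψ (l ++ [j])) := by
  induction m with
  | zero => intro V Ψ; rfl
  | succ m ih =>
    intro V Ψ
    calc lam (m + 1 + 1) V Ψ = ∑ j ∈ V, ∑ k ∈ V.erase j, lam m ((V.erase j).erase k)
          (fun l => Ψ (j :: (l ++ [k]))) := sum_congr rfl fun j _ => ih _ _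
      _ = ∑ k ∈ V, ∑ j ∈ V.erase k, lam m ((V.erase j).erase k)
          (fun l => Ψ (j :: (l ++ [k]))) := by
        refine sum_comm' ?_
        intro x y
        simp only [mem_erase]
        tauto
      _ = ∑ k ∈ V, lam (m + 1) (V.erase k) (fun l => Ψ (l ++ [k])) := by
        refine sum_congr rfl fun k _ => ?_
        rw [lam_succ]
        refine sum_congr rfl fun j _ => ?_
        rw [erase_right_comm]
        rfl

theorem lam_mul_left (a : A) (m : ℕ) : ∀ (V : Finset ι) (Ψ : List ι → A),
    lam m V (fun l => a * Ψ l) = a * lam m V Ψ := by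
  induction m with
  | zero => intro V Ψ; rfl
  | succ m ih =>
    intro V Ψ
    rw [lam, lam, mul_sum]
    exact sum_congr rfl fun j _ => ih _ _

theorem lam_mul_right (a : A) (m : ℕ) : ∀ (V : Finset ι) (Ψ : List ι → A),
    lam m V (fun l => Ψ l * a) = lam m V Ψ * a := by
  induction m with
  | zero => intro V Ψ; rfl
  | succ m ih =>
    intro V Ψ
    rw [lam, lam, sum_mul]
    exact sum_congr rfl fun j _ => ih _ _

variable (u : ι → A)

/-- The symmetrised product. -/
def e (V : Finset ι) : A := lam V.card V (fun l => (l.map u).prod)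

theorem e_empty : e u ∅ = 1 := by
  rw [e, card_empty]
  rfl

theorem e_left {V : Finset ι} (hV : V.Nonempty) : e u V = ∑ j ∈ V, u j * e u (V.erase j) := by
  obtain ⟨m, hm⟩ := Nat.exists_eq_succ_of_ne_zero (card_ne_zero.2 hV)
  rw [e, hm, lam]
  refine sum_congr rfl fun j hj => ?_
  rw [e, card_erase_of_mem hj, hm, ← lam_mul_left]
  rfl

theorem e_right {V : Finset ι} (hV : V.Nonempty) : e u V = ∑ j ∈ V, e u (V.erase j) * u j := by
  obtain ⟨m, hm⟩ := Nat.exists_eq_succ_of_ne_zero (card_ne_zero.2 hV)
  rw [e, hm, Nat.succ_eq_add_one, lam_right]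
  refine sum_congr rfl fun j hj => ?_
  rw [e, card_erase_of_mem hj, hm, ← lam_mul_right]
  simp

/-- The symmetrised iterated commutator. -/
def dd (V : Finset ι) (a : A) : A := lam V.card V (fun l => ita a (l.map u))

theorem dd_empty (a : A) : dd u ∅ a = a := by
  rw [dd, card_empty]
  rfl

theorem dd_left {V : Finset ι} (hV : V.Nonempty) (a : A) :
    dd u V a = ∑ j ∈ V, dd u (V.erase j) (a * u j - u j * a) := by
  obtain ⟨m, hm⟩ := Nat.exists_eq_succ_of_ne_zero (card_ne_zero.2 hV)
  rw [dd, hm, lam]
  refine sum_congr rfl fun j hj => ?_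
  rw [dd, card_erase_of_mem hj, hm]
  rfl

/-- Pairs `(j, B)`, `j ∈ V`, `B ⊆ V - j`, as pairs `j ∈ B'`, `B' ⊆ V`. -/
theorem sum_shift (V : Finset ι) (F : ι → Finset ι → A) :
    ∑ j ∈ V, ∑ B ∈ (V.erase j).powerset, F j B =
      ∑ B ∈ V.powerset, ∑ j ∈ B, F j (B.erase j) := by
  rw [sum_sigma', sum_sigma']
  refine sum_bij' (fun q _ => (⟨insert q.1 q.2, q.1⟩ : Σ _ : Finset ι, ι))
    (fun q _ => (⟨q.2, q.1.erase q.2⟩ : Σ _ : ι, Finset ι)) ?_ ?_ ?_ ?_ ?_
  · rintro ⟨j, B⟩ h
    simp only [mem_sigma, mem_powerset] at h ⊢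
    exact ⟨insert_subset h.1 (h.2.trans (erase_subset _ _)), mem_insert_self _ _⟩
  · rintro ⟨B, j⟩ h
    simp only [mem_sigma, mem_powerset] at h ⊢
    exact ⟨h.1 h.2, erase_subset_erase _ h.1⟩
  · rintro ⟨j, B⟩ h
    simp only [mem_sigma, mem_powerset] at h
    have hj : j ∉ B := fun h' => (mem_erase.1 (h.2 h')).1 rfl
    simp only [erase_insert hj]
  · rintro ⟨B, j⟩ h
    simp only [mem_sigma, mem_powerset] at h
    simp only [insert_erase h.2]
  · rintro ⟨j, B⟩ h
    simp only [mem_sigma, mem_powerset] at h
    have hj : j ∉ B := fun h' => (mem_erase.1 (h.2 h')).1 rfl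
    simp only [erase_insert hj]

theorem sum_compl (V : Finset ι) (F : ι → Finset ι → A) :
    ∑ j ∈ V, ∑ B ∈ (V.erase j).powerset, F j B =
      ∑ B ∈ V.powerset, ∑ j ∈ V \ B, F j B := by
  refine sum_comm' ?_
  intro j B
  simp only [mem_powerset, mem_sdiff, subset_erase]
  tauto

theorem dd_eq : ∀ (m : ℕ) (V : Finset ι), V.card = m → ∀ a : A,
    dd u V a = ∑ B ∈ V.powerset, ((-1 : ℤ) ^ B.card * (V.card.choose B.card : ℤ)) •
      (e u B * a * e u (V \ B)) := by
  intro m
  induction m with
  | zero =>
    intro V hV a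
    rw [card_eq_zero.1 hV, dd_empty, powerset_empty, sum_singleton, card_empty, sdiff_empty,
      e_empty]
    simp
  | succ m ih =>
    intro V hV a
    have hne : V.Nonempty := card_ne_zero.1 (by omega)
    rw [dd_left u hne]
    have h1 : ∀ j ∈ V, dd u (V.erase j) (a * u j - u j * a) =
        ∑ B ∈ (V.erase j).powerset, ((-1 : ℤ) ^ B.card * (m.choose B.card : ℤ)) •
          (e u B * a * (u j * e u ((V \ B).erase j))) -
        ∑ B ∈ (V.erase j).powerset, ((-1 : ℤ) ^ B.card * (m.choose B.card : ℤ)) •
          (e u B * u j * (a * e u ((V.erase j) \ B))) := by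
      intro j hj
      have hc : (V.erase j).card = m := by rw [card_erase_of_mem hj, hV]; rfl
      rw [ih _ hc, ← sum_sub_distrib]
      refine sum_congr rfl fun B hB => ?_
      rw [hc, ← smul_sub, erase_sdiff_comm]
      congr 1
      noncomm_ring
    rw [sum_congr rfl h1, sum_sub_distrib, sum_compl, sum_shift, ← sum_sub_distrib]
    refine sum_congr rfl fun B hB => ?_
    rw [mem_powerset] at hB
    have hcard : B.card ≤ m + 1 := hV ▸ card_le_card hB
    -- the first sum
    have e1 : ∑ j ∈ V \ B, ((-1 : ℤ) ^ B.card * (m.choose B.card : ℤ)) •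
        (e u B * a * (u j * e u ((V \ B).erase j))) =
        ((-1 : ℤ) ^ B.card * (m.choose B.card : ℤ)) • (e u B * a * e u (V \ B)) := by
      by_cases hB' : (V \ B).Nonempty
      · rw [e_left u hB', mul_sum, smul_sum]
      · rw [not_nonempty_iff_eq_empty] at hB'
        have h2 : B = V := Subset.antisymm hB (sdiff_eq_empty_iff_subset.1 hB')
        have h3 : m.choose B.card = 0 := by
          rw [h2, hV]
          exact Nat.choose_eq_zero_of_lt (Nat.lt_succ_self m)
        rw [hB', sum_empty, h3]
        simp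
    have e2 : ∑ j ∈ B, ((-1 : ℤ) ^ (B.erase j).card * (m.choose (B.erase j).card : ℤ)) •
        (e u (B.erase j) * u j * (a * e u ((V.erase j) \ (B.erase j)))) =
        if B.card = 0 then 0 else
          ((-1 : ℤ) ^ (B.card - 1) * (m.choose (B.card - 1) : ℤ)) • (e u B * (a * e u (V \ B))) := by
      split_ifs with h0
      · rw [card_eq_zero.1 h0, sum_empty]
      · have hB' : B.Nonempty := card_ne_zero.1 h0
        rw [e_right u hB', sum_mul, smul_sum]
        refine sum_congr rfl fun j hj => ?_
        have h4 : V.erase j \ B.erase j = V \ B := by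
          ext x
          simp only [mem_sdiff, mem_erase]
          constructor
          · rintro ⟨⟨h5, h6⟩, h7⟩
            exact ⟨h6, fun h8 => h7 ⟨h5, h8⟩⟩
          · rintro ⟨h6, h7⟩
            exact ⟨⟨fun h8 => h7 (h8 ▸ hj), h6⟩, fun h8 => h7 h8.2⟩
        rw [h4, card_erase_of_mem hj]
    rw [e1, e2, hV]
    rcases Nat.eq_zero_or_pos B.card with h0 | h0
    · rw [if_pos h0, h0]
      simp
    · obtain ⟨k, hk⟩ := Nat.exists_eq_succ_of_ne_zero (by omega : B.card ≠ 0)
      rw [if_neg (by omega), hk, Nat.succ_eq_add_one, Nat.add_sub_cancel, Nat.choose_succ_succ,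
        ← mul_assoc (e u B), ← sub_smul]
      congr 1
      push_cast
      ring

theorem e_insert {o : ι} : ∀ (m : ℕ) (V : Finset ι), V.card = m → o ∉ V →
    e u (insert o V) = ∑ B ∈ V.powerset, e u B * u o * e u (V \ B) := by
  intro m
  induction m with
  | zero =>
    intro V hV ho
    rw [card_eq_zero.1 hV, e_left u (insert_nonempty _ _)]
    simp [e_empty]
  | succ m ih =>
    intro V hV ho
    rw [e_left u (insert_nonempty _ _), sum_insert ho, erase_insert ho]
    have h1 : ∀ j ∈ V, u j * e u ((insert o V).erase j) =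
        ∑ B ∈ (V.erase j).powerset, u j * e u B * (u o * e u ((V.erase j) \ B)) := by
      intro j hj
      have hc : (V.erase j).card = m := by rw [card_erase_of_mem hj, hV]; rfl
      have hoj : o ≠ j := fun h => ho (h ▸ hj)
      rw [erase_insert_of_ne hoj, ih _ hc fun h => ho (mem_of_mem_erase h), mul_sum]
      refine sum_congr rfl fun B _ => ?_
      noncomm_ring
    rw [sum_congr rfl h1, sum_shift]
    have h2 : ∀ B ∈ V.powerset, ∑ j ∈ B, u j * e u (B.erase j) *
        (u o * e u ((V.erase j) \ (B.erase j))) =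
        if B = ∅ then 0 else e u B * u o * e u (V \ B) := by
      intro B hB
      split_ifs with h0
      · rw [h0, sum_empty]
      · rw [e_left u (nonempty_iff_ne_empty.2 h0), sum_mul, sum_mul]
        refine sum_congr rfl fun j hj => ?_
        have h4 : V.erase j \ B.erase j = V \ B := by
          ext x
          simp only [mem_sdiff, mem_erase]
          constructor
          · rintro ⟨⟨h5, h6⟩, h7⟩
            exact ⟨h6, fun h8 => h7 ⟨h5, h8⟩⟩
          · rintro ⟨h6, h7⟩
            exact ⟨⟨fun h8 => h7 (h8 ▸ hj), h6⟩, fun h8 => h7 h8.2⟩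
        rw [h4, ← mul_assoc]
    rw [sum_congr rfl h2]
    have h3 : u o * e u V = ∑ B ∈ V.powerset, if B = ∅ then e u B * u o * e u (V \ B) else 0 := by
      rw [sum_ite_eq' , if_pos (empty_mem_powerset V), e_empty, one_mul, sdiff_empty]
    rw [h3, ← sum_add_distrib]
    refine sum_congr rfl fun B _ => ?_
    split_ifs <;> simp

end

/-! ## Convolution over unions -/

section

variable {ι : Type} [DecidableEq ι] {A : Type} [Ring A]

/-- The pairs with union `U`. -/
def prs (U : Finset ι) : Finset (Finset ι × Finset ι) :=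
  (U.powerset ×ˢ U.powerset).filter fun q => q.1 ∪ q.2 = U

theorem mem_prs {U : Finset ι} {q : Finset ι × Finset ι} : q ∈ prs U ↔ q.1 ∪ q.2 = U := by
  rw [prs, mem_filter, mem_product, mem_powerset, mem_powerset]
  exact ⟨fun h => h.2, fun h => ⟨⟨h ▸ subset_union_left, h ▸ subset_union_right⟩, h⟩⟩

/-- Convolution. -/
def conv (a b : Finset ι → A) (U : Finset ι) : A := ∑ q ∈ prs U, a q.1 * b q.2

/-- Sums over subsets. -/
def zt (a : Finset ι → A) (T : Finset ι) : A := ∑ U ∈ T.powerset, a U

theorem zt_conv (a b : Finset ι → A) (T : Finset ι) : zt (conv a b) T = zt a T * zt b T := by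
  rw [zt, zt, zt, sum_mul_sum, ← sum_product']
  rw [← sum_fiberwise_of_maps_to (s := T.powerset ×ˢ T.powerset) (t := T.powerset)
    (g := fun q => q.1 ∪ q.2)]
  · refine sum_congr rfl fun U hU => ?_
    rw [conv]
    refine sum_congr ?_ fun _ _ => rfl
    ext q
    rw [mem_prs, mem_filter, mem_product, mem_powerset, mem_powerset]
    rw [mem_powerset] at hU
    exact ⟨fun h => ⟨⟨(h ▸ subset_union_left : q.1 ⊆ U).trans hU,
      (h ▸ subset_union_right : q.2 ⊆ U).trans hU⟩, h⟩, fun h => h.2⟩
  · intro q hq
    rw [mem_product, mem_powerset, mem_powerset] at hq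
    rw [mem_powerset]
    exact union_subset hq.1 hq.2

theorem mob {a : Finset ι → A} (h : ∀ T, zt a T = 0) : ∀ T, a T = 0 := by
  intro T
  induction T using Finset.strongInduction with
  | H T ih =>
    have h1 := h T
    rw [zt, ← insert_erase (mem_powerset_self T), sum_insert (notMem_erase _ _)] at h1
    rw [sum_eq_zero, add_zero] at h1
    · exact h1
    · intro U hU
      rw [mem_erase, mem_powerset] at hU
      exact ih U (hU.2.ssubset_of_ne hU.1)

/-- The unit. -/
def dl : Finset ι → A := fun U => if U = ∅ then 1 else 0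

theorem zt_dl (T : Finset ι) : zt (dl : Finset ι → A) T = 1 := by
  rw [zt]
  simp only [dl]
  rw [sum_ite_eq', if_pos (empty_mem_powerset T)]

/-- Powers. -/
def cp (c : Finset ι → A) : ℕ → Finset ι → A
  | 0 => dl
  | m + 1 => conv c (cp c m)

theorem zt_cp (c : Finset ι → A) (m : ℕ) (T : Finset ι) : zt (cp c m) T = zt c T ^ m := by
  induction m with
  | zero => rw [cp, zt_dl, pow_zero]
  | succ m ih => rw [cp, zt_conv, ih, pow_succ']

/-! ## Weights -/

variable (I : Ideal A) [I.IsTwoSided] (wt : ι → ℕ)

theorem mulI {m n : ℕ} {a b : A} (ha : a ∈ I ^ m) (hb : b ∈ I ^ n) : a * b ∈ I ^ (m + n) := by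
  rw [Ideal.IsTwoSided.pow_add]
  exact Ideal.mul_mem_mul ha hb

theorem leI {m n : ℕ} (h : m ≤ n) {a : A} (ha : a ∈ I ^ n) : a ∈ I ^ m :=
  Ideal.pow_le_pow_right h ha

/-- The weight of a set. -/
def wS (U : Finset ι) : ℕ := ∑ j ∈ U, wt j

theorem wS_union (U V : Finset ι) : wS wt (U ∪ V) + wS wt (U ∩ V) = wS wt U + wS wt V :=
  sum_union_inter

theorem conv_mem {a b : Finset ι → A} (ha : ∀ U, a U ∈ I ^ wS wt U)
    (hb : ∀ U, b U ∈ I ^ wS wt U) (U : Finset ι) : conv a b U ∈ I ^ wS wt U := by
  rw [conv]
  refine Submodule.sum_mem _ fun q hq => ?_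
  rw [mem_prs] at hq
  have h := wS_union wt q.1 q.2
  rw [hq] at h
  exact leI I (by omega) (mulI I (ha q.1) (hb q.2))

theorem dl_mem (U : Finset ι) : (dl U : A) ∈ I ^ wS wt U := by
  unfold dl
  split_ifs with h
  · have h1 : I ^ (0 : ℕ) = ⊤ := by simp
    rw [h, wS, sum_empty, h1]
    exact Submodule.mem_top
  · exact Submodule.zero_mem _

theorem cp_mem {c : Finset ι → A} (hc : ∀ U, c U ∈ I ^ wS wt U) (m : ℕ) (U : Finset ι) :
    cp c m U ∈ I ^ wS wt U := by
  induction m generalizing U with
  | zero => exact dl_mem I wt U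
  | succ m ih => exact conv_mem I wt hc ih U

variable (u : ι → A)

theorem wS_erase {U : Finset ι} {j : ι} (hj : j ∈ U) : wt j + wS wt (U.erase j) = wS wt U := by
  rw [wS, wS, add_comm, sum_erase_add _ _ hj]

theorem cp_main (hw : ∀ j, 1 ≤ wt j) {c : Finset ι → A} (hc : ∀ U, c U ∈ I ^ wS wt U)
    (h0 : c ∅ = 0) (h1 : ∀ j, c {j} = u j) (m : ℕ) : ∀ U : Finset ι, U.card ≤ m →
    cp c m U - (if U.card = m then e u U else 0) ∈ I ^ (wS wt U + 1) := by
  induction m with
  | zero =>
    intro U hU
    have hU' : U = ∅ := card_eq_zero.1 (by omega)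
    rw [hU', card_empty, if_pos rfl, e_empty]
    have : (cp c 0 (∅ : Finset ι) : A) = 1 := by rw [cp, dl, if_pos rfl]
    rw [this, sub_self]
    exact Submodule.zero_mem _
  | succ m ih =>
    intro U hU
    have hX : (if U.card = m + 1 then e u U else 0) =
        ∑ j ∈ U, c {j} * (if (U.erase j).card = m then e u (U.erase j) else 0) := by
      split_ifs with h
      · rw [e_left u (card_ne_zero.1 (by omega))]
        refine sum_congr rfl fun j hj => ?_
        rw [if_pos (by rw [card_erase_of_mem hj, h]; rfl), h1]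
      · symm
        refine sum_eq_zero fun j hj => ?_
        rw [if_neg, mul_zero]
        rw [card_erase_of_mem hj]
        have : 0 < U.card := card_pos.2 ⟨j, hj⟩
        omega
    have hinj : ∀ x ∈ U, ∀ y ∈ U, (({x}, U.erase x) : Finset ι × Finset ι) = ({y}, U.erase y) →
        x = y := fun x _ y _ h => singleton_injective (Prod.ext_iff.1 h).1
    have hsub : U.image (fun j => (({j}, U.erase j) : Finset ι × Finset ι)) ⊆ prs U := by
      intro q hq
      rw [mem_image] at hq
      obtain ⟨j, hj, rfl⟩ := hq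
      rw [mem_prs]
      change {j} ∪ U.erase j = U
      rw [← insert_eq, insert_erase hj]
    rw [hX, cp, conv, ← sum_sdiff hsub, sum_image hinj, add_sub_assoc, ← sum_sub_distrib]
    refine Submodule.add_mem _ (Submodule.sum_mem _ fun q hq => ?_)
      (Submodule.sum_mem _ fun j hj => ?_)
    · rw [mem_sdiff, mem_prs] at hq
      obtain ⟨hq, hq'⟩ := hq
      have hwu := wS_union wt q.1 q.2
      rw [hq] at hwu
      rcases q.1.eq_empty_or_nonempty with he | hne
      · rw [he, h0, zero_mul]
        exact Submodule.zero_mem _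
      · by_cases hdis : q.1 ∩ q.2 = ∅
        · have hcard : q.1.card + q.2.card = U.card := by
            rw [← hq, card_union_of_disjoint (disjoint_iff_inter_eq_empty.2 hdis)]
          have h2 : 2 ≤ q.1.card := by
            by_contra hlt
            have h3 : q.1.card = 1 := by
              have := card_pos.2 hne
              omega
            obtain ⟨j, hj⟩ := card_eq_one.1 h3
            apply hq'
            rw [mem_image]
            have hjU : j ∈ U := hq ▸ mem_union_left _ (hj ▸ mem_singleton_self j)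
            refine ⟨j, hjU, ?_⟩
            refine Prod.ext hj.symm ?_
            change U.erase j = q.2
            rw [← hq, hj] 
            rw [hj] at hdis
            have hjn : j ∉ q.2 := fun h => by
              have : j ∈ ({j} : Finset ι) ∩ q.2 := mem_inter.2 ⟨mem_singleton_self j, h⟩
              rw [hdis] at this
              exact notMem_empty _ this
            rw [← insert_eq, erase_insert hjn]
          have h4 := ih q.2 (by omega)
          rw [if_neg (by omega), sub_zero] at h4
          have h00 : wS wt (∅ : Finset ι) = 0 := sum_empty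
          rw [hdis, h00, add_zero] at hwu
          have h5 := mulI I (hc q.1) h4
          exact leI I (by omega) h5
        · obtain ⟨j, hj⟩ := nonempty_iff_ne_empty.2 hdis
          have h3 : 1 ≤ wS wt (q.1 ∩ q.2) :=
            (hw j).trans (single_le_sum (fun _ _ => Nat.zero_le _) hj)
          exact leI I (by omega) (mulI I (hc q.1) (cp_mem I wt hc m q.2))
    · have hpos : 0 < U.card := card_pos.2 ⟨j, hj⟩
      have h4 := ih (U.erase j) (by rw [card_erase_of_mem hj]; omega)
      rw [← mul_sub]
      have h5 := mulI I (hc {j}) h4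
      rw [wS, sum_singleton, ← add_assoc, wS_erase wt hj] at h5
      exact h5

/-! ## The coefficients of a product -/

/-- The coefficients of the product of the `1 + u_j`, `j` in the list. -/
def c0 : List ι → Finset ι → A
  | [] => dl
  | a :: L => conv (fun U => dl U + if U = {a} then u a else 0) (c0 L)

theorem zt_c0 (L : List ι) (T : Finset ι) :
    zt (c0 u L) T = (L.map fun a => if a ∈ T then 1 + u a else 1).prod := by
  induction L with
  | nil => rw [c0, zt_dl]; rfl
  | cons a L ih =>
    rw [c0, zt_conv, ih, List.map_cons, List.prod_cons]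
    congr 1
    have h1 : zt (fun U => dl U + if U = {a} then u a else 0) T =
        zt (dl : Finset ι → A) T + ∑ U ∈ T.powerset, if U = {a} then u a else 0 := by
      rw [zt, zt, sum_add_distrib]
    rw [h1, zt_dl, sum_ite_eq']
    by_cases ha : a ∈ T
    · rw [if_pos ha, if_pos (mem_powerset.2 (singleton_subset_iff.2 ha))]
    · rw [if_neg ha, if_neg (fun h => ha (singleton_subset_iff.1 (mem_powerset.1 h))), add_zero]

theorem c0_empty (L : List ι) : c0 u L ∅ = 1 := by
  have h := zt_c0 u L ∅
  rw [zt, powerset_empty, sum_singleton] at h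
  rw [h]
  apply List.prod_eq_one
  intro x hx
  rw [List.mem_map] at hx
  obtain ⟨a, _, rfl⟩ := hx
  exact if_neg (notMem_empty a)

theorem prod_one {L : List ι} {j : ι} (hj : j ∉ L) :
    (L.map fun a => if a ∈ ({j} : Finset ι) then 1 + u a else 1).prod = 1 := by
  apply List.prod_eq_one
  intro x hx
  rw [List.mem_map] at hx
  obtain ⟨a, ha, rfl⟩ := hx
  exact if_neg fun h => hj (by rw [← mem_singleton.1 h]; exact ha)

theorem prod_sing {L : List ι} (hL : L.Nodup) {j : ι} (hj : j ∈ L) :
    (L.map fun a => if a ∈ ({j} : Finset ι) then 1 + u a else 1).prod = 1 + u j := by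
  induction L with
  | nil => exact absurd hj List.not_mem_nil
  | cons a L ih =>
    rw [List.map_cons, List.prod_cons]
    rw [List.nodup_cons] at hL
    rcases List.mem_cons.1 hj with h | h
    · subst h
      rw [if_pos (mem_singleton_self j), prod_one u hL.1, mul_one]
    · have hne : a ≠ j := fun h' => hL.1 (h' ▸ h)
      rw [if_neg (fun h' => hne (mem_singleton.1 h')), one_mul, ih hL.2 h]

theorem c0_sing {L : List ι} (hL : L.Nodup) {j : ι} (hj : j ∈ L) : c0 u L {j} = u j := by
  have h := zt_c0 u L {j}
  have h2 : ({j} : Finset ι).powerset = {∅, {j}} := by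
    ext U
    rw [mem_powerset, subset_singleton_iff, mem_insert, mem_singleton]
  rw [zt, h2, sum_insert (by
    rw [mem_singleton]
    exact (singleton_ne_empty j).symm), sum_singleton, c0_empty, prod_sing u hL hj] at h
  exact add_left_cancel h

theorem c0_mem (hu : ∀ j, u j ∈ I ^ wt j) (L : List ι) (U : Finset ι) :
    c0 u L U ∈ I ^ wS wt U := by
  induction L generalizing U with
  | nil => exact dl_mem I wt U
  | cons a L ih =>
    refine conv_mem I wt (fun U => ?_) ih U
    refine Submodule.add_mem _ (dl_mem I wt U) ?_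
    split_ifs with h
    · rw [h, wS, sum_singleton]
      exact hu a
    · exact Submodule.zero_mem _

/-- The identity: if all `(∏ (1 + u_j) - 1) ^ p` vanish then the symmetrised product of the `p`
elements `u_j` has larger weight. -/
theorem e_mem [Fintype ι] (p : ℕ) (hp : Fintype.card ι = p) (hw : ∀ j, 1 ≤ wt j)
    (hu : ∀ j, u j ∈ I ^ wt j) (L : List ι) (hL : L.Nodup) (hL' : ∀ j, j ∈ L)
    (hz : ∀ T : Finset ι, ((L.map fun a => if a ∈ T then 1 + u a else 1).prod - 1) ^ p = 0) :
    e u univ ∈ I ^ (wS wt univ + 1) := by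
  let c : Finset ι → A := fun U => c0 u L U - dl U
  have hc : ∀ U, c U ∈ I ^ wS wt U := fun U =>
    Submodule.sub_mem _ (c0_mem I wt u hu L U) (dl_mem I wt U)
  have h0 : c ∅ = 0 := by
    change c0 u L ∅ - dl ∅ = 0
    rw [c0_empty, dl, if_pos rfl, sub_self]
  have h1 : ∀ j, c {j} = u j := by
    intro j
    change c0 u L {j} - dl {j} = u j
    rw [c0_sing u hL (hL' j), dl, if_neg (singleton_ne_empty j), sub_zero]
  have h2 : ∀ T, zt (cp c p) T = 0 := by
    intro T
    rw [zt_cp]
    have : zt c T = (L.map fun a => if a ∈ T then 1 + u a else 1).prod - 1 := by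
      rw [← zt_c0, ← zt_dl T, zt, zt, zt, ← sum_sub_distrib]
    rw [this, hz]
  have h3 := cp_main I wt u hw hc h0 h1 p univ (by rw [card_univ, hp])
  rw [mob h2, card_univ, if_pos hp, zero_sub] at h3
  exact (Submodule.neg_mem_iff _).1 h3

end

/-- Binomial coefficients modulo `p`. -/
theorem choose_mod {p : ℕ} [Fact p.Prime] (k : ℕ) (hk : k ≤ p - 1) :
    ((-1 : ZMod p)) ^ k * ((p - 1).choose k : ZMod p) = 1 := by
  have hp : p.Prime := Fact.out
  induction k with
  | zero => simp
  | succ k ih =>
    have h1 := ih (by omega)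
    have h2 : (p - 1).choose k + (p - 1).choose (k + 1) = p.choose (k + 1) := by
      conv_rhs => rw [← Nat.sub_add_cancel hp.one_le]
      rw [Nat.choose_succ_succ]
    have h3 : ((p.choose (k + 1) : ℕ) : ZMod p) = 0 := by
      rw [ZMod.natCast_eq_zero_iff]
      exact hp.dvd_choose_self (by omega) (by omega)
    rw [← h2] at h3
    push_cast at h3
    have h4 : ((p - 1).choose (k + 1) : ZMod p) = -((p - 1).choose k : ZMod p) :=
      (neg_eq_of_add_eq_zero_right h3).symm
    rw [h4, pow_succ]
    linear_combination h1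

end EngA

open EngA in
/-- Module M12a. -/
theorem stEngA_54 (hG : StGA) : StEngA := by
  intro p _ P _ _ hexp w i hw hi g hg x hx
  have hp : p.Prime := Fact.out
  obtain ⟨hG1, -, -, -, -, -, -, hG8⟩ := hG p P
  let ι : Type := Option (Fin (p - 1))
  let y : ι → P := fun o => o.elim g x
  let u : ι → GA p P := fun o => io p (y o) - 1
  let wt : ι → ℕ := fun o => o.elim w fun _ => i
  have hw' : ∀ j, 1 ≤ wt j := by
    rintro (_ | j)
    · exact hw
    · exact hi
  have hu : ∀ j, u j ∈ Dl p P ^ wt j := by
    rintro (_ | j)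
    · exact hg
    · exact hx j
  have hcard : Fintype.card ι = p := by
    rw [Fintype.card_option, Fintype.card_fin]
    exact Nat.sub_add_cancel hp.one_le
  have hz : ∀ T : Finset ι, (((univ : Finset ι).toList.map
      fun a => if a ∈ T then 1 + u a else 1).prod - 1) ^ p = 0 := by
    intro T
    have h1 : ((univ : Finset ι).toList.map fun a => if a ∈ T then 1 + u a else 1).prod =
        io p ((univ : Finset ι).toList.map fun a => if a ∈ T then y a else 1).prod := by
      rw [map_list_prod, List.map_map]
      congr 1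
      refine List.map_congr_left fun a _ => ?_
      change _ = io p (if a ∈ T then y a else 1)
      split_ifs
      · change 1 + (io p (y a) - 1) = io p (y a)
        abel
      · rw [map_one]
    rw [h1]
    exact hG8 _ (hexp _)
  have key := e_mem (Dl p P) wt u p hcard hw' hu (univ : Finset ι).toList (nodup_toList _)
    (fun j => mem_toList.2 (mem_univ j)) hz
  -- the weight
  have hW : wS wt (univ : Finset ι) = w + (p - 1) * i := by
    rw [wS, Fintype.sum_option]
    change w + ∑ _j : Fin (p - 1), i = _
    rw [sum_const, card_univ, Fintype.card_fin, smul_eq_mul]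
  rw [hW] at key
  -- the set of the `x`
  have hno : (none : ι) ∉ (univ : Finset (Fin (p - 1))).image (some : Fin (p - 1) → ι) := by
    simp
  have huniv : (univ : Finset ι) = insert none (univ.image (some : Fin (p - 1) → ι)) := by
    ext a
    rcases a with _ | a <;> simp
  have hcV : ((univ : Finset (Fin (p - 1))).image (some : Fin (p - 1) → ι)).card = p - 1 := by
    rw [card_image_of_injective _ (Option.some_injective _), card_univ, Fintype.card_fin]
  rw [huniv, e_insert u _ _ rfl hno] at key
  have h2 := sum_perm (A := GA p P) (p - 1) (some : Fin (p - 1) → ι) (Option.some_injective _)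
    (fun l => ita (io p g - 1) (l.map u))
  have h3 : lam (p - 1) ((univ : Finset (Fin (p - 1))).image (some : Fin (p - 1) → ι))
      (fun l => ita (io p g - 1) (l.map u)) =
      dd u ((univ : Finset (Fin (p - 1))).image (some : Fin (p - 1) → ι)) (io p g - 1) := by
    rw [dd, hcV]
  rw [h3, dd_eq u _ _ rfl] at h2
  have h4 : ∑ σ : Equiv.Perm (Fin (p - 1)), ita (io p g - 1)
      (List.ofFn (fun j => io p (x (σ j)) - 1)) =
      ∑ σ : Equiv.Perm (Fin (p - 1)), ita (io p g - 1)
        ((List.ofFn (fun k => (some (σ k) : ι))).map u) := by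
    refine sum_congr rfl fun σ _ => ?_
    rw [List.map_ofFn]
    rfl
  rw [h4, h2]
  convert key using 1
  refine sum_congr rfl fun B hB => ?_
  have hBc : B.card ≤ p - 1 := hcV ▸ card_le_card (mem_powerset.1 hB)
  have h5 := choose_mod (p := p) B.card hBc
  rw [hcV]
  have h6 : ∀ (z : ℤ) (a : GA p P), z • a = (z : ZMod p) • a := fun z a => (Int.cast_smul_eq_zsmul _ z a).symm
  rw [h6]
  push_cast
  rw [h5, one_smul]
  rfl

end Pool.Agent.PX
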