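import Pool.Agent.Lib.MP_2b9f9a_al.PX.Stmts
import Pool.Agent.Lib.MP_2b9f9a_al.PX.Lc78

/-!
# Module M12b: the Engel identity in the graded Lie ring
-/

set_option autoImplicit false

namespace Pool.Agent.PX

open Finset

namespace Eng

section

variable {A : Type} [Ring A]

theorem ita_cons (a y : A) (l : List A) : ita a (y :: l) = ita (a * y - y * a) l := rfl

theorem ita_sub (l : List A) : ∀ a b : A, ita (a - b) l = ita a l - ita b l := by
  induction l with
  | nil => intro a b; rfl
  | cons y l ih =>
    intro a b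
    rw [ita_cons, ita_cons, ita_cons, ← ih]
    congr 1
    noncomm_ring

variable (I : Ideal A) [I.IsTwoSided]

theorem mulI {m n : ℕ} {a b : A} (ha : a ∈ I ^ m) (hb : b ∈ I ^ n) : a * b ∈ I ^ (m + n) := by
  rw [Ideal.IsTwoSided.pow_add]
  exact Ideal.mul_mem_mul ha hb

theorem ita_mem (i : ℕ) (l : List A) (hl : ∀ y ∈ l, y ∈ I ^ i) : ∀ (m : ℕ) (a : A), a ∈ I ^ m →
    ita a l ∈ I ^ (m + l.length * i) := by
  induction l with
  | nil =>
    intro m a ha
    rw [List.length_nil, zero_mul, add_zero]
    exact ha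
  | cons y l ih =>
    intro m a ha
    have hy := hl y List.mem_cons_self
    have h1 : a * y - y * a ∈ I ^ (m + i) :=
      Submodule.sub_mem _ (mulI I ha hy) (by rw [add_comm]; exact mulI I hy ha)
    have h2 := ih (fun z hz => hl z (List.mem_cons_of_mem _ hz)) (m + i) _ h1
    rw [ita_cons, List.length_cons, show m + (l.length + 1) * i = m + i + l.length * i by ring]
    exact h2

end

section

variable {L : Type} [LieRing L]

theorem itb_cons (a y : L) (l : List L) : itb a (y :: l) = itb ⁅a, y⁆ l := rfl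

theorem itb_add (l : List L) : ∀ a b : L, itb (a + b) l = itb a l + itb b l := by
  induction l with
  | nil => intro a b; rfl
  | cons y l ih =>
    intro a b
    rw [itb_cons, itb_cons, itb_cons, ← ih, add_lie]

theorem itb_zero (l : List L) : itb (0 : L) l = 0 := by
  have h := itb_add l 0 0
  rw [add_zero] at h
  exact left_eq_add.1 h

end

/-- Iterated commutator in a group. -/
def gc {P : Type} [Group P] (g : P) (l : List P) : P := l.foldl (fun g x => g * x * g⁻¹ * x⁻¹) g

theorem gc_cons {P : Type} [Group P] (g x : P) (l : List P) :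
    gc g (x :: l) = gc (g * x * g⁻¹ * x⁻¹) l := rfl

theorem gc_mem {P : Type} [Group P] {i : ℕ} (hi : 1 ≤ i) (l : List P) (hl : ∀ y ∈ l, y ∈ lc P i) :
    ∀ (w : ℕ), 1 ≤ w → ∀ g ∈ lc P w, gc g l ∈ lc P (w + l.length * i) := by
  induction l with
  | nil =>
    intro w _ g hg
    rw [List.length_nil, zero_mul, add_zero]
    exact hg
  | cons y l ih =>
    intro w hw g hg
    have h := ih (fun z hz => hl z (List.mem_cons_of_mem _ hz)) (w + i) (by omega) _
      (Lc78.mem_lcc hw hi hg (hl y List.mem_cons_self))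
    rw [gc_cons, List.length_cons, show w + (l.length + 1) * i = w + i + l.length * i by ring]
    exact h

theorem itb_cls {p : ℕ} {Γ P L : Type} [Group Γ] [Group P] [MulDistribMulAction Γ P] [LieRing L]
    {cls : ℕ → P → L} {act : Γ →* AddMonoid.End L} (h : GrL p Γ P L cls act) {i : ℕ} (hi : 1 ≤ i)
    (l : List P) (hl : ∀ y ∈ l, y ∈ lc P i) : ∀ (w : ℕ), 1 ≤ w → ∀ g ∈ lc P w,
    itb (cls w g) (l.map (cls i)) = cls (w + l.length * i) (gc g l) := by
  induction l with
  | nil =>
    intro w _ g _
    rw [List.length_nil, zero_mul, add_zero]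
    rfl
  | cons y l ih =>
    intro w hw g hg
    have hy := hl y List.mem_cons_self
    have h1 := ih (fun z hz => hl z (List.mem_cons_of_mem _ hz)) (w + i) (by omega) _
      (Lc78.mem_lcc hw hi hg hy)
    rw [List.map_cons, itb_cons, gc_cons, h.brk w i hw hi g hg y hy, h1, List.length_cons,
      show w + (l.length + 1) * i = w + i + l.length * i by ring]

theorem gc_ita (hG : StGA) {p : ℕ} [Fact p.Prime] {P : Type} [Group P] [Finite P] {i : ℕ}
    (hi : 1 ≤ i) (l : List P) (hl : ∀ y ∈ l, y ∈ Dn p P i) : ∀ (w : ℕ), 1 ≤ w → ∀ g ∈ Dn p P w,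
    (io p (gc g l) - 1) - ita (io p g - 1) (l.map fun x => io p x - 1) ∈
      Dl p P ^ (w + l.length * i + 1) := by
  obtain ⟨-, -, -, -, hG5, hG6, -, -⟩ := hG p P
  induction l with
  | nil =>
    intro w _ g _
    change (io p g - 1) - (io p g - 1) ∈ _
    rw [sub_self]
    exact Submodule.zero_mem _
  | cons y l ih =>
    intro w hw g hg
    have hy := hl y List.mem_cons_self
    have hmem : g * y * g⁻¹ * y⁻¹ ∈ Dn p P (w + i) :=
      hG5 w i hw hi (Subgroup.commutator_mem_commutator hg hy)
    have h1 := ih (fun z hz => hl z (List.mem_cons_of_mem _ hz)) (w + i) (by omega) _ hmem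
    have h2 := ita_mem (Dl p P) i (l.map fun x => io p x - 1) (by
      intro z hz
      rw [List.mem_map] at hz
      obtain ⟨x, hx, rfl⟩ := hz
      exact hl x (List.mem_cons_of_mem _ hx)) (w + i + 1) _ (hG6 w i hw hi g hg y hy)
    rw [ita_sub, List.length_map, show w + i + 1 + l.length * i = w + i + l.length * i + 1 by ring]
      at h2
    have h3 := Submodule.add_mem _ h1 h2
    rw [sub_add_sub_cancel] at h3
    rw [gc_cons, List.map_cons, ita_cons, List.length_cons,
      show w + (l.length + 1) * i + 1 = w + i + l.length * i + 1 by ring]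
    exact h3

theorem prod_mem {p : ℕ} {P : Type} [Group P] {W : ℕ} (hW : 1 ≤ W) (l : List P)
    (hl : ∀ y ∈ l, y ∈ Dn p P W) :
    (io p l.prod - 1) - (l.map fun x => io p x - 1).sum ∈ Dl p P ^ (W + 1) := by
  induction l with
  | nil =>
    rw [List.prod_nil, map_one, sub_self, List.map_nil, List.sum_nil, sub_zero]
    exact Submodule.zero_mem _
  | cons y l ih =>
    have hy : io p y - 1 ∈ Dl p P ^ W := hl y List.mem_cons_self
    have hp : l.prod ∈ Dn p P W := Subgroup.list_prod_mem _ fun z hz =>
      hl z (List.mem_cons_of_mem _ hz)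
    have h1 := ih fun z hz => hl z (List.mem_cons_of_mem _ hz)
    have h2 : (io p y - 1) * (io p l.prod - 1) ∈ Dl p P ^ (W + 1) :=
      Ideal.pow_le_pow_right (by omega) (mulI (Dl p P) hy hp)
    have h3 := Submodule.add_mem _ h1 h2
    rw [List.prod_cons, List.map_cons, List.sum_cons, map_mul]
    have e : io p y * io p l.prod - 1 - (io p y - 1 + (l.map fun x => io p x - 1).sum) =
        (io p l.prod - 1) - (l.map fun x => io p x - 1).sum +
          (io p y - 1) * (io p l.prod - 1) := by noncomm_ring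
    rw [e]
    exact h3

theorem cls_prod {p : ℕ} {Γ P L : Type} [Group Γ] [Group P] [MulDistribMulAction Γ P] [LieRing L]
    {cls : ℕ → P → L} {act : Γ →* AddMonoid.End L} (h : GrL p Γ P L cls act) {W : ℕ} (hW : 1 ≤ W)
    (l : List P) (hl : ∀ y ∈ l, y ∈ lc P W) : cls W l.prod = (l.map (cls W)).sum := by
  induction l with
  | nil =>
    rw [List.prod_nil, List.map_nil, List.sum_nil]
    exact (h.zero W hW 1 (one_mem _)).2 (one_mem _)
  | cons y l ih =>
    have h1 := ih fun z hz => hl z (List.mem_cons_of_mem _ hz)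
    rw [List.prod_cons, List.map_cons, List.sum_cons, ← h1]
    exact h.mul W hW y (hl y List.mem_cons_self) _ (Subgroup.list_prod_mem _ fun z hz =>
      hl z (List.mem_cons_of_mem _ hz))

end Eng

open Eng in
/-- Module M12b. -/
theorem stEng_54 (hG : StGA) (hA : StEngA) : StEng := by
  intro p _ Γ P _ _ _ _ hexp L _ cls act h i hi x hx a
  have hG' := hG p P
  obtain ⟨-, -, -, -, -, -, hG7, -⟩ := hG'
  -- classes
  have key : ∀ w, 1 ≤ w → ∀ g ∈ lc P w,
      ∑ σ : Equiv.Perm (Fin (p - 1)), itb (cls w g) (List.ofFn (fun j => cls i (x (σ j)))) = 0 := by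
    intro w hw g hg
    let c : Equiv.Perm (Fin (p - 1)) → P := fun σ => gc g (List.ofFn fun j => x (σ j))
    let W : ℕ := w + (p - 1) * i
    have hW : 1 ≤ W := by
      change 1 ≤ w + (p - 1) * i
      omega
    have hmem : ∀ σ : Equiv.Perm (Fin (p - 1)), ∀ y ∈ List.ofFn (fun j => x (σ j)), y ∈ lc P i := by
      intro σ y hy
      rw [List.mem_ofFn'] at hy
      obtain ⟨j, rfl⟩ := hy
      exact hx _
    have hc : ∀ σ, c σ ∈ lc P W := by
      intro σ
      have := gc_mem hi _ (hmem σ) w hw g hg
      rwa [List.length_ofFn] at this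
    have e1 : ∀ σ : Equiv.Perm (Fin (p - 1)),
        itb (cls w g) (List.ofFn (fun j => cls i (x (σ j)))) = cls W (c σ) := by
      intro σ
      have := itb_cls h hi _ (hmem σ) w hw g hg
      rw [List.length_ofFn, List.map_ofFn] at this
      exact this
    let l : List P := (univ : Finset (Equiv.Perm (Fin (p - 1)))).toList.map c
    have hl : ∀ y ∈ l, y ∈ lc P W := by
      intro y hy
      rw [List.mem_map] at hy
      obtain ⟨σ, _, rfl⟩ := hy
      exact hc σ
    have e2 : ∑ σ : Equiv.Perm (Fin (p - 1)), cls W (c σ) = cls W l.prod := by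
      rw [cls_prod h hW l hl, List.map_map]
      exact (sum_map_toList _ _).symm
    rw [sum_congr rfl fun σ _ => e1 σ, e2]
    refine (h.zero W hW l.prod (Subgroup.list_prod_mem _ hl)).2 ?_
    rw [mem_Dn]
    have h1 := prod_mem (p := p) hW l fun y hy => hG7 W hW (hl y hy)
    have h2 : (l.map fun x => io p x - 1).sum ∈ Dl p P ^ (W + 1) := by
      rw [List.map_map]
      have e3 : ((univ : Finset (Equiv.Perm (Fin (p - 1)))).toList.map
          ((fun x => io p x - 1) ∘ c)).sum = ∑ σ, (io p (c σ) - 1) := sum_map_toList _ _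
      rw [e3]
      have h3 := hA p P hexp w i hw hi g (hG7 w hw hg) x fun j => hG7 i hi (hx j)
      have h4 : ∑ σ : Equiv.Perm (Fin (p - 1)), ((io p (c σ) - 1) - ita (io p g - 1)
          (List.ofFn (fun j => io p (x (σ j)) - 1))) ∈ Dl p P ^ (W + 1) := by
        refine Submodule.sum_mem _ fun σ _ => ?_
        have := gc_ita hG (p := p) hi (List.ofFn fun j => x (σ j))
          (fun y hy => hG7 i hi (hmem σ y hy)) w hw g (hG7 w hw hg)
        rw [List.length_ofFn, List.map_ofFn] at this
        exact this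
      rw [sum_sub_distrib] at h4
      have h5 := Submodule.add_mem _ h4 h3
      rwa [sub_add_cancel] at h5
    have h6 := Submodule.add_mem _ h1 h2
    rwa [sub_add_cancel] at h6
  -- additivity
  obtain ⟨n, f, hf, rfl⟩ := h.span a
  let Φ : L →+ L :=
    { toFun := fun a => ∑ σ : Equiv.Perm (Fin (p - 1)),
        itb a (List.ofFn (fun j => cls i (x (σ j))))
      map_zero' := sum_eq_zero fun σ _ => itb_zero _
      map_add' := fun a b => by
        rw [← sum_add_distrib]
        exact sum_congr rfl fun σ _ => itb_add _ _ _ }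
  change Φ _ = 0
  rw [map_sum]
  exact sum_eq_zero fun w hw => key w (mem_Icc.1 hw).1 (f w) (hf w)

end Pool.Agent.PX
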