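import Pool.Agent.Lib.MP_2b9f9a_al.PX.Stmts

/-!
# PX, module 1: the truncated exponential
-/

set_option autoImplicit false

namespace Pool.Agent.PX

open Finset

namespace Ex28

set_option linter.unusedSectionVars false

variable {p : ℕ} [Fact p.Prime] {A : Type} [Ring A] [Algebra (ZMod p) A]
  {J : Ideal A} [J.IsTwoSided]

theorem smul_mem {I : Ideal A} (c : ZMod p) {x : A} (hx : x ∈ I) : c • x ∈ I := by
  rw [Algebra.smul_def]
  exact I.mul_mem_left _ hx

theorem mul_mem_pow {m n : ℕ} {a b : A} (ha : a ∈ J ^ m) (hb : b ∈ J ^ n) :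
    a * b ∈ J ^ (m + n) := by
  rw [Ideal.IsTwoSided.pow_add]
  exact Ideal.mul_mem_mul ha hb

theorem eq_zero (hJ : J ^ p = ⊥) {n : ℕ} (hn : p ≤ n) {a : A} (ha : a ∈ J ^ n) : a = 0 := by
  have h := Ideal.pow_le_pow_right hn ha
  rw [hJ] at h
  simpa using h

theorem ex_zero : ex p (0 : A) = 1 := by
  have hp : 0 < p := (Fact.out : p.Prime).pos
  unfold ex
  rw [Finset.sum_eq_single_of_mem 0 (Finset.mem_range.2 hp)]
  · simp
  · intro k _ hk
    rw [zero_pow hk, smul_zero]

theorem ex_add (hJ : J ^ p = ⊥) {u v : A} (hu : u ∈ J) (hv : v ∈ J) (huv : u * v = v * u) :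
    ex p (u + v) = ex p u * ex p v := by
  have hp : p.Prime := Fact.out
  have hc : Commute u v := huv
  set f : ℕ → ℕ → A := fun i j =>
    (((i.factorial : ZMod p)⁻¹) * ((j.factorial : ZMod p)⁻¹)) • (u ^ i * v ^ j) with hf
  have h1 : ex p (u + v) = ∑ k ∈ range p, ∑ i ∈ range (k + 1), f i (k - i) := by
    unfold ex
    refine sum_congr rfl fun k hk => ?_
    rw [mem_range] at hk
    rw [hc.add_pow, smul_sum]
    refine sum_congr rfl fun i hi => ?_
    have hi' : i ≤ k := by
      rw [mem_range] at hi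
      omega
    have hfac : ∀ m, m < p → ((m.factorial : ℕ) : ZMod p) ≠ 0 := by
      intro m hm h0
      rw [ZMod.natCast_eq_zero_iff] at h0
      exact absurd ((Nat.Prime.dvd_factorial hp).1 h0) (by omega)
    have h2 : u ^ i * v ^ (k - i) * ((k.choose i : ℕ) : A) =
        ((k.choose i : ℕ) : ZMod p) • (u ^ i * v ^ (k - i)) := by
      rw [Algebra.smul_def, map_natCast]
      exact (Nat.cast_commute _ _).eq.symm
    rw [h2, smul_smul]
    simp only [hf]
    congr 1
    have h3 : ((k.choose i : ℕ) : ZMod p) * ((i.factorial : ℕ) : ZMod p) *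
        (((k - i).factorial : ℕ) : ZMod p) = ((k.factorial : ℕ) : ZMod p) := by
      rw [← Nat.cast_mul, ← Nat.cast_mul, Nat.choose_mul_factorial_mul_factorial hi']
    have e1 := hfac k hk
    have e2 := hfac i (by omega)
    have e3 := hfac (k - i) (by omega)
    field_simp
    rw [← h3]
  have h4 : ex p u * ex p v = ∑ i ∈ range p, ∑ j ∈ range p, f i j := by
    unfold ex
    rw [sum_mul_sum]
    refine sum_congr rfl fun i _ => sum_congr rfl fun j _ => ?_
    simp only [hf]
    rw [smul_mul_smul_comm]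
  rw [h1, h4, sum_range_diag_flip]
  refine sum_congr rfl fun i hi => ?_
  rw [mem_range] at hi
  refine sum_subset ?_ ?_
  · intro j hj
    rw [mem_range] at hj ⊢
    omega
  · intro j _ hj
    rw [mem_range, not_lt] at hj
    have h5 : u ^ i * v ^ j ∈ J ^ (i + j) :=
      mul_mem_pow (Ideal.pow_mem_pow hu i) (Ideal.pow_mem_pow hv j)
    simp only [hf]
    rw [eq_zero hJ (by omega) h5, smul_zero]

theorem ex_eq (u : A) : ex p u = 1 + u +
    ∑ k ∈ range (p - 2), (((k + 2).factorial : ZMod p)⁻¹) • u ^ (k + 2) := by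
  have hp : 2 ≤ p := (Fact.out : p.Prime).two_le
  have h1 : ex p u = ∑ k ∈ range (p - 2 + 1 + 1), ((k.factorial : ZMod p)⁻¹) • u ^ k := by
    unfold ex
    congr 2
    omega
  rw [h1, sum_range_succ', sum_range_succ']
  simp
  abel

theorem rest {i : ℕ} {u : A} (hu : u ∈ J) (hi : u ∈ J ^ i) : ex p u - 1 - u ∈ J ^ (i + 1) := by
  rw [ex_eq]
  have h1 : (1 : A) + u + ∑ k ∈ range (p - 2), (((k + 2).factorial : ZMod p)⁻¹) • u ^ (k + 2)
      - 1 - u = ∑ k ∈ range (p - 2), (((k + 2).factorial : ZMod p)⁻¹) • u ^ (k + 2) := by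
    abel
  rw [h1]
  refine Ideal.sum_mem _ fun k _ => smul_mem _ ?_
  rw [pow_succ, Ideal.IsTwoSided.pow_succ]
  refine Ideal.mul_mem_mul ?_ hi
  rw [pow_succ]
  exact J.mul_mem_left _ hu

theorem diff_pow {j : ℕ} {u v : A} (h : u - v ∈ J ^ j) (k : ℕ) :
    u ^ k - v ^ k ∈ J ^ j := by
  induction k with
  | zero => simp
  | succ k ih =>
    have h1 : u ^ (k + 1) - v ^ (k + 1) = u ^ k * (u - v) + (u ^ k - v ^ k) * v := by
      rw [pow_succ, pow_succ, mul_sub, sub_mul]
      abel
    rw [h1]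
    exact (J ^ j).add_mem ((J ^ j).mul_mem_left _ h) (Ideal.mul_mem_right _ _ ih)

theorem diff_pow' {j : ℕ} {u v : A} (hu : u ∈ J) (hv : v ∈ J) (h : u - v ∈ J ^ j) (k : ℕ) :
    u ^ (k + 2) - v ^ (k + 2) ∈ J ^ (j + 1) := by
  have h1 : u ^ (k + 2) - v ^ (k + 2) = u ^ (k + 1) * (u - v) + (u ^ (k + 1) - v ^ (k + 1)) * v := by
    rw [pow_succ u (k + 1), pow_succ v (k + 1)]
    noncomm_ring
  rw [h1]
  refine (J ^ (j + 1)).add_mem ?_ ?_
  · rw [Ideal.IsTwoSided.pow_succ]
    refine Ideal.mul_mem_mul ?_ h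
    rw [pow_succ]
    exact J.mul_mem_left _ hu
  · rw [Submodule.pow_succ]
    exact Ideal.mul_mem_mul (diff_pow h (k + 1)) hv

theorem ex_inj (hJ : J ^ p = ⊥) {u v : A} (hu : u ∈ J) (hv : v ∈ J) (h : ex p u = ex p v) :
    u = v := by
  have key : ∀ j : ℕ, u - v ∈ J ^ (j + 1) := by
    intro j
    induction j with
    | zero =>
      rw [zero_add, Submodule.pow_one]
      exact J.sub_mem hu hv
    | succ j ih =>
      have h1 : u - v = -∑ k ∈ range (p - 2), (((k + 2).factorial : ZMod p)⁻¹) •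
          (u ^ (k + 2) - v ^ (k + 2)) := by
        have h2 := h
        rw [ex_eq u, ex_eq v] at h2
        have h3 : ∑ k ∈ range (p - 2), (((k + 2).factorial : ZMod p)⁻¹) •
            (u ^ (k + 2) - v ^ (k + 2)) =
            ∑ k ∈ range (p - 2), (((k + 2).factorial : ZMod p)⁻¹) • u ^ (k + 2) -
            ∑ k ∈ range (p - 2), (((k + 2).factorial : ZMod p)⁻¹) • v ^ (k + 2) := by
          rw [← sum_sub_distrib]
          exact sum_congr rfl fun k _ => smul_sub _ _ _
        rw [h3]
        have h4 : ∀ a b x y : A, 1 + a + x = 1 + b + y → a - b = -(x - y) := by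
          intro a b x y h5
          have h6 : a - b = (1 + a + x) - (1 + b + y) - (x - y) := by abel
          rw [h6, h5, sub_self, zero_sub]
        exact h4 _ _ _ _ h2
      rw [h1]
      refine (J ^ (j + 1 + 1)).neg_mem (Ideal.sum_mem _ fun k _ => smul_mem _ ?_)
      exact diff_pow' hu hv ih k
  have hp : 0 < p := (Fact.out : p.Prime).pos
  have h5 := key (p - 1)
  exact sub_eq_zero.1 (eq_zero hJ (by omega) h5)

end Ex28

open Ex28

theorem stEx_28 : StEx := by
  intro p _ A _ _ J _ hJ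
  refine ⟨fun u hu v hv huv => ex_add hJ hu hv huv, fun u hu => ?_, fun i hi u hu => ?_,
    fun u hu i hi h => ?_, fun u hu v hv h => ex_inj hJ hu hv h, fun hfin s hs => ?_⟩
  · constructor
    · rw [← ex_add hJ (J.neg_mem hu) hu (by noncomm_ring), neg_add_cancel, ex_zero]
    · rw [← ex_add hJ hu (J.neg_mem hu) (by noncomm_ring), add_neg_cancel, ex_zero]
  · exact rest (Ideal.pow_le_self (by omega) hu) hu
  · have key : ∀ j : ℕ, j + 1 ≤ i → u ∈ J ^ (j + 1) := by
      intro j
      induction j with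
      | zero =>
        intro _
        rw [zero_add, Submodule.pow_one]
        exact hu
      | succ j ih =>
        intro hj
        have h1 := rest (p := p) hu (ih (by omega))
        have h2 := Ideal.pow_le_pow_right hj h
        have h3 : u = (ex p u - 1) - (ex p u - 1 - u) := by abel
        rw [h3]
        exact (J ^ (j + 1 + 1)).sub_mem h2 h1
    have h4 := key (i - 1) (by omega)
    rwa [Nat.sub_add_cancel hi] at h4
  · have hmem : ∀ u ∈ J, ex p u - 1 ∈ J := by
      intro u hu
      have h1 := rest (p := p) (i := 1) hu (by rwa [Submodule.pow_one])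
      have h2 := Ideal.pow_le_self (by omega) h1
      have h3 : ex p u - 1 = (ex p u - 1 - u) + u := by abel
      rw [h3]
      exact J.add_mem h2 hu
    set g : J → J := fun u => ⟨ex p (u : A) - 1, hmem u u.2⟩ with hg
    have hginj : Function.Injective g := by
      intro u v huv
      have h1 : ex p (u : A) - 1 = ex p (v : A) - 1 := congrArg Subtype.val huv
      exact Subtype.ext (ex_inj hJ u.2 v.2 (sub_left_inj.1 h1))
    obtain ⟨u, hu⟩ := Finite.injective_iff_surjective.1 hginj ⟨s - 1, hs⟩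
    refine ⟨u, u.2, ?_⟩
    have h1 : ex p (u : A) - 1 = s - 1 := congrArg Subtype.val hu
    exact sub_left_inj.1 h1

theorem stExMap_28 : StExMap := by
  intro p _ A B _ _ _ _ f a
  unfold ex
  rw [map_sum]
  refine sum_congr rfl fun k _ => ?_
  rw [ZMod.map_smul, map_pow]

end Pool.Agent.PX
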