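import Pool.Agent.Lib.MP_2b9f9a_al.PX.Stmts
import Pool.Agent.Lib.MP_2b9f9a_al.PX.Lc78

/-!
# M15: groups of exponent `p`.
-/

set_option autoImplicit false

namespace Pool.Agent.PX

namespace ExpP78

open Lc78

/-- The exponent of the bound. -/
def ea : ℕ → ℕ
  | 0 => 0
  | s + 1 => 2 * ea s + 2

theorem hb_le (p : ℕ) (hp : 2 ≤ p) : ∀ s, hb (p - 1) s + 1 ≤ p ^ ea s := by
  intro s
  induction s with
  | zero => simp [hb, ea]
  | succ s ih =>
    have h1 : hb (p - 1) (s + 1) + 1 = hb (p - 1) s + (p - 1) * (hb (p - 1) s + 1) ^ 2 + 1 + 1 := rfl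
    rw [h1]
    obtain ⟨q, rfl⟩ : ∃ q, p = q + 2 := ⟨p - 2, by omega⟩
    have h2 : q + 2 - 1 = q + 1 := by omega
    rw [h2] at ih ⊢
    generalize hb (q + 1) s = b at ih ⊢
    have h3 : b + (q + 1) * (b + 1) ^ 2 + 1 + 1 ≤ (q + 2) ^ 2 * (b + 1) ^ 2 := by
      nlinarith [sq_nonneg q, sq_nonneg b, Nat.zero_le (q * b), Nat.zero_le (q * b ^ 2),
        Nat.zero_le (q ^ 2 * b), Nat.zero_le (q ^ 2 * b ^ 2)]
    refine h3.trans ?_
    have h4 : (q + 2) ^ ea (s + 1) = (q + 2) ^ 2 * ((q + 2) ^ ea s) ^ 2 := by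
      change (q + 2) ^ (2 * ea s + 2) = _
      ring
    rw [h4]
    exact Nat.mul_le_mul_left _ (Nat.pow_le_pow_left ih 2)

theorem Dn_mono (p : ℕ) (P : Type) [Group P] {m n : ℕ} (h : m ≤ n) : Dn p P n ≤ Dn p P m := by
  intro g hg
  exact Ideal.pow_le_pow_right h hg

variable {p : ℕ} {Γ P : Type} [Group Γ] [Group P] [MulDistribMulAction Γ P]
  {L : Type} [LieRing L] {cls : ℕ → P → L} {act : Γ →* AddMonoid.End L}

theorem cls_one (hG : GrL p Γ P L cls act) (w : ℕ) (hw : 1 ≤ w) : cls w (1 : P) = 0 :=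
  (hG.zero w hw 1 (one_mem _)).2 (one_mem _)

theorem cls_inv (hG : GrL p Γ P L cls act) (w : ℕ) (hw : 1 ≤ w) (g : P) (hg : g ∈ lc P w) :
    cls w g⁻¹ = - cls w g := by
  have h := hG.mul w hw g hg g⁻¹ (inv_mem hg)
  rw [mul_inv_cancel, cls_one hG w hw] at h
  exact (neg_eq_of_add_eq_zero_right h.symm).symm

/-- The homogeneous components. -/
def Hm (P : Type) [Group P] {L : Type} [LieRing L] (cls : ℕ → P → L) (w : ℕ) : AddSubgroup L :=
  AddSubgroup.closure {z | ∃ g ∈ lc P w, cls w g = z}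

theorem mem_Hm (hG : GrL p Γ P L cls act) (w : ℕ) (hw : 1 ≤ w) (z : L) :
    z ∈ Hm P cls w ↔ ∃ g ∈ lc P w, cls w g = z := by
  refine ⟨?_, fun h => AddSubgroup.subset_closure h⟩
  intro hz
  refine AddSubgroup.closure_induction (p := fun z _ => ∃ g ∈ lc P w, cls w g = z) ?_ ?_ ?_ ?_ hz
  · intro x hx; exact hx
  · exact ⟨1, one_mem _, cls_one hG w hw⟩
  · rintro a b _ _ ⟨g, hg, rfl⟩ ⟨h, hh, rfl⟩
    exact ⟨g * h, mul_mem hg hh, hG.mul w hw g hg h hh⟩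
  · rintro a _ ⟨g, hg, rfl⟩
    exact ⟨g⁻¹, inv_mem hg, cls_inv hG w hw g hg⟩

theorem gen (hG : GrL p Γ P L cls act) (w : ℕ) (hw : 1 ≤ w) (z : L) (hz : z ∈ Hm P cls (w + 1)) :
    z ∈ AddSubgroup.closure {z | ∃ x ∈ Hm P cls w, ∃ y ∈ Hm P cls 1, ⁅x, y⁆ = z} := by
  obtain ⟨g, hg, rfl⟩ := (mem_Hm hG (w + 1) (by omega) z).1 hz
  have hg' := hg
  rw [lc_succ w hw, Subgroup.commutator_def] at hg'
  have key : g ∈ lc P (w + 1) ∧ cls (w + 1) g ∈ AddSubgroup.closure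
      {z | ∃ x ∈ Hm P cls w, ∃ y ∈ Hm P cls 1, ⁅x, y⁆ = z} := by
    refine Subgroup.closure_induction (p := fun g _ => g ∈ lc P (w + 1) ∧
      cls (w + 1) g ∈ AddSubgroup.closure
      {z | ∃ x ∈ Hm P cls w, ∃ y ∈ Hm P cls 1, ⁅x, y⁆ = z}) ?_ ?_ ?_ ?_ hg'
    · rintro x ⟨a, ha, b, hb, rfl⟩
      rw [commutatorElement_def]
      refine ⟨?_, ?_⟩
      · exact mem_lcc hw le_rfl ha hb
      · rw [← hG.brk w 1 hw le_rfl a ha b hb]
        exact AddSubgroup.subset_closure ⟨_, AddSubgroup.subset_closure ⟨a, ha, rfl⟩, _,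
          AddSubgroup.subset_closure ⟨b, hb, rfl⟩, rfl⟩
    · exact ⟨one_mem _, by rw [cls_one hG (w + 1) (by omega)]; exact zero_mem _⟩
    · rintro a b _ _ ⟨ha1, ha2⟩ ⟨hb1, hb2⟩
      refine ⟨mul_mem ha1 hb1, ?_⟩
      rw [hG.mul (w + 1) (by omega) a ha1 b hb1]
      exact add_mem ha2 hb2
    · rintro a _ ⟨ha1, ha2⟩
      refine ⟨inv_mem ha1, ?_⟩
      rw [cls_inv hG (w + 1) (by omega) a ha1]
      exact neg_mem ha2
  exact key.2

end ExpP78

open ExpP78 Lc78 in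
theorem stExpP_78 (hIter : StIter) (hGr : StGr) (hSol : StSol) (hEng : StEng) (hHig : StHig)
    (hPBW : StPBW) : StExpP := by
  intro h d
  obtain ⟨N1, hN1⟩ := hIter h d
  obtain ⟨N2, hN2⟩ := hSol h d
  refine ⟨ea N2 * N1, ?_⟩
  intro p hp Γ P _ _ _ _ _ F H hexp hFro hcard hC
  have hPG : IsPGroup p P := fun g => ⟨1, by rw [pow_one]; exact hexp g⟩
  have h1 := hN1 p Γ P F H hPG hFro hcard hC (ea N2)
  obtain ⟨L, _, cls, act, hG⟩ := hGr p Γ P
  have h2 := hN2 p Γ P F H hPG hFro hcard hC L cls act hG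
  have h3 : ∀ w, hb (p - 1) N2 < w → Hm P cls w = ⊥ := by
    refine hHig p L (Hm P cls) hG.char ?_ ?_ ?_ N2 h2
    · intro i j hi hj x hx y hy
      obtain ⟨g, hg, rfl⟩ := (mem_Hm hG i hi x).1 hx
      obtain ⟨k, hk, rfl⟩ := (mem_Hm hG j hj y).1 hy
      rw [hG.brk i j hi hj g hg k hk]
      exact AddSubgroup.subset_closure ⟨_, mem_lcc hi hj hg hk, rfl⟩
    · intro w hw z hz
      exact gen hG w hw z hz
    · intro i hi x hx a
      choose g hg hgx using fun j => (mem_Hm hG i hi (x j)).1 (hx j)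
      have := hEng p Γ P hexp L cls act hG i hi g hg a
      have h4 : x = fun j => cls i (g j) := funext fun j => (hgx j).symm
      rw [h4]
      exact this
  have h4 : ∀ w, hb (p - 1) N2 < w → ∀ g ∈ lc P w, g ∈ Dn p P (w + 1) := by
    intro w hw g hg
    refine (hG.zero w (by omega) g hg).1 ?_
    have h5 : cls w g ∈ Hm P cls w := AddSubgroup.subset_closure ⟨g, hg, rfl⟩
    rw [h3 w hw] at h5
    exact h5
  have h5 := hPBW p P hPG hexp _ h4
  refine le_bot_iff.1 (h1.trans ?_)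
  rw [← h5]
  exact Dn_mono p P (hb_le p hp.out.two_le N2)

end Pool.Agent.PX
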