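import Pool.Agent.Lib.MP_2b9f9a_al.PX.Stmts

/-!
PX (MP_2b9f9a), module 9: facts on the group algebra, functoriality.
-/

set_option autoImplicit false

namespace Pool.Agent.PX

open Finset

namespace GA96

variable {p : ℕ} {P : Type} [Group P]

theorem pow_mono {A : Type} [Ring A] (J : Ideal A) [J.IsTwoSided] {m n : ℕ} (h : m ≤ n) :
    J ^ n ≤ J ^ m := by
  obtain ⟨k, rfl⟩ := Nat.exists_eq_add_of_le h
  rw [Ideal.IsTwoSided.pow_add]
  exact Ideal.mul_le_left

theorem mul_mem_pow {A : Type} [Ring A] (J : Ideal A) [J.IsTwoSided] {m n k : ℕ} (h : k ≤ m + n)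
    {u v : A} (hu : u ∈ J ^ m) (hv : v ∈ J ^ n) : u * v ∈ J ^ k := by
  apply pow_mono J h
  rw [Ideal.IsTwoSided.pow_add]
  exact Ideal.mul_mem_mul hu hv

/-- ring homomorphisms and powers of ideals -/
theorem map_pow_mem {A B : Type} [Ring A] [Ring B] (f : A →+* B) (I : Ideal A) [I.IsTwoSided]
    (J : Ideal B) [J.IsTwoSided] (k : ℕ) (h : ∀ u ∈ I, f u ∈ J ^ k) (m : ℕ) :
    ∀ u ∈ I ^ m, f u ∈ J ^ (k * m) := by
  induction m with
  | zero =>
    intro u _
    rw [mul_zero, Submodule.pow_zero, Ideal.one_eq_top]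
    exact Submodule.mem_top
  | succ m ih =>
    intro u hu
    rw [Ideal.IsTwoSided.pow_succ] at hu
    have : f u ∈ J ^ (k + k * m) := by
      refine Submodule.mul_induction_on hu ?_ ?_
      · intro a ha b hb
        rw [map_mul]
        exact mul_mem_pow J le_rfl (h a ha) (ih b hb)
      · intro a b ha hb
        rw [map_add]
        exact Submodule.add_mem _ ha hb
    rwa [show k * (m + 1) = k + k * m by ring]

theorem mem_Dl (u : GA p P) : u ∈ Dl p P ↔ aug p P u = 0 := RingHom.mem_ker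

theorem aug_io (g : P) : aug p P (io p g) = 1 := by
  unfold aug io
  rw [MonoidAlgebra.lift_of]
  rfl

theorem io_sub (g : P) : io p g - 1 ∈ Dl p P := by
  rw [mem_Dl, map_sub, aug_io, map_one, sub_self]

theorem io_sub' (g : P) : io p g - 1 ∈ Dl p P ^ 1 := by
  rw [Submodule.pow_one]
  exact io_sub g

theorem exists_io [Fact p.Prime] (u : GA p P) :
    ∃ g : P, (u - algebraMap (ZMod p) (GA p P) (aug p P u)) - (io p g - 1) ∈ Dl p P ^ 2 := by
  have add : ∀ u v : GA p P, (∃ g : P, u - (io p g - 1) ∈ Dl p P ^ 2) →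
      (∃ g : P, v - (io p g - 1) ∈ Dl p P ^ 2) → ∃ g : P, (u + v) - (io p g - 1) ∈ Dl p P ^ 2 := by
    rintro u v ⟨g, hg⟩ ⟨h, hh⟩
    refine ⟨g * h, ?_⟩
    have e : (u + v) - (io p (g * h) - 1) =
        (u - (io p g - 1)) + (v - (io p h - 1)) - (io p g - 1) * (io p h - 1) := by
      rw [map_mul]
      noncomm_ring
    rw [e]
    refine Submodule.sub_mem _ (Submodule.add_mem _ hg hh) ?_
    exact mul_mem_pow (Dl p P) (m := 1) (n := 1) le_rfl (io_sub' g) (io_sub' h)
  have nsm : ∀ (n : ℕ) (u : GA p P), (∃ g : P, u - (io p g - 1) ∈ Dl p P ^ 2) →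
      ∃ g : P, (n • u) - (io p g - 1) ∈ Dl p P ^ 2 := by
    intro n u hu
    induction n with
    | zero =>
      refine ⟨1, ?_⟩
      simp
    | succ n ih =>
      rw [succ_nsmul]
      exact add _ _ ih hu
  induction u using MonoidAlgebra.induction_on with
  | of g =>
    refine ⟨g, ?_⟩
    have : aug p P ((MonoidAlgebra.of (ZMod p) P) g) = 1 := aug_io g
    rw [this, map_one]
    have e : (MonoidAlgebra.of (ZMod p) P) g - 1 - (io p g - 1) = 0 := by
      unfold io
      simp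
    rw [e]
    exact Submodule.zero_mem _
  | add u v hu hv =>
    have := add _ _ hu hv
    obtain ⟨g, hg⟩ := this
    refine ⟨g, ?_⟩
    rw [map_add, map_add]
    convert hg using 1
    abel
  | smul r u hu =>
    obtain ⟨n, rfl⟩ := ZMod.natCast_zmod_surjective r
    obtain ⟨g, hg⟩ := nsm n _ hu
    refine ⟨g, ?_⟩
    have e : ((n : ZMod p) • u) - algebraMap (ZMod p) (GA p P) (aug p P ((n : ZMod p) • u)) =
        n • (u - algebraMap (ZMod p) (GA p P) (aug p P u)) := by
      rw [map_smul, Nat.cast_smul_eq_nsmul, Nat.cast_smul_eq_nsmul, map_nsmul, nsmul_sub]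
    rw [e]
    exact hg

theorem comm_eq (g h : P) : io p (g * h * g⁻¹ * h⁻¹) - 1 =
    ((io p g - 1) * (io p h - 1) - (io p h - 1) * (io p g - 1)) * io p (g⁻¹ * h⁻¹) := by
  have h1 : io p (g * h * g⁻¹ * h⁻¹) = io p g * io p h * io p (g⁻¹ * h⁻¹) := by
    rw [← map_mul, ← map_mul]
    congr 1
    group
  have h2 : io p h * io p g * io p (g⁻¹ * h⁻¹) = 1 := by
    rw [← map_mul, ← map_mul]
    have : h * g * (g⁻¹ * h⁻¹) = 1 := by group
    rw [this, map_one]
  have h3 : (io p g - 1) * (io p h - 1) - (io p h - 1) * (io p g - 1) =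
      io p g * io p h - io p h * io p g := by noncomm_ring
  rw [h3, sub_mul, h1, h2]

theorem comm_mem {i j : ℕ} {g h : P} (hg : io p g - 1 ∈ Dl p P ^ i)
    (hh : io p h - 1 ∈ Dl p P ^ j) :
    (io p g - 1) * (io p h - 1) - (io p h - 1) * (io p g - 1) ∈ Dl p P ^ (i + j) :=
  Submodule.sub_mem _ (mul_mem_pow _ le_rfl hg hh) (mul_mem_pow _ (by omega) hh hg)

theorem comm_diff {i j : ℕ} {g h : P} (hg : io p g - 1 ∈ Dl p P ^ i)
    (hh : io p h - 1 ∈ Dl p P ^ j) :
    (io p (g * h * g⁻¹ * h⁻¹) - 1) -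
      ((io p g - 1) * (io p h - 1) - (io p h - 1) * (io p g - 1)) ∈ Dl p P ^ (i + j + 1) := by
  rw [comm_eq]
  have e : ((io p g - 1) * (io p h - 1) - (io p h - 1) * (io p g - 1)) * io p (g⁻¹ * h⁻¹) -
      ((io p g - 1) * (io p h - 1) - (io p h - 1) * (io p g - 1)) =
      ((io p g - 1) * (io p h - 1) - (io p h - 1) * (io p g - 1)) * (io p (g⁻¹ * h⁻¹) - 1) :=
    (mul_sub_one _ _).symm
  rw [e]
  exact mul_mem_pow _ le_rfl (comm_mem hg hh) (io_sub' _)

theorem Dn_normal (n : ℕ) : (Dn p P n).Normal := by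
  refine ⟨fun g hg h => ?_⟩
  rw [mem_Dn] at hg ⊢
  have e : io p (h * g * h⁻¹) - 1 = io p h * (io p g - 1) * io p h⁻¹ := by
    have h1 : io p h * io p h⁻¹ = 1 := by
      rw [← map_mul, mul_inv_cancel, map_one]
    rw [map_mul, map_mul, mul_sub, sub_mul, mul_one, h1]
  rw [e]
  exact Ideal.mul_mem_right _ _ (Ideal.mul_mem_left _ _ hg)

theorem Dn_comm (i j : ℕ) : ⁅Dn p P i, Dn p P j⁆ ≤ Dn p P (i + j) := by
  rw [Subgroup.commutator_le]
  intro g hg h hh
  rw [commutatorElement_def, mem_Dn, comm_eq]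
  exact Ideal.mul_mem_right _ _ (comm_mem hg hh)

theorem Dn_one : Dn p P 1 = ⊤ := by
  rw [eq_top_iff]
  intro g _
  exact io_sub' g

theorem lc_le : ∀ w, 1 ≤ w → lc P w ≤ Dn p P w := by
  intro w hw
  induction w, hw using Nat.le_induction with
  | base =>
    rw [Dn_one]
    exact le_top
  | succ n hn ih =>
    obtain ⟨m, rfl⟩ : ∃ m, n = m + 1 := ⟨n - 1, by omega⟩
    have : lc P (m + 1 + 1) = ⁅lc P (m + 1), (⊤ : Subgroup P)⁆ := rfl
    rw [this]
    refine le_trans ?_ (Dn_comm (m + 1) 1)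
    rw [Dn_one]
    exact Subgroup.commutator_mono ih le_rfl

theorem sub_pow [Fact p.Prime] (g : P) (hg : g ^ p = 1) : (io p g - 1) ^ p = 0 := by
  have : CharP (GA p P) p :=
    charP_of_injective_algebraMap (algebraMap (ZMod p) (GA p P)).injective p
  rw [sub_pow_char_of_commute _ (Commute.one_right _), ← map_pow, hg, map_one, one_pow, sub_self]

theorem gact_io {Γ : Type} [Group Γ] [MulDistribMulAction Γ P] (γ : Γ) (g : P) :
    gact p γ (io p g) = io p (γ • g) := by
  unfold gact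
  have : io p g = MonoidAlgebra.of (ZMod p) P g := rfl
  rw [this, MonoidAlgebra.lift_of]
  rfl

theorem alg_ext {B : Type} [Ring B] [Algebra (ZMod p) B] (f f' : GA p P →ₐ[ZMod p] B)
    (h : ∀ g : P, f (io p g) = f' (io p g)) : f = f' := by
  apply MonoidAlgebra.algHom_ext
  · intro g
    exact h g
  · exact Subsingleton.elim _ _

theorem gact_mul {Γ : Type} [Group Γ] [MulDistribMulAction Γ P] (γ δ : Γ) (u : GA p P) :
    gact p (γ * δ) u = gact p γ (gact p δ u) := by
  have : gact p (P := P) (γ * δ) = (gact p γ).comp (gact p δ) := by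
    apply alg_ext
    intro g
    rw [AlgHom.comp_apply, gact_io, gact_io, gact_io, mul_smul]
  rw [this]
  rfl

theorem gact_one {Γ : Type} [Group Γ] [MulDistribMulAction Γ P] (u : GA p P) :
    gact p (1 : Γ) u = u := by
  have : gact p (P := P) (1 : Γ) = AlgHom.id _ _ := by
    apply alg_ext
    intro g
    rw [gact_io, one_smul]
    rfl
  rw [this]
  rfl

theorem gact_Dl {Γ : Type} [Group Γ] [MulDistribMulAction Γ P] (γ : Γ) (u : GA p P)
    (hu : u ∈ Dl p P) : gact p γ u ∈ Dl p P := by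
  rw [mem_Dl] at hu ⊢
  have : (aug p P).comp (gact p γ) = aug p P := by
    apply alg_ext
    intro g
    rw [AlgHom.comp_apply, gact_io, aug_io, aug_io]
  have h := congrArg (fun f => f u) this
  simp only [AlgHom.comp_apply] at h
  rw [h, hu]

theorem gact_pow {Γ : Type} [Group Γ] [MulDistribMulAction Γ P] (γ : Γ) (n : ℕ) (u : GA p P)
    (hu : u ∈ Dl p P ^ n) : gact p γ u ∈ Dl p P ^ n := by
  have := map_pow_mem (gact p γ : GA p P →ₐ[ZMod p] GA p P).toRingHom (Dl p P) (Dl p P) 1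
    (fun u hu => by
      rw [Submodule.pow_one]
      exact gact_Dl γ u hu) n u hu
  rwa [one_mul] at this

/-- the inclusion of the group algebra of a subgroup -/
noncomputable def incl (p : ℕ) (Q : Subgroup P) : GA p Q →ₐ[ZMod p] GA p P :=
  MonoidAlgebra.lift (ZMod p) (GA p P) Q ((io p).comp Q.subtype)

theorem incl_io (Q : Subgroup P) (q : Q) : incl p Q (io p q) = io p (q : P) := by
  unfold incl
  have : io p q = MonoidAlgebra.of (ZMod p) Q q := rfl
  rw [this, MonoidAlgebra.lift_of]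
  rfl

theorem incl_Dl [Fact p.Prime] (Q : Subgroup P) (n : ℕ) (hQ : Q ≤ Dn p P n) (u : GA p Q) :
    incl p Q (u - algebraMap (ZMod p) (GA p Q) (aug p Q u)) ∈ Dl p P ^ n := by
  induction u using MonoidAlgebra.induction_on with
  | of g =>
    have h1 : aug p Q ((MonoidAlgebra.of (ZMod p) Q) g) = 1 := aug_io g
    have h2 : incl p Q ((MonoidAlgebra.of (ZMod p) Q) g) = io p (g : P) := incl_io Q g
    rw [h1, map_one, map_sub, map_one, h2]
    exact hQ g.2
  | add u v hu hv =>
    have e : u + v - algebraMap (ZMod p) (GA p Q) (aug p Q (u + v)) =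
        (u - algebraMap (ZMod p) (GA p Q) (aug p Q u)) +
        (v - algebraMap (ZMod p) (GA p Q) (aug p Q v)) := by
      rw [map_add, map_add]
      abel
    rw [e, map_add]
    exact Submodule.add_mem _ hu hv
  | smul r u hu =>
    obtain ⟨n, rfl⟩ := ZMod.natCast_zmod_surjective r
    have e : ((n : ZMod p) • u) - algebraMap (ZMod p) (GA p Q) (aug p Q ((n : ZMod p) • u)) =
        n • (u - algebraMap (ZMod p) (GA p Q) (aug p Q u)) := by
      rw [map_smul, Nat.cast_smul_eq_nsmul, Nat.cast_smul_eq_nsmul, map_nsmul, nsmul_sub]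
    rw [e, map_nsmul]
    exact Submodule.smul_of_tower_mem _ n hu

theorem Dn_sub [Fact p.Prime] (Q : Subgroup P) (n m : ℕ) (hQ : Q ≤ Dn p P n) (q : Q)
    (hq : q ∈ Dn p Q m) : (q : P) ∈ Dn p P (n * m) := by
  rw [mem_Dn] at hq ⊢
  have h := map_pow_mem (incl p Q : GA p Q →ₐ[ZMod p] GA p P).toRingHom (Dl p Q) (Dl p P) n
    (fun u hu => by
      have h1 := incl_Dl Q n hQ u
      rw [mem_Dl] at hu
      rw [hu, map_zero, sub_zero] at h1
      exact h1) m _ hq
  have e : (incl p Q : GA p Q →ₐ[ZMod p] GA p P).toRingHom (io p q - 1) = io p (q : P) - 1 := by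
    rw [map_sub, map_one]
    congr 1
    exact incl_io Q q
  rwa [e] at h

end GA96

open GA96

theorem stGA_96 : StGA := by
  intro p _ P _ _
  refine ⟨io_sub, ?_, ?_, Dn_normal, fun i j _ _ => Dn_comm i j, ?_, lc_le, fun g hg => sub_pow g hg⟩
  · intro u
    refine ⟨aug p P u, ?_⟩
    rw [mem_Dl, map_sub, AlgHom.commutes]
    simp
  · intro u hu
    obtain ⟨g, hg⟩ := exists_io u
    rw [mem_Dl] at hu
    rw [hu, map_zero, sub_zero] at hg
    exact ⟨g, hg⟩
  · intro i j _ _ g hg h hh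
    exact comm_diff hg hh

theorem stFun_96 : StFun := by
  intro p _ Γ P _ _ _ _
  refine ⟨gact_io, gact_mul, gact_one, fun γ n u hu => gact_pow γ n u hu, ?_,
    fun Q n m hQ q hq => Dn_sub Q n m hQ q hq⟩
  intro γ n g hg
  rw [mem_Dn] at hg ⊢
  have := gact_pow γ n _ hg
  rwa [map_sub, map_one, gact_io] at this

end Pool.Agent.PX
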