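import Pool.Agent.Lib.MP_2b9f9a_al.PX.Stmts
import Pool.Agent.Lib.MP_2b9f9a_al.Frobenius

/-!
# PX, module M7: the landed Lie ring theorem in the form used for `G^(N) <= G^p`
-/

set_option autoImplicit false

namespace Pool.Agent.PX

namespace LR7

/-- Derived series of the image of an injective (or any) homomorphism of Lie rings. -/
theorem dsr_range {L W : Type} [LieRing L] [LieRing W] (f : L →+ W)
    (hf : ∀ x y : L, f ⁅x, y⁆ = ⁅f x, f y⁆) (k : ℕ) :
    ∀ z : W, z ∈ dsr f.range k ↔ ∃ x ∈ LieAlgebra.derivedSeries ℤ L k, f x = z := by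
  induction k with
  | zero =>
    intro z
    constructor
    · intro hz
      obtain ⟨x, hx⟩ := hz
      exact ⟨x, LieSubmodule.mem_top x, hx⟩
    · rintro ⟨x, -, hx⟩
      exact ⟨x, hx⟩
  | succ k ih =>
    intro z
    constructor
    · intro hz
      have hz' : z ∈ AddSubgroup.closure {z | ∃ u ∈ dsr f.range k, ∃ v ∈ dsr f.range k, ⁅u, v⁆ = z} :=
        hz
      induction hz' using AddSubgroup.closure_induction with
      | mem z hz1 =>
        obtain ⟨u, hu, v, hv, rfl⟩ := hz1
        obtain ⟨x, hx, rfl⟩ := (ih u).1 hu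
        obtain ⟨y, hy, rfl⟩ := (ih v).1 hv
        refine ⟨⁅x, y⁆, ?_, hf x y⟩
        rw [LieAlgebra.derivedSeries_def, LieAlgebra.derivedSeriesOfIdeal_succ]
        exact LieSubmodule.lie_mem_lie hx hy
      | zero => exact ⟨0, zero_mem _, map_zero f⟩
      | add a b _ _ ha hb =>
        rename_i h1 h2
        obtain ⟨x, hx, rfl⟩ := ha h1
        obtain ⟨y, hy, rfl⟩ := hb h2
        exact ⟨x + y, add_mem hx hy, map_add f x y⟩
      | neg a _ ha =>
        rename_i h1
        obtain ⟨x, hx, rfl⟩ := ha h1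
        exact ⟨-x, neg_mem hx, map_neg f x⟩
    · rintro ⟨x, hx, rfl⟩
      rw [LieAlgebra.derivedSeries_def, LieAlgebra.derivedSeriesOfIdeal_succ,
        ← LieSubmodule.mem_toSubmodule, LieSubmodule.lieIdeal_oper_eq_linear_span'] at hx
      change f x ∈ AddSubgroup.closure _
      induction hx using Submodule.span_induction with
      | mem y hy =>
        obtain ⟨a, ha, b, hb, rfl⟩ := hy
        rw [hf]
        apply AddSubgroup.subset_closure
        exact ⟨f a, (ih _).2 ⟨a, ha, rfl⟩, f b, (ih _).2 ⟨b, hb, rfl⟩, rfl⟩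
      | zero => rw [map_zero]; exact AddSubgroup.zero_mem _
      | add a b _ _ ha hb => rw [map_add]; exact AddSubgroup.add_mem _ ha hb
      | smul n a _ ha =>
        rw [map_zsmul]
        exact AddSubgroup.zsmul_mem _ ha n

/-- The Lie ring structure on an additive subgroup closed under the bracket. -/
@[reducible] def lieK {W : Type} [LieRing W] (K : AddSubgroup W)
    (hK : ∀ u ∈ K, ∀ v ∈ K, ⁅u, v⁆ ∈ K) : LieRing K where
  bracket u v := ⟨⁅(u : W), (v : W)⁆, hK u u.2 v v.2⟩
  add_lie u v w := Subtype.ext (add_lie (u : W) (v : W) (w : W))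
  lie_add u v w := Subtype.ext (lie_add (u : W) (v : W) (w : W))
  lie_self u := Subtype.ext (lie_self (u : W))
  leibniz_lie u v w := Subtype.ext (leibniz_lie (u : W) (v : W) (w : W))

/-- The restricted action. -/
@[reducible] def actK {W Γ : Type} [LieRing W] [Group Γ] (act : Γ →* AddMonoid.End W)
    (K : AddSubgroup W) (hact : ∀ g : Γ, ∀ u ∈ K, act g u ∈ K) : DistribMulAction Γ K where
  smul g u := ⟨act g u, hact g u u.2⟩
  one_smul u := Subtype.ext (by
    change act 1 (u : W) = u
    rw [map_one]; rfl)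
  mul_smul g g' u := Subtype.ext (by
    change act (g * g') (u : W) = act g (act g' u)
    rw [map_mul]; rfl)
  smul_zero g := Subtype.ext (by
    change act g (0 : W) = 0
    exact map_zero _)
  smul_add g u v := Subtype.ext (by
    change act g ((u : W) + (v : W)) = act g u + act g v
    exact map_add _ _ _)

end LR7

open LR7 in
theorem stLR_7 : StLR := by
  intro h d
  obtain ⟨N, hN⟩ := Pool.Agent.Lib.MP_2b9f9a_al.lie_frobenius h d
  refine ⟨N, ?_⟩
  intro W Γ _ _ act K F H _ hlie hK hactK hHF hFne hHne hfrob hfpf hcard hC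
  let _ : LieRing K := lieK K hK
  let _ : DistribMulAction Γ K := actK act K hactK
  have hsm : ∀ (g : Γ) (u : K), ((g • u : K) : W) = act g u := fun _ _ => rfl
  have hbr : ∀ (u v : K), ((⁅u, v⁆ : K) : W) = ⁅(u : W), (v : W)⁆ := fun _ _ => rfl
  have hmain : LieAlgebra.derivedSeries ℤ K N = ⊥ := by
    apply hN K Γ F H
    · intro g x y
      apply Subtype.ext
      rw [hsm, hbr, hbr, hlie]
      rfl
    · exact hHF
    · exact hFne
    · exact hHne
    · exact hfrob
    · intro y hy hy1 v hv
      apply Subtype.ext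
      exact hfpf y hy hy1 v v.2 (by rw [← hsm, hv])
    · exact hcard
    · intro C hCm
      let f : C →+ W := K.subtype.comp C.toSubmodule.toAddSubgroup.subtype
      have hfv : ∀ x : C, f x = ((x : K) : W) := fun _ => rfl
      have hf : ∀ x y : C, f ⁅x, y⁆ = ⁅f x, f y⁆ := fun _ _ => rfl
      have hr := hC f.range (by
        intro v
        constructor
        · rintro ⟨x, rfl⟩
          refine ⟨(x : K).2, ?_⟩
          intro t ht
          have := (hCm (x : K)).1 x.2 t ht
          have h2 := congrArg (fun u : K => (u : W)) this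
          exact h2
        · rintro ⟨hv, hvx⟩
          refine ⟨⟨⟨v, hv⟩, (hCm _).2 ?_⟩, rfl⟩
          intro t ht
          exact Subtype.ext (hvx t ht))
      rw [eq_bot_iff]
      intro x hx
      have h3 : f x ∈ dsr f.range d := (dsr_range f hf d (f x)).2 ⟨x, hx, rfl⟩
      rw [hr, AddSubgroup.mem_bot] at h3
      rw [LieSubmodule.mem_bot]
      apply Subtype.ext
      apply Subtype.ext
      exact h3
  have hr2 : (K.subtype).range = K := K.range_subtype
  rw [eq_bot_iff]
  intro z hz
  have h4 : z ∈ dsr (K.subtype).range N := by rw [hr2]; exact hz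
  obtain ⟨x, hx, rfl⟩ := (dsr_range K.subtype (fun _ _ => rfl) N z).1 h4
  rw [hmain, LieSubmodule.mem_bot] at hx
  rw [AddSubgroup.mem_bot, hx]
  rfl

end Pool.Agent.PX
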