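import Pool.Agent.Lib.MP_2b9f9a_al.PX.Stmts

/-!
# M8 and M8' of PX (helper17)
-/

set_option autoImplicit false

namespace Pool.Agent.PX

open Finset

namespace Laz17

/-! ### The derived series -/

theorem dsg_mono {G : Type} [Group G] {S T : Subgroup G} (h : S ≤ T) :
    ∀ k, dsg S k ≤ dsg T k
  | 0 => h
  | k + 1 => Subgroup.commutator_mono (dsg_mono h k) (dsg_mono h k)

theorem dsg_map {G G' : Type} [Group G] [Group G'] (f : G →* G') (S : Subgroup G) :
    ∀ k, dsg (S.map f) k = (dsg S k).map f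
  | 0 => rfl
  | k + 1 => by
    change ⁅dsg (S.map f) k, dsg (S.map f) k⁆ = (⁅dsg S k, dsg S k⁆).map f
    rw [dsg_map f S k, Subgroup.map_commutator]

theorem dsg_add {G : Type} [Group G] (S : Subgroup G) (m : ℕ) :
    ∀ k, dsg S (m + k) = dsg (dsg S m) k
  | 0 => rfl
  | k + 1 => by
    change ⁅dsg S (m + k), dsg S (m + k)⁆ = ⁅dsg (dsg S m) k, dsg (dsg S m) k⁆
    rw [dsg_add S m k]

theorem dsr_eq_dsa {A : Type} [Ring A] (K : AddSubgroup A) :
    ∀ k, @dsr A LieRing.ofAssociativeRing K k = dsa K k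
  | 0 => rfl
  | k + 1 => by
    have ih := dsr_eq_dsa K k
    change AddSubgroup.closure {z : A | ∃ u ∈ @dsr A LieRing.ofAssociativeRing K k,
        ∃ v ∈ @dsr A LieRing.ofAssociativeRing K k, u * v - v * u = z}
      = AddSubgroup.closure {z | ∃ u ∈ dsa K k, ∃ v ∈ dsa K k, u * v - v * u = z}
    rw [ih]

theorem dsr_mono {L : Type} [LieRing L] {K M : AddSubgroup L} (h : K ≤ M) :
    ∀ k, dsr K k ≤ dsr M k
  | 0 => h
  | k + 1 => by
    refine AddSubgroup.closure_mono ?_
    rintro z ⟨u, hu, v, hv, rfl⟩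
    exact ⟨u, dsr_mono h k hu, v, dsr_mono h k hv, rfl⟩

/-! ### The quotient of the group algebra -/

theorem finite_GA (p : ℕ) [Fact p.Prime] (P : Type) [Group P] [Finite P] : Finite (GA p P) := by
  refine Finite.of_injective (fun x : GA p P => (fun g => x.coeff g : P → ZMod p)) ?_
  intro x y h
  cases x with
  | ofCoeff x =>
    cases y with
    | ofCoeff y =>
      congr 1
      ext g
      exact congrFun h g

section quot

variable {A B : Type} [Ring A] [Ring B]

theorem map_isTwoSided (f : A →+* B) (hf : Function.Surjective f) (J : Ideal A) [J.IsTwoSided] :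
    (J.map f).IsTwoSided := by
  refine ⟨?_⟩
  intro a b ha
  obtain ⟨x, hx, rfl⟩ := (Ideal.mem_map_iff_of_surjective f hf).1 ha
  obtain ⟨y, rfl⟩ := hf b
  rw [← map_mul]
  exact Ideal.mem_map_of_mem f (Ideal.mul_mem_right _ _ hx)

theorem mem_map_pow (f : A →+* B) (hf : Function.Surjective f) (J : Ideal A) [J.IsTwoSided] :
    ∀ (n : ℕ) (u : B), u ∈ (J.map f) ^ n → ∃ v ∈ J ^ n, f v = u
  | 0 => by
    intro u _
    obtain ⟨v, hv⟩ := hf u
    exact ⟨v, by rw [Submodule.pow_zero, Ideal.one_eq_top]; trivial, hv⟩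
  | n + 1 => by
    intro u hu
    rw [Submodule.pow_succ] at hu
    refine Submodule.smul_induction_on (p := fun u => ∃ v ∈ J ^ (n + 1), f v = u) hu ?_ ?_
    · intro r hr m hm
      obtain ⟨v, hv, rfl⟩ := mem_map_pow f hf J n r hr
      obtain ⟨x, hx, rfl⟩ := (Ideal.mem_map_iff_of_surjective f hf).1 hm
      refine ⟨v * x, ?_, by rw [map_mul]; rfl⟩
      rw [Submodule.pow_succ]
      exact Ideal.mul_mem_mul hv hx
    · rintro x y ⟨v, hv, rfl⟩ ⟨w, hw, rfl⟩
      exact ⟨v + w, (J ^ (n + 1)).add_mem hv hw, map_add f v w⟩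

end quot

end Laz17

open Laz17

theorem stLaz_17 (hEx : StEx) (hExMap : StExMap) (hLog : StLog) (hFpf : StFpf) (hCov : StCov)
    (hLR : StLR) (hGA : StGA) (hFun : StFun) : StLaz := by
  intro h d
  obtain ⟨N, hN⟩ := hLR h d
  refine ⟨N, ?_⟩
  intro p _ Γ P _ _ _ _ _ F H hP hFro hh hC
  obtain ⟨ga1, ga2, ga3, ga4, ga5, ga6, ga7, ga8⟩ := hGA p P
  obtain ⟨fu1, fu2, fu3, fu4, fu5, fu6⟩ := hFun p Γ P
  haveI : Finite (GA p P) := finite_GA p P
  -- the algebra
  let I : Ideal (GA p P) := Dl p P ^ p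
  let A' : Type := GA p P ⧸ I
  letI : Ring A' := Ideal.Quotient.ring I
  letI : Algebra (ZMod p) A' := Ideal.Quotient.algebra (ZMod p)
  let mk : GA p P →+* A' := Ideal.Quotient.mk I
  have hmk : Function.Surjective mk := Ideal.Quotient.mk_surjective
  have hmk0 : ∀ u : GA p P, mk u = 0 ↔ u ∈ Dl p P ^ p := fun u => Ideal.Quotient.eq_zero_iff_mem
  haveI : Finite A' := Finite.of_surjective mk hmk
  let J : Ideal A' := (Dl p P).map mk
  haveI : J.IsTwoSided := map_isTwoSided mk hmk (Dl p P)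
  have hJp : J ^ p = ⊥ := by
    rw [eq_bot_iff]
    intro u hu
    obtain ⟨v, hv, rfl⟩ := mem_map_pow mk hmk (Dl p P) p u hu
    exact (hmk0 v).2 hv
  obtain ⟨ex1, ex2, ex3, ex4, ex5, ex6⟩ := hEx p A' J hJp
  have ex_zero : ex p (0 : A') = 1 := by
    have := (ex2 0 J.zero_mem).1
    have h3 := ex1 0 J.zero_mem 0 J.zero_mem rfl
    rw [add_zero] at h3
    rw [neg_zero] at this
    rw [h3]; exact this
  -- the group
  let ι : P →* A'ˣ := MonoidHom.toHomUnits ((mk : GA p P →* A').comp (io p))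
  have hι : ∀ g : P, ((ι g : A'ˣ) : A') = mk (io p g) := fun g => rfl
  have hι1 : ∀ g g' : P, ((ι g : A'ˣ) : A') = (ι g' : A') → g⁻¹ * g' ∈ Dn p P p := by
    intro g g' hgg
    have h1 : ι g = ι g' := Units.ext hgg
    have h2 : ι (g⁻¹ * g') = 1 := by rw [map_mul, map_inv, h1, inv_mul_cancel]
    have h3 : mk (io p (g⁻¹ * g')) = 1 := by rw [← hι, h2]; rfl
    rw [mem_Dn, ← hmk0, map_sub, map_one, h3, sub_self]
  have hι2 : ∀ g ∈ Dn p P p, ι g = 1 := by
    intro g hg
    rw [mem_Dn, ← hmk0, map_sub, map_one, sub_eq_zero] at hg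
    exact Units.ext hg
  have hιJ : ∀ g, ((ι g : A'ˣ) : A') - 1 ∈ J := by
    intro g
    have := Ideal.mem_map_of_mem mk (ga1 g)
    rw [map_sub, map_one] at this
    exact this
  -- the action
  let gR : Γ → (GA p P →+* GA p P) := fun γ => (gact (P := P) p γ).toRingHom
  have hact0 : ∀ γ : Γ, ∀ u ∈ I, (mk.comp (gR γ)) u = 0 :=
    fun γ u hu => (hmk0 (gact p γ u)).2 (fu4 γ p u hu)
  let actR : Γ → (A' →+* A') := fun γ =>
    Ideal.Quotient.lift I (mk.comp (gR γ)) (hact0 γ)
  have hactR : ∀ (γ : Γ) (u : GA p P), actR γ (mk u) = mk (gact p γ u) := fun γ u => rfl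
  let act : Γ →* AddMonoid.End A' :=
    { toFun := fun γ => (actR γ : A' →+ A')
      map_one' := by
        ext v
        obtain ⟨u, rfl⟩ := hmk v
        change actR 1 (mk u) = mk u
        rw [hactR, fu3]
      map_mul' := by
        intro γ δ
        ext v
        obtain ⟨u, rfl⟩ := hmk v
        change actR (γ * δ) (mk u) = actR γ (actR δ (mk u))
        rw [hactR, hactR, hactR, fu2] }
  have hactι : ∀ (γ : Γ) (g : P), actR γ (ι g : A') = (ι (γ • g) : A') := by
    intro γ g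
    rw [hι, hι, hactR, fu1]
  have hactJ : ∀ (γ : Γ), ∀ u ∈ J, actR γ u ∈ J := by
    intro γ u hu
    obtain ⟨v, hv, rfl⟩ := (Ideal.mem_map_iff_of_surjective mk hmk).1 hu
    rw [hactR]
    refine Ideal.mem_map_of_mem mk ?_
    have := fu4 γ 1 v (by rwa [Submodule.pow_one])
    rwa [Submodule.pow_one] at this
  -- the Lie ring
  let S : Subgroup A'ˣ := (⊤ : Subgroup P).map ι
  have hSJ : ∀ s ∈ S, (s : A') - 1 ∈ J := by
    rintro s ⟨g, _, rfl⟩
    exact hιJ g
  obtain ⟨K, hK, hKbr, hK1, hK2⟩ := hLog p A' J hJp S hSJ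
  have hKmem : ∀ u, u ∈ K ↔ u ∈ lg p J S := fun u => by rw [← hK]; rfl
  -- the fixed points of the action on the Lie ring
  have key : ∀ (γ : Γ) (v : A'), v ∈ K → act γ v = v → ∀ q : P, (ι q : A') = ex p v →
      q⁻¹ * (γ • q) ∈ Dn p P p := by
    intro γ v hv hfix q hq
    apply hι1
    rw [← hactι, hq, hExMap p A' A' (actR γ) v]
    have : actR γ v = v := hfix
    rw [this]
  have hDnN : (Dn p P p).Normal := ga4 p
  have hmain : @dsr A' LieRing.ofAssociativeRing K N = ⊥ := by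
    refine @hN A' Γ LieRing.ofAssociativeRing _ act K F H _ ?_ ?_ ?_ hFro.norm hFro.fne hFro.hne hFro.free ?_ hh ?_
    · intro γ x y
      change actR γ (x * y - y * x) = actR γ x * actR γ y - actR γ y * actR γ x
      rw [map_sub, map_mul, map_mul]
    · exact hKbr
    · intro γ u hu
      rw [hKmem] at hu ⊢
      obtain ⟨huJ, s, ⟨g, _, rfl⟩, hs⟩ := hu
      refine ⟨hactJ γ u huJ, ι (γ • g), ⟨γ • g, trivial, rfl⟩, ?_⟩
      rw [← hactι, hs, hExMap p A' A' (actR γ) u]
      rfl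
    · intro y hy hy1 v hv hfix
      have hv' := (hKmem v).1 hv
      obtain ⟨hvJ, s, ⟨g, _, rfl⟩, hs⟩ := hv'
      have h1 := key y v hv hfix g hs
      have h2 : g ∈ Dn p P p := hFpf p Γ P F H hP hFro (Dn p P p) (fun γ => fu5 γ p) y hy hy1 g h1
      have h3 : ι g = 1 := hι2 g h2
      refine ex5 v hvJ 0 J.zero_mem ?_
      rw [ex_zero, ← hs, h3]
      rfl
    · intro C hCC
      let CP : Subgroup P :=
        { carrier := {g | ∀ x ∈ H, x • g = g}
          one_mem' := fun x _ => smul_one x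
          mul_mem' := fun {a b} ha hb x hx => by rw [smul_mul', ha x hx, hb x hx]
          inv_mem' := fun {a} ha x hx => by rw [smul_inv', ha x hx] }
      have hCP : dsg CP d = ⊥ := hC CP (fun g => Iff.rfl)
      let SC : Subgroup A'ˣ := CP.map ι
      have hSCJ : ∀ s ∈ SC, (s : A') - 1 ∈ J := by
        rintro s ⟨g, _, rfl⟩
        exact hιJ g
      obtain ⟨KC, hKC, -, hKC1, -⟩ := hLog p A' J hJp SC hSCJ
      have hCle : C ≤ KC := by
        intro v hv
        obtain ⟨hvK, hvfix⟩ := (hCC v).1 hv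
        obtain ⟨hvJ, s, ⟨g, _, rfl⟩, hs⟩ := (hKmem v).1 hvK
        obtain ⟨n, hn, hfix⟩ := hCov p Γ P F H hP hFro (Dn p P p) (fun γ => fu5 γ p) g
          (fun x hx => key x v hvK (hvfix x hx) g hs)
        have : v ∈ (KC : Set A') := by
          rw [hKC]
          refine ⟨hvJ, ι (g * n), ⟨g * n, hfix, rfl⟩, ?_⟩
          rw [map_mul, hι2 n hn, mul_one]
          exact hs
        exact this
      rw [eq_bot_iff]
      intro u hu
      have h1 : u ∈ dsa KC d := by
        rw [← dsr_eq_dsa]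
        exact @dsr_mono A' LieRing.ofAssociativeRing C KC hCle d u hu
      obtain ⟨huJ, s, hs, hsu⟩ := hKC1 d u h1
      have h2 : s = 1 := by
        have h3 : dsg SC d = (dsg CP d).map ι := dsg_map ι CP d
        rw [h3, hCP, Subgroup.map_bot] at hs
        exact Subgroup.mem_bot.1 hs
      have h4 : u = 0 := by
        refine ex5 u huJ 0 J.zero_mem ?_
        rw [ex_zero, ← hsu, h2]
        rfl
      exact h4
  intro g hg
  have h1 : ι g ∈ dsg S N := by
    rw [dsg_map ι ⊤ N]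
    exact ⟨g, hg, rfl⟩
  obtain ⟨u, hu, hsu⟩ := hK2 N (ι g) h1
  rw [← dsr_eq_dsa, hmain] at hu
  have h2 : u = 0 := AddSubgroup.mem_bot.1 hu
  rw [h2, ex_zero] at hsu
  have h3 := hι1 1 g (by rw [hsu, map_one]; rfl)
  rwa [inv_one, one_mul] at h3

theorem stIter_17 (hFun : StFun) (hLaz : StLaz) : StIter := by
  intro h d
  obtain ⟨N, hN⟩ := hLaz h d
  refine ⟨N, ?_⟩
  intro p _ Γ P _ _ _ _ _ F H hP hFro hh hC j
  obtain ⟨fu1, fu2, fu3, fu4, fu5, fu6⟩ := hFun p Γ P
  induction j with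
  | zero =>
    intro g _
    rw [pow_zero, mem_Dn]
    have : (Dl p P) ^ 1 = Dl p P := Submodule.pow_one _
    rw [this]
    change aug p P (io p g - 1) = 0
    rw [map_sub, map_one, sub_eq_zero]
    simp [aug, io]
  | succ j ih =>
    have hstep : (j + 1) * N = j * N + N := by ring
    rw [hstep, dsg_add]
    let Q : Subgroup P := Dn p P (p ^ j)
    have hQ : ∀ (γ : Γ), ∀ g ∈ Q, γ • g ∈ Q := fun γ g hg => fu5 γ _ g hg
    letI : MulDistribMulAction Γ Q := subAct Q hQ
    have hsm : ∀ (γ : Γ) (g : Q), ((γ • g : Q) : P) = γ • (g : P) := fun γ g => rfl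
    have hFroQ : Fro Q F H :=
      { norm := hFro.norm
        fne := hFro.fne
        hne := hFro.hne
        free := hFro.free
        fpf := by
          intro y hy hy1 g hg
          have := hFro.fpf y hy hy1 (g : P) (by rw [← hsm, hg])
          exact Subtype.ext this }
    have hCQ : ∀ C : Subgroup Q, (∀ g, g ∈ C ↔ ∀ x ∈ H, x • g = g) → dsg C d = ⊥ := by
      intro C hCC
      let CP : Subgroup P :=
        { carrier := {g | ∀ x ∈ H, x • g = g}
          one_mem' := fun x _ => smul_one x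
          mul_mem' := fun {a b} ha hb x hx => by rw [smul_mul', ha x hx, hb x hx]
          inv_mem' := fun {a} ha x hx => by rw [smul_inv', ha x hx] }
      have hCP : dsg CP d = ⊥ := hC CP (fun g => Iff.rfl)
      have hle : C.map Q.subtype ≤ CP := by
        rintro _ ⟨g, hg, rfl⟩ x hx
        have := (hCC g).1 hg x hx
        exact congrArg Subtype.val this
      have h1 : (dsg C d).map Q.subtype ≤ ⊥ := by
        rw [← dsg_map, ← hCP]
        exact dsg_mono hle d
      rw [eq_bot_iff]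
      intro g hg
      have h2 : Q.subtype g ∈ (⊥ : Subgroup P) := h1 ⟨g, hg, rfl⟩
      exact Subtype.ext (Subgroup.mem_bot.1 h2)
    have hres := hN p Γ Q F H (hP.to_subgroup Q) hFroQ hh hCQ
    have h1 : dsg (dsg (⊤ : Subgroup P) (j * N)) N ≤ dsg Q N := dsg_mono ih N
    have h2 : dsg Q N = (dsg (⊤ : Subgroup Q) N).map Q.subtype := by
      rw [← dsg_map]
      congr 1
      ext g
      constructor
      · intro hg; exact ⟨⟨g, hg⟩, trivial, rfl⟩
      · rintro ⟨g, _, rfl⟩; exact g.2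
    refine h1.trans ?_
    rw [h2]
    rintro _ ⟨g, hg, rfl⟩
    have h3 := fu6 Q (p ^ j) p le_rfl g (hres hg)
    rw [pow_succ]
    exact h3

end Pool.Agent.PX
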