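import Pool.Agent.Lib.MP_2b9f9a_al.PX.Stmts

set_option autoImplicit false

/-!
# Module M5 of PX
-/

namespace Pool.Agent.PX

namespace L53

open scoped commutatorElement

section

variable {p : ℕ} [Fact p.Prime] {A : Type} [Ring A] [Algebra (ZMod p) A]

theorem ex_zero (hEx : StEx) (J : Ideal A) [J.IsTwoSided] (hJ : J ^ p = ⊥) :
    ex p (0 : A) = 1 := by
  have h1 := ((hEx p A J hJ).2.1 0 J.zero_mem).1
  have h2 := (hEx p A J hJ).1 0 J.zero_mem 0 J.zero_mem rfl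
  rw [neg_zero] at h1
  rw [add_zero] at h2
  rw [h2, h1]

theorem ex_neg (hEx : StEx) (J : Ideal A) [J.IsTwoSided] (hJ : J ^ p = ⊥) {u : A} (hu : u ∈ J)
    {s : Aˣ} (hs : (s : A) = ex p u) : ((s⁻¹ : Aˣ) : A) = ex p (-u) := by
  have h1 := ((hEx p A J hJ).2.1 u hu).1
  rw [← hs] at h1
  exact Units.inv_eq_of_mul_eq_one_left h1

/-- the logarithms of the elements of a subgroup -/
def lgS (hEx : StEx) (hBCH : StBCH) (J : Ideal A) [J.IsTwoSided] (hJ : J ^ p = ⊥)
    (S : Subgroup Aˣ) : AddSubgroup A where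
  carrier := lg p J S
  zero_mem' := ⟨J.zero_mem, 1, S.one_mem, by rw [ex_zero hEx J hJ]; rfl⟩
  add_mem' := by
    rintro u v ⟨hu, s, hs, hsu⟩ ⟨hv, t, ht, htv⟩
    obtain ⟨g, hg, hgv⟩ := (hBCH p A J hJ u hu v hv s t hsu htv).1
    refine ⟨J.add_mem hu hv, g, ?_, hgv⟩
    exact (Subgroup.closure_le S).2 (by
      rintro x (rfl | hx)
      · exact hs
      · rw [Set.mem_singleton_iff] at hx
        subst hx
        exact ht) hg
  neg_mem' := by
    rintro u ⟨hu, s, hs, hsu⟩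
    exact ⟨J.neg_mem hu, s⁻¹, S.inv_mem hs, ex_neg hEx J hJ hu hsu⟩

theorem brk_mem (hBCH : StBCH) (J : Ideal A) [J.IsTwoSided] (hJ : J ^ p = ⊥)
    (S : Subgroup Aˣ) {u v : A} (hu : u ∈ lg p J S) (hv : v ∈ lg p J S) :
    u * v - v * u ∈ lg p J ⁅S, S⁆ := by
  obtain ⟨hu, s, hs, hsu⟩ := hu
  obtain ⟨hv, t, ht, htv⟩ := hv
  obtain ⟨g, hg, hgv⟩ := (hBCH p A J hJ u hu v hv s t hsu htv).2.1
  refine ⟨J.sub_mem (J.mul_mem_left _ hv) (J.mul_mem_left _ hu), g, ?_, hgv⟩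
  have h1 : Subgroup.closure {s, t} ≤ S := (Subgroup.closure_le S).2 (by
      rintro x (rfl | hx)
      · exact hs
      · rw [Set.mem_singleton_iff] at hx
        subst hx
        exact ht)
  exact Subgroup.commutator_mono h1 h1 hg

theorem lg_mono (J : Ideal A) {S T : Subgroup Aˣ} (h : S ≤ T) : lg p J S ⊆ lg p J T := by
  rintro u ⟨hu, s, hs, hsu⟩
  exact ⟨hu, s, h hs, hsu⟩

end

theorem dsa_brk {A : Type} [Ring A] (K : AddSubgroup A) (k : ℕ) {u v : A} (hu : u ∈ dsa K k)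
    (hv : v ∈ dsa K k) : u * v - v * u ∈ dsa K (k + 1) :=
  AddSubgroup.subset_closure ⟨u, hu, v, hv, rfl⟩

theorem dsa_succ_le {A : Type} [Ring A] (K : AddSubgroup A)
    (hK : ∀ u ∈ K, ∀ v ∈ K, u * v - v * u ∈ K) (k : ℕ) : dsa K (k + 1) ≤ dsa K k := by
  induction k with
  | zero =>
    show AddSubgroup.closure _ ≤ K
    rw [AddSubgroup.closure_le]
    rintro _ ⟨u, hu, v, hv, rfl⟩
    exact hK u hu v hv
  | succ k ih =>
    show AddSubgroup.closure _ ≤ dsa K (k + 1)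
    rw [AddSubgroup.closure_le]
    rintro _ ⟨u, hu, v, hv, rfl⟩
    exact dsa_brk K k (ih hu) (ih hv)

theorem dsa_le {A : Type} [Ring A] (K : AddSubgroup A)
    (hK : ∀ u ∈ K, ∀ v ∈ K, u * v - v * u ∈ K) (k : ℕ) : dsa K k ≤ K := by
  induction k with
  | zero => exact le_rfl
  | succ k ih => exact (dsa_succ_le K hK k).trans ih

end L53

open L53 in
open scoped commutatorElement in
/-- Module M5. -/
theorem stLog_53 (hBCH : StBCH) (hEx : StEx) : StLog := by
  intro p hp A _ _ _ J _ hJ S hS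
  have hcom : ∀ T : Subgroup Aˣ, ⁅T, T⁆ ≤ T := fun T => by
    rw [Subgroup.commutator_le]
    intro g hg h hh
    rw [commutatorElement_def]
    exact T.mul_mem (T.mul_mem (T.mul_mem hg hh) (T.inv_mem hg)) (T.inv_mem hh)
  have hKb : ∀ u ∈ lgS hEx hBCH J hJ S, ∀ v ∈ lgS hEx hBCH J hJ S,
      u * v - v * u ∈ lgS hEx hBCH J hJ S := fun u hu v hv =>
    lg_mono J (hcom S) (brk_mem hBCH J hJ S hu hv)
  refine ⟨lgS hEx hBCH J hJ S, rfl, hKb, ?_, ?_⟩
  · intro k
    induction k with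
    | zero => exact fun u hu => hu
    | succ k ih =>
      intro u hu
      have h1 : dsa (lgS hEx hBCH J hJ S) (k + 1) ≤ lgS hEx hBCH J hJ (dsg S (k + 1)) := by
        show AddSubgroup.closure _ ≤ _
        rw [AddSubgroup.closure_le]
        rintro _ ⟨u, hu, v, hv, rfl⟩
        exact brk_mem hBCH J hJ (dsg S k) (ih u hu) (ih v hv)
      exact h1 hu
  · intro k
    induction k with
    | zero =>
      intro s hs
      obtain ⟨u, hu, hus⟩ := (hEx p A J hJ).2.2.2.2.2 inferInstance s (hS s hs)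
      exact ⟨u, ⟨hu, s, hs, hus.symm⟩, hus.symm⟩
    | succ k ih =>
      intro s hs
      have hJk : ∀ j, ∀ u ∈ dsa (lgS hEx hBCH J hJ S) j, u ∈ J := fun j u hu =>
        (dsa_le _ hKb j hu).1
      have hs' : s ∈ ⁅dsg S k, dsg S k⁆ := hs
      rw [Subgroup.commutator_def] at hs'
      induction hs' using Subgroup.closure_induction with
      | mem s hs' =>
        obtain ⟨g, hg, h, hh, rfl⟩ := hs'
        obtain ⟨u, hu, hgu⟩ := ih g hg
        obtain ⟨v, hv, hhv⟩ := ih h hh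
        obtain ⟨w, hw, hwv⟩ := ((hBCH p A J hJ u (hJk k u hu) v (hJk k v hv) g h hgu hhv).2.2
          (dsa _ k) (dsa _ (k + 1)) hu hv (fun x hx y hy => dsa_brk _ k hx hy)
          (dsa_succ_le _ hKb k)).2
        exact ⟨w, hw, hwv⟩
      | one => exact ⟨0, AddSubgroup.zero_mem _, by rw [ex_zero hEx J hJ]; rfl⟩
      | mul g h hg' hh' hg hh =>
        obtain ⟨u, hu, hgu⟩ := hg (by
          show g ∈ ⁅dsg S k, dsg S k⁆
          rw [Subgroup.commutator_def]
          exact hg')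
        obtain ⟨v, hv, hhv⟩ := hh (by
          show h ∈ ⁅dsg S k, dsg S k⁆
          rw [Subgroup.commutator_def]
          exact hh')
        obtain ⟨w, hw, hwv⟩ := ((hBCH p A J hJ u (hJk _ u hu) v (hJk _ v hv) g h hgu hhv).2.2
          (dsa _ (k + 1)) (dsa _ (k + 1 + 1)) hu hv (fun x hx y hy => dsa_brk _ (k + 1) hx hy)
          (dsa_succ_le _ hKb (k + 1))).1
        refine ⟨u + v + w, AddSubgroup.add_mem _ (AddSubgroup.add_mem _ hu hv)
          (dsa_succ_le _ hKb (k + 1) hw), ?_⟩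
        rw [Units.val_mul, hgu, hhv, hwv]
      | inv g hg' hg =>
        obtain ⟨u, hu, hgu⟩ := hg (by
          show g ∈ ⁅dsg S k, dsg S k⁆
          rw [Subgroup.commutator_def]
          exact hg')
        exact ⟨-u, AddSubgroup.neg_mem _ hu, ex_neg hEx J hJ (hJk _ u hu) hgu⟩

end Pool.Agent.PX
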