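import Pool.Agent.Lib.MP_2b9f9a_al.PX.Stmts

/-!
# M16: the theorem modulo p-th powers.
-/

set_option autoImplicit false

namespace Pool.Agent.PX

namespace Main78

theorem dsg_mono {G : Type} [Group G] {A B : Subgroup G} (h : A ≤ B) (k : ℕ) :
    dsg A k ≤ dsg B k := by
  induction k with
  | zero => exact h
  | succ k ih => exact Subgroup.commutator_mono ih ih

theorem dsg_map {G G' : Type} [Group G] [Group G'] (f : G →* G') (A : Subgroup G) (k : ℕ) :
    (dsg A k).map f = dsg (A.map f) k := by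
  induction k with
  | zero => rfl
  | succ k ih =>
    change Subgroup.map f ⁅dsg A k, dsg A k⁆ = ⁅dsg (A.map f) k, dsg (A.map f) k⁆
    rw [Subgroup.map_commutator, ih]

theorem dsg_top {G : Type} [Group G] (k : ℕ) : dsg (⊤ : Subgroup G) k = derivedSeries G k := by
  induction k with
  | zero => rfl
  | succ k ih =>
    change ⁅dsg (⊤ : Subgroup G) k, dsg (⊤ : Subgroup G) k⁆ = _
    rw [ih, derivedSeries_succ]

theorem dsg_sub {G : Type} [Group G] (C : Subgroup G) (k : ℕ) (h : derivedSeries C k = ⊥) :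
    dsg C k = ⊥ := by
  have h1 : dsg C k = (dsg (⊤ : Subgroup C) k).map C.subtype := by
    rw [dsg_map, ← MonoidHom.range_eq_map, Subgroup.range_subtype]
  rw [h1, dsg_top, h, Subgroup.map_bot]

/-- The subgroup generated by `p`-th powers. -/
def pw (p : ℕ) (G : Type) [Group G] : Subgroup G := Subgroup.closure {g | ∃ x : G, g = x ^ p}

theorem pw_map (p : ℕ) {G : Type} [Group G] (f : G →* G) : ∀ g ∈ pw p G, f g ∈ pw p G := by
  intro g hg
  refine Subgroup.closure_induction (p := fun g _ => f g ∈ pw p G) ?_ ?_ ?_ ?_ hg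
  · rintro _ ⟨x, rfl⟩
    rw [map_pow]
    exact Subgroup.subset_closure ⟨_, rfl⟩
  · rw [map_one]; exact one_mem _
  · intro a b _ _ ha hb; rw [map_mul]; exact mul_mem ha hb
  · intro a _ ha; rw [map_inv]; exact inv_mem ha

instance pw_normal (p : ℕ) (G : Type) [Group G] : (pw p G).Normal :=
  ⟨fun n hn g => pw_map p (MulAut.conj g).toMonoidHom n hn⟩

/-- The action of the automorphism group on the quotient modulo `p`-th powers. -/
@[reducible] def qact (p : ℕ) (G : Type) [Group G] : MulDistribMulAction (MulAut G) (G ⧸ pw p G) where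
  smul γ := QuotientGroup.map (pw p G) (pw p G) (MulEquiv.toMonoidHom γ)
    (fun g hg => pw_map p (MulEquiv.toMonoidHom γ) g hg)
  one_smul v := by
    obtain ⟨g, rfl⟩ := QuotientGroup.mk_surjective v
    rfl
  mul_smul γ δ v := by
    obtain ⟨g, rfl⟩ := QuotientGroup.mk_surjective v
    rfl
  smul_mul γ a b := map_mul _ a b
  smul_one γ := map_one _

end Main78

open Main78 in
theorem stMain_78 (hFpf : StFpf) (hCov : StCov) (hExpP : StExpP) : StMain := by
  intro h d
  obtain ⟨N, hN⟩ := hExpP h d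
  refine ⟨N, ?_⟩
  intro p hp G _ _ F H hPG hnorm hF hH hfree hfpf hcard hC
  haveI : Fact p.Prime := ⟨hp⟩
  have hFro : Fro G F H := ⟨hnorm, hF, hH, hfree, fun y hy hy1 g hg => hfpf y hy hy1 g hg⟩
  have hst : ∀ γ : MulAut G, ∀ g ∈ pw p G, γ • g ∈ pw p G := fun γ g hg =>
    pw_map p (MulEquiv.toMonoidHom γ) g hg
  letI := qact p G
  have hsm : ∀ (γ : MulAut G) (g : G), γ • ((g : G) : G ⧸ pw p G) = ((γ g : G) : G ⧸ pw p G) :=
    fun γ g => rfl
  have hFroQ : Fro (G ⧸ pw p G) F H := by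
    refine ⟨hnorm, hF, hH, hfree, ?_⟩
    intro y hy hy1 v hv
    obtain ⟨g, rfl⟩ := QuotientGroup.mk_surjective v
    rw [hsm, eq_comm, QuotientGroup.eq] at hv
    have h1 := hFpf p (MulAut G) G F H hPG hFro (pw p G) hst y hy hy1 g hv
    exact (QuotientGroup.eq_one_iff g).2 h1
  have hexp : ∀ v : G ⧸ pw p G, v ^ p = 1 := by
    intro v
    obtain ⟨g, rfl⟩ := QuotientGroup.mk_surjective v
    rw [← QuotientGroup.mk_pow]
    exact (QuotientGroup.eq_one_iff _).2 (Subgroup.subset_closure ⟨g, rfl⟩)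
  have hCQ : ∀ C : Subgroup (G ⧸ pw p G), (∀ v, v ∈ C ↔ ∀ x ∈ H, x • v = v) → dsg C d = ⊥ := by
    intro C' hC'
    let C : Subgroup G :=
      { carrier := {g | ∀ x ∈ H, x g = g}
        one_mem' := fun x _ => map_one x
        mul_mem' := fun {a b} ha hb x hx => by rw [map_mul, ha x hx, hb x hx]
        inv_mem' := fun {a} ha x hx => by rw [map_inv, ha x hx] }
    have h1 : dsg C d = ⊥ := dsg_sub C d (hC C fun g => Iff.rfl)
    have h2 : C' ≤ C.map (QuotientGroup.mk' (pw p G)) := by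
      intro v hv
      rw [hC'] at hv
      obtain ⟨g, rfl⟩ := QuotientGroup.mk_surjective v
      have h3 : ∀ x ∈ H, g⁻¹ * (x • g) ∈ pw p G := by
        intro x hx
        have := hv x hx
        rw [hsm, eq_comm, QuotientGroup.eq] at this
        exact this
      obtain ⟨n, hn, hn2⟩ := hCov p (MulAut G) G F H hPG hFro (pw p G) hst g h3
      refine ⟨g * n, fun x hx => hn2 x hx, ?_⟩
      change ((g * n : G) : G ⧸ pw p G) = (g : G ⧸ pw p G)
      rw [eq_comm, QuotientGroup.eq]
      simpa using hn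
    refine le_bot_iff.1 ((dsg_mono h2 d).trans ?_)
    rw [← dsg_map, h1, Subgroup.map_bot]
  have h1 := hN p (MulAut G) (G ⧸ pw p G) F H hexp hFroQ hcard hCQ
  have h2 : (derivedSeries G N).map (QuotientGroup.mk' (pw p G)) = ⊥ := by
    rw [← dsg_top, dsg_map, ← MonoidHom.range_eq_map,
      MonoidHom.range_eq_top.2 (QuotientGroup.mk'_surjective _), h1]
  rw [Subgroup.map_eq_bot_iff, QuotientGroup.ker_mk'] at h2
  exact h2

end Pool.Agent.PX
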