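import Pool.Agent.Lib.MP_2b9f9a_al.PX.GA31

set_option autoImplicit false

namespace Pool.Agent.PX

open Finset GA31

namespace Nil31

variable {p : ℕ} [Fact p.Prime] {P : Type} [Group P]

/-- On a vector fixed by the group the group algebra acts by the augmentation. -/
theorem smul_fixed {V : Type} [AddCommGroup V] [Module (GA p P) V] (b : V)
    (hb : ∀ g : P, io p g • b = b) (a : GA p P) :
    a • b = algebraMap (ZMod p) (GA p P) (aug p P a) • b := by
  refine ind (Q := fun a => a • b = algebraMap (ZMod p) (GA p P) (aug p P a) • b) ?_ ?_ ?_ a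
  · rw [map_zero, map_zero]
  · intro g
    rw [aug_io, map_one, one_smul, hb]
  · intro u v hu hv
    rw [map_add, map_add, add_smul, add_smul, hu, hv]

theorem exists_fixed [Finite P] (hP : IsPGroup p P) {V : Type} [AddCommGroup V]
    [Module (GA p P) V] [Finite V] (v : V) (hv : v ≠ 0) :
    ∃ b : V, b ≠ 0 ∧ ∀ g : P, io p g • b = b := by
  let : MulAction P V := MulAction.compHom V (io p (P := P))
  have hpv : ∀ w : V, p • w = 0 := by
    intro w
    have : ((p : ℕ) : GA p P) • w = p • w := Nat.cast_smul_eq_nsmul (GA p P) p w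
    rw [← this, CharP.cast_eq_zero, zero_smul]
  have hord : addOrderOf v = p := addOrderOf_eq_prime (hpv v) hv
  have hdvd : p ∣ Nat.card V := hord ▸ addOrderOf_dvd_natCard v
  have h0 : (0 : V) ∈ MulAction.fixedPoints P V := by
    intro g
    change io p g • (0 : V) = 0
    rw [smul_zero]
  obtain ⟨b, hb, hne⟩ :=
    hP.exists_fixed_point_of_prime_dvd_card_of_fixed_point V hdvd h0
  exact ⟨b, hne.symm, fun g => hb g⟩

theorem nil_aux [Finite P] (hP : IsPGroup p P) (n : ℕ) : ∀ (V : Type) [AddCommGroup V]
    [Module (GA p P) V] [Finite V], Nat.card V ≤ n →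
    ∃ k : ℕ, ∀ a ∈ Dl p P ^ k, ∀ v : V, a • v = 0 := by
  induction n with
  | zero =>
    intro V _ _ _ h
    have := Nat.card_pos (α := V)
    omega
  | succ n ih =>
    intro V _ _ _ h
    by_cases hV : ∀ v : V, v = 0
    · exact ⟨0, fun a _ v => hV _⟩
    · obtain ⟨v, hv⟩ := not_forall.1 hV
      obtain ⟨b, hb0, hb⟩ := exists_fixed hP v hv
      -- the submodule killed by the augmentation ideal
      let W : Submodule (GA p P) V :=
        { carrier := {w | ∀ a ∈ Dl p P, a • w = 0}
          add_mem' := fun {x y} hx hy a ha => by rw [smul_add, hx a ha, hy a ha, add_zero]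
          zero_mem' := fun a _ => smul_zero a
          smul_mem' := fun r x hx a ha => by
            rw [smul_smul]
            exact hx _ (Ideal.mul_mem_right _ _ ha) }
      have hbW : b ∈ W := by
        intro a ha
        rw [smul_fixed b hb a, mem_Dl.1 ha, map_zero, zero_smul]
      have hfin : Finite (V ⧸ W) := Finite.of_surjective _ (Submodule.mkQ_surjective W)
      have hcard : Nat.card (V ⧸ W) ≤ n := by
        have e : Nat.card V = Nat.card W * Nat.card (V ⧸ W) :=
          Submodule.card_eq_card_quotient_mul_card W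
        have h2 : 2 ≤ Nat.card W := by
          have : Nontrivial W := ⟨⟨⟨b, hbW⟩, 0, fun h => hb0 (congrArg Subtype.val h)⟩⟩
          exact Finite.one_lt_card
        have h3 : 0 < Nat.card (V ⧸ W) := Nat.card_pos
        nlinarith
      obtain ⟨k, hk⟩ := ih (V ⧸ W) hcard
      refine ⟨1 + k, ?_⟩
      intro a ha v
      rw [Ideal.IsTwoSided.pow_add, Submodule.pow_one] at ha
      refine Submodule.smul_induction_on (p := fun a => a • v = 0) ha ?_ ?_
      · intro r hr s hs
        change (r * s) • v = 0
        rw [mul_smul]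
        have : s • v ∈ W := by
          rw [← Submodule.Quotient.mk_eq_zero, Submodule.Quotient.mk_smul]
          exact hk s hs _
        exact this r hr
      · intro x y hx hy
        rw [add_smul, hx, hy, add_zero]

end Nil31

theorem finGA_31 (p : ℕ) [Fact p.Prime] (P : Type) [Group P] [Finite P] : Finite (GA p P) :=
  Finite.of_injective (fun (f : GA p P) (g : P) => f.coeff g) fun a b h => by
    ext g
    exact congrFun h g

theorem stNil_31 : StNil := by
  intro p _ P _ _ hP
  have : Finite (GA p P) := finGA_31 p P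
  obtain ⟨k, hk⟩ := Nil31.nil_aux hP (Nat.card (GA p P)) (GA p P) le_rfl
  refine ⟨k, ?_⟩
  rw [eq_bot_iff]
  intro a ha
  have := hk a ha 1
  rw [smul_eq_mul, mul_one] at this
  rw [this]
  exact Submodule.zero_mem _

end Pool.Agent.PX
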