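import Pool.Agent.Lib.MP_2b9f9a_al.PX.Stmts

/-!
# M14: the counting argument (ordered products span the group algebra)
-/

set_option autoImplicit false
set_option linter.unusedSectionVars false

namespace Pool.Agent.PX

open Finset

namespace PBW67

section abstractPart

variable {R ι : Type} [Ring R] [Fintype ι] [DecidableEq ι] (p : ℕ) (b : ι → R) (wt : ι → ℕ)
  (D : ℕ → AddSubgroup R)

/-- product of a word -/
def wd (w : List ι) : R := (w.map b).prod

/-- weight of a word -/
def ww (w : List ι) : ℕ := (w.map wt).sum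

/-- ordered products -/
noncomputable def op (e : ι → Fin p) : R :=
  ((univ : Finset ι).toList.map fun i => b i ^ (e i : ℕ)).prod

variable {p b wt D}

theorem wd_append (u v : List ι) : wd b (u ++ v) = wd b u * wd b v := by
  unfold wd
  rw [List.map_append, List.prod_append]

theorem wd_cons (i : ι) (v : List ι) : wd b (i :: v) = b i * wd b v := by
  unfold wd
  rw [List.map_cons, List.prod_cons]

theorem wd_nil : wd b ([] : List ι) = 1 := rfl

theorem ww_append (u v : List ι) : ww wt (u ++ v) = ww wt u + ww wt v := by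
  unfold ww
  rw [List.map_append, List.sum_append]

theorem ww_cons (i : ι) (v : List ι) : ww wt (i :: v) = wt i + ww wt v := by
  unfold ww
  rw [List.map_cons, List.sum_cons]

theorem ww_perm {u v : List ι} (h : u.Perm v) : ww wt u = ww wt v := by
  unfold ww
  exact (h.map wt).sum_eq

theorem wd_replicate (n : ℕ) (i : ι) : wd b (List.replicate n i) = b i ^ n := by
  unfold wd
  rw [List.map_replicate, List.prod_replicate]

theorem wd_flatMap (l : List ι) (f : ι → List ι) :
    wd b (l.flatMap f) = (l.map fun i => wd b (f i)).prod := by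
  induction l with
  | nil => rfl
  | cons i l ih => rw [List.flatMap_cons, wd_append, ih, List.map_cons, List.prod_cons]

theorem count_flatMap (i : ι) (g : ι → ℕ) (l : List ι) (hl : l.Nodup) :
    (l.flatMap fun j => List.replicate (g j) j).count i = if i ∈ l then g i else 0 := by
  induction l with
  | nil => simp
  | cons j l ih =>
    rw [List.nodup_cons] at hl
    rw [List.flatMap_cons, List.count_append, ih hl.2, List.count_replicate]
    by_cases hij : j = i
    · subst hij
      rw [if_neg hl.1]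
      simp
    · have h1 : (j == i) = false := by simpa using hij
      rw [h1]
      have h2 : (i ∈ j :: l) ↔ i ∈ l := by
        rw [List.mem_cons]
        constructor
        · rintro (h | h)
          · exact absurd h.symm hij
          · exact h
        · exact Or.inr
      simp only [h2]
      simp

/-- The data of the abstract argument. -/
structure Dat (p : ℕ) (b : ι → R) (wt : ι → ℕ) (D : ℕ → AddSubgroup R) : Prop where
  pp : 0 < p
  top : D 0 = ⊤
  anti : ∀ i j, i ≤ j → D j ≤ D i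
  mul : ∀ i j, ∀ x ∈ D i, ∀ y ∈ D j, x * y ∈ D (i + j)
  mem : ∀ i, b i ∈ D (wt i)
  pow : ∀ i, b i ^ p = 0
  comm : ∀ i j, b i * b j - b j * b i ∈
    AddSubgroup.closure {z | ∃ k, wt k = wt i + wt j ∧ b k = z} ⊔ D (wt i + wt j + 1)
  gen1 : ∀ x ∈ D 1, x ∈ AddSubgroup.closure {z | ∃ k, wt k = 1 ∧ b k = z} ⊔ D 2
  gen0 : ∀ x : R, x ∈ AddSubgroup.closure {(1 : R)} ⊔ D 1
  succ : ∀ n, ∀ x ∈ D (n + 1), x ∈ AddSubgroup.closure {z | ∃ x ∈ D n, ∃ y ∈ D 1, x * y = z}

theorem Dat.wd_mem (h : Dat p b wt D) (w : List ι) : wd b w ∈ D (ww wt w) := by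
  induction w with
  | nil =>
    show (1 : R) ∈ D 0
    rw [h.top]
    exact AddSubgroup.mem_top _
  | cons i w ih =>
    rw [wd_cons, ww_cons]
    exact h.mul _ _ _ (h.mem i) _ ih

/-- the target -/
noncomputable def Q (p : ℕ) (b : ι → R) (D : ℕ → AddSubgroup R) (n : ℕ) : AddSubgroup R :=
  AddSubgroup.closure (Set.range (op p b)) ⊔ D (n + 1)

/-- replacing a middle factor -/
theorem Dat.mid (h : Dat p b wt D) {n a : ℕ} (u v : List ι) (hw : ww wt u + a + ww wt v = n)
    (hk : ∀ k, wt k = a → wd b (u ++ k :: v) ∈ Q p b D n) {z : R}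
    (hz : z ∈ AddSubgroup.closure {z | ∃ k, wt k = a ∧ b k = z} ⊔ D (a + 1)) :
    wd b u * z * wd b v ∈ Q p b D n := by
  let f : R →+ R := (AddMonoidHom.mulRight (wd b v)).comp (AddMonoidHom.mulLeft (wd b u))
  have hf : ∀ z, f z = wd b u * z * wd b v := fun z => rfl
  have h1 : AddSubgroup.closure {z | ∃ k, wt k = a ∧ b k = z} ⊔ D (a + 1) ≤ (Q p b D n).comap f := by
    refine sup_le ((AddSubgroup.closure_le _).2 ?_) ?_
    · rintro z ⟨k, hka, rfl⟩
      show f (b k) ∈ Q p b D n
      rw [hf, mul_assoc, ← wd_cons, ← wd_append]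
      exact hk k hka
    · intro z hz
      show f z ∈ Q p b D n
      rw [hf]
      have h2 := h.mul _ _ _ (h.mul _ _ _ (h.wd_mem u) _ hz) _ (h.wd_mem v)
      have h3 : ww wt u + (a + 1) + ww wt v = n + 1 := by omega
      rw [h3] at h2
      exact AddSubgroup.mem_sup_right h2
  exact h1 hz

/-- swapping two neighbours -/
theorem Dat.swap (h : Dat p b wt D) {n s : ℕ}
    (ih : ∀ w : List ι, w.length < s → ww wt w = n → wd b w ∈ Q p b D n) (u v : List ι) (i j : ι)
    (hs : (u ++ i :: j :: v).length = s) (hn : ww wt (u ++ i :: j :: v) = n) :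
    wd b (u ++ i :: j :: v) - wd b (u ++ j :: i :: v) ∈ Q p b D n := by
  have e1 : wd b (u ++ i :: j :: v) - wd b (u ++ j :: i :: v) =
      wd b u * (b i * b j - b j * b i) * wd b v := by
    rw [wd_append, wd_append, wd_cons, wd_cons, wd_cons, wd_cons]
    noncomm_ring
  rw [e1]
  rw [ww_append, ww_cons, ww_cons] at hn
  refine h.mid (a := wt i + wt j) u v (by omega) ?_ (h.comm i j)
  intro k hk
  apply ih
  · rw [List.length_append, List.length_cons] at hs ⊢
    rw [List.length_cons] at hs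
    omega
  · rw [ww_append, ww_cons]
    omega

theorem Dat.perm (h : Dat p b wt D) {n s : ℕ}
    (ih : ∀ w : List ι, w.length < s → ww wt w = n → wd b w ∈ Q p b D n) {w w' : List ι}
    (hp : w.Perm w') : ∀ u v : List ι, (u ++ w ++ v).length = s → ww wt (u ++ w ++ v) = n →
    wd b (u ++ w ++ v) - wd b (u ++ w' ++ v) ∈ Q p b D n := by
  induction hp with
  | nil =>
    intro u v _ _
    rw [sub_self]
    exact zero_mem _
  | @cons x l₁ l₂ _ ihp =>
    intro u v h1 h2
    have e : ∀ l : List ι, u ++ x :: l ++ v = (u ++ [x]) ++ l ++ v := by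
      intro l
      simp
    rw [e] at h1 h2 ⊢
    rw [e]
    exact ihp (u ++ [x]) v h1 h2
  | swap x y l =>
    intro u v h1 h2
    have e : ∀ x y : ι, u ++ x :: y :: l ++ v = u ++ x :: y :: (l ++ v) := by
      intro x y
      simp
    rw [e] at h1 h2 ⊢
    rw [e]
    exact h.swap ih u (l ++ v) y x h1 h2
  | @trans l₁ l₂ l₃ hp1 _ ih1 ih2 =>
    intro u v h1 h2
    have e1 := ih1 u v h1 h2
    have hperm : (u ++ l₁ ++ v).Perm (u ++ l₂ ++ v) :=
      List.Perm.append_right v (List.Perm.append_left u hp1)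
    have e2 := ih2 u v (by rw [← hperm.length_eq]; exact h1) (by rw [← ww_perm hperm]; exact h2)
    have e3 := add_mem e1 e2
    rwa [sub_add_sub_cancel] at e3

/-- every word is in the target -/
theorem Dat.word (h : Dat p b wt D) (n : ℕ) : ∀ s : ℕ, ∀ w : List ι, w.length = s →
    ww wt w = n → wd b w ∈ Q p b D n := by
  intro s
  induction s using Nat.strong_induction_on with
  | _ s ih =>
    intro w hs hn
    have ih' : ∀ w : List ι, w.length < s → ww wt w = n → wd b w ∈ Q p b D n :=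
      fun w hw hn => ih w.length hw w rfl hn
    have key : ∀ w' : List ι, w.Perm w' → wd b w' ∈ Q p b D n → wd b w ∈ Q p b D n := by
      intro w' hp hw'
      have h1 := h.perm ih' hp [] [] (by simpa using hs) (by simpa using hn)
      simp only [List.nil_append, List.append_nil] at h1
      have h2 := add_mem h1 hw'
      rwa [sub_add_cancel] at h2
    by_cases hc : ∀ i, w.count i < p
    · have hperm : w.Perm ((univ : Finset ι).toList.flatMap fun j =>
          List.replicate (w.count j) j) := by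
        rw [List.perm_iff_count]
        intro i
        rw [count_flatMap i (fun j => w.count j) _ (Finset.nodup_toList _), if_pos]
        exact Finset.mem_toList.2 (Finset.mem_univ i)
      refine key _ hperm ?_
      rw [wd_flatMap]
      refine AddSubgroup.mem_sup_left (AddSubgroup.subset_closure ⟨fun i => ⟨w.count i, hc i⟩, ?_⟩)
      unfold op
      congr 1
      apply List.map_congr_left
      intro i _
      exact (wd_replicate _ _).symm
    · push Not at hc
      obtain ⟨i, hi⟩ := hc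
      rw [← List.replicate_sublist_iff] at hi
      obtain ⟨l, hl⟩ := hi.exists_perm_append
      refine key _ hl ?_
      rw [wd_append, wd_replicate, h.pow, zero_mul]
      exact zero_mem _

theorem Dat.words (h : Dat p b wt D) (n : ℕ) :
    D n ≤ AddSubgroup.closure {z | ∃ w, ww wt w = n ∧ wd b w = z} ⊔ D (n + 1) := by
  induction n with
  | zero =>
    intro x _
    refine (sup_le_sup_right ?_ (D 1) : _ ≤ _) (h.gen0 x)
    rw [AddSubgroup.closure_le]
    intro z hz
    exact AddSubgroup.subset_closure ⟨[], rfl, (Set.mem_singleton_iff.1 hz).symm⟩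
  | succ n ih =>
    intro x hx
    have h1 := h.succ n x hx
    refine (AddSubgroup.closure_le _).2 ?_ h1
    rintro z ⟨a, ha, c, hc, rfl⟩
    -- first factor
    have h2 : ∀ c ∈ AddSubgroup.closure {z | ∃ k, wt k = 1 ∧ b k = z} ⊔ D 2, ∀ w : List ι,
        ww wt w = n → wd b w * c ∈
          AddSubgroup.closure {z | ∃ w, ww wt w = n + 1 ∧ wd b w = z} ⊔ D (n + 1 + 1) := by
      intro c hc w hw
      have h3 : AddSubgroup.closure {z | ∃ k, wt k = 1 ∧ b k = z} ⊔ D 2 ≤
          (AddSubgroup.closure {z | ∃ w, ww wt w = n + 1 ∧ wd b w = z} ⊔ D (n + 1 + 1)).comap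
            (AddMonoidHom.mulLeft (wd b w)) := by
        refine sup_le ((AddSubgroup.closure_le _).2 ?_) ?_
        · rintro z ⟨k, hk, rfl⟩
          rw [SetLike.mem_coe, AddSubgroup.mem_comap, AddMonoidHom.coe_mulLeft]
          refine AddSubgroup.mem_sup_left (AddSubgroup.subset_closure ⟨w ++ [k], ?_, ?_⟩)
          · rw [ww_append, ww_cons]
            have : ww wt ([] : List ι) = 0 := rfl
            omega
          · rw [wd_append, wd_cons, wd_nil, mul_one]
        · intro z hz
          rw [AddSubgroup.mem_comap, AddMonoidHom.coe_mulLeft]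
          refine AddSubgroup.mem_sup_right ?_
          have h4 := h.mul _ _ _ (h.wd_mem w) _ hz
          rw [hw] at h4
          exact h4
      exact h3 hc
    have h3 : AddSubgroup.closure {z | ∃ w, ww wt w = n ∧ wd b w = z} ⊔ D (n + 1) ≤
        (AddSubgroup.closure {z | ∃ w, ww wt w = n + 1 ∧ wd b w = z} ⊔ D (n + 1 + 1)).comap
          (AddMonoidHom.mulRight c) := by
      refine sup_le ((AddSubgroup.closure_le _).2 ?_) ?_
      · rintro z ⟨w, hw, rfl⟩
        exact h2 c (h.gen1 c hc) w hw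
      · intro z hz
        rw [AddSubgroup.mem_comap, AddMonoidHom.mulRight_apply]
        exact AddSubgroup.mem_sup_right (h.mul _ _ _ hz _ hc)
    exact h3 (ih ha)

theorem Dat.span (h : Dat p b wt D) (M : ℕ) (hM : D M = ⊥) :
    AddSubgroup.closure (Set.range (op p b)) = ⊤ := by
  have h1 : ∀ n, D n ≤ Q p b D n := by
    intro n
    refine (h.words n).trans (sup_le ((AddSubgroup.closure_le _).2 ?_) ?_)
    · rintro z ⟨w, hw, rfl⟩
      exact h.word n w.length w rfl hw
    · exact le_sup_right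
  have h2 : ∀ n, (⊤ : AddSubgroup R) ≤ AddSubgroup.closure (Set.range (op p b)) ⊔ D n := by
    intro n
    induction n with
    | zero => rw [h.top]; exact le_sup_right
    | succ n ih =>
      refine ih.trans (sup_le le_sup_left (h1 n))
  have h3 := h2 M
  rw [hM, sup_bot_eq] at h3
  exact top_le_iff.1 h3

end abstractPart

section groups

variable {P : Type} [Group P]

/-- three subgroups modulo a normal subgroup -/
theorem three {H₁ H₂ H₃ N : Subgroup P} [N.Normal] (h1 : ⁅⁅H₂, H₃⁆, H₁⁆ ≤ N)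
    (h2 : ⁅⁅H₃, H₁⁆, H₂⁆ ≤ N) : ⁅⁅H₁, H₂⁆, H₃⁆ ≤ N := by
  have e : ∀ A B C : Subgroup P, ⁅⁅A, B⁆, C⁆ ≤ N ↔
      ⁅⁅A.map (QuotientGroup.mk' N), B.map (QuotientGroup.mk' N)⁆,
        C.map (QuotientGroup.mk' N)⁆ = ⊥ := by
    intro A B C
    rw [← Subgroup.map_commutator, ← Subgroup.map_commutator, Subgroup.map_eq_bot_iff,
      QuotientGroup.ker_mk']
  rw [e] at h1 h2 ⊢
  exact Subgroup.commutator_commutator_eq_bot_of_rotate h1 h2

theorem lc_succ {w : ℕ} (hw : 1 ≤ w) : lc P (w + 1) = ⁅lc P w, (⊤ : Subgroup P)⁆ := by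
  obtain ⟨n, rfl⟩ : ∃ n, w = n + 1 := ⟨w - 1, by omega⟩
  rfl

theorem lc_normal : ∀ w : ℕ, (lc P w).Normal
  | 0 => by
    show (⊤ : Subgroup P).Normal
    infer_instance
  | 1 => by
    show (⊤ : Subgroup P).Normal
    infer_instance
  | w + 2 => by
    have := lc_normal (w + 1)
    show (⁅lc P (w + 1), (⊤ : Subgroup P)⁆).Normal
    infer_instance

theorem lc_comm {j : ℕ} (hj : 1 ≤ j) : ∀ i : ℕ, 1 ≤ i → ⁅lc P i, lc P j⁆ ≤ lc P (i + j) := by
  induction j, hj using Nat.le_induction with
  | base =>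
    intro i hi
    rw [lc_succ hi]
    exact le_rfl
  | succ j hj ih =>
    intro i hi
    have hn : (lc P (i + (j + 1))).Normal := lc_normal _
    rw [Subgroup.commutator_comm, lc_succ hj]
    apply three
    · rw [Subgroup.commutator_comm ⊤ (lc P i), ← lc_succ hi]
      refine (ih (i + 1) (by omega)).trans (le_of_eq ?_)
      congr 1
      omega
    · refine (Subgroup.commutator_mono (ih i hi) le_rfl).trans (le_of_eq ?_)
      rw [← lc_succ (by omega : 1 ≤ i + j)]
      congr 1

end groups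

section concrete

variable (p : ℕ) [Fact p.Prime] (P : Type) [Group P]

/-- the powers of the augmentation ideal as additive subgroups -/
noncomputable def D (n : ℕ) : AddSubgroup (GA p P) := (Dl p P ^ n : Ideal (GA p P)).toAddSubgroup

variable {p P}

theorem mem_D {n : ℕ} {x : GA p P} : x ∈ D p P n ↔ x ∈ Dl p P ^ n := Iff.rfl

theorem D_mul (i j : ℕ) : ∀ x ∈ D p P i, ∀ y ∈ D p P j, x * y ∈ D p P (i + j) := by
  intro x hx y hy
  rw [mem_D] at hx hy ⊢
  rw [Ideal.IsTwoSided.pow_add]
  exact Ideal.mul_mem_mul hx hy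

theorem D_anti (i j : ℕ) (h : i ≤ j) : D p P j ≤ D p P i := by
  intro x hx
  rw [mem_D] at hx ⊢
  exact Ideal.pow_le_pow_right h hx

theorem D_zero : D p P 0 = ⊤ := by
  rw [eq_top_iff]
  intro x _
  rw [mem_D, Submodule.pow_zero, Ideal.one_eq_top]
  exact Submodule.mem_top

theorem D_succ (n : ℕ) (x : GA p P) (hx : x ∈ D p P (n + 1)) :
    x ∈ AddSubgroup.closure {z | ∃ x ∈ D p P n, ∃ y ∈ D p P 1, x * y = z} := by
  rw [mem_D, Submodule.pow_succ] at hx
  refine Submodule.mul_induction_on (C := fun x => x ∈ AddSubgroup.closure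
    {z | ∃ x ∈ D p P n, ∃ y ∈ D p P 1, x * y = z}) hx ?_ ?_
  · intro a ha b hb
    refine AddSubgroup.subset_closure ⟨a, ha, b, ?_, rfl⟩
    rw [mem_D, Submodule.pow_one]
    exact hb
  · intro a b ha hb
    exact add_mem ha hb

theorem io_mul_sub (g h : P) : io p (g * h) - 1 =
    (io p g - 1) + (io p h - 1) + (io p g - 1) * (io p h - 1) := by
  rw [map_mul]
  noncomm_ring

/-- the image of a subgroup `H ≤ Dn w` in the quotient by the next power -/
noncomputable def S (H : Subgroup P) (w : ℕ) (hw : 1 ≤ w) (hH : H ≤ Dn p P w) :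
    AddSubgroup (GA p P ⧸ D p P (w + 1)) where
  carrier := {q | ∃ g ∈ H, ((io p g - 1 : GA p P) : GA p P ⧸ D p P (w + 1)) = q}
  zero_mem' := ⟨1, H.one_mem, by rw [map_one, sub_self]; rfl⟩
  add_mem' := by
    rintro _ _ ⟨g, hg, rfl⟩ ⟨h, hh, rfl⟩
    refine ⟨g * h, H.mul_mem hg hh, ?_⟩
    rw [io_mul_sub, ← QuotientAddGroup.mk_add, QuotientAddGroup.eq]
    have h1 := D_mul w w _ (hH hg) _ (hH hh)
    have h2 := D_anti (p := p) (P := P) (w + 1) (w + w) (by omega) h1
    have h3 := neg_mem h2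
    convert h3 using 1
    abel
  neg_mem' := by
    rintro _ ⟨g, hg, rfl⟩
    refine ⟨g⁻¹, H.inv_mem hg, ?_⟩
    rw [← QuotientAddGroup.mk_neg, QuotientAddGroup.eq]
    have h1 := D_mul w w _ (hH hg) _ (hH (H.inv_mem hg))
    have h2 := D_anti (p := p) (P := P) (w + 1) (w + w) (by omega) h1
    have h3 := io_mul_sub (p := p) g g⁻¹
    rw [mul_inv_cancel, map_one, sub_self] at h3
    convert h2 using 1
    have h4 : (io p g - 1) * (io p g⁻¹ - 1) = -((io p g - 1) + (io p g⁻¹ - 1)) :=
      eq_neg_of_add_eq_zero_right h3.symm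
    rw [h4]
    abel

theorem mem_S {H : Subgroup P} {w : ℕ} {hw : 1 ≤ w} {hH : H ≤ Dn p P w}
    {q : GA p P ⧸ D p P (w + 1)} : q ∈ S H w hw hH ↔
      ∃ g ∈ H, ((io p g - 1 : GA p P) : GA p P ⧸ D p P (w + 1)) = q := Iff.rfl

variable [Finite P]

instance : Finite (GA p P) := by
  have : NeZero p := ⟨(Fact.out : p.Prime).ne_zero⟩
  have : Finite (P →₀ ZMod p) := DFunLike.finite _
  exact Finite.of_injective (fun x : GA p P => x.coeff) (fun x y h => by
    cases x; cases y; simpa using h)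

/-- the image is not larger than the factor of the dimension series -/
theorem card_S (H : Subgroup P) (w : ℕ) (hw : 1 ≤ w) (hH : H ≤ Dn p P w) :
    Nat.card (S H w hw hH) ≤ (Dn p P (w + 1)).relIndex (Dn p P w) := by
  let F : (Dn p P w ⧸ (Dn p P (w + 1)).subgroupOf (Dn p P w)) → GA p P ⧸ D p P (w + 1) :=
    Quotient.lift (fun g : Dn p P w => ((io p (g : P) - 1 : GA p P) : GA p P ⧸ D p P (w + 1))) (by
      intro g h hgh
      have h1 : g⁻¹ * h ∈ (Dn p P (w + 1)).subgroupOf (Dn p P w) :=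
        QuotientGroup.leftRel_apply.1 hgh
      rw [Subgroup.mem_subgroupOf] at h1
      have h2 : io p ((g : P)⁻¹ * h) - 1 ∈ Dl p P ^ (w + 1) := h1
      show ((io p (g : P) - 1 : GA p P) : GA p P ⧸ D p P (w + 1)) = (io p (h : P) - 1 : GA p P)
      rw [QuotientAddGroup.eq, mem_D]
      have h3 : -(io p (g : P) - 1) + (io p (h : P) - 1) =
          io p (g : P) * (io p ((g : P)⁻¹ * h) - 1) := by
        rw [mul_sub, ← map_mul, mul_inv_cancel_left]
        noncomm_ring
      rw [h3]
      exact Ideal.mul_mem_left _ _ h2)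
  have h1 : ((S H w hw hH : AddSubgroup _) : Set (GA p P ⧸ D p P (w + 1))) ⊆ Set.range F := by
    rintro q ⟨g, hg, rfl⟩
    exact ⟨QuotientGroup.mk ⟨g, hH hg⟩, rfl⟩
  have h2 := Nat.card_mono (Set.toFinite (Set.range F)) h1
  exact h2.trans (Finite.card_range_le F)

/-- finite elementary abelian groups -/
theorem gens_V (p : ℕ) [Fact p.Prime] (V : Type) [AddCommGroup V] [Finite V]
    (hV : ∀ v : V, p • v = 0) : ∃ (r : ℕ) (f : Fin r → V), Nat.card V = p ^ r ∧
      ∀ v : V, v ∈ AddSubgroup.closure (Set.range f) := by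
  have _m : Module (ZMod p) V := AddCommGroup.zmodModule hV
  have hfr : Module.Free (ZMod p) V := inferInstance
  have hmf : Module.Finite (ZMod p) V := Module.Finite.of_finite
  have bs : Module.Basis (Fin (Module.finrank (ZMod p) V)) (ZMod p) V :=
    Module.finBasis (ZMod p) V
  refine ⟨_, fun k => bs k, ?_, ?_⟩
  · rw [Module.natCard_eq_pow_finrank (K := ZMod p), Nat.card_zmod]
  · intro v
    rw [← bs.sum_repr v]
    apply sum_mem
    intro k _
    have h2 : ∀ (c : ZMod p) (x : V), c • x = c.val • x := by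
      intro c x
      conv_lhs => rw [← ZMod.natCast_zmod_val c]
      rw [Nat.cast_smul_eq_nsmul]
    rw [h2]
    have h3 : bs k ∈ AddSubgroup.closure (Set.range fun k => bs k) :=
      AddSubgroup.subset_closure (Set.mem_range_self k)
    exact AddSubgroup.nsmul_mem _ h3 _

/-- generators of the graded component -/
theorem basis_S (hexp : ∀ x : GA p P, (p : ℕ) • x = 0) (H : Subgroup P) (w : ℕ) (hw : 1 ≤ w)
    (hH : H ≤ Dn p P w) : ∃ (r : ℕ) (g : Fin r → P), (∀ k, g k ∈ H) ∧
    p ^ r ≤ (Dn p P (w + 1)).relIndex (Dn p P w) ∧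
    ∀ u ∈ H, io p u - 1 ∈ AddSubgroup.closure {z | ∃ k, io p (g k) - 1 = z} ⊔ D p P (w + 1) := by
  have hV : ∀ v : S H w hw hH, p • v = 0 := by
    rintro ⟨v, hv⟩
    obtain ⟨x, rfl⟩ := QuotientAddGroup.mk_surjective v
    apply Subtype.ext
    show p • (x : GA p P ⧸ D p P (w + 1)) = 0
    rw [← QuotientAddGroup.mk_nsmul, hexp]
    rfl
  obtain ⟨r, f, hr, hf⟩ := gens_V p (S H w hw hH) hV
  have h0 : ∀ k, ∃ g ∈ H, ((io p g - 1 : GA p P) : GA p P ⧸ D p P (w + 1)) =
      ((f k : S H w hw hH) : GA p P ⧸ D p P (w + 1)) :=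
    fun k => mem_S.1 (f k).2
  choose g hg hgb using h0
  refine ⟨r, g, hg, ?_, ?_⟩
  · have h1 := card_S (p := p) H w hw hH
    rwa [hr] at h1
  · intro u hu
    set N := AddSubgroup.closure {z | ∃ k, io p (g k) - 1 = z} ⊔ D p P (w + 1) with hN
    let V' : AddSubgroup (S H w hw hH) := (N.map (QuotientAddGroup.mk' (D p P (w + 1)))).comap
      (S H w hw hH).subtype
    have h1 : ∀ v : S H w hw hH, v ∈ V' := by
      intro v
      refine (AddSubgroup.closure_le _).2 ?_ (hf v)
      rintro _ ⟨k, rfl⟩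
      exact ⟨io p (g k) - 1, AddSubgroup.mem_sup_left (AddSubgroup.subset_closure ⟨k, rfl⟩), hgb k⟩
    have h2 : ((io p u - 1 : GA p P) : GA p P ⧸ D p P (w + 1)) ∈ S H w hw hH :=
      mem_S.2 ⟨u, hu, rfl⟩
    obtain ⟨y, hy, hyu⟩ := h1 ⟨_, h2⟩
    have h3 : (y : GA p P ⧸ D p P (w + 1)) = ((io p u - 1 : GA p P) : _) := hyu
    rw [QuotientAddGroup.eq] at h3
    have h4 : io p u - 1 = y + (-y + (io p u - 1)) := by abel
    rw [h4]
    exact add_mem hy (AddSubgroup.mem_sup_right h3)

/-- counting -/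
theorem card_le {κ : Type} [Fintype κ] (f : κ → GA p P)
    (hf : AddSubgroup.closure (Set.range f) = ⊤) : Nat.card P ≤ Nat.card κ := by
  classical
  have hs : Function.Surjective (Fintype.linearCombination (ZMod p) f) := by
    intro x
    have h1 : AddSubgroup.closure (Set.range f) ≤
        (LinearMap.range (Fintype.linearCombination (ZMod p) f)).toAddSubgroup := by
      rw [AddSubgroup.closure_le]
      rintro _ ⟨k, rfl⟩
      refine ⟨Pi.single k 1, ?_⟩
      rw [Fintype.linearCombination_apply_single, one_smul]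
    have h2 : x ∈ AddSubgroup.closure (Set.range f) := by
      rw [hf]
      exact AddSubgroup.mem_top _
    exact h1 h2
  have : Finite (κ → ZMod p) := inferInstance
  have h1 := Nat.card_le_card_of_surjective _ hs
  have h2 : Nat.card (GA p P) = p ^ Nat.card P := by
    have e : GA p P ≃ (P → ZMod p) := MonoidAlgebra.coeffEquiv.trans Finsupp.equivFunOnFinite
    rw [Nat.card_congr e, Nat.card_fun, Nat.card_zmod]
  have h3 : Nat.card (κ → ZMod p) = p ^ Nat.card κ := by
    rw [Nat.card_fun, Nat.card_zmod]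
  rw [h2, h3] at h1
  exact (Nat.pow_le_pow_iff_right (Fact.out : p.Prime).one_lt).1 h1

omit [Finite P] in
/-- the product of the relative indices -/
theorem prod_relIndex (h1 : Dn p P 1 = ⊤) (c : ℕ) :
    ∏ w : Fin c, (Dn p P ((w : ℕ) + 1 + 1)).relIndex (Dn p P ((w : ℕ) + 1)) =
      (Dn p P (c + 1)).index := by
  induction c with
  | zero =>
    rw [Fin.prod_univ_zero, h1, Subgroup.index_top]
  | succ c ih =>
    rw [Fin.prod_univ_castSucc]
    simp only [Fin.val_castSucc, Fin.val_last]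
    rw [ih, mul_comm]
    apply Subgroup.relIndex_mul_index
    intro g hg
    rw [mem_Dn] at hg ⊢
    exact Ideal.pow_le_pow_right (Nat.le_succ _) hg

omit [Finite P] in
theorem alg_mem (a : ZMod p) : algebraMap (ZMod p) (GA p P) a ∈ AddSubgroup.closure {(1 : GA p P)} := by
  have h3 : algebraMap (ZMod p) (GA p P) a = a.val • (1 : GA p P) := by
    conv_lhs => rw [← ZMod.natCast_zmod_val a]
    rw [map_natCast, nsmul_one]
  rw [h3]
  exact AddSubgroup.nsmul_mem _ (AddSubgroup.subset_closure (Set.mem_singleton _)) _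

theorem gen0_67 (hGA : StGA) (x : GA p P) : x ∈ AddSubgroup.closure {(1 : GA p P)} ⊔ D p P 1 := by
  obtain ⟨-, g2, -⟩ := hGA p P
  obtain ⟨a, ha⟩ := g2 x
  have h2 : x = algebraMap (ZMod p) (GA p P) a + (x - algebraMap (ZMod p) (GA p P) a) := by abel
  rw [h2]
  refine add_mem (AddSubgroup.mem_sup_left (alg_mem a)) (AddSubgroup.mem_sup_right ?_)
  rw [mem_D, Submodule.pow_one]
  exact ha

theorem mkDat {ι : Type} [Fintype ι] [DecidableEq ι] (hGA : StGA) (hexp : ∀ g : P, g ^ p = 1)
    (u : ι → P) (wt : ι → ℕ) (hwt : ∀ i, 1 ≤ wt i) (hu : ∀ i, u i ∈ lc P (wt i))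
    (gen : ∀ a, 1 ≤ a → ∀ v ∈ lc P a, io p v - 1 ∈
      AddSubgroup.closure {z | ∃ k, wt k = a ∧ io p (u k) - 1 = z} ⊔ D p P (a + 1)) :
    Dat p (fun i => io p (u i) - 1) wt (D p P) := by
  have hg0 := gen0_67 (p := p) (P := P) hGA
  obtain ⟨g1, g2, g3, g4, g5, g6, g7, g8⟩ := hGA p P
  refine ⟨(Fact.out : p.Prime).pos, D_zero, D_anti, D_mul, ?_, ?_, ?_, ?_, hg0, D_succ⟩
  · intro i
    exact g7 _ (hwt i) (hu i)
  · intro i
    exact g8 _ (hexp _)
  · intro i j
    have h1 := g6 (wt i) (wt j) (hwt i) (hwt j) _ (g7 _ (hwt i) (hu i)) _ (g7 _ (hwt j) (hu j))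
    have h2 : u i * u j * (u i)⁻¹ * (u j)⁻¹ ∈ lc P (wt i + wt j) := by
      apply lc_comm (hwt j) (wt i) (hwt i)
      exact Subgroup.commutator_mem_commutator (hu i) (hu j)
    have h3 := gen (wt i + wt j) (by have := hwt i; omega) _ h2
    have h4 := sub_mem h3 (AddSubgroup.mem_sup_right
      (S := AddSubgroup.closure {z | ∃ k, wt k = wt i + wt j ∧ io p (u k) - 1 = z})
      (T := D p P (wt i + wt j + 1)) h1)
    rwa [sub_sub_cancel] at h4
  · intro x hx
    rw [mem_D, Submodule.pow_one] at hx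
    obtain ⟨v, hv⟩ := g3 x hx
    have h1 := gen 1 le_rfl v (Subgroup.mem_top v)
    have h2 : x = (io p v - 1) + (x - (io p v - 1)) := by abel
    rw [h2]
    exact add_mem h1 (AddSubgroup.mem_sup_right hv)

end concrete

end PBW67

open PBW67 in
theorem stPBW_67 (hGA : StGA) (hNil : StNil) : StPBW := by
  intro p hp P _ _ hP hexp c hc
  have hchar : ∀ x : GA p P, (p : ℕ) • x = 0 := by
    intro x
    have h1 : ((p : ZMod p)) • x = p • x := Nat.cast_smul_eq_nsmul (ZMod p) p x
    rw [← h1, CharP.cast_eq_zero, zero_smul]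
  obtain ⟨g1, -, -, -, -, -, g7, -⟩ := hGA p P
  -- generators
  have hB : ∀ w : ℕ, ∃ (r : ℕ) (g : Fin r → P), (∀ k, g k ∈ lc P (w + 1)) ∧
      p ^ r ≤ (Dn p P (w + 1 + 1)).relIndex (Dn p P (w + 1)) ∧
      ∀ u ∈ lc P (w + 1), io p u - 1 ∈
        AddSubgroup.closure {z | ∃ k, io p (g k) - 1 = z} ⊔ D p P (w + 1 + 1) := fun w =>
    basis_S hchar (lc P (w + 1)) (w + 1) (by omega) (g7 (w + 1) (by omega))
  choose r g hg hcard hgen using hB
  have hdat := mkDat (ι := Σ w : Fin c, Fin (r w)) hGA hexp (fun i => g i.1 i.2)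
    (fun i => (i.1 : ℕ) + 1) (fun i => Nat.succ_le_succ (Nat.zero_le _)) (fun i => hg i.1 i.2) (by
      intro a ha u hu
      obtain ⟨a, rfl⟩ : ∃ n, a = n + 1 := ⟨a - 1, by omega⟩
      by_cases hac : a < c
      · have hle : AddSubgroup.closure {z | ∃ k, io p (g a k) - 1 = z} ⊔ D p P (a + 1 + 1) ≤
            AddSubgroup.closure {z | ∃ k : (Σ w : Fin c, Fin (r w)), (k.1 : ℕ) + 1 = a + 1 ∧
              io p (g k.1 k.2) - 1 = z} ⊔ D p P (a + 1 + 1) := by
          refine sup_le_sup_right ?_ _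
          rw [AddSubgroup.closure_le]
          rintro z ⟨k, rfl⟩
          exact AddSubgroup.subset_closure ⟨⟨⟨a, hac⟩, k⟩, rfl, rfl⟩
        exact hle (hgen a u hu)
      · exact AddSubgroup.mem_sup_right (hc (a + 1) (by omega) u hu))
  obtain ⟨M, hM⟩ := hNil p P hP
  have hspan := hdat.span M (by
    rw [eq_bot_iff]
    intro x hx
    rw [mem_D, hM] at hx
    exact hx)
  have hle := card_le _ hspan
  have hcardι : Nat.card ((Σ w : Fin c, Fin (r w)) → Fin p) = ∏ w : Fin c, p ^ r w := by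
    rw [Nat.card_fun, Nat.card_sigma, Finset.prod_pow_eq_pow_sum, Nat.card_fin]
    simp only [Nat.card_fin]
  have h1top : Dn p P 1 = ⊤ := by
    rw [eq_top_iff]
    intro u _
    rw [mem_Dn, Submodule.pow_one]
    exact g1 u
  have hprod : ∏ w : Fin c, p ^ r w ≤ (Dn p P (c + 1)).index := by
    rw [← prod_relIndex h1top c]
    exact Finset.prod_le_prod' fun w _ => hcard w
  have h5 : Nat.card P ≤ (Dn p P (c + 1)).index := by
    rw [hcardι] at hle
    exact hle.trans hprod
  have h6 := (Dn p P (c + 1)).card_mul_index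
  have h7 : 0 < (Dn p P (c + 1)).index := by
    apply Nat.pos_of_ne_zero
    exact Subgroup.FiniteIndex.index_ne_zero
  have h8 : Nat.card (Dn p P (c + 1)) ≤ 1 := by
    by_contra hcon
    push Not at hcon
    have : 2 * (Dn p P (c + 1)).index ≤ Nat.card (Dn p P (c + 1)) * (Dn p P (c + 1)).index :=
      Nat.mul_le_mul_right _ hcon
    omega
  exact Subgroup.card_le_one_iff_eq_bot _ |>.1 h8

end Pool.Agent.PX
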