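import Pool.Agent.Lib.MP_2b9f9a_al.PX.Stmts

/-!
M11 StSol (helper12).
-/

set_option autoImplicit false

namespace Pool.Agent.PX

open Finset

namespace Sol12

section lcs

variable {P : Type} [Group P]

lemma lc_succ {w : ℕ} (hw : 1 ≤ w) : lc P (w + 1) = ⁅lc P w, (⊤ : Subgroup P)⁆ := by
  obtain ⟨w, rfl⟩ := Nat.exists_eq_add_of_le' hw
  rfl

lemma lc_normal (w : ℕ) : (lc P w).Normal := by
  rcases w with - | w
  · exact Subgroup.normal_top
  · induction w with
    | zero => exact Subgroup.normal_top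
    | succ w ih =>
      rw [lc_succ (by omega)]
      exact Subgroup.commutator_normal _ _

lemma three {A B C N : Subgroup P} [N.Normal] (h1 : ⁅⁅B, C⁆, A⁆ ≤ N) (h2 : ⁅⁅C, A⁆, B⁆ ≤ N) :
    ⁅⁅A, B⁆, C⁆ ≤ N := by
  have key : ∀ K : Subgroup P, K ≤ N ↔ K.map (QuotientGroup.mk' N) = ⊥ := by
    intro K
    rw [Subgroup.map_eq_bot_iff, QuotientGroup.ker_mk']
  rw [key] at h1 h2 ⊢
  rw [Subgroup.map_commutator, Subgroup.map_commutator] at h1 h2 ⊢
  exact Subgroup.commutator_commutator_eq_bot_of_rotate h1 h2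

lemma lc_comm (i j : ℕ) (hi : 1 ≤ i) (hj : 1 ≤ j) : ⁅lc P i, lc P j⁆ ≤ lc P (i + j) := by
  induction j, hj using Nat.le_induction generalizing i with
  | base =>
    rw [lc_succ hi]
    exact le_rfl
  | succ j hj ih =>
    rw [lc_succ hj, Subgroup.commutator_comm]
    have hnorm := lc_normal (P := P) (i + (j + 1))
    refine three ?_ ?_
    · rw [Subgroup.commutator_comm ⊤, ← lc_succ hi]
      exact (ih (i + 1) (by omega)).trans (le_of_eq (by congr 1; omega))
    · rw [show i + (j + 1) = (i + j) + 1 by omega, lc_succ (by omega)]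
      exact Subgroup.commutator_mono (ih i hi) le_rfl

lemma lc_smul {Γ : Type} [Group Γ] [MulDistribMulAction Γ P] (γ : Γ) (w : ℕ) :
    ∀ g ∈ lc P w, γ • g ∈ lc P w := by
  have key : (lc P w).map (MulDistribMulAction.toMonoidHom P γ) ≤ lc P w := by
    rcases w with - | w
    · exact le_top
    · induction w with
      | zero => exact le_top
      | succ w ih =>
        rw [lc_succ (by omega), Subgroup.map_commutator]
        exact Subgroup.commutator_mono ih le_top
  intro g hg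
  exact key ⟨g, hg, rfl⟩

end lcs

end Sol12

open Sol12 in
/-- module M11 -/
theorem stSol_12 (hLR : StLR) (hFpf : StFpf) (hCov : StCov) (hGA : StGA) (hFun : StFun) :
    StSol := by
  intro h d
  obtain ⟨N, hN⟩ := hLR h d
  refine ⟨N, ?_⟩
  intro p hp Γ P _ _ _ _ _ F H hP hFro hcard hC L _ cls act hGr
  have hDnN := (hGA p P).2.2.2.1
  have hDnS := (hFun p Γ P).2.2.2.2.1
  have hmem : ∀ (γ : Γ) (f : ℕ → P), (∀ w, f w ∈ lc P w) → ∀ w,
      (f w)⁻¹ * (γ • f w) ∈ lc P w :=
    fun γ f hf w => mul_mem (inv_mem (hf w)) (lc_smul γ w _ (hf w))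
  have hfix : ∀ (γ : Γ) (n : ℕ) (f : ℕ → P), (∀ w, f w ∈ lc P w) →
      act γ (∑ w ∈ Icc 1 n, cls w (f w)) = ∑ w ∈ Icc 1 n, cls w (f w) →
      ∀ w ∈ Icc 1 n, (f w)⁻¹ * (γ • f w) ∈ Dn p P (w + 1) := by
    intro γ n f hf hfx w hw
    have h1 : ∑ w ∈ Icc 1 n, cls w ((f w)⁻¹ * (γ • f w)) = 0 := by
      have h2 : ∀ w ∈ Icc 1 n, cls w ((f w)⁻¹ * (γ • f w)) =
          act γ (cls w (f w)) - cls w (f w) := by
        intro w hw
        have hw1 := (Finset.mem_Icc.1 hw).1
        have h3 := hGr.mul w hw1 (f w) (hf w) ((f w)⁻¹ * (γ • f w)) (hmem γ f hf w)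
        rw [mul_inv_cancel_left] at h3
        rw [hGr.act_cls γ w hw1 _ (hf w), h3]
        abel
      rw [Finset.sum_congr rfl h2, Finset.sum_sub_distrib, ← map_sum, hfx, sub_self]
    have h4 := hGr.ind n (fun w => (f w)⁻¹ * (γ • f w)) (hmem γ f hf) h1 w hw
    exact (hGr.zero w (Finset.mem_Icc.1 hw).1 _ (hmem γ f hf w)).1 h4
  have hfpf : ∀ y ∈ F, y ≠ 1 → ∀ v ∈ (⊤ : AddSubgroup L), act y v = v → v = 0 := by
    intro y hy hy1 v _ hv
    obtain ⟨n, f, hf, rfl⟩ := hGr.span v
    have h1 := hfix y n f hf hv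
    refine Finset.sum_eq_zero fun w hw => ?_
    have hw1 := (Finset.mem_Icc.1 hw).1
    rw [hGr.zero w hw1 _ (hf w)]
    have hn := hDnN (w + 1)
    exact hFpf p Γ P F H hP hFro (Dn p P (w + 1)) (fun γ g hg => hDnS γ (w + 1) g hg) y hy hy1
      (f w) (h1 w hw)
  let CP : Subgroup P :=
    { carrier := {g | ∀ x ∈ H, x • g = g}
      one_mem' := fun x _ => smul_one x
      mul_mem' := by
        intro a b ha hb x hx
        rw [smul_mul', ha x hx, hb x hx]
      inv_mem' := by
        intro a ha x hx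
        rw [smul_inv', ha x hx] }
  have hCPd : dsg CP d = ⊥ := hC CP (fun g => Iff.rfl)
  refine hN L Γ act ⊤ F H hGr.act_lie (fun _ _ _ _ => trivial) (fun _ _ _ => trivial) hFro.norm
    hFro.fne hFro.hne hFro.free hfpf hcard ?_
  intro C hCC
  let S : ℕ → AddSubgroup L := fun k =>
    AddSubgroup.closure {v | ∃ w, 1 ≤ w ∧ ∃ c ∈ dsg CP k, c ∈ lc P w ∧ v = cls w c}
  have hS : ∀ k, dsr C k ≤ S k := by
    intro k
    induction k with
    | zero =>
      intro v hv
      obtain ⟨-, hv2⟩ := (hCC v).1 hv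
      obtain ⟨n, f, hf, rfl⟩ := hGr.span v
      refine AddSubgroup.sum_mem _ fun w hw => ?_
      have hw1 := (Finset.mem_Icc.1 hw).1
      have hn1 := hDnN (w + 1)
      have hn2 := lc_normal (P := P) w
      obtain ⟨n', hn', hn''⟩ := hCov p Γ P F H hP hFro (Dn p P (w + 1) ⊓ lc P w)
        (fun γ g hg => ⟨hDnS γ (w + 1) g hg.1, lc_smul γ w g hg.2⟩) (f w)
        (fun x hx => ⟨hfix x n f hf (hv2 x hx) w hw, hmem x f hf w⟩)
      have h1 : cls w (f w) = cls w (f w * n') := by
        rw [hGr.mul w hw1 _ (hf w) _ hn'.2, (hGr.zero w hw1 _ hn'.2).2 hn'.1, add_zero]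
      exact AddSubgroup.subset_closure ⟨w, hw1, f w * n', hn'', mul_mem (hf w) hn'.2, h1⟩
    | succ k ih =>
      refine (AddSubgroup.closure_le _).2 ?_
      rintro z ⟨u, hu, v, hv, rfl⟩
      have hu' := ih hu
      have hv' := ih hv
      refine AddSubgroup.closure_induction (p := fun u _ => ⁅u, v⁆ ∈ S (k + 1)) ?_ ?_ ?_ ?_ hu'
      · rintro u ⟨i, hi, c, hc, hci, rfl⟩
        refine AddSubgroup.closure_induction (p := fun v _ => ⁅cls i c, v⁆ ∈ S (k + 1))
          ?_ ?_ ?_ ?_ hv'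
        · rintro v ⟨j, hj, c', hc', hcj, rfl⟩
          refine AddSubgroup.subset_closure ⟨i + j, by omega, c * c' * c⁻¹ * c'⁻¹, ?_, ?_,
            hGr.brk i j hi hj c hci c' hcj⟩
          · exact Subgroup.commutator_mem_commutator hc hc'
          · exact lc_comm i j hi hj (Subgroup.commutator_mem_commutator hci hcj)
        · rw [lie_zero]
          exact zero_mem _
        · intro x y _ _ hx hy
          rw [lie_add]
          exact add_mem hx hy
        · intro x _ hx
          rw [lie_neg]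
          exact neg_mem hx
      · rw [zero_lie]
        exact zero_mem _
      · intro x y _ _ hx hy
        rw [add_lie]
        exact add_mem hx hy
      · intro x _ hx
        rw [neg_lie]
        exact neg_mem hx
  rw [eq_bot_iff]
  refine (hS d).trans ((AddSubgroup.closure_le _).2 ?_)
  rintro v ⟨w, hw, c, hc, hcw, rfl⟩
  rw [hCPd, Subgroup.mem_bot] at hc
  subst hc
  have h1 := hGr.mul w hw 1 (one_mem _) 1 (one_mem _)
  rw [mul_one] at h1
  exact (left_eq_add.1 h1 : cls w 1 = 0)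

end Pool.Agent.PX
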