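import Pool.Agent.Lib.MP_2b9f9a_al.PX.Stmts

/-!
# M3: `exp(Lie<X>) = <exp X>` in a graded nilpotent algebra.
-/

set_option autoImplicit false

namespace Pool.Agent.PX

namespace Univ78

open Finset

variable {p : ℕ} [hp : Fact p.Prime] {A : Type} [Ring A] [Algebra (ZMod p) A]

theorem mulmem {J : Ideal A} [J.IsTwoSided] {a b : ℕ} {u v : A} (hu : u ∈ J ^ a) (hv : v ∈ J ^ b) :
    u * v ∈ J ^ (a + b) := by
  rw [Ideal.IsTwoSided.pow_add]; exact Ideal.mul_mem_mul hu hv

theorem mono {J : Ideal A} [J.IsTwoSided] {a b : ℕ} (h : a ≤ b) : J ^ b ≤ J ^ a :=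
  Ideal.pow_le_pow_right h

theorem mem_one {J : Ideal A} {u : A} : u ∈ J ^ 1 ↔ u ∈ J := by rw [Submodule.pow_one]

theorem smul_mem_ideal {J : Ideal A} (c : ZMod p) {u : A} (hu : u ∈ J) : c • u ∈ J := by
  rw [Algebra.smul_def]; exact J.mul_mem_left _ hu

theorem cancel_ideal {J : Ideal A} (k : ℤ) (hk : ¬ (p : ℤ) ∣ k) {u : A} (hu : k • u ∈ J) :
    u ∈ J := by
  have h0 : ((k : ℤ) : ZMod p) ≠ 0 := by
    intro h
    exact hk ((ZMod.intCast_zmod_eq_zero_iff_dvd k p).1 h)
  have h1 : u = ((k : ZMod p)⁻¹) • (k • u) := by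
    rw [← Int.cast_smul_eq_zsmul (ZMod p) k u, smul_smul, inv_mul_cancel₀ h0, one_smul]
  rw [h1]
  exact smul_mem_ideal _ hu

variable {J : Ideal A} [J.IsTwoSided] {E : A →+ A}

theorem E_one (hE : ∀ a b, E (a * b) = E a * b + a * E b) : E 1 = 0 := by
  have h := hE 1 1
  rw [mul_one, mul_one, one_mul] at h
  simpa using h

theorem E_pow (hE : ∀ a b, E (a * b) = E a * b + a * E b) (h2 : ∀ u ∈ J, E u - u ∈ J ^ 2) (k : ℕ) :
    ∀ u ∈ J ^ (k + 1), E u - ((k + 1 : ℕ) : ℤ) • u ∈ J ^ (k + 2) := by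
  induction k with
  | zero =>
    intro u hu
    have := h2 u (mem_one.1 hu)
    simpa using this
  | succ k ih =>
    intro u hu
    rw [Submodule.pow_succ, ← smul_eq_mul] at hu
    refine Submodule.smul_induction_on hu ?_ ?_
    · intro r hr n hn
      rw [smul_eq_mul, hE]
      have e : E r * n + r * E n - ((k + 1 + 1 : ℕ) : ℤ) • (r * n)
          = (E r - ((k + 1 : ℕ) : ℤ) • r) * n + r * (E n - n) := by
        rw [sub_mul, mul_sub, smul_mul_assoc]
        push_cast
        rw [add_smul, one_smul]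
        abel
      rw [e]
      refine add_mem ?_ ?_
      · have := mulmem (ih r hr) (mem_one.2 hn)
        exact this
      · have := mulmem hr (h2 n hn)
        exact this
    · intro x y hx hy
      rw [map_add, smul_add]
      have e : E x + E y - (((k + 1 + 1 : ℕ) : ℤ) • x + ((k + 1 + 1 : ℕ) : ℤ) • y)
          = (E x - ((k + 1 + 1 : ℕ) : ℤ) • x) + (E y - ((k + 1 + 1 : ℕ) : ℤ) • y) := by abel
      rw [e]
      exact add_mem hx hy

/-- An eigenvector of `E` with eigenvalue `j` lying deeper than `J^j` vanishes. -/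
theorem eig (hJ : J ^ p = ⊥) (hE : ∀ a b, E (a * b) = E a * b + a * E b)
    (h2 : ∀ u ∈ J, E u - u ∈ J ^ 2) (j : ℕ) (u : A) (hu : u ∈ J ^ (j + 1))
    (he : E u = (j : ℤ) • u) (hj : j < p) : u = 0 := by
  have h : ∀ k, j + 1 + k ≤ p → u ∈ J ^ (j + 1 + k) := by
    intro k
    induction k with
    | zero => intro _; exact hu
    | succ k ih =>
      intro hk
      have h1 := ih (by omega)
      have h3 : E u - ((j + k + 1 : ℕ) : ℤ) • u ∈ J ^ (j + k + 2) := by
        refine E_pow hE h2 (j + k) u ?_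
        have : j + k + 1 = j + 1 + k := by omega
        rw [this]; exact h1
      rw [he, ← sub_smul] at h3
      have h4 : ((j : ℤ) - ((j + k + 1 : ℕ) : ℤ)) = -((k + 1 : ℕ) : ℤ) := by push_cast; ring
      rw [h4] at h3
      have h5 : j + 1 + (k + 1) = j + k + 2 := by omega
      rw [h5]
      refine cancel_ideal (p := p) _ ?_ h3
      rw [Int.dvd_neg, Int.natCast_dvd_natCast]
      intro hd
      have := Nat.le_of_dvd (by omega) hd
      omega
  have h1 := h (p - (j + 1)) (by omega)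
  have h3 : j + 1 + (p - (j + 1)) = p := by omega
  rw [h3, hJ] at h1
  exact h1

theorem ker (hJ : J ^ p = ⊥) (hE : ∀ a b, E (a * b) = E a * b + a * E b)
    (h2 : ∀ u ∈ J, E u - u ∈ J ^ 2) (u : A) (hu : u ∈ J) (he : E u = 0) : u = 0 := by
  refine eig (p := p) hJ hE h2 0 u ?_ (by simpa using he) hp.out.pos
  exact mem_one.2 hu

/-- Logarithmic derivative. -/
def dlt (E : A →+ A) (g : Aˣ) : A := (↑g⁻¹ : A) * E (g : A)

omit [J.IsTwoSided] in
theorem dlt_mul (hE : ∀ a b, E (a * b) = E a * b + a * E b) (g h : Aˣ) :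
    dlt E (g * h) = (↑h⁻¹ : A) * dlt E g * h + dlt E h := by
  unfold dlt
  rw [Units.val_mul, hE, mul_inv_rev, Units.val_mul, mul_add]
  congr 1
  · noncomm_ring
  · rw [mul_assoc, ← mul_assoc _ (g : A), Units.inv_mul, one_mul]

theorem E_inv (hE : ∀ a b, E (a * b) = E a * b + a * E b) (g : Aˣ) :
    E (↑g⁻¹ : A) = - ((↑g⁻¹ : A) * E (g : A) * (↑g⁻¹ : A)) := by
  have h := hE (↑g⁻¹ : A) (g : A)
  rw [Units.inv_mul, E_one hE] at h
  have h1 : E (↑g⁻¹ : A) * (g : A) = - ((↑g⁻¹ : A) * E (g : A)) := eq_neg_of_add_eq_zero_left h.symm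
  have h2 : E (↑g⁻¹ : A) = (E (↑g⁻¹ : A) * (g : A)) * (↑g⁻¹ : A) := by
    rw [mul_assoc, Units.mul_inv, mul_one]
  rw [h2, h1, neg_mul]

theorem dlt_inv (hE : ∀ a b, E (a * b) = E a * b + a * E b) (g : Aˣ) :
    dlt E g⁻¹ = - ((g : A) * dlt E g * (↑g⁻¹ : A)) := by
  unfold dlt
  rw [inv_inv, E_inv hE]
  noncomm_ring

theorem dlt_inj (hJ : J ^ p = ⊥) (hE : ∀ a b, E (a * b) = E a * b + a * E b)
    (h2 : ∀ u ∈ J, E u - u ∈ J ^ 2) (g h : Aˣ) (hg : (g : A) - 1 ∈ J) (hh : (h : A) - 1 ∈ J)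
    (he : dlt E g = dlt E h) : g = h := by
  have h1 : E ((g : A) * (↑h⁻¹ : A)) = 0 := by
    rw [hE, E_inv hE]
    unfold dlt at he
    have e1 : E (g : A) = (g : A) * ((↑h⁻¹ : A) * E (h : A)) := by
      rw [← he, ← mul_assoc, Units.mul_inv, one_mul]
    rw [e1]
    noncomm_ring
  have h3 : (g : A) * (↑h⁻¹ : A) - 1 = ((g : A) - 1) * (↑h⁻¹ : A) - ((h : A) - 1) * (↑h⁻¹ : A) := by
    rw [sub_mul, sub_mul, Units.mul_inv]; abel
  have h4 : (g : A) * (↑h⁻¹ : A) - 1 ∈ J := by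
    rw [h3]
    exact sub_mem (Ideal.mul_mem_right _ _ hg) (Ideal.mul_mem_right _ _ hh)
  have h5 := ker (p := p) hJ hE h2 _ h4 (by rw [map_sub, h1, E_one hE, sub_zero])
  have h6 : g * h⁻¹ = 1 := by
    apply Units.ext
    rw [Units.val_mul, Units.val_one]
    exact sub_eq_zero.1 h5
  exact mul_inv_eq_one.1 h6

variable {X : Set A}

theorem br_pos {k : ℕ} {u : A} (h : Br X k u) : 1 ≤ k := by
  induction h with
  | base _ => exact le_rfl
  | zero k hk => exact hk
  | add _ _ h _ => exact h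
  | neg _ h => exact h
  | brk _ _ h1 _ => omega

theorem br_mem (hX : ∀ x ∈ X, x ∈ J) {k : ℕ} {u : A} (h : Br X k u) : u ∈ J ^ k := by
  induction h with
  | base hx => exact mem_one.2 (hX _ hx)
  | zero k hk => exact zero_mem _
  | add _ _ h1 h2 => exact add_mem h1 h2
  | neg _ h => exact neg_mem h
  | @brk i j u v _ _ h1 h2 =>
    refine sub_mem (mulmem h1 h2) ?_
    rw [add_comm]; exact mulmem h2 h1

theorem br_E (hE : ∀ a b, E (a * b) = E a * b + a * E b) (hX : ∀ x ∈ X, E x = x) {k : ℕ} {u : A}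
    (h : Br X k u) : E u = (k : ℤ) • u := by
  induction h with
  | base hx => rw [hX _ hx]; simp
  | zero k hk => simp
  | add _ _ h1 h2 => rw [map_add, h1, h2, smul_add]
  | neg _ h => rw [map_neg, h, smul_neg]
  | @brk i j u v _ _ h1 h2 =>
    rw [map_sub, hE, hE, h1, h2]
    push_cast
    rw [add_smul, smul_mul_assoc, smul_mul_assoc, mul_smul_comm, mul_smul_comm, smul_sub, smul_sub]
    abel

theorem lieM_J (hX : ∀ x ∈ X, x ∈ J) : ∀ u ∈ lieM X, u ∈ J := by
  intro u hu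
  refine AddSubgroup.closure_induction (p := fun u _ => u ∈ J) ?_ ?_ ?_ ?_ hu
  · rintro x ⟨k, hk⟩
    exact mem_one.1 (mono (br_pos hk) (br_mem hX hk))
  · exact zero_mem _
  · intro a b _ _ ha hb; exact add_mem ha hb
  · intro a _ ha; exact neg_mem ha

theorem lieM_brk : ∀ u ∈ lieM X, ∀ v ∈ lieM X, u * v - v * u ∈ lieM X := by
  intro u hu
  refine AddSubgroup.closure_induction (p := fun u _ => ∀ v ∈ lieM X, u * v - v * u ∈ lieM X)
    ?_ ?_ ?_ ?_ hu
  · rintro x ⟨k, hk⟩ v hv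
    refine AddSubgroup.closure_induction (p := fun v _ => x * v - v * x ∈ lieM X) ?_ ?_ ?_ ?_ hv
    · rintro y ⟨l, hl⟩
      exact AddSubgroup.subset_closure ⟨_, Br.brk hk hl⟩
    · rw [mul_zero, zero_mul, sub_zero]; exact zero_mem _
    · intro a b _ _ ha hb
      have e : x * (a + b) - (a + b) * x = (x * a - a * x) + (x * b - b * x) := by noncomm_ring
      rw [e]; exact add_mem ha hb
    · intro a _ ha
      have e : x * (-a) - (-a) * x = - (x * a - a * x) := by noncomm_ring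
      rw [e]; exact neg_mem ha
  · intro v _
    rw [mul_zero, zero_mul, sub_zero]; exact zero_mem _
  · intro a b _ _ ha hb v hv
    have e : (a + b) * v - v * (a + b) = (a * v - v * a) + (b * v - v * b) := by noncomm_ring
    rw [e]; exact add_mem (ha v hv) (hb v hv)
  · intro a _ ha v hv
    have e : (-a) * v - v * (-a) = - (a * v - v * a) := by noncomm_ring
    rw [e]; exact neg_mem (ha v hv)

theorem lieM_E (hE : ∀ a b, E (a * b) = E a * b + a * E b) (hX : ∀ x ∈ X, E x = x) :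
    ∀ u ∈ lieM X, E u ∈ lieM X := by
  intro u hu
  refine AddSubgroup.closure_induction (p := fun u _ => E u ∈ lieM X) ?_ ?_ ?_ ?_ hu
  · rintro x ⟨k, hk⟩
    rw [br_E hE hX hk]
    exact (lieM X).zsmul_mem (AddSubgroup.subset_closure ⟨k, hk⟩) _
  · rw [map_zero]; exact zero_mem _
  · intro a b _ _ ha hb; rw [map_add]; exact add_mem ha hb
  · intro a _ ha; rw [map_neg]; exact neg_mem ha

theorem decomp (hJ : J ^ p = ⊥) (hX : ∀ x ∈ X, x ∈ J) : ∀ u ∈ lieM X, ∃ f : ℕ → A,
    (∀ j, 1 ≤ j → Br X j (f j)) ∧ u = ∑ j ∈ Ico 1 p, f j := by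
  intro u hu
  refine AddSubgroup.closure_induction (p := fun u _ => ∃ f : ℕ → A,
    (∀ j, 1 ≤ j → Br X j (f j)) ∧ u = ∑ j ∈ Ico 1 p, f j) ?_ ?_ ?_ ?_ hu
  · rintro x ⟨k, hk⟩
    refine ⟨fun j => if j = k then x else 0, ?_, ?_⟩
    · intro j hj
      by_cases h : j = k
      · subst h; simpa using hk
      · simp only [h, if_false]; exact Br.zero j hj
    · by_cases h : k < p
      · rw [Finset.sum_ite_eq' (Ico 1 p) k (fun _ => x), if_pos]
        exact Finset.mem_Ico.2 ⟨br_pos hk, h⟩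
      · have h1 : x ∈ J ^ p := mono (by omega) (br_mem hX hk)
        rw [hJ] at h1
        have h2 : x = 0 := h1
        rw [h2]; simp
  · refine ⟨fun _ => 0, fun j hj => Br.zero j hj, by simp⟩
  · rintro a b _ _ ⟨f, hf1, hf2⟩ ⟨g, hg1, hg2⟩
    refine ⟨fun j => f j + g j, fun j hj => Br.add (hf1 j hj) (hg1 j hj), ?_⟩
    rw [Finset.sum_add_distrib, hf2, hg2]
  · rintro a _ ⟨f, hf1, hf2⟩
    refine ⟨fun j => - f j, fun j hj => Br.neg (hf1 j hj), ?_⟩
    rw [Finset.sum_neg_distrib, hf2]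

theorem decomp_pow (hJ : J ^ p = ⊥) (hE : ∀ a b, E (a * b) = E a * b + a * E b)
    (h2 : ∀ u ∈ J, E u - u ∈ J ^ 2) (hX : ∀ x ∈ X, x ∈ J) (hXE : ∀ x ∈ X, E x = x)
    (u : A) (hu : u ∈ lieM X) (i : ℕ) (hi : 1 ≤ i) (hip : i < p) (hui : u ∈ J ^ i) :
    ∃ v, Br X i v ∧ u - v ∈ J ^ (i + 1) := by
  obtain ⟨f, hf1, hf2⟩ := decomp hJ hX u hu
  have tail : ∀ j, 1 ≤ j → j < p → (∀ l, 1 ≤ l → l < j → f l = 0) → u - f j ∈ J ^ (j + 1) := by
    intro j hj hjp hz
    have h1 : u - f j = ∑ l ∈ (Ico 1 p).erase j, f l := by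
      rw [hf2, ← Finset.add_sum_erase (Ico 1 p) f (Finset.mem_Ico.2 ⟨hj, hjp⟩)]
      abel
    rw [h1]
    refine sum_mem ?_
    intro l hl
    rw [Finset.mem_erase, Finset.mem_Ico] at hl
    by_cases hlj : l < j
    · rw [hz l hl.2.1 hlj]; exact zero_mem _
    · exact mono (by omega) (br_mem hX (hf1 l hl.2.1))
  have hz : ∀ l, 1 ≤ l → l < i → f l = 0 := by
    intro l
    induction l using Nat.strong_induction_on with
    | _ l ih =>
    intro hl1 hli
    have h1 := tail l hl1 (by omega) (fun l' h1 h2' => ih l' h2' h1 (by omega))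
    have h3 : f l ∈ J ^ (l + 1) := by
      have h4 : f l = u - (u - f l) := by abel
      rw [h4]
      exact sub_mem (mono (by omega) hui) h1
    exact eig (p := p) hJ hE h2 l (f l) h3 (br_E hE hXE (hf1 l hl1)) (by omega)
  exact ⟨f i, hf1 i hi, tail i hi hip hz⟩

end Univ78

open Univ78 in
theorem stUniv_78 (hEx : StEx) (hDer : StDer) : StUniv := by
  intro p hp A _ _ _ J _ hJ E hE hEJ h2 X hX hXE B hB
  obtain ⟨_, ex2, ex3, ex4, ex5, _⟩ := hEx p A J hJ
  have hMJ := lieM_J (J := J) hX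
  have hMb : ∀ u ∈ lieM X, ∀ v ∈ lieM X, u * v - v * u ∈ lieM X := lieM_brk
  have hME := lieM_E hE hXE
  have hder := hDer p A J hJ (lieM X) hMJ hMb
  have hXM : ∀ x ∈ X, x ∈ lieM X := fun x hx => AddSubgroup.subset_closure ⟨1, Br.base hx⟩
  -- units
  have unit : ∀ m ∈ J, ∃ s : Aˣ, (s : A) = ex p m := by
    intro m hm
    obtain ⟨h1, h3⟩ := ex2 m hm
    exact ⟨⟨ex p m, ex p (-m), h3, h1⟩, rfl⟩
  have invu : ∀ m ∈ J, ∀ s : Aˣ, (s : A) = ex p m → (↑s⁻¹ : A) = ex p (-m) := by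
    intro m hm s hs
    obtain ⟨h1, h3⟩ := ex2 m hm
    rw [← hs] at h1
    have h4 : (↑s⁻¹ : A) = (ex p (-m) * (s : A)) * (↑s⁻¹ : A) := by rw [h1, one_mul]
    rw [h4, mul_assoc, Units.mul_inv, mul_one]
  have ex_sub : ∀ m ∈ J, ex p m - 1 ∈ J := by
    intro m hm
    have h := ex3 1 le_rfl m (mem_one.2 hm)
    have h3 : ex p m - 1 = (ex p m - 1 - m) + m := by abel
    rw [h3]
    exact add_mem (mem_one.1 (mono (by omega) h)) hm
  have dltex : ∀ m ∈ lieM X, ∀ s : Aˣ, (s : A) = ex p m → dlt E s ∈ lieM X := by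
    intro m hm s hs
    unfold dlt
    rw [invu m (hMJ m hm) s hs, hs]
    exact (hder m hm).2 E hE (hME m hm)
  have conj : ∀ m ∈ lieM X, ∀ s : Aˣ, (s : A) = ex p m → ∀ v ∈ lieM X,
      (↑s⁻¹ : A) * v * s ∈ lieM X ∧ (s : A) * v * (↑s⁻¹ : A) ∈ lieM X := by
    intro m hm s hs v hv
    rw [invu m (hMJ m hm) s hs, hs]
    refine ⟨(hder m hm).1 v hv, ?_⟩
    have := (hder (-m) (neg_mem hm)).1 v hv
    rwa [neg_neg] at this
  have hBall : ∀ g ∈ B, (∀ v ∈ lieM X, (↑g⁻¹ : A) * v * g ∈ lieM X) ∧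
      (∀ v ∈ lieM X, (g : A) * v * (↑g⁻¹ : A) ∈ lieM X) ∧ dlt E g ∈ lieM X ∧ (g : A) - 1 ∈ J := by
    intro g hg
    rw [hB] at hg
    refine Subgroup.closure_induction (p := fun (g : Aˣ) _ =>
      (∀ v ∈ lieM X, (↑g⁻¹ : A) * v * g ∈ lieM X) ∧
      (∀ v ∈ lieM X, (g : A) * v * (↑g⁻¹ : A) ∈ lieM X) ∧ dlt E g ∈ lieM X ∧ (g : A) - 1 ∈ J)
      ?_ ?_ ?_ ?_ hg
    · rintro s ⟨x, hx, hs⟩
      refine ⟨fun v hv => (conj x (hXM x hx) s hs v hv).1,
        fun v hv => (conj x (hXM x hx) s hs v hv).2, dltex x (hXM x hx) s hs, ?_⟩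
      rw [hs]; exact ex_sub x (hX x hx)
    · refine ⟨?_, ?_, ?_, ?_⟩
      · intro v hv; simpa using hv
      · intro v hv; simpa using hv
      · unfold dlt; rw [Units.val_one, E_one hE, mul_zero]; exact zero_mem _
      · rw [Units.val_one, sub_self]; exact zero_mem _
    · rintro g h _ _ ⟨a1, a2, a3, a4⟩ ⟨b1, b2, b3, b4⟩
      refine ⟨?_, ?_, ?_, ?_⟩
      · intro v hv
        have e : (↑(g * h)⁻¹ : A) * v * (↑(g * h) : A)
            = (↑h⁻¹ : A) * ((↑g⁻¹ : A) * v * g) * h := by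
          rw [mul_inv_rev, Units.val_mul, Units.val_mul]; noncomm_ring
        rw [e]; exact b1 _ (a1 v hv)
      · intro v hv
        have e : (↑(g * h) : A) * v * (↑(g * h)⁻¹ : A)
            = (g : A) * ((h : A) * v * (↑h⁻¹ : A)) * (↑g⁻¹ : A) := by
          rw [mul_inv_rev, Units.val_mul, Units.val_mul]; noncomm_ring
        rw [e]; exact a2 _ (b2 v hv)
      · rw [dlt_mul hE]
        exact add_mem (b1 _ a3) b3
      · have e : (↑(g * h) : A) - 1 = ((g : A) - 1) * h + ((h : A) - 1) := by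
          rw [Units.val_mul]; noncomm_ring
        rw [e]
        exact add_mem (Ideal.mul_mem_right _ _ a4) b4
    · rintro g _ ⟨a1, a2, a3, a4⟩
      refine ⟨?_, ?_, ?_, ?_⟩
      · intro v hv
        rw [inv_inv]; exact a2 v hv
      · intro v hv
        rw [inv_inv]; exact a1 v hv
      · rw [dlt_inv hE]
        exact neg_mem (a2 _ a3)
      · have e : (↑g⁻¹ : A) - 1 = - ((↑g⁻¹ : A) * ((g : A) - 1)) := by
          rw [mul_sub, Units.inv_mul]; noncomm_ring
        rw [e]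
        exact neg_mem (J.mul_mem_left _ a4)
  -- bijection
  have surj : ∀ s : Aˣ, (s : A) - 1 ∈ J → dlt E s ∈ lieM X → ∃ m ∈ lieM X, (s : A) = ex p m := by
    intro s hs hds
    choose u hu using unit
    let Φ : lieM X → lieM X := fun m =>
      ⟨dlt E (u m (hMJ m m.2)), dltex m m.2 _ (hu m (hMJ m m.2))⟩
    have hinj : Function.Injective Φ := by
      intro m m' h
      have h1 : dlt E (u m (hMJ m m.2)) = dlt E (u m' (hMJ m' m'.2)) := congrArg Subtype.val h
      have h3 := dlt_inj (p := p) hJ hE h2 _ _ (by rw [hu]; exact ex_sub _ (hMJ m m.2))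
        (by rw [hu]; exact ex_sub _ (hMJ m' m'.2)) h1
      apply Subtype.ext
      refine ex5 _ (hMJ m m.2) _ (hMJ m' m'.2) ?_
      rw [← hu m (hMJ m m.2), ← hu m' (hMJ m' m'.2), h3]
    have hsurj := Finite.surjective_of_injective hinj
    obtain ⟨m, hm⟩ := hsurj ⟨dlt E s, hds⟩
    have h1 : dlt E (u m (hMJ m m.2)) = dlt E s := congrArg Subtype.val hm
    have h3 := dlt_inj (p := p) hJ hE h2 _ _ (by rw [hu]; exact ex_sub _ (hMJ m m.2)) hs h1
    exact ⟨m, m.2, by rw [← h3, hu]⟩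
  have approx : ∀ k u, Br X k u → ∃ g ∈ B, (g : A) - 1 ∈ J ^ k ∧ (g : A) - 1 - u ∈ J ^ (k + 1) := by
    intro k u hbr
    induction hbr with
    | @base x hx =>
      obtain ⟨s, hs⟩ := unit x (hX x hx)
      refine ⟨s, ?_, ?_, ?_⟩
      · rw [hB]; exact Subgroup.subset_closure ⟨x, hx, hs⟩
      · rw [hs, Submodule.pow_one]; exact ex_sub x (hX x hx)
      · rw [hs]; exact ex3 1 le_rfl x (mem_one.2 (hX x hx))
    | zero k hk =>
      refine ⟨1, one_mem _, ?_, ?_⟩
      · rw [Units.val_one, sub_self]; exact zero_mem _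
      · rw [Units.val_one, sub_self, sub_zero]; exact zero_mem _
    | @add k u v hbu hbv h1 h3 =>
      obtain ⟨g, hg, hg1, hg2⟩ := h1
      obtain ⟨h, hh, hh1, hh2⟩ := h3
      have hk := br_pos hbu
      refine ⟨g * h, mul_mem hg hh, ?_, ?_⟩
      · have e : (↑(g * h) : A) - 1 = ((g : A) - 1) * h + ((h : A) - 1) := by
          rw [Units.val_mul]; noncomm_ring
        rw [e]
        exact add_mem (Ideal.mul_mem_right _ _ hg1) hh1
      · have e : (↑(g * h) : A) - 1 - (u + v)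
            = ((g : A) - 1) * ((h : A) - 1) + (((g : A) - 1 - u) + ((h : A) - 1 - v)) := by
          rw [Units.val_mul]; noncomm_ring
        rw [e]
        exact add_mem (mono (by omega) (mulmem hg1 hh1)) (add_mem hg2 hh2)
    | @neg k u hbu h1 =>
      obtain ⟨g, hg, hg1, hg2⟩ := h1
      have hk := br_pos hbu
      have e : (↑g⁻¹ : A) - 1 = - ((↑g⁻¹ : A) * ((g : A) - 1)) := by
        rw [mul_sub, Units.inv_mul]; noncomm_ring
      have hm : (↑g⁻¹ : A) - 1 ∈ J ^ k := by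
        rw [e]; exact neg_mem ((J ^ k).mul_mem_left _ hg1)
      refine ⟨g⁻¹, inv_mem hg, hm, ?_⟩
      have e2 : (↑g⁻¹ : A) - 1 - (-u)
          = - (((↑g⁻¹ : A) - 1) * ((g : A) - 1)) - ((g : A) - 1 - u) := by
        have e3 : ((↑g⁻¹ : A) - 1) * ((g : A) - 1) = 1 - (↑g⁻¹ : A) - (g : A) + 1 := by
          rw [sub_mul, mul_sub, Units.inv_mul]; noncomm_ring
        rw [e3]; abel
      rw [e2]
      exact sub_mem (neg_mem (mono (by omega) (mulmem hm hg1))) hg2
    | @brk i j u v hbu hbv h1 h3 =>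
      obtain ⟨g, hg, hg1, hg2⟩ := h1
      obtain ⟨h, hh, hh1, hh2⟩ := h3
      have hi := br_pos hbu
      have hj := br_pos hbv
      have hu := br_mem hX hbu
      have hv := br_mem hX hbv
      have e : (↑(g * h * g⁻¹ * h⁻¹) : A) - 1
          = (((g : A) - 1) * ((h : A) - 1) - ((h : A) - 1) * ((g : A) - 1))
            * ((↑g⁻¹ : A) * (↑h⁻¹ : A)) := by
        have e1 : ((g : A) - 1) * ((h : A) - 1) - ((h : A) - 1) * ((g : A) - 1)
            = (g : A) * h - h * g := by noncomm_ring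
        rw [e1, sub_mul, Units.val_mul, Units.val_mul, Units.val_mul]
        have e2 : (h : A) * g * ((↑g⁻¹ : A) * (↑h⁻¹ : A)) = 1 := by
          rw [mul_assoc, ← mul_assoc (g : A), Units.mul_inv, one_mul, Units.mul_inv]
        rw [e2]
        noncomm_ring
      have hc : ((g : A) - 1) * ((h : A) - 1) - ((h : A) - 1) * ((g : A) - 1) ∈ J ^ (i + j) := by
        refine sub_mem (mulmem hg1 hh1) ?_
        rw [add_comm i j]; exact mulmem hh1 hg1
      refine ⟨g * h * g⁻¹ * h⁻¹, mul_mem (mul_mem (mul_mem hg hh) (inv_mem hg)) (inv_mem hh),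
        ?_, ?_⟩
      · rw [e]; exact Ideal.mul_mem_right _ _ hc
      · rw [e]
        have hgh : (↑g⁻¹ : A) * (↑h⁻¹ : A) - 1 ∈ J := by
          have h5 := (hBall _ (inv_mem (mul_mem hh hg))).2.2.2
          rwa [mul_inv_rev, Units.val_mul] at h5
        have e2 : (((g : A) - 1) * ((h : A) - 1) - ((h : A) - 1) * ((g : A) - 1))
            * ((↑g⁻¹ : A) * (↑h⁻¹ : A)) - (u * v - v * u)
            = (((g : A) - 1) * ((h : A) - 1) - ((h : A) - 1) * ((g : A) - 1))
              * ((↑g⁻¹ : A) * (↑h⁻¹ : A) - 1)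
              + ((((g : A) - 1 - u) * ((h : A) - 1) + u * ((h : A) - 1 - v))
                - (((h : A) - 1 - v) * ((g : A) - 1) + v * ((g : A) - 1 - u))) := by
          generalize (g : A) - 1 = G
          generalize (h : A) - 1 = H
          generalize (↑g⁻¹ : A) * (↑h⁻¹ : A) = W
          noncomm_ring
        rw [e2]
        have b1 := mulmem hc (mem_one.2 hgh)
        have b2 := mulmem hg2 hh1
        have b3 := mulmem hu hh2
        have b4 := mulmem hh2 hg1
        have b5 := mulmem hv hg2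
        refine add_mem b1 (sub_mem (add_mem ?_ ?_) (add_mem ?_ ?_))
        · rwa [show i + 1 + j = i + j + 1 by omega] at b2
        · exact b3
        · rwa [show j + 1 + i = i + j + 1 by omega] at b4
        · rwa [show j + (i + 1) = i + j + 1 by omega] at b5
  refine ⟨?_, ?_⟩
  · have main : ∀ k, ∀ m ∈ lieM X, m ∈ J ^ (p - k) → k < p → ∃ g ∈ B, (g : A) = ex p m := by
      intro k
      induction k with
      | zero =>
        intro m hm hmJ _
        rw [Nat.sub_zero, hJ] at hmJ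
        have h0 : m = 0 := hmJ
        refine ⟨1, one_mem _, ?_⟩
        rw [h0, Units.val_one]
        have h5 := (ex2 0 (zero_mem _)).1
        obtain ⟨s, hs⟩ := unit 0 (zero_mem _)
        rw [neg_zero, ← hs] at h5
        have h6 : s * s = 1 := by
          apply Units.ext; rw [Units.val_mul, Units.val_one]; exact h5
        have h7 := ex4 0 (zero_mem _) p
        have h8 : ex p (0 : A) = 1 := by
          unfold ex
          rw [Finset.sum_eq_single 0]
          · simp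
          · intro b _ hb
            rw [zero_pow hb, smul_zero]
          · intro hh
            exact absurd (Finset.mem_range.2 hp.out.pos) hh
        exact h8.symm
      | succ k ih =>
        intro m hm hmJ hk
        obtain ⟨v, hv1, hv2⟩ := decomp_pow (p := p) hJ hE h2 hX hXE m hm (p - (k + 1)) (by omega)
          (by omega) hmJ
        obtain ⟨g, hg, hg1, hg2⟩ := approx _ _ hv1
        obtain ⟨t, ht⟩ := unit m (hMJ m hm)
        have hBg := hBall _ (inv_mem hg)
        have hds : dlt E (g⁻¹ * t) ∈ lieM X := by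
          rw [dlt_mul hE]
          exact add_mem (conj m hm t ht _ hBg.2.2.1).1 (dltex m hm t ht)
        have hst : (↑(g⁻¹ * t) : A) - 1 ∈ J ^ (p - (k + 1) + 1) := by
          have e : (↑(g⁻¹ * t) : A) - 1 = (↑g⁻¹ : A) * ((ex p m - 1 - m) - ((g : A) - 1 - v)
              + (m - v)) := by
            have e1 : (ex p m - 1 - m) - ((g : A) - 1 - v) + (m - v) = ex p m - (g : A) := by abel
            rw [e1, Units.val_mul, mul_sub, Units.inv_mul, ht]
          rw [e]
          refine (J ^ _).mul_mem_left _ (add_mem (sub_mem ?_ hg2) hv2)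
          exact ex3 _ (by omega) m hmJ
        have hst1 : (↑(g⁻¹ * t) : A) - 1 ∈ J := mem_one.1 (mono (by omega) hst)
        obtain ⟨m', hm', hm'2⟩ := surj _ hst1 hds
        have h5 : m' ∈ J ^ (p - k) := by
          have h6 : p - (k + 1) + 1 = p - k := by omega
          rw [← h6]
          exact ex4 m' (hMJ m' hm') _ (by omega) (by rw [← hm'2]; exact hst)
        obtain ⟨g', hg', hg'2⟩ := ih m' hm' h5 (by omega)
        refine ⟨g * g', mul_mem hg hg', ?_⟩
        rw [Units.val_mul, hg'2, ← hm'2, Units.val_mul, ← mul_assoc, Units.mul_inv, one_mul, ht]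
    intro m hm
    have hp1 := hp.out.one_lt
    refine main (p - 1) m hm ?_ (by omega)
    rw [show p - (p - 1) = 1 by omega, Submodule.pow_one]
    exact hMJ m hm
  · intro g hg
    obtain ⟨_, _, h3, h4⟩ := hBall g hg
    exact surj g h4 h3

end Pool.Agent.PX
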