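import Pool.Agent.Lib.MP_2b9f9a_al.PX.Hig78
import Pool.Agent.Lib.MP_2b9f9a_al.PX.Univ78
import Pool.Agent.Lib.MP_2b9f9a_al.PX.ExpP78
import Pool.Agent.Lib.MP_2b9f9a_al.PX.Main78
import Pool.Agent.Lib.MP_2b9f9a_al.PX.Ex_28
import Pool.Agent.Lib.MP_2b9f9a_al.PX.Der12
import Pool.Agent.Lib.MP_2b9f9a_al.PX.BCH_53
import Pool.Agent.Lib.MP_2b9f9a_al.PX.Log_53
import Pool.Agent.Lib.MP_2b9f9a_al.PX.Fpf28
import Pool.Agent.Lib.MP_2b9f9a_al.PX.Cov28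
import Pool.Agent.Lib.MP_2b9f9a_al.PX.LR_7
import Pool.Agent.Lib.MP_2b9f9a_al.PX.GA_96
import Pool.Agent.Lib.MP_2b9f9a_al.PX.Gr_96
import Pool.Agent.Lib.MP_2b9f9a_al.PX.Laz17
import Pool.Agent.Lib.MP_2b9f9a_al.PX.Sol12
import Pool.Agent.Lib.MP_2b9f9a_al.PX.EngA_54
import Pool.Agent.Lib.MP_2b9f9a_al.PX.Eng_54
import Pool.Agent.Lib.MP_2b9f9a_al.PX.PBW_67
import Pool.Agent.Lib.MP_2b9f9a_al.PX.Nil31

/-!
# Assembly of PX.
-/

set_option autoImplicit false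

namespace Pool.Agent.PX

theorem bch : StBCH := stBCH_53 stEx_28 stExMap_28 (stUniv_78 stEx_28 stDer_12)

theorem laz : StLaz :=
  stLaz_17 stEx_28 stExMap_28 (stLog_53 bch stEx_28) stFpf_28 stCov_28 stLR_7 stGA_96 stFun_96

theorem iter : StIter := stIter_17 stFun_96 laz

theorem sol : StSol := stSol_12 stLR_7 stFpf_28 stCov_28 stGA_96 stFun_96

theorem eng : StEng := stEng_54 stGA_96 (stEngA_54 stGA_96)

theorem main_of_pbw (hPBW : StPBW) : StMain :=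
  stMain_78 stFpf_28 stCov_28 (stExpP_78 iter stGr_96 sol eng stHig_78 hPBW)

theorem pbw : StPBW := stPBW_67 stGA_96 stNil_31

/-- The theorem modulo `p`-th powers. -/
theorem main : StMain := main_of_pbw pbw

end Pool.Agent.PX
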