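import Pool.Agent.Lib.MP_2b9f9a_al.PX.Stmts

set_option autoImplicit false

/-!
# The free nilpotent algebra on two letters (for module M4 of PX)
-/

namespace Pool.Agent.PX

namespace B53

open Finset

variable (p : ℕ)

/-- words -/
abbrev WW : Type := FreeMonoid (Fin 2)

/-- the free algebra -/
abbrev RR : Type := MonoidAlgebra (ZMod p) WW

variable {p}

theorem coeff_mul_zero {i j : ℕ} {f g : RR p} (hf : ∀ w : WW, w.length < i → f.coeff w = 0)
    (hg : ∀ w : WW, w.length < j → g.coeff w = 0) :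
    ∀ w : WW, w.length < i + j → (f * g).coeff w = 0 := by
  classical
  intro w hw
  rw [MonoidAlgebra.coeff_mul]
  refine Finset.sum_eq_zero fun m₁ _ => Finset.sum_eq_zero fun m₂ _ => ?_
  dsimp only
  split_ifs with h
  · by_cases h1 : m₁.length < i
    · rw [hf m₁ h1, zero_mul]
    · by_cases h2 : m₂.length < j
      · rw [hg m₂ h2, mul_zero]
      · exfalso
        rw [← h, FreeMonoid.length_mul] at hw
        omega
  · rfl

variable (p)

/-- the combinations of the words of length at least `k` -/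
def IK (k : ℕ) : Ideal (RR p) where
  carrier := {f | ∀ w : WW, w.length < k → f.coeff w = 0}
  zero_mem' := fun w _ => rfl
  add_mem' := by
    intro f g hf hg w hw
    rw [MonoidAlgebra.coeff_add, Finsupp.add_apply, hf w hw, hg w hw, add_zero]
  smul_mem' := by
    intro c f hf w hw
    rw [smul_eq_mul]
    exact coeff_mul_zero (i := 0) (j := k) (fun w hw => absurd hw (Nat.not_lt_zero _)) hf w
      (by rw [zero_add]; exact hw)

variable {p}

theorem mem_IK {k : ℕ} {f : RR p} : f ∈ IK p k ↔ ∀ w : WW, w.length < k → f.coeff w = 0 := Iff.rfl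

instance (k : ℕ) : (IK p k).IsTwoSided where
  mul_mem_of_left := by
    intro f g hf w hw
    exact coeff_mul_zero (i := k) (j := 0) hf (fun w hw => absurd hw (Nat.not_lt_zero _)) w
      (by rw [add_zero]; exact hw)

variable (p)

/-- the free nilpotent algebra -/
abbrev TT : Type := RR p ⧸ IK p p

/-- the projection -/
noncomputable abbrev mk : RR p →+* TT p := Ideal.Quotient.mk (IK p p)

variable {p}

theorem mk_surj : Function.Surjective (mk p) := Ideal.Quotient.mk_surjective

variable (p)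

/-- the images of the `IK` -/
noncomputable def JT (k : ℕ) : Ideal (TT p) := Ideal.map (mk p) (IK p k)

variable {p}

theorem mem_JT {k : ℕ} {t : TT p} : t ∈ JT p k ↔ ∃ f ∈ IK p k, mk p f = t :=
  Ideal.mem_map_iff_of_surjective (mk p) mk_surj

instance (k : ℕ) : (JT p k).IsTwoSided where
  mul_mem_of_left := by
    intro s t hs
    obtain ⟨f, hf, rfl⟩ := mem_JT.1 hs
    obtain ⟨g, rfl⟩ := mk_surj t
    exact mem_JT.2 ⟨f * g, (IK p k).mul_mem_right _ hf, map_mul _ _ _⟩

theorem pow_le (k : ℕ) : JT p 1 ^ k ≤ JT p k := by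
  induction k with
  | zero =>
    intro t _
    obtain ⟨f, rfl⟩ := mk_surj t
    exact mem_JT.2 ⟨f, fun w hw => absurd hw (Nat.not_lt_zero _), rfl⟩
  | succ k ih =>
    rw [Submodule.pow_succ, Ideal.mul_le]
    intro s hs t ht
    obtain ⟨f, hf, rfl⟩ := mem_JT.1 (ih hs)
    obtain ⟨g, hg, rfl⟩ := mem_JT.1 ht
    exact mem_JT.2 ⟨f * g, coeff_mul_zero hf hg, map_mul _ _ _⟩

theorem pow_eq_bot : JT p 1 ^ p = ⊥ := by
  rw [eq_bot_iff]
  intro t ht
  obtain ⟨f, hf, rfl⟩ := mem_JT.1 (pow_le p ht)
  exact Ideal.Quotient.eq_zero_iff_mem.2 hf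

instance [Fact p.Prime] : Finite (TT p) := by
  have hW : Finite {w : WW // w.length < p} := (List.finite_length_lt (Fin 2) p).to_subtype
  have : Finite ({w : WW // w.length < p} → ZMod p) := inferInstance
  let F : TT p → ({w : WW // w.length < p} → ZMod p) := fun t w => (Quotient.out t : RR p).coeff w
  refine Finite.of_injective F ?_
  intro s t h
  have hs : mk p (Quotient.out s) = s := Quotient.out_eq s
  have ht : mk p (Quotient.out t) = t := Quotient.out_eq t
  rw [← hs, ← ht]
  rw [Ideal.Quotient.eq]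
  intro w hw
  have := congrFun h ⟨w, hw⟩
  rw [MonoidAlgebra.coeff_sub, Finsupp.sub_apply, sub_eq_zero]
  exact this

/-! ### The derivation -/

variable (p)

/-- the Euler operator on the free algebra -/
noncomputable def ER : RR p →+ RR p where
  toFun f := MonoidAlgebra.ofCoeff (Finsupp.onFinset f.coeff.support
    (fun w => (w.length : ZMod p) * f.coeff w) (by
      intro w hw
      rw [Finsupp.mem_support_iff]
      exact right_ne_zero_of_mul hw))
  map_zero' := by
    ext w
    simp
  map_add' f g := by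
    ext w
    simp [mul_add]

variable {p}

theorem ER_coeff (f : RR p) (w : WW) : (ER p f).coeff w = (w.length : ZMod p) * f.coeff w := rfl

theorem ER_single (w : WW) (c : ZMod p) :
    ER p (MonoidAlgebra.single w c) = MonoidAlgebra.single w ((w.length : ZMod p) * c) := by
  classical
  ext v
  rw [ER_coeff, MonoidAlgebra.coeff_single, MonoidAlgebra.coeff_single, Finsupp.single_apply,
    Finsupp.single_apply]
  split_ifs with h
  · rw [h]
  · rw [mul_zero]

theorem ER_mul (f g : RR p) : ER p (f * g) = ER p f * g + f * ER p g := by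
  induction f using MonoidAlgebra.induction_linear with
  | zero => simp
  | add f₁ f₂ h₁ h₂ => rw [add_mul, map_add, map_add, h₁, h₂]; noncomm_ring
  | single w c =>
    induction g using MonoidAlgebra.induction_linear with
    | zero => simp
    | add g₁ g₂ h₁ h₂ => rw [mul_add, map_add, map_add, h₁, h₂]; noncomm_ring
    | single v d =>
      rw [MonoidAlgebra.single_mul_single, ER_single, ER_single, ER_single,
        MonoidAlgebra.single_mul_single, MonoidAlgebra.single_mul_single,
        ← MonoidAlgebra.single_add, FreeMonoid.length_mul]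
      congr 1
      push_cast
      ring

theorem ER_mem {k : ℕ} {f : RR p} (hf : f ∈ IK p k) : ER p f ∈ IK p k := by
  intro w hw
  rw [ER_coeff, hf w hw, mul_zero]

variable (p)

/-- the derivation -/
noncomputable def ET : TT p →+ TT p :=
  AddMonoidHom.mk' (fun t => mk p (ER p (Quotient.out t))) (by
    intro s t
    rw [← map_add, ← map_add, Ideal.Quotient.eq, ← map_sub]
    apply ER_mem
    rw [← Ideal.Quotient.eq, map_add]
    have h1 : mk p (Quotient.out (s + t)) = s + t := Quotient.out_eq _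
    have h2 : mk p (Quotient.out s) = s := Quotient.out_eq _
    have h3 : mk p (Quotient.out t) = t := Quotient.out_eq _
    rw [h1, h2, h3])

variable {p}

theorem ET_mk (f : RR p) : ET p (mk p f) = mk p (ER p f) := by
  show mk p (ER p (Quotient.out (mk p f))) = mk p (ER p f)
  rw [Ideal.Quotient.eq, ← map_sub]
  apply ER_mem
  rw [← Ideal.Quotient.eq]
  exact Quotient.out_eq _

theorem ET_mul (s t : TT p) : ET p (s * t) = ET p s * t + s * ET p t := by
  obtain ⟨f, rfl⟩ := mk_surj s
  obtain ⟨g, rfl⟩ := mk_surj t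
  rw [← map_mul, ET_mk, ET_mk, ET_mk, ER_mul, map_add, map_mul, map_mul]

theorem ET_mem (t : TT p) : ET p t ∈ JT p 1 := by
  obtain ⟨f, rfl⟩ := mk_surj t
  rw [ET_mk]
  refine mem_JT.2 ⟨_, ?_, rfl⟩
  intro w hw
  have : w.length = 0 := by omega
  rw [ER_coeff, this, Nat.cast_zero, zero_mul]

/-- the words of length at least two are products -/
theorem two_mem {f : RR p} (hf : f ∈ IK p 2) : mk p f ∈ JT p 1 ^ 2 := by
  have h1 : f.coeff.sum (fun w c => MonoidAlgebra.single w c) = f :=
    MonoidAlgebra.sum_coeff_single f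
  rw [← h1, Finsupp.sum, map_sum]
  refine Ideal.sum_mem _ fun w hw => ?_
  have h2 : 2 ≤ w.length := by
    by_contra h
    rw [Finsupp.mem_support_iff] at hw
    exact hw (hf w (by omega))
  obtain ⟨x, v, rfl⟩ : ∃ (x : Fin 2) (v : WW), w = FreeMonoid.of x * v := by
    induction w using FreeMonoid.casesOn with
    | one => simp at h2
    | of_mul x v => exact ⟨x, v, rfl⟩
  rw [FreeMonoid.length_mul, FreeMonoid.length_of] at h2
  have h3 : MonoidAlgebra.single (FreeMonoid.of x * v) (f.coeff (FreeMonoid.of x * v)) =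
      MonoidAlgebra.single (FreeMonoid.of x) (1 : ZMod p) *
        MonoidAlgebra.single v (f.coeff (FreeMonoid.of x * v)) := by
    rw [MonoidAlgebra.single_mul_single, one_mul]
  have h4 : ∀ (w : WW) (c : ZMod p), 1 ≤ w.length → MonoidAlgebra.single w c ∈ IK p 1 := by
    classical
    intro w c hw v hv
    rw [MonoidAlgebra.coeff_single, Finsupp.single_apply, if_neg]
    rintro rfl
    omega
  rw [h3, map_mul, Submodule.pow_succ, Submodule.pow_one]
  exact Ideal.mul_mem_mul (mem_JT.2 ⟨_, h4 _ _ (by rw [FreeMonoid.length_of]), rfl⟩)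
    (mem_JT.2 ⟨_, h4 _ _ (by omega), rfl⟩)

theorem ET_sub_mem {t : TT p} (ht : t ∈ JT p 1) : ET p t - t ∈ JT p 1 ^ 2 := by
  obtain ⟨f, hf, rfl⟩ := mem_JT.1 ht
  rw [ET_mk, ← map_sub]
  apply two_mem
  intro w hw
  rw [MonoidAlgebra.coeff_sub, Finsupp.sub_apply, ER_coeff]
  rcases Nat.lt_or_ge w.length 1 with h | h
  · rw [hf w h, mul_zero, sub_zero]
  · have : w.length = 1 := by omega
    rw [this, Nat.cast_one, one_mul, sub_self]

/-! ### The universal property -/

theorem letter_mem (x : Fin 2) : mk p (MonoidAlgebra.single (FreeMonoid.of x) 1) ∈ JT p 1 := by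
  classical
  refine mem_JT.2 ⟨_, ?_, rfl⟩
  intro v hv
  rw [MonoidAlgebra.coeff_single, Finsupp.single_apply, if_neg]
  rintro rfl
  rw [FreeMonoid.length_of] at hv
  omega

theorem ET_letter (x : Fin 2) : ET p (mk p (MonoidAlgebra.single (FreeMonoid.of x) 1)) =
    mk p (MonoidAlgebra.single (FreeMonoid.of x) 1) := by
  rw [ET_mk, ER_single, FreeMonoid.length_of, Nat.cast_one, one_mul]

theorem word_mem {A : Type} [Ring A] (J : Ideal A) [J.IsTwoSided] (F : Fin 2 → A)
    (hF : ∀ x, F x ∈ J) (w : WW) : FreeMonoid.lift F w ∈ J ^ w.length := by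
  induction w using FreeMonoid.inductionOn' with
  | one =>
    rw [FreeMonoid.length_one, Submodule.pow_zero, Ideal.one_eq_top]
    exact Submodule.mem_top
  | of_mul x v ih =>
    rw [map_mul, FreeMonoid.length_mul, FreeMonoid.length_of, add_comm,
      Ideal.IsTwoSided.pow_succ, FreeMonoid.lift_eval_of]
    exact Ideal.mul_mem_mul (hF x) ih

theorem exists_hom {A : Type} [Ring A] [Algebra (ZMod p) A] (J : Ideal A) [J.IsTwoSided]
    (hJ : J ^ p = ⊥) (F : Fin 2 → A) (hF : ∀ x, F x ∈ J) :
    ∃ φ : TT p →+* A, ∀ x, φ (mk p (MonoidAlgebra.single (FreeMonoid.of x) 1)) = F x := by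
  refine ⟨Ideal.Quotient.lift (IK p p)
    (MonoidAlgebra.lift (ZMod p) A WW (FreeMonoid.lift F)).toRingHom ?_, ?_⟩
  · intro f hf
    show MonoidAlgebra.lift (ZMod p) A WW (FreeMonoid.lift F) f = 0
    rw [MonoidAlgebra.lift_apply]
    refine Finset.sum_eq_zero fun w hw => ?_
    have h1 : p ≤ w.length := by
      by_contra h
      rw [Finsupp.mem_support_iff] at hw
      exact hw (hf w (by omega))
    have h2 := word_mem J F hF w
    have h3 : J ^ w.length ≤ J ^ p := Ideal.pow_le_pow_right h1
    have h4 := h3 h2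
    rw [hJ, Ideal.mem_bot] at h4
    dsimp only
    rw [h4, smul_zero]
  · intro x
    rw [Ideal.Quotient.lift_mk]
    show MonoidAlgebra.lift (ZMod p) A WW (FreeMonoid.lift F) (MonoidAlgebra.single _ _) = _
    rw [MonoidAlgebra.lift_single, one_smul, FreeMonoid.lift_eval_of]

end B53

/-- The model. -/
theorem model53 (p : ℕ) [Fact p.Prime] : ∃ (T : Type) (_ : Ring T) (_ : Algebra (ZMod p) T)
    (J : Ideal T) (_ : J.IsTwoSided) (E : T →+ T) (a b : T), Finite T ∧ J ^ p = ⊥ ∧
    (∀ s t, E (s * t) = E s * t + s * E t) ∧ (∀ t, E t ∈ J) ∧ (∀ t ∈ J, E t - t ∈ J ^ 2) ∧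
    a ∈ J ∧ b ∈ J ∧ E a = a ∧ E b = b ∧
    ∀ (A : Type) [Ring A] [Algebra (ZMod p) A] (J' : Ideal A) [J'.IsTwoSided], J' ^ p = ⊥ →
      ∀ u ∈ J', ∀ v ∈ J', ∃ φ : T →+* A, φ a = u ∧ φ b = v := by
  refine ⟨B53.TT p, inferInstance, inferInstance, B53.JT p 1, inferInstance, B53.ET p,
    B53.mk p (MonoidAlgebra.single (FreeMonoid.of 0) 1),
    B53.mk p (MonoidAlgebra.single (FreeMonoid.of 1) 1), inferInstance, B53.pow_eq_bot,
    B53.ET_mul, B53.ET_mem, fun t ht => B53.ET_sub_mem ht, B53.letter_mem 0, B53.letter_mem 1,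
    B53.ET_letter 0, B53.ET_letter 1, ?_⟩
  intro A _ _ J' _ hJ' u hu v hv
  obtain ⟨φ, hφ⟩ := B53.exists_hom J' hJ' ![u, v] (by
    intro x
    fin_cases x
    · exact hu
    · exact hv)
  exact ⟨φ, hφ 0, hφ 1⟩

end Pool.Agent.PX
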