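import Pool.Agent.Lib.MP_2b9f9a_al.PX.FreeT28

/-!
# PX, module 4: consequences of `exp(Lie<X>) = <exp X>` for two elements
-/

set_option autoImplicit false

namespace Pool.Agent.PX.BCH28

open Finset Ex28

variable {p : ℕ} [hp : Fact p.Prime]

/-! ### exponentials of multiples -/

section general

variable {A : Type} [Ring A] [Algebra (ZMod p) A] {J : Ideal A} [J.IsTwoSided]

theorem ex_pow (hJ : J ^ p = ⊥) {x : A} (hx : x ∈ J) (n : ℕ) : ex p x ^ n = ex p (n • x) := by
  induction n with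
  | zero => rw [pow_zero, zero_smul, ex_zero]
  | succ n ih =>
    have h1 : (n + 1) • x = n • x + x := succ_nsmul x n
    rw [pow_succ, ih, h1, ex_add hJ (nsmul_mem hx n) hx]
    rw [smul_mul_assoc, mul_smul_comm]

theorem char_smul (x : A) : p • x = 0 := by
  have h := Nat.cast_smul_eq_nsmul (ZMod p) p x
  rw [ZMod.natCast_self, zero_smul] at h
  exact h.symm

theorem ex_pow_p (hJ : J ^ p = ⊥) {x : A} (hx : x ∈ J) : ex p x ^ p = 1 := by
  rw [ex_pow hJ hx, char_smul, ex_zero]

theorem int_smul_zero {i : ℤ} (hi : (i : ZMod p) = 0) (x : A) : i • x = 0 := by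
  rw [← Int.cast_smul_eq_zsmul (ZMod p) i x, hi, zero_smul]

/-- the unit `ex x` -/
noncomputable def ux (hJ : J ^ p = ⊥) (x : A) (hx : x ∈ J) : Aˣ where
  val := ex p x
  inv := ex p (-x)
  val_inv := ((stEx_28 p A J hJ).2.1 x hx).2
  inv_val := ((stEx_28 p A J hJ).2.1 x hx).1

theorem sq_mem {x y : A} (hx : x ∈ J) (hy : y ∈ J) : x * y ∈ J ^ 2 := by
  have h : x * y ∈ J ^ (1 + 1) := by
    rw [Submodule.pow_succ, Submodule.pow_one]
    exact Ideal.mul_mem_mul hx hy
  exact h

theorem rest1 {x : A} (hx : x ∈ J) : ex p x - 1 - x ∈ J ^ 2 :=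
  rest (p := p) (i := 1) hx (by rwa [Submodule.pow_one])

theorem ex_sub_one {x : A} (hx : x ∈ J) : ex p x - 1 ∈ J := by
  have h1 : ex p x - 1 = (ex p x - 1 - x) + x := by abel
  rw [h1]
  exact J.add_mem (Ideal.pow_le_self (by omega) (rest1 (p := p) hx)) hx

omit [Algebra (ZMod p) A] hp in
theorem comm_sq (s t : Aˣ) (hs : (s : A) - 1 ∈ J) (ht : (t : A) - 1 ∈ J) :
    ((s * t * s⁻¹ * t⁻¹ : Aˣ) : A) - 1 ∈ J ^ 2 := by
  have h1 : ((s * t * s⁻¹ * t⁻¹ : Aˣ) : A) - 1 =
      (((s : A) - 1) * ((t : A) - 1) - ((t : A) - 1) * ((s : A) - 1)) *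
        (((s⁻¹ : Aˣ) : A) * ((t⁻¹ : Aˣ) : A)) := by
    have h2 : ((s : A) - 1) * ((t : A) - 1) - ((t : A) - 1) * ((s : A) - 1) =
        (s : A) * t - t * s := by
      noncomm_ring
    have h3 : ((t : A) * s) * (((s⁻¹ : Aˣ) : A) * ((t⁻¹ : Aˣ) : A)) = 1 := by
      rw [← mul_assoc, mul_assoc (t : A), Units.mul_inv, mul_one, Units.mul_inv]
    rw [h2, sub_mul, h3]
    simp only [Units.val_mul, mul_assoc]
  rw [h1]
  exact Ideal.mul_mem_right _ _ ((J ^ 2).sub_mem (sq_mem hs ht) (sq_mem ht hs))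

end general

/-! ### the coefficients of the letters -/

variable (p) in
/-- the homomorphism to the dual numbers which sees the coefficient of the letter `i` -/
noncomputable def chF (i : Fin 2) : FA p →ₐ[ZMod p] DualNumber (ZMod p) :=
  FreeAlgebra.lift (ZMod p) fun j => if j = i then DualNumber.eps else 0

theorem chF_sq (i : Fin 2) : ∀ w ∈ (I p) ^ 2, chF p i w = 0 := by
  intro w hw
  have h1 := map_pow (chF p i : FA p →+* DualNumber (ZMod p)) (I p)
    (Ideal.span {(DualNumber.eps : DualNumber (ZMod p))})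
    (fun w hw => map_I (chF p i) _ (fun j => by
      rw [chF, FreeAlgebra.lift_ι_apply]
      split_ifs
      · exact Ideal.mem_span_singleton_self _
      · exact Submodule.zero_mem _) w hw) 2 w hw
  rw [Ideal.span_singleton_pow, pow_two, DualNumber.eps_mul_eps, Ideal.span_singleton_eq_bot.2 rfl]
    at h1
  exact h1

variable (p) in
noncomputable def ch (i : Fin 2) : T p →ₐ[ZMod p] DualNumber (ZMod p) :=
  Ideal.Quotient.liftₐ ((I p) ^ p) (chF p i) fun w hw =>
    chF_sq i w (Ideal.pow_le_pow_right hp.out.two_le hw)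

theorem ch_mk (i : Fin 2) (w : FA p) : ch p i (mk p w) = chF p i w := rfl

theorem ch_sq (i : Fin 2) {t : T p} (ht : t ∈ (JT p) ^ 2) : ch p i t = 0 := by
  obtain ⟨w, hw, rfl⟩ := lift_pow 2 t ht
  rw [ch_mk]
  exact chF_sq i w hw

theorem ch_le (i j : Fin 2) : ch p i (mk p (le p j)) = if j = i then DualNumber.eps else 0 := by
  rw [ch_mk, chF, FreeAlgebra.lift_ι_apply]

theorem le_JT (j : Fin 2) : mk p (le p j) ∈ JT p := mk_mem_JT.2 (le_mem j)

theorem coef {i j : ℤ} (h : i • mk p (le p 0) + j • mk p (le p 1) ∈ (JT p) ^ 2) :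
    (i : ZMod p) = 0 ∧ (j : ZMod p) = 0 := by
  constructor
  · have h1 := ch_sq 0 h
    rw [map_add, map_zsmul, map_zsmul, ch_le, ch_le, if_pos rfl, if_neg (by decide), smul_zero,
      add_zero] at h1
    have h2 := congrArg TrivSqZeroExt.snd h1
    simpa using h2
  · have h1 := ch_sq 1 h
    rw [map_add, map_zsmul, map_zsmul, ch_le, ch_le, if_pos rfl, if_neg (by decide), smul_zero,
      zero_add] at h1
    have h2 := congrArg TrivSqZeroExt.snd h1
    simpa using h2

theorem ch_ex (i j : Fin 2) : ch p i (ex p (mk p (le p j))) =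
    1 + if j = i then DualNumber.eps else 0 := by
  have h1 := ch_sq i (rest1 (p := p) (le_JT (p := p) j))
  rw [map_sub, map_sub, map_one, ch_le, sub_sub, sub_eq_zero] at h1
  exact h1

theorem dual_pow (n : ℕ) : (1 + DualNumber.eps : DualNumber (ZMod p)) ^ n =
    1 + (n : ZMod p) • DualNumber.eps := by
  induction n with
  | zero => simp
  | succ n ih =>
    rw [pow_succ, ih, mul_add, mul_one, add_mul, one_mul, smul_mul_assoc, DualNumber.eps_mul_eps,
      smul_zero, add_zero, Nat.cast_succ, add_smul, one_smul, add_assoc]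

theorem dual_zpow (U : (DualNumber (ZMod p))ˣ) (hU : (U : DualNumber (ZMod p)) = 1 + DualNumber.eps)
    (i : ℤ) (h : U ^ i = 1) : p ∣ i.natAbs := by
  have h1 : U ^ i.natAbs = 1 := pow_natAbs_eq_one.2 h
  have h2 := congrArg (fun u : (DualNumber (ZMod p))ˣ => (u : DualNumber (ZMod p))) h1
  simp only [Units.val_pow_eq_pow_val, hU, dual_pow, Units.val_one] at h2
  have h3 := congrArg TrivSqZeroExt.snd h2
  rw [← ZMod.natCast_eq_zero_iff]
  simpa using h3

/-! ### the group generated by the two exponentials -/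

variable (p) in
/-- the unit `ex` of a letter -/
noncomputable def sl (i : Fin 2) : (T p)ˣ := ux (p := p) JT_pow (mk p (le p i)) (le_JT i)

theorem sl_val (i : Fin 2) : (sl p i : T p) = ex p (mk p (le p i)) := rfl

theorem sl_pow (i : Fin 2) : sl p i ^ p = 1 := by
  apply Units.ext
  rw [Units.val_pow_eq_pow_val, sl_val, ex_pow_p JT_pow (le_JT i), Units.val_one]

theorem sl_zpow (i : Fin 2) (k : ℤ) (hk : p ∣ k.natAbs) : sl p i ^ k = 1 := by
  rw [← pow_natAbs_eq_one]
  obtain ⟨m, hm⟩ := hk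
  rw [hm, pow_mul, sl_pow, one_pow]

variable (p) in
/-- the letters -/
def XX : Set (T p) := {mk p (le p 0), mk p (le p 1)}

variable (p) in
/-- the group -/
noncomputable def BB : Subgroup (T p)ˣ := Subgroup.closure {sl p 0, sl p 1}

theorem BB_eq : BB p = Subgroup.closure {s : (T p)ˣ | ∃ x ∈ XX p, (s : T p) = ex p x} := by
  unfold BB
  congr 1
  ext s
  constructor
  · rintro (h | h)
    · rw [h]
      exact ⟨_, Or.inl rfl, rfl⟩
    · rw [h]
      exact ⟨_, Or.inr rfl, rfl⟩
  · rintro ⟨x, (hx | hx), hs⟩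
    · left
      apply Units.ext
      rw [hs, hx]
      rfl
    · right
      apply Units.ext
      rw [hs, hx]
      rfl

theorem sl_mem (i : Fin 2) : sl p i ∈ BB p := by
  apply Subgroup.subset_closure
  fin_cases i
  · left
    rfl
  · right
    rfl

theorem mem_comm (g : (T p)ˣ) (hg : g ∈ BB p) (h : (g : T p) - 1 ∈ (JT p) ^ 2) :
    g ∈ ⁅BB p, BB p⁆ := by
  set s0 : BB p := ⟨sl p 0, sl_mem 0⟩ with hs0
  set s1 : BB p := ⟨sl p 1, sl_mem 1⟩ with hs1
  have key : ∀ x (hx : x ∈ BB p), ∃ i j : ℤ, Abelianization.of (⟨x, hx⟩ : BB p) =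
      Abelianization.of s0 ^ i * Abelianization.of s1 ^ j := by
    intro x hx
    induction hx using Subgroup.closure_induction with
    | mem x hx =>
      rcases hx with hx | hx
      · subst hx
        exact ⟨1, 0, by simp [hs0]⟩
      · have hx' : x = sl p 1 := hx
        subst hx'
        exact ⟨0, 1, by simp [hs1]⟩
    | one =>
      refine ⟨0, 0, ?_⟩
      rw [zpow_zero, zpow_zero, mul_one]
      exact map_one (Abelianization.of (G := BB p))
    | mul x y hx hy ihx ihy =>
      obtain ⟨i, j, h1⟩ := ihx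
      obtain ⟨i', j', h2⟩ := ihy
      refine ⟨i + i', j + j', ?_⟩
      have h3 : Abelianization.of (⟨x * y, mul_mem hx hy⟩ : BB p) =
          Abelianization.of (⟨x, hx⟩ : BB p) * Abelianization.of (⟨y, hy⟩ : BB p) :=
        map_mul (Abelianization.of (G := BB p)) ⟨x, hx⟩ ⟨y, hy⟩
      rw [h3, h1, h2, zpow_add, zpow_add]
      exact mul_mul_mul_comm _ _ _ _
    | inv x hx ih =>
      obtain ⟨i, j, h1⟩ := ih
      refine ⟨-i, -j, ?_⟩
      have h3 : Abelianization.of (⟨x⁻¹, inv_mem hx⟩ : BB p) =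
          (Abelianization.of (⟨x, hx⟩ : BB p))⁻¹ :=
        map_inv (Abelianization.of (G := BB p)) ⟨x, hx⟩
      rw [h3, h1, mul_inv, zpow_neg, zpow_neg]
  obtain ⟨i, j, hij⟩ := key g hg
  -- the two characters
  have hch : ∀ k : Fin 2, ((Units.map (ch p k : T p →* DualNumber (ZMod p))) (sl p 0)) ^ i *
      ((Units.map (ch p k : T p →* DualNumber (ZMod p))) (sl p 1)) ^ j = 1 := by
    intro k
    set ψ : BB p →* (DualNumber (ZMod p))ˣ :=
      (Units.map (ch p k : T p →* DualNumber (ZMod p))).comp (BB p).subtype with hψ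
    have h1 := congrArg (Abelianization.lift (G := BB p) (A := (DualNumber (ZMod p))ˣ) ψ) hij
    rw [map_mul, map_zpow, map_zpow, Abelianization.lift_apply_of, Abelianization.lift_apply_of,
      Abelianization.lift_apply_of] at h1
    have h2 : ψ ⟨g, hg⟩ = 1 := by
      apply Units.ext
      have h3 := ch_sq k h
      rw [map_sub, map_one, sub_eq_zero] at h3
      exact h3
    rw [h2] at h1
    exact h1.symm
  have hval : ∀ k l : Fin 2, (((Units.map (ch p k : T p →* DualNumber (ZMod p))) (sl p l) :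
      (DualNumber (ZMod p))ˣ) : DualNumber (ZMod p)) = 1 + if l = k then DualNumber.eps else 0 :=
    fun k l => ch_ex k l
  have hi : p ∣ i.natAbs := by
    have h1 := hch 0
    have h2 : (Units.map (ch p 0 : T p →* DualNumber (ZMod p))) (sl p 1) = 1 := by
      apply Units.ext
      rw [hval]
      simp
    rw [h2, one_zpow, mul_one] at h1
    exact dual_zpow _ (by rw [hval, if_pos rfl]) i h1
  have hj : p ∣ j.natAbs := by
    have h1 := hch 1
    have h2 : (Units.map (ch p 1 : T p →* DualNumber (ZMod p))) (sl p 0) = 1 := by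
      apply Units.ext
      rw [hval]
      simp
    rw [h2, one_zpow, one_mul] at h1
    exact dual_zpow _ (by rw [hval, if_pos rfl]) j h1
  have e0 : Abelianization.of s0 ^ i = 1 := by
    rw [← map_zpow]
    have : s0 ^ i = 1 := Subtype.ext (by
      rw [SubgroupClass.coe_zpow]
      exact sl_zpow 0 i hi)
    rw [this, map_one]
  have e1 : Abelianization.of s1 ^ j = 1 := by
    rw [← map_zpow]
    have : s1 ^ j = 1 := Subtype.ext (by
      rw [SubgroupClass.coe_zpow]
      exact sl_zpow 1 j hj)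
    rw [this, map_one]
  rw [e0, e1, mul_one] at hij
  have h3 : (⟨g, hg⟩ : BB p) ∈ commutator (BB p) := (QuotientGroup.eq_one_iff _).1 hij
  have h4 : (BB p).subtype ⟨g, hg⟩ ∈ (commutator (BB p)).map (BB p).subtype :=
    Subgroup.mem_map_of_mem _ h3
  rw [commutator_def, Subgroup.map_commutator, ← MonoidHom.range_eq_map, Subgroup.range_subtype]
    at h4
  exact h4

/-! ### the Lie ring generated by the letters -/

variable (p) in
/-- additive group generated by the brackets -/
noncomputable def WW : AddSubgroup (T p) :=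
  AddSubgroup.closure {z | ∃ x ∈ lieM (XX p), ∃ y ∈ lieM (XX p), x * y - y * x = z}

theorem XX_JT : ∀ x ∈ XX p, x ∈ JT p := by
  rintro x (hx | hx)
  · rw [hx]
    exact le_JT 0
  · rw [hx]
    exact le_JT 1

theorem Br_JT {k : ℕ} {u : T p} (h : Br (XX p) k u) : u ∈ JT p := by
  induction h with
  | base hx => exact XX_JT _ hx
  | zero => exact (JT p).zero_mem
  | add _ _ h1 h2 => exact (JT p).add_mem h1 h2
  | neg _ h => exact (JT p).neg_mem h
  | brk _ _ h1 h2 =>
    exact (JT p).sub_mem ((JT p).mul_mem_left _ h2) ((JT p).mul_mem_left _ h1)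

theorem lie_JT {u : T p} (h : u ∈ lieM (XX p)) : u ∈ JT p := by
  have h1 : lieM (XX p) ≤ (JT p).toAddSubgroup := by
    unfold lieM
    rw [AddSubgroup.closure_le]
    rintro u ⟨k, hk⟩
    exact Br_JT hk
  exact h1 h

theorem WW_sq {w : T p} (h : w ∈ WW p) : w ∈ (JT p) ^ 2 := by
  have h1 : WW p ≤ ((JT p) ^ 2).toAddSubgroup := by
    unfold WW
    rw [AddSubgroup.closure_le]
    rintro u ⟨x, hx, y, hy, rfl⟩
    exact ((JT p) ^ 2).sub_mem (sq_mem (lie_JT hx) (lie_JT hy)) (sq_mem (lie_JT hy) (lie_JT hx))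
  exact h1 h

theorem Br_lie {k : ℕ} {u : T p} (h : Br (XX p) k u) : u ∈ lieM (XX p) :=
  AddSubgroup.subset_closure ⟨k, h⟩

theorem Br_dec {k : ℕ} {u : T p} (h : Br (XX p) k u) : ∃ i j : ℤ, ∃ w ∈ WW p,
    u = i • mk p (le p 0) + j • mk p (le p 1) + w := by
  induction h with
  | base hx =>
    rcases hx with hx | hx
    · exact ⟨1, 0, 0, (WW p).zero_mem, by rw [hx]; simp⟩
    · exact ⟨0, 1, 0, (WW p).zero_mem, by rw [hx]; simp⟩
  | zero => exact ⟨0, 0, 0, (WW p).zero_mem, by simp⟩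
  | add _ _ h1 h2 =>
    obtain ⟨i, j, w, hw, rfl⟩ := h1
    obtain ⟨i', j', w', hw', rfl⟩ := h2
    refine ⟨i + i', j + j', w + w', (WW p).add_mem hw hw', ?_⟩
    rw [add_smul, add_smul]
    abel
  | neg _ h =>
    obtain ⟨i, j, w, hw, rfl⟩ := h
    refine ⟨-i, -j, -w, (WW p).neg_mem hw, ?_⟩
    rw [neg_smul, neg_smul]
    abel
  | brk h1 h2 _ _ =>
    exact ⟨0, 0, _, AddSubgroup.subset_closure ⟨_, Br_lie h1, _, Br_lie h2, rfl⟩, by simp⟩

theorem lie_dec {u : T p} (h : u ∈ lieM (XX p)) : ∃ i j : ℤ, ∃ w ∈ WW p,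
    u = i • mk p (le p 0) + j • mk p (le p 1) + w := by
  unfold lieM at h
  induction h using AddSubgroup.closure_induction with
  | mem x hx =>
    obtain ⟨k, hk⟩ := hx
    exact Br_dec hk
  | zero => exact ⟨0, 0, 0, (WW p).zero_mem, by simp⟩
  | add x y _ _ h1 h2 =>
    obtain ⟨i, j, w, hw, rfl⟩ := h1
    obtain ⟨i', j', w', hw', rfl⟩ := h2
    refine ⟨i + i', j + j', w + w', (WW p).add_mem hw hw', ?_⟩
    rw [add_smul, add_smul]
    abel
  | neg x _ h =>
    obtain ⟨i, j, w, hw, rfl⟩ := h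
    refine ⟨-i, -j, -w, (WW p).neg_mem hw, ?_⟩
    rw [neg_smul, neg_smul]
    abel

end Pool.Agent.PX.BCH28

namespace Pool.Agent.PX

open Finset Ex28 BCH28

theorem stBCH_28 (hU : StUniv) : StBCH := by
  intro p hp A _ _ J _ hJ u hu v hv s t hs ht
  have hfin : Finite (T p) := finite_T
  set a : T p := mk p (le p 0) with ha
  set b : T p := mk p (le p 1) with hb
  obtain ⟨U1, U2⟩ := hU p (T p) (JT p) JT_pow (ET p) ET_mul ET_mem ET_sub (XX p) XX_JT
    (by
      rintro x (hx | hx)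
      · rw [hx]
        exact ET_le 0
      · rw [hx]
        exact ET_le 1) (BB p) BB_eq
  -- the homomorphism to `A`
  set f : FA p →ₐ[ZMod p] A := FreeAlgebra.lift (ZMod p) ![u, v] with hf
  have hf0 : f (le p 0) = u := by
    rw [hf, FreeAlgebra.lift_ι_apply]
    rfl
  have hf1 : f (le p 1) = v := by
    rw [hf, FreeAlgebra.lift_ι_apply]
    rfl
  have hfJ : ∀ w ∈ I p, f w ∈ J := map_I f J (by
    intro i
    fin_cases i
    · rw [show (⟨0, by omega⟩ : Fin 2) = 0 from rfl, hf0]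
      exact hu
    · rw [show (⟨1, by omega⟩ : Fin 2) = 1 from rfl, hf1]
      exact hv)
  have hfp : ∀ w ∈ (I p) ^ p, f w = 0 := by
    intro w hw
    exact eq_zero hJ (le_refl p) (map_pow (f : FA p →+* A) (I p) J hfJ p w hw)
  set φ : T p →ₐ[ZMod p] A := Ideal.Quotient.liftₐ ((I p) ^ p) f hfp with hφ
  have hφa : φ a = u := hf0
  have hφb : φ b = v := hf1
  have hex : ∀ x : T p, φ (ex p x) = ex p (φ x) := fun x =>
    stExMap_28 p (T p) A (φ : T p →+* A) x
  set Φ : (T p)ˣ →* Aˣ := Units.map (φ : T p →* A) with hΦ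
  have hΦv : ∀ g : (T p)ˣ, ((Φ g : Aˣ) : A) = φ (g : T p) := fun g => rfl
  have hΦ0 : Φ (sl p 0) = s := by
    apply Units.ext
    rw [hΦv, sl_val, hex, hs]
    congr 1
  have hΦ1 : Φ (sl p 1) = t := by
    apply Units.ext
    rw [hΦv, sl_val, hex, ht]
    congr 1
  have hmap : (BB p).map Φ = Subgroup.closure {s, t} := by
    unfold BB
    rw [MonoidHom.map_closure, Set.image_pair, hΦ0, hΦ1]
  -- image of the Lie ring
  have hBrM : ∀ M N : AddSubgroup A, u ∈ M → v ∈ M → (∀ x ∈ M, ∀ y ∈ M, x * y - y * x ∈ N) →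
      N ≤ M → ∀ x ∈ lieM (XX p), φ x ∈ M := by
    intro M N huM hvM hMN hNM
    have h1 : ∀ (k : ℕ) (x : T p), Br (XX p) k x → φ x ∈ M := by
      intro k x hx
      induction hx with
      | base hx =>
        rcases hx with hx | hx
        · rw [hx]
          exact hφa ▸ huM
        · rw [hx]
          exact hφb ▸ hvM
      | zero =>
        rw [map_zero]
        exact M.zero_mem
      | add _ _ h1 h2 =>
        rw [map_add]
        exact M.add_mem h1 h2
      | neg _ h =>
        rw [map_neg]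
        exact M.neg_mem h
      | brk _ _ h1 h2 =>
        rw [map_sub, map_mul, map_mul]
        exact hNM (hMN _ h1 _ h2)
    intro x hx
    unfold lieM at hx
    induction hx using AddSubgroup.closure_induction with
    | mem x hx =>
      obtain ⟨k, hk⟩ := hx
      exact h1 k x hk
    | zero =>
      rw [map_zero]
      exact M.zero_mem
    | add x y _ _ h1 h2 =>
      rw [map_add]
      exact M.add_mem h1 h2
    | neg x _ h =>
      rw [map_neg]
      exact M.neg_mem h
  have hWN : ∀ M N : AddSubgroup A, u ∈ M → v ∈ M → (∀ x ∈ M, ∀ y ∈ M, x * y - y * x ∈ N) →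
      N ≤ M → ∀ w ∈ WW p, φ w ∈ N := by
    intro M N huM hvM hMN hNM w hw
    have h2 := hBrM M N huM hvM hMN hNM
    unfold WW at hw
    induction hw using AddSubgroup.closure_induction with
    | mem x hx =>
      obtain ⟨x, hx, y, hy, rfl⟩ := hx
      rw [map_sub, map_mul, map_mul]
      exact hMN _ (h2 x hx) _ (h2 y hy)
    | zero =>
      rw [map_zero]
      exact N.zero_mem
    | add x y _ _ h1 h2 =>
      rw [map_add]
      exact N.add_mem h1 h2
    | neg x _ h =>
      rw [map_neg]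
      exact N.neg_mem h
  have hBa : Br (XX p) 1 a := Br.base (Or.inl rfl)
  have hBb : Br (XX p) 1 b := Br.base (Or.inr rfl)
  have haJ : a ∈ JT p := le_JT 0
  have hbJ : b ∈ JT p := le_JT 1
  refine ⟨?_, ?_, fun M N huM hvM hMN hNM => ⟨?_, ?_⟩⟩
  · obtain ⟨g, hg, hg'⟩ := U1 (a + b) (Br_lie (Br.add hBa hBb))
    refine ⟨Φ g, ?_, ?_⟩
    · rw [← hmap]
      exact Subgroup.mem_map_of_mem _ hg
    · rw [hΦv, hg', hex, map_add, hφa, hφb]
  · obtain ⟨g, hg, hg'⟩ := U1 (a * b - b * a) (Br_lie (Br.brk hBa hBb))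
    have h1 : (g : T p) - 1 ∈ (JT p) ^ 2 := by
      have h2 : a * b - b * a ∈ (JT p) ^ 2 :=
        ((JT p) ^ 2).sub_mem (sq_mem haJ hbJ) (sq_mem hbJ haJ)
      have h3 := rest (p := p) (Ideal.pow_le_self (by omega) h2) h2
      have h4 := Ideal.pow_le_pow_right (show 2 ≤ 2 + 1 by omega) h3
      rw [hg']
      have h5 : ex p (a * b - b * a) - 1 = (ex p (a * b - b * a) - 1 - (a * b - b * a)) +
          (a * b - b * a) := by abel
      rw [h5]
      exact ((JT p) ^ 2).add_mem h4 h2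
    refine ⟨Φ g, ?_, ?_⟩
    · rw [← hmap, ← Subgroup.map_commutator]
      exact Subgroup.mem_map_of_mem _ (mem_comm g hg h1)
    · rw [hΦv, hg', hex, map_sub, map_mul, map_mul, hφa, hφb]
  · obtain ⟨m, hm, hm'⟩ := U2 (sl p 0 * sl p 1) (mul_mem (sl_mem 0) (sl_mem 1))
    rw [Units.val_mul, sl_val, sl_val] at hm'
    obtain ⟨i, j, w, hw, hmd⟩ := lie_dec hm
    have hmJ := lie_JT hm
    -- modulo the square of the ideal
    have h1 : m - (a + b) ∈ (JT p) ^ 2 := by
      have r0 := rest1 (p := p) haJ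
      have r1 := rest1 (p := p) hbJ
      have r2 := rest1 (p := p) hmJ
      have h2 : m - (a + b) = (ex p a - 1) * (ex p b - 1) + (ex p a - 1 - a) + (ex p b - 1 - b) -
          (ex p m - 1 - m) + (ex p m - ex p a * ex p b) := by
        noncomm_ring
      rw [h2, ← hm']
      refine ((JT p) ^ 2).add_mem (((JT p) ^ 2).sub_mem (((JT p) ^ 2).add_mem
        (((JT p) ^ 2).add_mem (sq_mem (ex_sub_one haJ) (ex_sub_one hbJ)) r0) r1) ?_) ?_
      · rw [hm']
        exact r2
      · rw [sub_self]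
        exact ((JT p) ^ 2).zero_mem
    have h3 : (i - 1) • a + (j - 1) • b ∈ (JT p) ^ 2 := by
      have h4 : (i - 1) • a + (j - 1) • b = (m - (a + b)) - w := by
        rw [hmd, sub_smul, sub_smul, one_smul, one_smul]
        abel
      rw [h4]
      exact ((JT p) ^ 2).sub_mem h1 (WW_sq hw)
    obtain ⟨hi, hj⟩ := coef h3
    have e1 : i • a = a := by
      have := int_smul_zero (p := p) hi a
      rwa [sub_smul, one_smul, sub_eq_zero] at this
    have e2 : j • b = b := by
      have := int_smul_zero (p := p) hj b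
      rwa [sub_smul, one_smul, sub_eq_zero] at this
    refine ⟨φ w, hWN M N huM hvM hMN hNM w hw, ?_⟩
    have h5 := congrArg φ hm'
    rw [map_mul, hex, hex, hex, hmd] at h5
    rw [e1, e2] at h5
    rw [map_add, map_add, hφa, hφb] at h5
    exact h5
  · obtain ⟨m, hm, hm'⟩ := U2 (sl p 0 * sl p 1 * (sl p 0)⁻¹ * (sl p 1)⁻¹)
      (mul_mem (mul_mem (mul_mem (sl_mem 0) (sl_mem 1)) (inv_mem (sl_mem 0))) (inv_mem (sl_mem 1)))
    obtain ⟨i, j, w, hw, hmd⟩ := lie_dec hm
    have hmJ := lie_JT hm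
    have h0a : ((sl p 0 : (T p)ˣ) : T p) - 1 ∈ JT p := by
      rw [sl_val]
      exact ex_sub_one haJ
    have h0b : ((sl p 1 : (T p)ˣ) : T p) - 1 ∈ JT p := by
      rw [sl_val]
      exact ex_sub_one hbJ
    have h0 : ((sl p 0 * sl p 1 * (sl p 0)⁻¹ * (sl p 1)⁻¹ : (T p)ˣ) : T p) - 1 ∈ (JT p) ^ 2 :=
      comm_sq (J := JT p) (sl p 0) (sl p 1) h0a h0b
    have h1 : m ∈ (JT p) ^ 2 := by
      have r2 := rest1 (p := p) hmJ
      rw [hm'] at h0
      have h2 : m = (ex p m - 1) - (ex p m - 1 - m) := by abel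
      rw [h2]
      exact ((JT p) ^ 2).sub_mem h0 r2
    have h3 : i • a + j • b ∈ (JT p) ^ 2 := by
      have h4 : i • a + j • b = m - w := by
        rw [hmd]
        abel
      rw [h4]
      exact ((JT p) ^ 2).sub_mem h1 (WW_sq hw)
    obtain ⟨hi, hj⟩ := coef h3
    have e1 : i • a = 0 := int_smul_zero (p := p) hi a
    have e2 : j • b = 0 := int_smul_zero (p := p) hj b
    have e3 : m = w := by
      have h5 := hmd
      rw [e1, e2, zero_add, zero_add] at h5
      exact h5
    refine ⟨φ w, hWN M N huM hvM hMN hNM w hw, ?_⟩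
    rw [← e3, ← hex, ← hm', ← hΦv, map_mul, map_mul, map_mul, map_inv, map_inv, hΦ0, hΦ1]

end Pool.Agent.PX
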