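import Mathlib

/-!
# Definitions for the theorem PX (MP_2b9f9a): `G^(N) <= G^p`.
-/

set_option autoImplicit false

namespace Pool.Agent.PX

open Finset

/-- Truncated exponential `sum_{k<p} a^k / k!`. -/
def ex (p : ℕ) {A : Type} [Ring A] [Algebra (ZMod p) A] (a : A) : A :=
  ∑ k ∈ range p, ((k.factorial : ZMod p)⁻¹) • a ^ k

/-- `Br X k u`: `u` is a sum of Lie brackets of length `k` in elements of `X`. -/
inductive Br {A : Type} [Ring A] (X : Set A) : ℕ → A → Prop
  | base {x : A} (hx : x ∈ X) : Br X 1 x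
  | zero (k : ℕ) (hk : 1 ≤ k) : Br X k 0
  | add {k : ℕ} {u v : A} : Br X k u → Br X k v → Br X k (u + v)
  | neg {k : ℕ} {u : A} : Br X k u → Br X k (-u)
  | brk {i j : ℕ} {u v : A} : Br X i u → Br X j v → Br X (i + j) (u * v - v * u)

/-- The Lie ring generated by `X` in an associative ring. -/
def lieM {A : Type} [Ring A] (X : Set A) : AddSubgroup A :=
  AddSubgroup.closure {u | ∃ k, Br X k u}

/-- Logarithms of the elements of a subgroup of the units. -/
def lg (p : ℕ) {A : Type} [Ring A] [Algebra (ZMod p) A] (J : Ideal A) (S : Subgroup Aˣ) : Set A :=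
  {u | u ∈ J ∧ ∃ s ∈ S, (s : A) = ex p u}

/-- Derived series of an additive subgroup of a Lie ring. -/
def dsr {L : Type} [LieRing L] (K : AddSubgroup L) : ℕ → AddSubgroup L
  | 0 => K
  | k + 1 => AddSubgroup.closure {z | ∃ u ∈ dsr K k, ∃ v ∈ dsr K k, ⁅u, v⁆ = z}

/-- Derived series of an additive subgroup of an associative ring, for the commutator. -/
def dsa {A : Type} [Ring A] (K : AddSubgroup A) : ℕ → AddSubgroup A
  | 0 => K
  | k + 1 => AddSubgroup.closure {z | ∃ u ∈ dsa K k, ∃ v ∈ dsa K k, u * v - v * u = z}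

/-- Derived series of a subgroup, inside the big group. -/
def dsg {G : Type} [Group G] (S : Subgroup G) : ℕ → Subgroup G
  | 0 => S
  | k + 1 => ⁅dsg S k, dsg S k⁆

/-- Lower central series, `lc P 1 = P`, `lc P (w+1) = [lc P w, P]`. -/
def lc (P : Type) [Group P] : ℕ → Subgroup P
  | 0 => ⊤
  | 1 => ⊤
  | w + 2 => ⁅lc P (w + 1), (⊤ : Subgroup P)⁆

/-- The situation of Q1 for subgroups `F`, `H` of a group `Γ` acting on `P`. -/
structure Fro {Γ : Type} [Group Γ] (P : Type) [Group P] [MulDistribMulAction Γ P]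
    (F H : Subgroup Γ) : Prop where
  norm : ∀ x ∈ H, ∀ y ∈ F, x * y * x⁻¹ ∈ F
  fne : F ≠ ⊥
  hne : H ≠ ⊥
  free : ∀ x ∈ H, x ≠ 1 → ∀ y ∈ F, x * y = y * x → y = 1
  fpf : ∀ y ∈ F, y ≠ 1 → ∀ g : P, y • g = g → g = 1

/-- Iterated bracket `[..[[a, x1], x2], .., xn]`. -/
def itb {L : Type} [LieRing L] (a : L) (l : List L) : L := l.foldl (fun a x => ⁅a, x⁆) a

/-- Iterated associative commutator. -/
def ita {A : Type} [Ring A] (a : A) (l : List A) : A := l.foldl (fun a x => a * x - x * a) a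

/-- The group algebra over `F_p`. -/
abbrev GA (p : ℕ) (P : Type) [Group P] := MonoidAlgebra (ZMod p) P

/-- The group inside the group algebra. -/
noncomputable def io (p : ℕ) {P : Type} [Group P] : P →* GA p P := MonoidAlgebra.of (ZMod p) P

/-- Augmentation. -/
noncomputable def aug (p : ℕ) (P : Type) [Group P] : GA p P →ₐ[ZMod p] ZMod p :=
  MonoidAlgebra.lift (ZMod p) (ZMod p) P (1 : P →* ZMod p)

/-- Augmentation ideal. -/
noncomputable def Dl (p : ℕ) (P : Type) [Group P] : Ideal (GA p P) := RingHom.ker (aug p P)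

instance (p : ℕ) (P : Type) [Group P] : (Dl p P).IsTwoSided := by
  unfold Dl; infer_instance

/-- Dimension subgroups `P cap (1 + Dl^n)`. -/
def Dn (p : ℕ) (P : Type) [Group P] (n : ℕ) : Subgroup P where
  carrier := {g | io p g - 1 ∈ Dl p P ^ n}
  one_mem' := by
    change io p 1 - 1 ∈ Dl p P ^ n
    rw [map_one, sub_self]; exact Submodule.zero_mem _
  mul_mem' := by
    intro a b ha hb
    change io p (a * b) - 1 ∈ Dl p P ^ n
    have : io p (a * b) - 1 = (io p a - 1) * io p b + (io p b - 1) := by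
      rw [map_mul]; noncomm_ring
    rw [this]
    exact (Dl p P ^ n).add_mem (Ideal.mul_mem_right _ _ ha) hb
  inv_mem' := by
    intro a ha
    change io p (a⁻¹) - 1 ∈ Dl p P ^ n
    have h1 : io p (a⁻¹) * io p a = 1 := by
      rw [← map_mul, inv_mul_cancel, map_one]
    have : io p (a⁻¹) - 1 = - (io p (a⁻¹) * (io p a - 1)) := by
      rw [mul_sub, h1]; noncomm_ring
    rw [this]
    exact (Dl p P ^ n).neg_mem (Ideal.mul_mem_left _ _ ha)

theorem mem_Dn {p : ℕ} {P : Type} [Group P] {n : ℕ} {g : P} :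
    g ∈ Dn p P n ↔ io p g - 1 ∈ Dl p P ^ n := Iff.rfl

/-- A subgroup that is stable under the action, with the restricted action. -/
@[reducible] def subAct {Γ P : Type} [Group Γ] [Group P] [MulDistribMulAction Γ P] (Q : Subgroup P)
    (hQ : ∀ (γ : Γ), ∀ g ∈ Q, γ • g ∈ Q) : MulDistribMulAction Γ Q where
  smul γ g := ⟨γ • (g : P), hQ γ g g.2⟩
  one_smul g := Subtype.ext (one_smul Γ (g : P))
  mul_smul γ δ g := Subtype.ext (mul_smul γ δ (g : P))
  smul_mul γ a b := Subtype.ext (smul_mul' γ (a : P) (b : P))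
  smul_one γ := Subtype.ext (smul_one γ)

/-- The automorphism of the group algebra induced by `γ`. -/
noncomputable def gact (p : ℕ) {Γ P : Type} [Group Γ] [Group P] [MulDistribMulAction Γ P] (γ : Γ) :
    GA p P →ₐ[ZMod p] GA p P :=
  MonoidAlgebra.lift (ZMod p) (GA p P) P ((io p).comp (MulDistribMulAction.toMonoidHom P γ))

end Pool.Agent.PX
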