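import Pool.Agent.Lib.MP_2b9f9a_al.PX.GA31

set_option autoImplicit false
set_option linter.unusedSectionVars false

namespace Pool.Agent.PX

open Finset GA31

namespace EngA31

/-! ## Inclusion and exclusion -/

theorem incl_excl (n : ℕ) (B : Finset (Fin n)) :
    ∑ S : Finset (Fin n), (if B ⊆ S then (-1 : ℤ) ^ (n - S.card) else 0) =
      if B = univ then 1 else 0 := by
  have h1 : ∑ S : Finset (Fin n), (if B ⊆ S then (-1 : ℤ) ^ (n - S.card) else 0) =
      ∑ T : Finset (Fin n), (if B ⊆ Tᶜ then (-1 : ℤ) ^ (n - (Tᶜ).card) else 0) :=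
    (Equiv.sum_comp (Function.Involutive.toPerm (fun T : Finset (Fin n) => Tᶜ) compl_involutive)
      (fun S => if B ⊆ S then (-1 : ℤ) ^ (n - S.card) else 0)).symm
  have h2 : ∀ T : Finset (Fin n), (if B ⊆ Tᶜ then (-1 : ℤ) ^ (n - (Tᶜ).card) else 0) =
      if T ∈ (Bᶜ).powerset then (-1 : ℤ) ^ T.card else 0 := by
    intro T
    have e1 : n - (Tᶜ).card = T.card := by
      have h3 := card_le_univ T
      rw [card_compl, Fintype.card_fin]
      rw [Fintype.card_fin] at h3
      omega
    have e2 : (B ⊆ Tᶜ) ↔ T ∈ (Bᶜ).powerset := by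
      rw [mem_powerset]
      constructor
      · intro h a ha
        rw [mem_compl]
        exact fun hB => (mem_compl.1 (h hB)) ha
      · intro h a ha
        rw [mem_compl]
        exact fun hT => (mem_compl.1 (h hT)) ha
    rw [e1]
    simp only [e2]
  rw [h1, sum_congr rfl fun T _ => h2 T, ← sum_filter, filter_mem_eq_inter, univ_inter,
    sum_powerset_neg_one_pow_card]
  simp only [compl_eq_empty_iff]

/-- The alternating sum. -/
def La {A : Type} [AddCommGroup A] {n : ℕ} (Φ : Finset (Fin n) → A) : A :=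
  ∑ S : Finset (Fin n), (-1 : ℤ) ^ (n - S.card) • Φ S

theorem La_sub {A : Type} [AddCommGroup A] {n : ℕ} (Φ Ψ : Finset (Fin n) → A) :
    La (Φ - Ψ) = La Φ - La Ψ := by
  simp only [La, Pi.sub_apply, smul_sub, sum_sub_distrib]

theorem La_sum {A : Type} [AddCommGroup A] {n : ℕ} (Φ φ : Finset (Fin n) → A)
    (h : ∀ S, Φ S = ∑ R ∈ S.powerset, φ R) : La Φ = φ univ := by
  unfold La
  have h1 : ∀ S : Finset (Fin n), (-1 : ℤ) ^ (n - S.card) • Φ S =
      ∑ R : Finset (Fin n), (if R ⊆ S then (-1 : ℤ) ^ (n - S.card) else 0) • φ R := by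
    intro S
    rw [h S, smul_sum]
    have : S.powerset = univ.filter (fun R => R ⊆ S) := by
      ext R
      simp
    rw [this, sum_filter]
    refine sum_congr rfl fun R _ => ?_
    split_ifs <;> simp
  rw [sum_congr rfl fun S _ => h1 S, sum_comm]
  have h2 : ∀ R : Finset (Fin n), ∑ S : Finset (Fin n),
      (if R ⊆ S then (-1 : ℤ) ^ (n - S.card) else 0) • φ R =
      (if R = univ then (1 : ℤ) else 0) • φ R := by
    intro R
    rw [← sum_smul, incl_excl]
  rw [sum_congr rfl fun R _ => h2 R, sum_eq_single univ]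
  · simp
  · intro R _ hR
    rw [if_neg hR, zero_smul]
  · intro h
    exact absurd (mem_univ _) h

/-- Polarization. -/
theorem pol {R A B : Type} [CommRing R] [AddCommGroup A] [Module R A] [AddCommGroup B]
    [Module R B] {n : ℕ} (M : MultilinearMap R (fun _ : Fin n => A) B) (x : Fin n → A) :
    ∑ σ : Equiv.Perm (Fin n), M (fun k => x (σ k)) =
      La (fun S : Finset (Fin n) => M (fun _ => ∑ j ∈ S, x j)) := by
  unfold La
  have h1 : ∀ S : Finset (Fin n), (-1 : ℤ) ^ (n - S.card) • M (fun _ => ∑ j ∈ S, x j) =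
      ∑ f : Fin n → Fin n, (if univ.image f ⊆ S then (-1 : ℤ) ^ (n - S.card) else 0) •
        M (fun k => x (f k)) := by
    intro S
    rw [MultilinearMap.map_sum_finset M (fun _ j => x j) (fun _ => S), smul_sum]
    have : (Fintype.piFinset fun _ : Fin n => S) = univ.filter (fun f => univ.image f ⊆ S) := by
      ext f
      simp [Fintype.mem_piFinset, image_subset_iff]
    rw [this, sum_filter]
    refine sum_congr rfl fun f _ => ?_
    split_ifs <;> simp
  rw [sum_congr rfl fun S _ => h1 S, sum_comm]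
  have h2 : ∀ f : Fin n → Fin n, ∑ S : Finset (Fin n),
      (if univ.image f ⊆ S then (-1 : ℤ) ^ (n - S.card) else 0) • M (fun k => x (f k)) =
      if Function.Surjective f then M (fun k => x (f k)) else 0 := by
    intro f
    rw [← sum_smul, incl_excl]
    have : (univ.image f = univ) ↔ Function.Surjective f := by
      rw [eq_univ_iff_forall]
      simp [Function.Surjective]
    simp only [this]
    split_ifs <;> simp
  rw [sum_congr rfl fun f _ => h2 f, ← sum_filter]
  refine sum_nbij (fun σ => (σ : Fin n → Fin n)) ?_ ?_ ?_ ?_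
  · intro σ _
    simp [σ.surjective]
  · intro σ _ τ _ h
    exact DFunLike.coe_injective h
  · intro f hf
    have hf' : Function.Surjective f := by simpa using hf
    refine ⟨Equiv.ofBijective f ⟨Finite.injective_iff_surjective.2 hf', hf'⟩, ?_, ?_⟩
    · simp
    · rfl
  · intro σ _
    rfl

/-! ## The iterated commutator as a multilinear map -/

section ita

variable {p : ℕ} {A : Type} [Ring A] [Algebra (ZMod p) A]

/-- `a ↦ a x - x a`, linear in `x`. -/
noncomputable def adl : A →ₗ[ZMod p] (Module.End (ZMod p) A)ᵐᵒᵖ where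
  toFun x := MulOpposite.op (LinearMap.mulRight (ZMod p) x - LinearMap.mulLeft (ZMod p) x)
  map_add' x y := by
    rw [← MulOpposite.op_add]
    congr 1
    ext a
    simp only [LinearMap.sub_apply, LinearMap.add_apply, LinearMap.mulRight_apply,
      LinearMap.mulLeft_apply, mul_add, add_mul]
    abel
  map_smul' c x := by
    rw [RingHom.id_apply, ← MulOpposite.op_smul]
    congr 1
    ext a
    simp only [LinearMap.sub_apply, LinearMap.smul_apply, LinearMap.mulRight_apply,
      LinearMap.mulLeft_apply, mul_smul_comm, smul_mul_assoc, smul_sub]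

theorem ita_eq (l : List A) : ∀ a : A,
    ita a l = (MulOpposite.unop ((l.map (adl (p := p))).prod)) a := by
  induction l with
  | nil => intro a; simp [ita]
  | cons x l ih =>
    intro a
    have : ita a (x :: l) = ita (a * x - x * a) l := rfl
    rw [this, ih, List.map_cons, List.prod_cons, MulOpposite.unop_mul, Module.End.mul_apply]
    rfl

/-- The iterated commutator. -/
noncomputable def itm (n : ℕ) (a : A) : MultilinearMap (ZMod p) (fun _ : Fin n => A) A :=
  ((LinearMap.applyₗ a).comp
    (MulOpposite.opLinearEquiv (ZMod p) (M := Module.End (ZMod p) A)).symm.toLinearMap).compMultilinearMap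
    ((MultilinearMap.mkPiAlgebraFin (ZMod p) n (Module.End (ZMod p) A)ᵐᵒᵖ).compLinearMap
      (fun _ => adl))

theorem itm_apply (n : ℕ) (a : A) (x : Fin n → A) :
    itm (p := p) n a x = ita a (List.ofFn x) := by
  rw [ita_eq (p := p)]
  simp only [itm, LinearMap.compMultilinearMap_apply, MultilinearMap.compLinearMap_apply,
    MultilinearMap.mkPiAlgebraFin_apply, LinearMap.comp_apply, LinearMap.applyₗ_apply_apply,
    List.map_ofFn]
  rfl

theorem choose_one (hp : p.Prime) (k : ℕ) : k ≤ p - 1 →
    ((-1 : ℤ) ^ k * ((p - 1).choose k : ℤ) : ZMod p) = 1 := by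
  have := Fact.mk hp
  induction k with
  | zero => intro _; simp
  | succ k ih =>
    intro hk
    have h1 := ih (by omega)
    have h2 : p.choose (k + 1) = (p - 1).choose k + (p - 1).choose (k + 1) := by
      conv_lhs => rw [show p = (p - 1) + 1 by have := hp.two_le; omega]
      rw [Nat.choose_succ_succ]
    have h3 : ((p.choose (k + 1) : ℕ) : ZMod p) = 0 := by
      rw [ZMod.natCast_eq_zero_iff]
      exact hp.dvd_choose_self (by omega) (by have := hp.two_le; omega)
    rw [h2] at h3
    push_cast at h1 h3 ⊢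
    rw [pow_succ]
    linear_combination h1 - (-1 : ZMod p) ^ k * h3

/-- `(ad x) ^ (p - 1)` in characteristic `p`. -/
theorem ita_replicate (hp : p.Prime) (x y : A) :
    ita y (List.replicate (p - 1) x) = ∑ k ∈ range p, x ^ k * y * x ^ (p - 1 - k) := by
  have := Fact.mk hp
  set n := p - 1 with hn
  have hpn : p = n + 1 := by have := hp.two_le; omega
  have h1 : ∀ m : ℕ, ∀ a : A, ita a (List.replicate m x) =
      ((LinearMap.mulRight (ZMod p) x - LinearMap.mulLeft (ZMod p) x) ^ m) a := by
    intro m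
    induction m with
    | zero => intro a; simp [ita]
    | succ m ih =>
      intro a
      have : ita a (List.replicate (m + 1) x) = ita (a * x - x * a) (List.replicate m x) := rfl
      rw [this, ih, pow_succ, Module.End.mul_apply]
      rfl
  have hc : Commute (-LinearMap.mulLeft (ZMod p) x) (LinearMap.mulRight (ZMod p) x) :=
    (LinearMap.commute_mulLeft_right (R := ZMod p) x x).neg_left
  rw [h1, sub_eq_add_neg, add_comm (LinearMap.mulRight (ZMod p) x), hc.add_pow,
    LinearMap.sum_apply, show range p = range (n + 1) from congrArg range hpn]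
  refine sum_congr rfl fun k hk => ?_
  have hk' : k ≤ n := by have := mem_range.1 hk; omega
  have e1 : (-LinearMap.mulLeft (ZMod p) x) ^ k =
      ((-1 : ℤ) ^ k) • LinearMap.mulLeft (ZMod p) (x ^ k) := by
    rw [← LinearMap.pow_mulLeft, neg_pow (LinearMap.mulLeft (ZMod p) x) k, zsmul_eq_mul]
    push_cast
    rfl
  rw [e1, LinearMap.pow_mulRight]
  have e2 : ((((-1 : ℤ) ^ k) • LinearMap.mulLeft (ZMod p) (x ^ k)) *
      LinearMap.mulRight (ZMod p) (x ^ (n - k)) * ((n.choose k : ℕ) : Module.End (ZMod p) A)) y =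
      ((-1 : ℤ) ^ k * ((n.choose k : ℕ) : ℤ)) • (x ^ k * (y * x ^ (n - k))) := by
    rw [Module.End.mul_apply, Module.End.mul_apply, LinearMap.smul_apply,
      LinearMap.mulLeft_apply, LinearMap.mulRight_apply, mul_smul]
    congr 1
    rw [natCast_zsmul, Module.End.natCast_apply, smul_mul_assoc, mul_smul_comm]
  rw [e2, mul_assoc]
  have h3 := choose_one hp k (by rw [← hn]; exact hk')
  rw [← hn] at h3
  have h4 : ∀ z : A, ((-1 : ℤ) ^ k * ((n.choose k : ℕ) : ℤ)) • z = z := by
    intro z
    rw [← Int.cast_smul_eq_zsmul (ZMod p)]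
    push_cast
    push_cast at h3
    rw [h3, one_smul]
  exact h4 _

end ita

/-! ## Functions of sets with a weight -/

section CC

variable {A : Type} [Ring A] (I : Ideal A) [I.IsTwoSided] {n : ℕ}

/-- `Φ` is a sum over subsets with coefficients in powers of `I`. -/
def CC (i a m : ℕ) (Φ : Finset (Fin n) → A) : Prop :=
  ∃ φ : Finset (Fin n) → A, (∀ R, φ R ∈ I ^ (a + i * max R.card m)) ∧
    ∀ S, Φ S = ∑ R ∈ S.powerset, φ R

variable {I} {i a b m m' : ℕ} {Φ Ψ : Finset (Fin n) → A}

theorem CC.add (h : CC I i a m Φ) (h' : CC I i a m Ψ) : CC I i a m (Φ + Ψ) := by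
  obtain ⟨φ, h1, h2⟩ := h
  obtain ⟨ψ, h3, h4⟩ := h'
  refine ⟨φ + ψ, fun R => Ideal.add_mem _ (h1 R) (h3 R), fun S => ?_⟩
  rw [Pi.add_apply, h2, h4, ← sum_add_distrib]
  rfl

theorem CC.neg (h : CC I i a m Φ) : CC I i a m (-Φ) := by
  obtain ⟨φ, h1, h2⟩ := h
  refine ⟨-φ, fun R => (I ^ _).neg_mem (h1 R), fun S => ?_⟩
  rw [Pi.neg_apply, h2, ← sum_neg_distrib]
  rfl

theorem CC.sub (h : CC I i a m Φ) (h' : CC I i a m Ψ) : CC I i a m (Φ - Ψ) := by
  rw [sub_eq_add_neg]
  exact h.add h'.neg

theorem CC.zero : CC I i a m (0 : Finset (Fin n) → A) :=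
  ⟨0, fun R => Submodule.zero_mem _, fun S => by simp⟩

theorem CC.sum {ι : Type} (s : Finset ι) (F : ι → Finset (Fin n) → A)
    (h : ∀ k ∈ s, CC I i a m (F k)) : CC I i a m (∑ k ∈ s, F k) := by
  classical
  induction s using Finset.induction_on with
  | empty => rw [sum_empty]; exact CC.zero
  | insert k s hk ih =>
    rw [sum_insert hk]
    exact (h k (mem_insert_self k s)).add (ih fun j hj => h j (mem_insert_of_mem hj))

theorem CC.mono (h : CC I i a m Φ) (hb : b ≤ a) (hm : m' ≤ m) : CC I i b m' Φ := by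
  obtain ⟨φ, h1, h2⟩ := h
  refine ⟨φ, fun R => Ideal.pow_le_pow_right ?_ (h1 R), h2⟩
  have : max R.card m' ≤ max R.card m := max_le_max le_rfl hm
  have := Nat.mul_le_mul_left i this
  omega

theorem CC.const {y : A} (hy : y ∈ I ^ a) : CC I i a 0 (fun _ : Finset (Fin n) => y) := by
  refine ⟨fun R => if R = ∅ then y else 0, fun R => ?_, fun S => ?_⟩
  · by_cases hR : R = ∅
    · subst hR
      simpa using hy
    · have : (if R = ∅ then y else 0) = 0 := if_neg hR
      simp only [this]
      exact Submodule.zero_mem _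
  · rw [sum_ite_eq' S.powerset ∅ (fun _ => y), if_pos (empty_mem_powerset S)]

theorem CC.mul (h : CC I i a m Φ) (h' : CC I i b m' Ψ) : CC I i (a + b) (m + m') (Φ * Ψ) := by
  obtain ⟨φ, h1, h2⟩ := h
  obtain ⟨ψ, h3, h4⟩ := h'
  refine ⟨fun R => ∑ x ∈ (univ : Finset (Finset (Fin n) × Finset (Fin n))).filter
    (fun x => x.1 ∪ x.2 = R), φ x.1 * ψ x.2, fun R => ?_, fun S => ?_⟩
  · refine Ideal.sum_mem _ fun x hx => ?_
    have hxR : x.1 ∪ x.2 = R := (mem_filter.1 hx).2
    have h5 : φ x.1 * ψ x.2 ∈ I ^ ((a + i * max x.1.card m) + (b + i * max x.2.card m')) := by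
      rw [Ideal.IsTwoSided.pow_add]
      exact Ideal.mul_mem_mul (h1 _) (h3 _)
    refine Ideal.pow_le_pow_right ?_ h5
    have h6 : R.card ≤ x.1.card + x.2.card := by
      rw [← hxR]; exact card_union_le _ _
    have h7 : max R.card (m + m') ≤ max x.1.card m + max x.2.card m' := by
      refine max_le ?_ ?_
      · have := le_max_left x.1.card m
        have := le_max_left x.2.card m'
        omega
      · have := le_max_right x.1.card m
        have := le_max_right x.2.card m'
        omega
    have h8 := Nat.mul_le_mul_left i h7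
    rw [Nat.mul_add] at h8
    omega
  · rw [Pi.mul_apply, h2, h4, sum_mul_sum, ← sum_product']
    rw [← sum_fiberwise_of_maps_to (s := S.powerset ×ˢ S.powerset) (t := S.powerset)
      (g := fun x => x.1 ∪ x.2)]
    · refine sum_congr rfl fun R hR => ?_
      refine sum_congr ?_ fun _ _ => rfl
      ext x
      simp only [mem_filter, mem_product, mem_powerset, mem_univ, true_and]
      constructor
      · exact fun h => h.2
      · intro h
        have hR' := mem_powerset.1 hR
        refine ⟨⟨?_, ?_⟩, h⟩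
        · exact subset_union_left.trans (h.le.trans hR')
        · exact subset_union_right.trans (h.le.trans hR')
    · intro x hx
      rw [mem_product, mem_powerset, mem_powerset] at hx
      exact mem_powerset.2 (union_subset hx.1 hx.2)

theorem CC.one : CC I i 0 0 (1 : Finset (Fin n) → A) := by
  have : (1 : A) ∈ I ^ 0 := by
    rw [Submodule.pow_zero, Ideal.one_eq_top]; trivial
  exact CC.const this

theorem CC.pow (h : CC I i 0 1 Φ) (k : ℕ) : CC I i 0 k (Φ ^ k) := by
  induction k with
  | zero => rw [pow_zero]; exact CC.one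
  | succ k ih => rw [pow_succ]; exact ih.mul h

theorem CC.la (h : CC I i a m Φ) : La Φ ∈ I ^ (a + i * max n m) := by
  obtain ⟨φ, h1, h2⟩ := h
  rw [La_sum Φ φ h2]
  have := h1 univ
  rwa [card_univ, Fintype.card_fin] at this

/-- Powers of close functions. -/
theorem CC.pow_sub (h : CC I i 0 1 Φ) (h' : CC I i 0 1 Ψ) (hd : CC I i 0 2 (Φ - Ψ)) (k : ℕ) :
    CC I i 0 (k + 1) (Φ ^ k - Ψ ^ k) := by
  induction k with
  | zero => rw [pow_zero, pow_zero, sub_self]; exact CC.zero
  | succ k ih =>
    have e : Φ ^ (k + 1) - Ψ ^ (k + 1) = (Φ ^ k - Ψ ^ k) * Φ + Ψ ^ k * (Φ - Ψ) := by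
      rw [pow_succ, pow_succ]
      noncomm_ring
    rw [e]
    exact (ih.mul h).add ((h'.pow k).mul hd)

/-- Expansion of a power up to terms of second order. -/
theorem CC.expand {X D : Finset (Fin n) → A} (hX : CC I i 0 1 X) (hD : CC I i a 0 D) (k : ℕ) :
    CC I i (2 * a) 0 ((X + D) ^ k - X ^ k - ∑ j ∈ range k, X ^ j * D * X ^ (k - 1 - j)) := by
  induction k with
  | zero => simp only [pow_zero, range_zero, sum_empty, sub_self]; exact CC.zero
  | succ k ih =>
    have hX0 : CC I i 0 0 X := hX.mono le_rfl (by omega)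
    have hXD : CC I i 0 0 (X + D) := hX0.add (hD.mono (by omega) le_rfl)
    have e1 : ∑ j ∈ range (k + 1), X ^ j * D * X ^ (k + 1 - 1 - j) =
        (∑ j ∈ range k, X ^ j * D * X ^ (k - 1 - j)) * X + X ^ k * D := by
      rw [sum_range_succ, sum_mul]
      congr 1
      · refine sum_congr rfl fun j hj => ?_
        have hj' := mem_range.1 hj
        rw [mul_assoc (X ^ j * D), ← pow_succ]
        congr 2
        omega
      · rw [Nat.add_sub_cancel, Nat.sub_self, pow_zero, mul_one]
    have e2 : (X + D) ^ (k + 1) - X ^ (k + 1) -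
        ∑ j ∈ range (k + 1), X ^ j * D * X ^ (k + 1 - 1 - j) =
        ((X + D) ^ k - X ^ k - ∑ j ∈ range k, X ^ j * D * X ^ (k - 1 - j)) * (X + D) +
          (∑ j ∈ range k, X ^ j * D * X ^ (k - 1 - j)) * D := by
      rw [e1, pow_succ, pow_succ]
      noncomm_ring
    rw [e2]
    refine CC.add ?_ ?_
    · have := ih.mul hXD
      exact this.mono (by omega) (by omega)
    · have h1 : CC I i a 0 (∑ j ∈ range k, X ^ j * D * X ^ (k - 1 - j)) := by
        refine CC.sum _ _ fun j _ => ?_
        have := ((hX.pow j).mul hD).mul (hX.pow (k - 1 - j))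
        exact this.mono (by omega) (by omega)
      have := h1.mul hD
      exact this.mono (by omega) (by omega)

/-! ## Ordered products -/

/-- The ordered product over a set. -/
def U {B : Type} [Monoid B] (u : Fin n → B) (R : Finset (Fin n)) : B :=
  (List.ofFn (fun j => if j ∈ R then u j else 1)).prod

theorem prod_mem {n : ℕ} (v : Fin n → A) (c : Fin n → ℕ) (h : ∀ j, v j ∈ I ^ c j) :
    (List.ofFn v).prod ∈ I ^ (∑ j, c j) := by
  induction n with
  | zero =>
    simp only [List.ofFn_zero, List.prod_nil, univ_eq_empty, sum_empty]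
    rw [Submodule.pow_zero, Ideal.one_eq_top]
    trivial
  | succ n ih =>
    rw [List.ofFn_succ, List.prod_cons, Fin.sum_univ_succ, Ideal.IsTwoSided.pow_add]
    exact Ideal.mul_mem_mul (h 0) (ih _ _ fun j => h j.succ)

theorem U_mem (u : Fin n → A) (hu : ∀ j, u j ∈ I ^ i) (R : Finset (Fin n)) :
    U u R ∈ I ^ (i * R.card) := by
  have h1 : ∑ j, (if j ∈ R then i else 0) = i * R.card := by
    rw [← sum_filter, filter_mem_eq_inter, univ_inter, sum_const, smul_eq_mul, mul_comm]
  rw [← h1]
  refine prod_mem _ _ fun j => ?_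
  split_ifs
  · exact hu j
  · rw [Submodule.pow_zero, Ideal.one_eq_top]
    trivial

theorem U_single {B : Type} [Monoid B] {n : ℕ} (j : Fin n) (u : Fin n → B) :
    U u {j} = u j := by
  unfold U
  induction n with
  | zero => exact j.elim0
  | succ n ih =>
    rw [List.ofFn_succ, List.prod_cons]
    refine Fin.cases ?_ (fun j => ?_) j
    · have : (fun k : Fin n => if k.succ ∈ ({0} : Finset (Fin (n + 1))) then u k.succ else 1) =
          fun _ => (1 : B) := by
        funext k
        rw [if_neg]
        simp [Fin.succ_ne_zero]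
      rw [this, List.ofFn_const, List.prod_replicate, one_pow, mul_one, if_pos (mem_singleton_self _)]
    · have h0 : (0 : Fin (n + 1)) ∉ ({j.succ} : Finset (Fin (n + 1))) := by
        rw [mem_singleton]
        exact (Fin.succ_ne_zero j).symm
      rw [if_neg h0, one_mul]
      have := ih j (fun k => u k.succ)
      simpa using this

theorem U_empty {B : Type} [Monoid B] (u : Fin n → B) : U u ∅ = 1 := by
  unfold U
  simp

theorem U_expand (u : Fin n → A) (S : Finset (Fin n)) :
    (List.ofFn (fun j => 1 + (if j ∈ S then u j else 0))).prod = ∑ R ∈ S.powerset, U u R := by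
  have h1 := (MultilinearMap.mkPiAlgebraFin ℤ n A).map_add_univ
    (fun j => if j ∈ S then u j else 0) (fun _ => 1)
  rw [MultilinearMap.mkPiAlgebraFin_apply] at h1
  have h2 : ((fun j => if j ∈ S then u j else 0) + fun _ => (1 : A)) =
      fun j => 1 + (if j ∈ S then u j else 0) := by
    funext j
    rw [Pi.add_apply, add_comm]
  rw [h2] at h1
  rw [h1]
  have h3 : S.powerset = univ.filter (fun R => R ⊆ S) := by
    ext R
    simp
  rw [h3, sum_filter]
  refine sum_congr rfl fun R _ => ?_
  split_ifs with hR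
  · rw [MultilinearMap.mkPiAlgebraFin_apply]
    unfold U
    congr 2
    funext j
    by_cases hj : j ∈ R
    · rw [piecewise_eq_of_mem _ _ _ hj, if_pos hj, if_pos (hR hj)]
    · rw [piecewise_eq_of_notMem _ _ _ hj, if_neg hj]
  · obtain ⟨j, hj, hjS⟩ := not_subset.1 hR
    refine MultilinearMap.map_coord_zero _ j ?_
    rw [piecewise_eq_of_mem _ _ _ hj, if_neg hjS]

theorem cc_X (u : Fin n → A) (hu : ∀ j, u j ∈ I ^ i) : CC I i 0 1
    (fun S : Finset (Fin n) => (List.ofFn (fun j => 1 + (if j ∈ S then u j else 0))).prod - 1) := by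
  refine ⟨fun R => if R = ∅ then 0 else U u R, fun R => ?_, fun S => ?_⟩
  · by_cases hR : R = ∅
    · simp only [hR, if_true]
      exact Submodule.zero_mem _
    · simp only [hR, if_false]
      have : max R.card 1 = R.card := max_eq_left (Nat.one_le_iff_ne_zero.2 (card_ne_zero.2
        (nonempty_iff_ne_empty.2 hR)))
      rw [this, zero_add]
      exact U_mem u hu R
  · change (List.ofFn (fun j => 1 + (if j ∈ S then u j else 0))).prod - 1 =
      ∑ R ∈ S.powerset, if R = ∅ then 0 else U u R
    rw [U_expand]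
    have h1 : ∀ R ∈ S.powerset, U u R = (if R = ∅ then 1 else 0) + (if R = ∅ then 0 else U u R) := by
      intro R _
      split_ifs with h
      · rw [h, U_empty, add_zero]
      · rw [zero_add]
    rw [sum_congr rfl h1, sum_add_distrib, sum_ite_eq' S.powerset ∅ (fun _ => (1 : A)),
      if_pos (empty_mem_powerset S), add_sub_cancel_left]

theorem sum_card_one (u : Fin n → A) (S : Finset (Fin n)) :
    ∑ R ∈ S.powerset, (if R.card = 1 then U u R else 0) = ∑ j ∈ S, u j := by
  rw [← sum_filter]
  have : S.powerset.filter (fun R => R.card = 1) = powersetCard 1 S := by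
    ext R
    rw [mem_filter, mem_powerset, mem_powersetCard]
  rw [this, powersetCard_one, sum_map]
  refine sum_congr rfl fun j _ => ?_
  exact U_single j u

theorem cc_V (u : Fin n → A) (hu : ∀ j, u j ∈ I ^ i) :
    CC I i 0 1 (fun S : Finset (Fin n) => ∑ j ∈ S, u j) := by
  refine ⟨fun R => if R.card = 1 then U u R else 0, fun R => ?_, fun S => (sum_card_one u S).symm⟩
  by_cases hR : R.card = 1
  · simp only [hR, if_true, max_self, zero_add]
    have := U_mem u hu R
    rwa [hR] at this
  · simp only [hR, if_false]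
    exact Submodule.zero_mem _

theorem cc_XV (u : Fin n → A) (hu : ∀ j, u j ∈ I ^ i) : CC I i 0 2
    ((fun S : Finset (Fin n) => (List.ofFn (fun j => 1 + (if j ∈ S then u j else 0))).prod - 1) -
      (fun S : Finset (Fin n) => ∑ j ∈ S, u j)) := by
  refine ⟨fun R => if 2 ≤ R.card then U u R else 0, fun R => ?_, fun S => ?_⟩
  · by_cases hR : 2 ≤ R.card
    · simp only [hR, if_true, max_eq_left, zero_add]
      exact U_mem u hu R
    · simp only [hR, if_false]
      exact Submodule.zero_mem _
  · rw [Pi.sub_apply, U_expand, ← sum_card_one u S]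
    have h1 : ∀ R ∈ S.powerset, U u R = (if R = ∅ then 1 else 0) +
        ((if R.card = 1 then U u R else 0) + (if 2 ≤ R.card then U u R else 0)) := by
      intro R _
      rcases Nat.lt_or_ge R.card 1 with h | h
      · have h0 : R = ∅ := card_eq_zero.1 (by omega)
        subst h0
        simp [U_empty]
      · have h0 : R ≠ ∅ := by
          rintro rfl
          simp at h
        rw [if_neg h0, zero_add]
        rcases Nat.lt_or_ge 1 R.card with h' | h'
        · rw [if_neg (by omega), if_pos (by omega), zero_add]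
        · rw [if_pos (by omega), if_neg (by omega), add_zero]
    rw [sum_congr rfl h1, sum_add_distrib, sum_add_distrib,
      sum_ite_eq' S.powerset ∅ (fun _ => (1 : A)), if_pos (empty_mem_powerset S)]
    abel

end CC

theorem core {p : ℕ} [Fact p.Prime] {P : Type} [Group P] (h8 : ∀ g : P, (io p g - 1) ^ p = 0)
    (w i : ℕ) (hw : 1 ≤ w) (hi : 1 ≤ i) (g : P) (hg : g ∈ Dn p P w) (x : Fin (p - 1) → P)
    (hx : ∀ j, x j ∈ Dn p P i) :
    ∑ σ : Equiv.Perm (Fin (p - 1)), ita (io p g - 1) (List.ofFn (fun j => io p (x (σ j)) - 1))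
      ∈ Dl p P ^ (w + (p - 1) * i + 1) := by
  have hp : p.Prime := Fact.out
  have hp2 := hp.two_le
  set u : Fin (p - 1) → GA p P := fun j => io p (x j) - 1 with hu
  have hui : ∀ j, u j ∈ Dl p P ^ i := fun j => hx j
  set y : GA p P := io p g - 1 with hy
  have hyw : y ∈ Dl p P ^ w := hg
  set X : Finset (Fin (p - 1)) → GA p P :=
    fun S => (List.ofFn (fun j => 1 + (if j ∈ S then u j else 0))).prod - 1 with hX
  set V : Finset (Fin (p - 1)) → GA p P := fun S => ∑ j ∈ S, u j with hV
  set Y : Finset (Fin (p - 1)) → GA p P := fun _ => y with hY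
  have cX : CC (Dl p P) i 0 1 X := cc_X u hui
  have cV : CC (Dl p P) i 0 1 V := cc_V u hui
  have cXV : CC (Dl p P) i 0 2 (X - V) := cc_XV u hui
  have cY : CC (Dl p P) i w 0 Y := CC.const hyw
  have cD : CC (Dl p P) i w 0 (Y + Y * X) :=
    cY.add ((cY.mul cX).mono (by omega) (by omega))
  -- group elements
  have hXg : ∀ S, ∃ h : P, X S = io p h - 1 := by
    intro S
    refine ⟨(List.ofFn (fun j => if j ∈ S then x j else 1)).prod, ?_⟩
    rw [map_list_prod, List.map_ofFn]
    simp only [hX]
    congr 3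
    funext j
    simp only [Function.comp, hu]
    split_ifs
    · abel
    · rw [map_one, add_zero]
  have hE : (X + (Y + Y * X)) ^ p - X ^ p = 0 := by
    funext S
    obtain ⟨h, hh⟩ := hXg S
    have e1 : (X + (Y + Y * X)) S = io p (g * h) - 1 := by
      simp only [Pi.add_apply, Pi.mul_apply, hY, hh, hy, map_mul]
      noncomm_ring
    rw [Pi.sub_apply, Pi.pow_apply, Pi.pow_apply, e1, hh, h8, h8, sub_self]
    rfl
  have c1 := CC.expand cX cD p
  rw [hE, zero_sub] at c1
  have c2 : CC (Dl p P) i w p (∑ j ∈ range p, X ^ j * (Y * X) * X ^ (p - 1 - j)) := by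
    refine CC.sum _ _ fun j hj => ?_
    have hj' := mem_range.1 hj
    have := ((cX.pow j).mul (cY.mul cX)).mul (cX.pow (p - 1 - j))
    exact this.mono (by omega) (by omega)
  have c3 : CC (Dl p P) i w p (∑ j ∈ range p, X ^ j * Y * X ^ (p - 1 - j) -
      ∑ j ∈ range p, V ^ j * Y * V ^ (p - 1 - j)) := by
    rw [← sum_sub_distrib]
    refine CC.sum _ _ fun j hj => ?_
    have hj' := mem_range.1 hj
    have e : X ^ j * Y * X ^ (p - 1 - j) - V ^ j * Y * V ^ (p - 1 - j) =
        (X ^ j - V ^ j) * Y * X ^ (p - 1 - j) + V ^ j * Y * (X ^ (p - 1 - j) - V ^ (p - 1 - j)) := by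
      noncomm_ring
    rw [e]
    refine CC.add ?_ ?_
    · have := ((CC.pow_sub cX cV cXV j).mul cY).mul (cX.pow (p - 1 - j))
      exact this.mono (by omega) (by omega)
    · have := ((cV.pow j).mul cY).mul (CC.pow_sub cX cV cXV (p - 1 - j))
      exact this.mono (by omega) (by omega)
  -- the alternating sum
  have eW : ∑ j ∈ range p, V ^ j * Y * V ^ (p - 1 - j) =
      -(-∑ j ∈ range p, X ^ j * (Y + Y * X) * X ^ (p - 1 - j)) -
        (∑ j ∈ range p, X ^ j * (Y * X) * X ^ (p - 1 - j)) -
        (∑ j ∈ range p, X ^ j * Y * X ^ (p - 1 - j) -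
          ∑ j ∈ range p, V ^ j * Y * V ^ (p - 1 - j)) := by
    have : ∑ j ∈ range p, X ^ j * (Y + Y * X) * X ^ (p - 1 - j) =
        ∑ j ∈ range p, X ^ j * Y * X ^ (p - 1 - j) +
        ∑ j ∈ range p, X ^ j * (Y * X) * X ^ (p - 1 - j) := by
      rw [← sum_add_distrib]
      refine sum_congr rfl fun j _ => ?_
      rw [mul_add, add_mul]
    rw [this]
    abel
  have hLa : La (∑ j ∈ range p, V ^ j * Y * V ^ (p - 1 - j)) ∈
      Dl p P ^ (w + (p - 1) * i + 1) := by
    have m1 : La (-(-∑ j ∈ range p, X ^ j * (Y + Y * X) * X ^ (p - 1 - j))) ∈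
        Dl p P ^ (w + (p - 1) * i + 1) := by
      refine Ideal.pow_le_pow_right ?_ c1.neg.la
      rw [Nat.max_zero, mul_comm i]
      omega
    have hm : max (p - 1) p = p := max_eq_right (by omega)
    have hip : i * p = (p - 1) * i + i := by
      obtain ⟨q, hq⟩ : ∃ q, p = q + 1 := ⟨p - 1, by omega⟩
      rw [hq, Nat.add_sub_cancel]
      ring
    have m2 := c2.la
    have m3 := c3.la
    rw [hm, hip] at m2 m3
    have m2' := Ideal.pow_le_pow_right (I := Dl p P)
      (show w + (p - 1) * i + 1 ≤ w + ((p - 1) * i + i) by omega) m2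
    have m3' := Ideal.pow_le_pow_right (I := Dl p P)
      (show w + (p - 1) * i + 1 ≤ w + ((p - 1) * i + i) by omega) m3
    rw [eW, La_sub, La_sub]
    exact Ideal.sub_mem _ (Ideal.sub_mem _ m1 m2') m3'
  have hfin : ∑ σ : Equiv.Perm (Fin (p - 1)), ita y (List.ofFn (fun j => io p (x (σ j)) - 1)) =
      La (∑ j ∈ range p, V ^ j * Y * V ^ (p - 1 - j)) := by
    have h1 := pol (itm (p := p) (p - 1) y) u
    have h2 : ∀ σ : Equiv.Perm (Fin (p - 1)), itm (p := p) (p - 1) y (fun k => u (σ k)) =
        ita y (List.ofFn (fun j => io p (x (σ j)) - 1)) := fun σ => itm_apply _ _ _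
    rw [sum_congr rfl fun σ _ => h2 σ] at h1
    rw [h1]
    congr 1
    funext S
    rw [itm_apply, List.ofFn_const, ita_replicate hp, Finset.sum_apply]
    rfl
  rw [hfin]
  exact hLa

end EngA31

open EngA31

theorem stEngA_31 (hGA : StGA) : StEngA := by
  intro p _ P _ _ hexp w i hw hi g hg x hx
  refine core ?_ w i hw hi g hg x hx
  intro g
  exact (hGA p P).2.2.2.2.2.2.2 g (hexp g)

end Pool.Agent.PX
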