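import Pool.Agent.Lib.MP_2b9f9a_al.PX.Ex_28

/-!
# PX, module 4, first part: the free nilpotent algebra on two letters
-/

set_option autoImplicit false

namespace Pool.Agent.PX.BCH28

open Finset

variable (p : ℕ) [hp : Fact p.Prime]

/-- the free algebra on two letters -/
abbrev FA : Type := FreeAlgebra (ZMod p) (Fin 2)

/-- a letter -/
noncomputable abbrev le (i : Fin 2) : FA p := FreeAlgebra.ι (ZMod p) i

/-- augmentation -/
noncomputable def au : FA p →ₐ[ZMod p] ZMod p := FreeAlgebra.lift (ZMod p) (fun _ => 0)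

/-- augmentation ideal -/
noncomputable def I : Ideal (FA p) := RingHom.ker (au p)

instance : (I p).IsTwoSided := by
  unfold I
  infer_instance

variable {p}

theorem au_le (i : Fin 2) : au p (le p i) = 0 := by
  simp [au]

theorem mem_I {w : FA p} : w ∈ I p ↔ au p w = 0 := RingHom.mem_ker

theorem le_mem (i : Fin 2) : le p i ∈ I p := mem_I.2 (au_le i)

theorem sub_mem_I (w : FA p) : w - algebraMap (ZMod p) (FA p) (au p w) ∈ I p := by
  rw [mem_I, map_sub, AlgHom.commutes]
  simp

theorem decomp (w : FA p) : ∃ w₁ w₂ : FA p,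
    w = algebraMap (ZMod p) (FA p) (au p w) + le p 0 * w₁ + le p 1 * w₂ := by
  induction w using FreeAlgebra.induction with
  | grade0 r =>
    refine ⟨0, 0, ?_⟩
    simp
  | grade1 i =>
    fin_cases i
    · exact ⟨1, 0, by simp [au]⟩
    · exact ⟨0, 1, by simp [au]⟩
  | mul a b ha hb =>
    obtain ⟨a₁, a₂, ha⟩ := ha
    obtain ⟨b₁, b₂, hb⟩ := hb
    refine ⟨algebraMap (ZMod p) (FA p) (au p a) * b₁ + a₁ * b,
      algebraMap (ZMod p) (FA p) (au p a) * b₂ + a₂ * b, ?_⟩
    have c1 : le p 0 * algebraMap (ZMod p) (FA p) (au p a) =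
        algebraMap (ZMod p) (FA p) (au p a) * le p 0 := (Algebra.commutes _ _).symm
    have c2 : le p 1 * algebraMap (ZMod p) (FA p) (au p a) =
        algebraMap (ZMod p) (FA p) (au p a) * le p 1 := (Algebra.commutes _ _).symm
    rw [map_mul, map_mul]
    calc a * b = (algebraMap (ZMod p) (FA p) (au p a) + le p 0 * a₁ + le p 1 * a₂) * b := by
          rw [← ha]
      _ = algebraMap (ZMod p) (FA p) (au p a) * b + le p 0 * (a₁ * b) + le p 1 * (a₂ * b) := by
          rw [add_mul, add_mul, mul_assoc, mul_assoc]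
      _ = algebraMap (ZMod p) (FA p) (au p a) *
            (algebraMap (ZMod p) (FA p) (au p b) + le p 0 * b₁ + le p 1 * b₂) +
            le p 0 * (a₁ * b) + le p 1 * (a₂ * b) := by
          rw [← hb]
      _ = _ := by
          have d1 : le p 0 * (algebraMap (ZMod p) (FA p) (au p a) * b₁) =
              algebraMap (ZMod p) (FA p) (au p a) * (le p 0 * b₁) := by
            rw [← mul_assoc, c1, mul_assoc]
          have d2 : le p 1 * (algebraMap (ZMod p) (FA p) (au p a) * b₂) =
              algebraMap (ZMod p) (FA p) (au p a) * (le p 1 * b₂) := by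
            rw [← mul_assoc, c2, mul_assoc]
          rw [mul_add, mul_add, mul_add, mul_add, d1, d2]
          abel
  | add a b ha hb =>
    obtain ⟨a₁, a₂, ha⟩ := ha
    obtain ⟨b₁, b₂, hb⟩ := hb
    refine ⟨a₁ + b₁, a₂ + b₂, ?_⟩
    rw [map_add, map_add, mul_add, mul_add]
    calc a + b = (algebraMap (ZMod p) (FA p) (au p a) + le p 0 * a₁ + le p 1 * a₂) +
          (algebraMap (ZMod p) (FA p) (au p b) + le p 0 * b₁ + le p 1 * b₂) := by
          rw [← ha, ← hb]
      _ = _ := by abel

/-- homomorphisms map powers of the augmentation ideal into powers of an ideal -/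
theorem map_I {B : Type} [Ring B] [Algebra (ZMod p) B] (f : FA p →ₐ[ZMod p] B) (K : Ideal B)
    [K.IsTwoSided] (h : ∀ i, f (le p i) ∈ K) : ∀ w ∈ I p, f w ∈ K := by
  intro w hw
  obtain ⟨w₁, w₂, hw'⟩ := decomp w
  rw [mem_I.1 hw, map_zero, zero_add] at hw'
  rw [hw', map_add, map_mul, map_mul]
  exact K.add_mem (Ideal.mul_mem_right _ _ (h 0)) (Ideal.mul_mem_right _ _ (h 1))

theorem map_pow {B C : Type} [Ring B] [Ring C] (f : B →+* C) (L : Ideal B) (K : Ideal C)
    [L.IsTwoSided] [K.IsTwoSided] (h : ∀ w ∈ L, f w ∈ K) (n : ℕ) : ∀ w ∈ L ^ n, f w ∈ K ^ n := by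
  induction n with
  | zero =>
    intro w _
    rw [Submodule.pow_zero, Ideal.one_eq_top]
    exact Submodule.mem_top
  | succ n ih =>
    intro w hw
    rw [Submodule.pow_succ] at hw ⊢
    refine Submodule.mul_induction_on hw (fun a ha b hb => ?_) (fun a b ha hb => ?_)
    · rw [map_mul]
      exact Ideal.mul_mem_mul (ih a ha) (h b hb)
    · rw [map_add]
      exact (K ^ n * K).add_mem ha hb

variable (p)

/-- the free nilpotent algebra -/
abbrev T : Type := FA p ⧸ (I p) ^ p

/-- projection -/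
noncomputable abbrev mk : FA p →ₐ[ZMod p] T p := Ideal.Quotient.mkₐ (ZMod p) ((I p) ^ p)

variable {p}

theorem pow_le_I : ∀ w ∈ (I p) ^ p, w ∈ I p := fun _ hw =>
  Ideal.pow_le_self hp.out.ne_zero hw

theorem mk_eq_zero {w : FA p} : mk p w = 0 ↔ w ∈ (I p) ^ p := Ideal.Quotient.eq_zero_iff_mem

theorem mk_surj (t : T p) : ∃ w, mk p w = t := Ideal.Quotient.mk_surjective t

variable (p)

/-- augmentation of the quotient -/
noncomputable def auT : T p →ₐ[ZMod p] ZMod p :=
  Ideal.Quotient.liftₐ ((I p) ^ p) (au p) fun w hw => mem_I.1 (pow_le_I w hw)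

/-- augmentation ideal of the quotient -/
noncomputable def JT : Ideal (T p) := RingHom.ker (auT p)

instance : (JT p).IsTwoSided := by
  unfold JT
  infer_instance

variable {p}

theorem auT_mk (w : FA p) : auT p (mk p w) = au p w := rfl

theorem mk_mem_JT {w : FA p} : mk p w ∈ JT p ↔ w ∈ I p := by
  rw [JT, RingHom.mem_ker, mem_I]
  exact Iff.rfl

theorem mk_mem_pow {n : ℕ} {w : FA p} (hw : w ∈ (I p) ^ n) : mk p w ∈ (JT p) ^ n :=
  map_pow (mk p : FA p →+* T p) (I p) (JT p) (fun _ h => mk_mem_JT.2 h) n w hw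

theorem lift_pow (n : ℕ) : ∀ t ∈ (JT p) ^ n, ∃ w ∈ (I p) ^ n, mk p w = t := by
  induction n with
  | zero =>
    intro t _
    obtain ⟨w, hw⟩ := mk_surj t
    refine ⟨w, ?_, hw⟩
    rw [Submodule.pow_zero, Ideal.one_eq_top]
    exact Submodule.mem_top
  | succ n ih =>
    intro t ht
    rw [Submodule.pow_succ] at ht
    refine Submodule.mul_induction_on ht (fun a ha b hb => ?_) (fun a b ha hb => ?_)
    · obtain ⟨w, hw, rfl⟩ := ih a ha
      obtain ⟨w', rfl⟩ := mk_surj b
      rw [mk_mem_JT] at hb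
      refine ⟨w * w', ?_, map_mul _ _ _⟩
      rw [Submodule.pow_succ]
      exact Ideal.mul_mem_mul hw hb
    · obtain ⟨w, hw, rfl⟩ := ha
      obtain ⟨w', hw', rfl⟩ := hb
      exact ⟨w + w', ((I p) ^ (n + 1)).add_mem hw hw', map_add _ _ _⟩

theorem JT_pow : (JT p) ^ p = ⊥ := by
  rw [eq_bot_iff]
  intro t ht
  obtain ⟨w, hw, rfl⟩ := lift_pow p t ht
  exact mk_eq_zero.2 hw

/-! ### the derivation -/

variable (p)

/-- the homomorphism to the upper triangular matrices -/
noncomputable def dl : FA p →ₐ[ZMod p] Matrix (Fin 2) (Fin 2) (FA p) :=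
  FreeAlgebra.lift (ZMod p) fun i => !![le p i, le p i; 0, le p i]

variable {p}

theorem dl_le (i : Fin 2) : dl p (le p i) = !![le p i, le p i; 0, le p i] := by
  simp [dl]

theorem dl_diag (w : FA p) : dl p w 0 0 = w ∧ dl p w 1 1 = w ∧ dl p w 1 0 = 0 := by
  induction w using FreeAlgebra.induction with
  | grade0 r =>
    rw [AlgHom.commutes]
    simp [Matrix.algebraMap_matrix_apply]
  | grade1 i =>
    rw [dl_le]
    simp
  | mul a b ha hb =>
    rw [_root_.map_mul]
    simp [Matrix.mul_apply, Fin.sum_univ_two, ha.1, ha.2.1, ha.2.2, hb.1, hb.2.1, hb.2.2]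
  | add a b ha hb =>
    rw [_root_.map_add]
    simp [Matrix.add_apply, ha.1, ha.2.1, ha.2.2, hb.1, hb.2.1, hb.2.2]

/-- the derivation of the free algebra -/
noncomputable def EF : FA p →+ FA p where
  toFun w := dl p w 0 1
  map_zero' := by simp
  map_add' a b := by simp

theorem EF_mul (a b : FA p) : EF (a * b) = EF a * b + a * EF b := by
  change dl p (a * b) 0 1 = dl p a 0 1 * b + a * dl p b 0 1
  rw [_root_.map_mul, Matrix.mul_apply, Fin.sum_univ_two, (dl_diag a).1, (dl_diag b).2.1, add_comm]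

theorem EF_alg (c : ZMod p) : EF (algebraMap (ZMod p) (FA p) c) = 0 := by
  change dl p (algebraMap (ZMod p) (FA p) c) 0 1 = 0
  rw [AlgHom.commutes]
  simp [Matrix.algebraMap_matrix_apply]

theorem EF_le (i : Fin 2) : EF (le p i) = le p i := by
  change dl p (le p i) 0 1 = le p i
  rw [dl_le]
  simp

theorem EF_mem (w : FA p) : EF w ∈ I p := by
  induction w using FreeAlgebra.induction with
  | grade0 r =>
    rw [EF_alg]
    exact (I p).zero_mem
  | grade1 i =>
    rw [EF_le]
    exact le_mem i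
  | mul a b ha hb =>
    rw [EF_mul]
    exact (I p).add_mem (Ideal.mul_mem_right _ _ ha) ((I p).mul_mem_left _ hb)
  | add a b ha hb =>
    rw [_root_.map_add]
    exact (I p).add_mem ha hb

theorem sq_mul {a b : FA p} (ha : a ∈ I p) (hb : b ∈ I p) : a * b ∈ (I p) ^ 2 := by
  have h : a * b ∈ (I p) ^ (1 + 1) := by
    rw [Submodule.pow_succ, Submodule.pow_one]
    exact Ideal.mul_mem_mul ha hb
  exact h

theorem EF_sub (w : FA p) :
    EF w - (w - algebraMap (ZMod p) (FA p) (au p w)) ∈ (I p) ^ 2 := by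
  induction w using FreeAlgebra.induction with
  | grade0 r =>
    rw [EF_alg, AlgHom.commutes]
    simp
  | grade1 i =>
    rw [EF_le, au_le]
    simp
  | mul a b ha hb =>
    have hu := sub_mem_I a
    have hv := sub_mem_I b
    set α := algebraMap (ZMod p) (FA p) (au p a) with hα
    set β := algebraMap (ZMod p) (FA p) (au p b) with hβ
    have e1 : EF (a * b) - (a * b - algebraMap (ZMod p) (FA p) (au p (a * b))) =
        (EF a - (a - α)) * b + a * (EF b - (b - β)) + (a - α) * (b - β) +
          ((b - β) * 0 + (a - α) * 0) := by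
      rw [EF_mul, _root_.map_mul, _root_.map_mul, ← hα, ← hβ]
      noncomm_ring
    rw [e1]
    refine ((I p) ^ 2).add_mem (((I p) ^ 2).add_mem (((I p) ^ 2).add_mem ?_ ?_) ?_) ?_
    · exact Ideal.mul_mem_right _ _ ha
    · exact ((I p) ^ 2).mul_mem_left _ hb
    · exact sq_mul hu hv
    · simp
  | add a b ha hb =>
    have e1 : EF (a + b) - (a + b - algebraMap (ZMod p) (FA p) (au p (a + b))) =
        (EF a - (a - algebraMap (ZMod p) (FA p) (au p a))) +
        (EF b - (b - algebraMap (ZMod p) (FA p) (au p b))) := by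
      rw [_root_.map_add, _root_.map_add, _root_.map_add]
      abel
    rw [e1]
    exact ((I p) ^ 2).add_mem ha hb

theorem EF_pow (n : ℕ) : ∀ w ∈ (I p) ^ n, EF w ∈ (I p) ^ n := by
  induction n with
  | zero =>
    intro w _
    rw [Submodule.pow_zero, Ideal.one_eq_top]
    exact Submodule.mem_top
  | succ n ih =>
    intro w hw
    rw [Submodule.pow_succ] at hw ⊢
    refine Submodule.mul_induction_on hw (fun a ha b hb => ?_) (fun a b ha hb => ?_)
    · rw [EF_mul]
      exact ((I p) ^ n * I p).add_mem (Ideal.mul_mem_mul (ih a ha) hb)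
        (Ideal.mul_mem_mul ha (EF_mem b))
    · rw [_root_.map_add]
      exact ((I p) ^ n * I p).add_mem ha hb

theorem ET_wd (w w' : FA p) (h : mk p w = mk p w') : mk p (EF w) = mk p (EF w') := by
  have h1 : w - w' ∈ (I p) ^ p := by
    rw [← mk_eq_zero, map_sub, h, sub_self]
  have h2 := EF_pow p _ h1
  rw [← mk_eq_zero, map_sub, map_sub] at h2
  exact sub_eq_zero.1 h2

variable (p)

/-- the derivation of the quotient -/
noncomputable def ET : T p →+ T p :=
  AddMonoidHom.mk' (fun t => mk p (EF (Classical.choose (mk_surj t)))) (by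
    intro s t
    rw [← _root_.map_add, ← _root_.map_add]
    apply ET_wd
    rw [_root_.map_add, Classical.choose_spec (mk_surj s), Classical.choose_spec (mk_surj t),
      Classical.choose_spec (mk_surj (s + t))])

variable {p}

theorem ET_mk (w : FA p) : ET p (mk p w) = mk p (EF w) :=
  ET_wd _ _ (Classical.choose_spec (mk_surj (mk p w)))

theorem ET_mul (a b : T p) : ET p (a * b) = ET p a * b + a * ET p b := by
  obtain ⟨a, rfl⟩ := mk_surj a
  obtain ⟨b, rfl⟩ := mk_surj b
  rw [← _root_.map_mul, ET_mk, EF_mul, ET_mk, ET_mk, _root_.map_add, _root_.map_mul,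
    _root_.map_mul]

theorem ET_mem (a : T p) : ET p a ∈ JT p := by
  obtain ⟨a, rfl⟩ := mk_surj a
  rw [ET_mk]
  exact mk_mem_JT.2 (EF_mem a)

theorem ET_sub (u : T p) (hu : u ∈ JT p) : ET p u - u ∈ (JT p) ^ 2 := by
  obtain ⟨w, rfl⟩ := mk_surj u
  rw [ET_mk, ← map_sub]
  apply mk_mem_pow
  have h1 := EF_sub w
  rw [mem_I.1 (mk_mem_JT.1 hu), map_zero, sub_zero] at h1
  exact h1

theorem ET_le (i : Fin 2) : ET p (mk p (le p i)) = mk p (le p i) := by
  rw [ET_mk, EF_le]

/-! ### finiteness -/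

variable (p)

/-- words of length less than `n` -/
noncomputable def ws : ℕ → Set (FA p)
  | 0 => ∅
  | n + 1 => {1} ∪ ((fun w => le p 0 * w) '' ws n ∪ (fun w => le p 1 * w) '' ws n)

variable {p}

theorem ws_fin (n : ℕ) : (ws p n).Finite := by
  induction n with
  | zero => exact Set.finite_empty
  | succ n ih => exact (Set.finite_singleton _).union ((ih.image _).union (ih.image _))

theorem ws_span (n : ℕ) : ∀ w : FA p, ∃ s ∈ Submodule.span (ZMod p) (ws p n), w - s ∈ (I p) ^ n := by
  induction n with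
  | zero =>
    intro w
    refine ⟨0, Submodule.zero_mem _, ?_⟩
    rw [Submodule.pow_zero, Ideal.one_eq_top]
    exact Submodule.mem_top
  | succ n ih =>
    intro w
    obtain ⟨w₁, w₂, hw⟩ := decomp w
    obtain ⟨s₁, h₁, h₁'⟩ := ih w₁
    obtain ⟨s₂, h₂, h₂'⟩ := ih w₂
    have hmul : ∀ i : Fin 2, (∀ x ∈ ws p n, le p i * x ∈ ws p (n + 1)) →
        ∀ s ∈ Submodule.span (ZMod p) (ws p n), le p i * s ∈
          Submodule.span (ZMod p) (ws p (n + 1)) := by
      intro i hi s hs
      have h3 : Submodule.span (ZMod p) (ws p n) ≤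
          (Submodule.span (ZMod p) (ws p (n + 1))).comap (LinearMap.mulLeft (ZMod p) (le p i)) := by
        rw [Submodule.span_le]
        intro x hx
        exact Submodule.subset_span (hi x hx)
      exact h3 hs
    refine ⟨algebraMap (ZMod p) (FA p) (au p w) + le p 0 * s₁ + le p 1 * s₂, ?_, ?_⟩
    · refine Submodule.add_mem _ (Submodule.add_mem _ ?_ ?_) ?_
      · rw [Algebra.algebraMap_eq_smul_one]
        exact Submodule.smul_mem _ _ (Submodule.subset_span (Or.inl rfl))
      · exact hmul 0 (fun x hx => Or.inr (Or.inl ⟨x, hx, rfl⟩)) s₁ h₁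
      · exact hmul 1 (fun x hx => Or.inr (Or.inr ⟨x, hx, rfl⟩)) s₂ h₂
    · have h4 : w - (algebraMap (ZMod p) (FA p) (au p w) + le p 0 * s₁ + le p 1 * s₂) =
          le p 0 * (w₁ - s₁) + le p 1 * (w₂ - s₂) := by
        rw [mul_sub, mul_sub]
        nth_rewrite 1 [hw]
        abel
      rw [h4, Ideal.IsTwoSided.pow_succ]
      exact (I p * (I p) ^ n).add_mem (Ideal.mul_mem_mul (le_mem 0) h₁')
        (Ideal.mul_mem_mul (le_mem 1) h₂')

theorem finite_T : Finite (T p) := by
  have h1 : Submodule.span (ZMod p) ((mk p) '' ws p p) = ⊤ := by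
    rw [eq_top_iff]
    intro t _
    obtain ⟨w, rfl⟩ := mk_surj t
    obtain ⟨s, hs, hs'⟩ := ws_span p w
    have h2 : mk p w = mk p s := by
      rw [← sub_eq_zero, ← map_sub]
      exact mk_eq_zero.2 hs'
    rw [h2]
    have h3 : Submodule.span (ZMod p) ((mk p) '' ws p p) =
        (Submodule.span (ZMod p) (ws p p)).map (mk p).toLinearMap := by
      rw [Submodule.map_span]
      rfl
    rw [h3]
    exact ⟨s, hs, rfl⟩
  have h2 : Module.Finite (ZMod p) (T p) := by
    rw [Module.finite_def, ← h1]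
    exact Submodule.fg_span ((ws_fin p).image _)
  exact Module.finite_of_finite (ZMod p)

end Pool.Agent.PX.BCH28
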