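import Pool.Agent.Lib.MP_2b9f9a_al.PX.Stmts

set_option autoImplicit false

namespace Pool.Agent.PX

open Finset

namespace GA31

variable {p : ℕ} {P : Type} [Group P]

theorem aug_io (g : P) : aug p P (io p g) = 1 := by
  simp [aug, io]

theorem io_sub_mem (g : P) : io p g - 1 ∈ Dl p P := by
  rw [Dl, RingHom.mem_ker]
  rw [map_sub, aug_io, map_one, sub_self]

theorem mem_Dl {u : GA p P} : u ∈ Dl p P ↔ aug p P u = 0 := Iff.rfl

/-- Induction on the group algebra, with sums and natural multiples only. -/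
theorem ind [Fact p.Prime] {Q : GA p P → Prop} (h0 : Q 0) (h1 : ∀ g : P, Q (io p g))
    (ha : ∀ u v, Q u → Q v → Q (u + v)) (u : GA p P) : Q u := by
  refine MonoidAlgebra.induction_on u (fun g => h1 g) ha ?_
  intro r f hf
  have hr : r • f = r.val • f := by
    conv_lhs => rw [← ZMod.natCast_zmod_val r]
    rw [Nat.cast_smul_eq_nsmul]
  rw [hr]
  induction r.val with
  | zero => rwa [zero_smul]
  | succ n ih => rw [succ_nsmul]; exact ha _ _ ih hf

theorem mul_mem_pow {i j : ℕ} {a b : GA p P} (ha : a ∈ Dl p P ^ i) (hb : b ∈ Dl p P ^ j) :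
    a * b ∈ Dl p P ^ (i + j) := by
  rw [Ideal.IsTwoSided.pow_add]
  exact Ideal.mul_mem_mul ha hb

theorem io_comm_sub (g h : P) : io p (g * h * g⁻¹ * h⁻¹) - 1 =
    ((io p g - 1) * (io p h - 1) - (io p h - 1) * (io p g - 1)) * io p (g⁻¹ * h⁻¹) := by
  have e1 : (io p g - 1) * (io p h - 1) - (io p h - 1) * (io p g - 1) =
      io p g * io p h - io p h * io p g := by noncomm_ring
  have e2 : io p h * io p g * io p (g⁻¹ * h⁻¹) = 1 := by
    rw [← map_mul, ← map_mul, ← map_one (io p (P := P))]
    congr 1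
    group
  rw [e1, sub_mul, e2, ← map_mul, ← map_mul, mul_assoc (g * h) g⁻¹ h⁻¹]

theorem comm_mem {i j : ℕ} {g h : P} (hg : io p g - 1 ∈ Dl p P ^ i)
    (hh : io p h - 1 ∈ Dl p P ^ j) :
    (io p g - 1) * (io p h - 1) - (io p h - 1) * (io p g - 1) ∈ Dl p P ^ (i + j) := by
  refine (Dl p P ^ (i + j)).sub_mem (mul_mem_pow hg hh) ?_
  rw [add_comm]
  exact mul_mem_pow hh hg

instance charGA [Fact p.Prime] : CharP (GA p P) p :=
  charP_of_injective_algebraMap (algebraMap (ZMod p) (GA p P)).injective p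

theorem dn_comm (i j : ℕ) : ⁅Dn p P i, Dn p P j⁆ ≤ Dn p P (i + j) := by
  rw [Subgroup.commutator_le]
  intro g hg h hh
  rw [commutatorElement_def, mem_Dn, io_comm_sub]
  exact Ideal.mul_mem_right _ _ (comm_mem hg hh)

theorem dn_one : Dn p P 1 = ⊤ := by
  rw [eq_top_iff]
  intro g _
  rw [mem_Dn, Submodule.pow_one]
  exact io_sub_mem g

theorem pow_mul_31 {A : Type} [Ring A] (I : Ideal A) [I.IsTwoSided] (n m : ℕ) :
    I ^ (n * m) = (I ^ n) ^ m := by
  induction m with
  | zero => rw [mul_zero, Submodule.pow_zero, Submodule.pow_zero]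
  | succ m ih => rw [Nat.mul_succ, Ideal.IsTwoSided.pow_add, ih, Submodule.pow_succ]

/-- Ring homomorphisms and powers of ideals. -/
theorem map_pow_mem {A B : Type} [Ring A] [Ring B] (f : A →+* B) (I : Ideal A) (K : Ideal B)
    [K.IsTwoSided] (h : ∀ a ∈ I, f a ∈ K) (n : ℕ) : ∀ a ∈ I ^ n, f a ∈ K ^ n := by
  induction n with
  | zero =>
    intro a _
    rw [Submodule.pow_zero, Ideal.one_eq_top]
    trivial
  | succ n ih =>
    intro a ha
    rw [Submodule.pow_succ] at ha ⊢
    refine Submodule.smul_induction_on (p := fun a => f a ∈ K ^ n * K) ha ?_ ?_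
    · intro r hr s hs
      change f (r * s) ∈ _
      rw [map_mul]
      exact Ideal.mul_mem_mul (ih r hr) (h s hs)
    · intro x y hx hy
      rw [map_add]
      exact Ideal.add_mem _ hx hy

end GA31

open GA31

theorem stGA_31 : StGA := by
  intro p _ P _ _
  refine ⟨io_sub_mem, ?_, ?_, ?_, fun i j _ _ => dn_comm i j, ?_, ?_, ?_⟩
  · intro u
    refine ⟨aug p P u, ?_⟩
    rw [mem_Dl, map_sub, AlgHom.commutes]
    exact sub_self _
  · -- (3)
    have key : ∀ u : GA p P, ∃ c : ZMod p, ∃ g : P,
        u - algebraMap (ZMod p) (GA p P) c - (io p g - 1) ∈ Dl p P ^ 2 := by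
      intro u
      refine ind (Q := fun u => ∃ c : ZMod p, ∃ g : P,
        u - algebraMap (ZMod p) (GA p P) c - (io p g - 1) ∈ Dl p P ^ 2) ?_ ?_ ?_ u
      · refine ⟨0, 1, ?_⟩
        rw [map_zero, map_one, sub_self, sub_self, sub_self]
        exact Submodule.zero_mem _
      · intro g
        refine ⟨1, g, ?_⟩
        rw [map_one, sub_self]
        exact Submodule.zero_mem _
      · rintro u v ⟨c, g, hg⟩ ⟨d, h, hh⟩
        refine ⟨c + d, g * h, ?_⟩
        have e : u + v - algebraMap (ZMod p) (GA p P) (c + d) - (io p (g * h) - 1) =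
            (u - algebraMap (ZMod p) (GA p P) c - (io p g - 1)) +
            (v - algebraMap (ZMod p) (GA p P) d - (io p h - 1)) -
            (io p g - 1) * (io p h - 1) := by
          rw [map_add, map_mul]
          noncomm_ring
        rw [e]
        refine Ideal.sub_mem _ (Ideal.add_mem _ hg hh) ?_
        exact mul_mem_pow (i := 1) (j := 1) (by rw [Submodule.pow_one]; exact io_sub_mem g)
          (by rw [Submodule.pow_one]; exact io_sub_mem h)
    intro u hu
    obtain ⟨c, g, hg⟩ := key u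
    refine ⟨g, ?_⟩
    have h1 : u - algebraMap (ZMod p) (GA p P) c - (io p g - 1) ∈ Dl p P :=
      Ideal.pow_le_self two_ne_zero hg
    have hc : c = 0 := by
      rw [mem_Dl, map_sub, map_sub, AlgHom.commutes, mem_Dl.1 hu, mem_Dl.1 (io_sub_mem g)] at h1
      simpa using h1
    rwa [hc, map_zero, sub_zero] at hg
  · -- (4)
    intro n
    refine ⟨fun g hg h => ?_⟩
    rw [mem_Dn] at hg ⊢
    have : io p (h * g * h⁻¹) - 1 = io p h * (io p g - 1) * io p h⁻¹ := by
      have e : io p h * io p h⁻¹ = 1 := by rw [← map_mul, mul_inv_cancel, map_one]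
      rw [map_mul, map_mul, mul_sub, sub_mul, mul_one, e]
    rw [this]
    exact Ideal.mul_mem_right _ _ (Ideal.mul_mem_left _ _ hg)
  · -- (6)
    intro i j _ _ g hg h hh
    rw [io_comm_sub]
    have : ((io p g - 1) * (io p h - 1) - (io p h - 1) * (io p g - 1)) * io p (g⁻¹ * h⁻¹) -
        ((io p g - 1) * (io p h - 1) - (io p h - 1) * (io p g - 1)) =
        ((io p g - 1) * (io p h - 1) - (io p h - 1) * (io p g - 1)) *
          (io p (g⁻¹ * h⁻¹) - 1) := by rw [mul_sub _ (io p (g⁻¹ * h⁻¹)) 1, mul_one]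
    rw [this]
    exact mul_mem_pow (comm_mem hg hh) (by rw [Submodule.pow_one]; exact io_sub_mem _)
  · -- (7)
    intro w hw
    induction w with
    | zero => omega
    | succ w ih =>
      rcases Nat.eq_zero_or_pos w with rfl | hw0
      · change (⊤ : Subgroup P) ≤ _
        rw [dn_one]
      · obtain ⟨v, rfl⟩ : ∃ v, w = v + 1 := ⟨w - 1, by omega⟩
        change ⁅lc P (v + 1), (⊤ : Subgroup P)⁆ ≤ _
        refine le_trans (Subgroup.commutator_mono (ih (by omega)) (le_of_eq (dn_one (p := p)).symm)) ?_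
        exact dn_comm (v + 1) 1
  · -- (8)
    intro g hg
    rw [sub_pow_char_of_commute p (Commute.one_right _), one_pow, ← map_pow, hg, map_one,
      sub_self]

theorem gact_io_31 (p : ℕ) {Γ P : Type} [Group Γ] [Group P] [MulDistribMulAction Γ P] (γ : Γ)
    (g : P) : gact p γ (io p g) = io p (γ • g) := by
  simp [gact, io]

theorem stFun_31 : StFun := by
  intro p _ Γ P _ _ _ _
  have h1 : ∀ (γ : Γ) (g : P), gact p γ (io p g) = io p (γ • g) := gact_io_31 p
  have h4 : ∀ (γ : Γ) (n : ℕ), ∀ u ∈ Dl p P ^ n, gact p γ u ∈ Dl p P ^ n := by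
    intro γ n
    refine map_pow_mem (gact p γ).toRingHom (Dl p P) (Dl p P) ?_ n
    intro u hu
    have : aug p P (gact p γ u) = aug p P u := by
      refine ind (Q := fun u => aug p P (gact p γ u) = aug p P u) ?_ ?_ ?_ u
      · simp
      · intro g
        rw [h1, aug_io, aug_io]
      · intro u v hu hv
        rw [map_add, map_add, map_add, hu, hv]
    change aug p P (gact p γ u) = 0
    rw [this]
    exact hu
  refine ⟨h1, ?_, ?_, h4, ?_, ?_⟩
  · intro γ δ u
    refine ind (Q := fun u => gact p (γ * δ) u = gact p γ (gact p δ u)) ?_ ?_ ?_ u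
    · simp
    · intro g
      rw [h1, h1, h1, mul_smul]
    · intro u v hu hv
      rw [map_add, map_add, map_add, hu, hv]
  · intro u
    refine ind (Q := fun u => gact p (1 : Γ) u = u) ?_ ?_ ?_ u
    · simp
    · intro g
      rw [h1, one_smul]
    · intro u v hu hv
      rw [map_add, hu, hv]
  · intro γ n g hg
    rw [mem_Dn] at hg ⊢
    have := h4 γ n _ hg
    rwa [map_sub, map_one, h1] at this
  · intro Q n m hQ q hq
    set φ : GA p Q →ₐ[ZMod p] GA p P :=
      MonoidAlgebra.lift (ZMod p) (GA p P) Q ((io p).comp Q.subtype) with hφ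
    have hφ1 : ∀ q : Q, φ (io p q) = io p (q : P) := by
      intro q
      simp [hφ, io]
    have hD : ∀ u ∈ Dl p Q, φ u ∈ Dl p P ^ n := by
      have key : ∀ u : GA p Q, φ u - algebraMap (ZMod p) (GA p P) (aug p Q u) ∈ Dl p P ^ n := by
        intro u
        refine ind (Q := fun u => φ u - algebraMap (ZMod p) (GA p P) (aug p Q u) ∈ Dl p P ^ n)
          ?_ ?_ ?_ u
        · simp
        · intro g
          rw [hφ1, aug_io, map_one]
          exact hQ g.2
        · intro u v hu hv
          have e : φ (u + v) - algebraMap (ZMod p) (GA p P) (aug p Q (u + v)) =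
              (φ u - algebraMap (ZMod p) (GA p P) (aug p Q u)) +
              (φ v - algebraMap (ZMod p) (GA p P) (aug p Q v)) := by
            rw [map_add, map_add, map_add]
            abel
          rw [e]
          exact Ideal.add_mem _ hu hv
      intro u hu
      have := key u
      rwa [mem_Dl.1 hu, map_zero, sub_zero] at this
    have := map_pow_mem φ.toRingHom (Dl p Q) (Dl p P ^ n) hD m _ hq
    rw [mem_Dn, pow_mul_31]
    have e : φ.toRingHom (io p q - 1) = io p (q : P) - 1 := by
      change φ (io p q - 1) = _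
      rw [map_sub, map_one, hφ1]
    rwa [e] at this

end Pool.Agent.PX
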