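import Pool.Agent.Lib.MP_2b9f9a_al.PX.Stmts

/-!
# M13: Higgins' theorem for graded Lie rings.
-/

set_option autoImplicit false

namespace Pool.Agent.PX

namespace Hig78

variable {L : Type} [LieRing L]

theorem itb_nil (a : L) : itb a [] = a := rfl

theorem itb_cons (a x : L) (l : List L) : itb a (x :: l) = itb ⁅a, x⁆ l := rfl

theorem itb_append (a : L) (l r : List L) : itb a (l ++ r) = itb (itb a l) r := by
  simp [itb]

theorem itb_add (l : List L) : ∀ a b : L, itb (a + b) l = itb a l + itb b l := by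
  induction l with
  | nil => intro a b; rfl
  | cons x l ih => intro a b; rw [itb_cons, itb_cons, itb_cons, add_lie, ih]

theorem itb_zero (l : List L) : itb (0 : L) l = 0 := by
  induction l with
  | nil => rfl
  | cons x l ih => rw [itb_cons, zero_lie, ih]

/-- `itb` as an additive map in the first variable. -/
def itbHom (l : List L) : L →+ L where
  toFun a := itb a l
  map_zero' := itb_zero l
  map_add' := itb_add l

theorem itb_sub (l : List L) (a b : L) : itb (a - b) l = itb a l - itb b l :=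
  map_sub (itbHom l) a b

theorem itb_sum {ι : Type} (s : Finset ι) (f : ι → L) (l : List L) :
    itb (∑ i ∈ s, f i) l = ∑ i ∈ s, itb (f i) l :=
  map_sum (itbHom l) f s

theorem dsr_lie (s : ℕ) : ∀ x ∈ dsr (⊤ : AddSubgroup L) s, ∀ y : L,
    ⁅x, y⁆ ∈ dsr (⊤ : AddSubgroup L) s := by
  induction s with
  | zero => intro x _ y; exact AddSubgroup.mem_top _
  | succ s ih =>
    intro x hx y
    refine AddSubgroup.closure_induction (p := fun x _ => ⁅x, y⁆ ∈ dsr (⊤ : AddSubgroup L) (s+1))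
      ?_ ?_ ?_ ?_ hx
    · rintro z ⟨u, hu, v, hv, rfl⟩
      have h1 : ⁅⁅u, v⁆, y⁆ = ⁅⁅u, y⁆, v⁆ + ⁅u, ⁅v, y⁆⁆ := by
        rw [lie_lie u v y, ← lie_skew v ⁅u, y⁆]
        abel
      rw [h1]
      refine add_mem ?_ ?_
      · exact AddSubgroup.subset_closure ⟨_, ih u hu y, v, hv, rfl⟩
      · exact AddSubgroup.subset_closure ⟨u, hu, _, ih v hv y, rfl⟩
    · rw [zero_lie]; exact zero_mem _
    · intro a b _ _ ha hb
      rw [add_lie]; exact add_mem ha hb
    · intro a _ ha
      rw [neg_lie]; exact neg_mem ha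

theorem dsr_succ_le (s : ℕ) : dsr (⊤ : AddSubgroup L) (s+1) ≤ dsr (⊤ : AddSubgroup L) s := by
  refine (AddSubgroup.closure_le _).2 ?_
  rintro z ⟨u, hu, v, _, rfl⟩
  exact dsr_lie s u hu v

theorem itb_mem (s : ℕ) (l : List L) : ∀ a ∈ dsr (⊤ : AddSubgroup L) s,
    itb a l ∈ dsr (⊤ : AddSubgroup L) s := by
  induction l with
  | nil => intro a ha; exact ha
  | cons x l ih => intro a ha; exact ih _ (dsr_lie s a ha x)

theorem length_le (n : ℕ) : ∀ (c : ℕ) (l : List (ℕ × L)), (∀ x ∈ l, 1 ≤ x.1 ∧ x.1 ≤ c) →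
    (∀ i, 1 ≤ i → i ≤ c → (l.filter (fun x => x.1 = i)).length ≤ n) → l.length ≤ c * n := by
  intro c
  induction c with
  | zero =>
    intro l hl _
    cases l with
    | nil => simp
    | cons x l =>
      have := hl x (by simp)
      omega
  | succ c ih =>
    intro l hl hc
    have h1 := List.length_eq_length_filter_add (l := l) (fun x => decide (x.1 = c + 1))
    have h2 := hc (c + 1) (by omega) le_rfl
    have h3 := ih (l.filter (fun x => !decide (x.1 = c + 1))) (by
      intro x hx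
      rw [List.mem_filter] at hx
      obtain ⟨hx1, hx2⟩ := hx
      have := hl x hx1
      simp at hx2
      omega) (by
      intro i hi1 hi2
      refine le_trans ?_ (hc i hi1 (by omega))
      rw [List.filter_filter]
      refine List.Sublist.length_le ?_
      refine List.monotone_filter_right _ ?_
      intro x hx
      simp at hx
      simp [hx.1])
    rw [h1]
    have h4 : (c + 1) * n = c * n + n := by ring
    rw [h4]
    omega

theorem jac (b y x : L) : ⁅⁅b, y⁆, x⁆ - ⁅⁅b, x⁆, y⁆ = ⁅b, ⁅y, x⁆⁆ := by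
  rw [leibniz_lie b y x, ← lie_skew ⁅b, x⁆ y]
  abel

/-- Validity of a list of homogeneous elements. -/
def Val (Hm : ℕ → AddSubgroup L) (l : List (ℕ × L)) : Prop := ∀ x ∈ l, 1 ≤ x.1 ∧ x.2 ∈ Hm x.1

/-- The value of a list. -/
def vl (a : L) (l : List (ℕ × L)) : L := itb a (l.map Prod.snd)

theorem vl_append (a : L) (l r : List (ℕ × L)) : vl a (l ++ r) = vl (vl a l) r := by
  unfold vl; rw [List.map_append, itb_append]

variable (p : ℕ) [hp : Fact p.Prime] (Hm : ℕ → AddSubgroup L)

theorem perm_mod {Hm : ℕ → AddSubgroup L}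
    (hbr : ∀ i j, 1 ≤ i → 1 ≤ j → ∀ x ∈ Hm i, ∀ y ∈ Hm j, ⁅x, y⁆ ∈ Hm (i + j))
    (D : AddSubgroup L) (k T : ℕ) (a : L)
    (ih : ∀ l : List (ℕ × L), Val Hm l → l.length < k → T < (l.map Prod.fst).sum → vl a l ∈ D)
    {l l' : List (ℕ × L)} (h : l.Perm l') : ∀ l1 : List (ℕ × L), Val Hm (l1 ++ l) →
      (l1 ++ l).length ≤ k → T < ((l1 ++ l).map Prod.fst).sum →
      vl a (l1 ++ l) - vl a (l1 ++ l') ∈ D := by
  induction h with
  | nil => intro l1 _ _ _; rw [sub_self]; exact zero_mem _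
  | @cons x l l' _ ih2 =>
    intro l1 hv hk hT
    have := ih2 (l1 ++ [x]) (by simpa using hv) (by simpa using hk) (by simpa using hT)
    simpa using this
  | swap x y l =>
    intro l1 hv hk hT
    rw [vl_append, vl_append]
    have h1 : vl (vl a l1) (y :: x :: l) - vl (vl a l1) (x :: y :: l)
        = vl a (l1 ++ (y.1 + x.1, ⁅y.2, x.2⁆) :: l) := by
      rw [vl_append]
      unfold vl
      simp only [List.map_cons, itb_cons]
      rw [← itb_sub]
      congr 1
      exact jac _ _ _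
    rw [h1]
    have hx : 1 ≤ x.1 ∧ x.2 ∈ Hm x.1 := hv x (by simp)
    have hy : 1 ≤ y.1 ∧ y.2 ∈ Hm y.1 := hv y (by simp)
    refine ih _ ?_ ?_ ?_
    · intro z hz
      rw [List.mem_append, List.mem_cons] at hz
      rcases hz with hz | rfl | hz
      · exact hv z (by simp [hz])
      · exact ⟨by simp only; omega, hbr _ _ hy.1 hx.1 _ hy.2 _ hx.2⟩
      · exact hv z (by simp [hz])
    · simp only [List.length_append, List.length_cons] at hk ⊢
      omega
    · simp only [List.map_append, List.map_cons, List.sum_append, List.sum_cons] at hT ⊢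
      omega
  | @trans l l2 l3 h12 h23 ih1 ih2 =>
    intro l1 hv hk hT
    have hp : (l1 ++ l).Perm (l1 ++ l2) := List.Perm.append_left l1 h12
    have e1 := ih1 l1 hv hk hT
    have e2 := ih2 l1 (fun x hx => hv x (hp.mem_iff.2 hx)) (by rw [← hp.length_eq]; exact hk)
      (by rw [← (hp.map Prod.fst).sum_eq]; exact hT)
    have := add_mem e1 e2
    rwa [sub_add_sub_cancel] at this

/-- In characteristic `p`, a multiple by an integer prime to `p` can be cancelled. -/
theorem cancel (hchar : ∀ x : L, p • x = 0) (D : AddSubgroup L) (m : ℕ) (hm : Nat.Coprime m p)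
    (v : L) (h : m • v ∈ D) : v ∈ D := by
  have h1 : (m : ℤ) * Nat.gcdA m p + (p : ℤ) * Nat.gcdB m p = 1 := by
    have := Nat.gcd_eq_gcd_ab m p
    rw [hm] at this
    simpa using this.symm
  have h2 : v = Nat.gcdA m p • (m • v) + Nat.gcdB m p • (p • v) := by
    rw [← natCast_zsmul v m, ← natCast_zsmul v p, ← mul_zsmul, ← mul_zsmul, ← add_zsmul]
    rw [mul_comm (Nat.gcdA m p), mul_comm (Nat.gcdB m p), h1, one_zsmul]
  rw [h2, hchar, zsmul_zero, add_zero]
  exact D.zsmul_mem h _

theorem step {Hm : ℕ → AddSubgroup L} (hchar : ∀ x : L, p • x = 0)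
    (hbr : ∀ i j, 1 ≤ i → 1 ≤ j → ∀ x ∈ Hm i, ∀ y ∈ Hm j, ⁅x, y⁆ ∈ Hm (i + j))
    (heng : ∀ i, 1 ≤ i → ∀ x : Fin (p - 1) → L, (∀ j, x j ∈ Hm i) → ∀ a : L,
      ∑ σ : Equiv.Perm (Fin (p - 1)), itb a (List.ofFn (fun j => x (σ j))) = 0)
    (s c : ℕ) (hc : ∀ w, c < w → Hm w ≤ dsr (⊤ : AddSubgroup L) s) (a : L)
    (ha : a ∈ dsr (⊤ : AddSubgroup L) s) :
    ∀ k : ℕ, ∀ l : List (ℕ × L), l.length = k → Val Hm l →
      (p - 1) * (c + 1) ^ 2 < (l.map Prod.fst).sum → vl a l ∈ dsr (⊤ : AddSubgroup L) (s + 1) := by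
  intro k
  induction k using Nat.strong_induction_on with
  | _ k ih =>
  intro l hlk hv hT
  by_cases hbig : ∃ x ∈ l, c < x.1
  · obtain ⟨x, hx, hcx⟩ := hbig
    obtain ⟨l1, l2, rfl⟩ := List.append_of_mem hx
    rw [vl_append]
    have h1 : vl a l1 ∈ dsr (⊤ : AddSubgroup L) s := itb_mem s _ a ha
    have h2 : x.2 ∈ dsr (⊤ : AddSubgroup L) s := hc _ hcx (hv x (by simp)).2
    have h3 : ⁅vl a l1, x.2⁆ ∈ dsr (⊤ : AddSubgroup L) (s + 1) :=
      AddSubgroup.subset_closure ⟨_, h1, _, h2, rfl⟩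
    exact itb_mem (s + 1) (l2.map Prod.snd) _ h3
  · push Not at hbig
    have hex : ∃ i, 1 ≤ i ∧ i ≤ c ∧ p - 1 ≤ (l.filter (fun x => x.1 = i)).length := by
      by_contra hno
      push Not at hno
      have h1 := length_le (p - 1) c l (fun x hx => ⟨(hv x hx).1, hbig x hx⟩)
        (fun i hi1 hi2 => (hno i hi1 hi2).le)
      have h2 : (l.map Prod.fst).sum ≤ (l.map Prod.fst).length • c :=
        List.sum_le_card_nsmul _ _ (by
          intro x hx
          rw [List.mem_map] at hx
          obtain ⟨y, hy, rfl⟩ := hx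
          exact hbig y hy)
      rw [List.length_map, smul_eq_mul] at h2
      have h3 : l.length * c ≤ c * (p - 1) * c := Nat.mul_le_mul_right _ h1
      have h4 : c * (p - 1) * c ≤ (p - 1) * (c + 1) ^ 2 := by nlinarith
      omega
    obtain ⟨i, hi1, _, hi⟩ := hex
    set f := l.filter (fun x => decide (x.1 = i)) with hf
    set r := l.filter (fun x => !decide (x.1 = i)) with hr
    have hperm : l.Perm (f.take (p - 1) ++ (f.drop (p - 1) ++ r)) := by
      rw [← List.append_assoc, List.take_append_drop]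
      exact (List.filter_append_perm _ l).symm
    set q := f.take (p - 1) with hq
    set r' := f.drop (p - 1) ++ r with hr'
    have hqlen : q.length = p - 1 := by
      rw [hq, List.length_take]; omega
    have hqv : ∀ x ∈ q, x.1 = i ∧ x.2 ∈ Hm i := by
      intro x hx
      have h1 : x ∈ f := List.mem_of_mem_take hx
      rw [hf, List.mem_filter] at h1
      obtain ⟨h2, h3⟩ := h1
      have h4 : x.1 = i := by simpa using h3
      exact ⟨h4, h4 ▸ (hv x h2).2⟩
    -- the factors
    let x : Fin (p - 1) → L := fun j => (q.get (Fin.cast hqlen.symm j)).2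
    have hx : ∀ j, x j ∈ Hm i := fun j => (hqv _ (List.get_mem _ _)).2
    have hqof : q = List.ofFn (fun j : Fin (p - 1) => ((i, x j) : ℕ × L)) := by
      apply List.ext_getElem
      · rw [List.length_ofFn, hqlen]
      · intro m h1 h2
        rw [List.getElem_ofFn]
        apply Prod.ext
        · exact (hqv _ (List.getElem_mem h1)).1
        · rfl
    have ihD : ∀ l' : List (ℕ × L), Val Hm l' → l'.length < k →
        (p - 1) * (c + 1) ^ 2 < (l'.map Prod.fst).sum → vl a l' ∈ dsr (⊤ : AddSubgroup L) (s+1) :=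
      fun l' h1 h2 h3 => ih _ h2 l' rfl h1 h3
    have key : ∀ l' : List (ℕ × L), l.Perm l' → vl a l - vl a l' ∈ dsr (⊤ : AddSubgroup L) (s+1) := by
      intro l' hl'
      have := perm_mod hbr (dsr (⊤ : AddSubgroup L) (s+1)) k ((p - 1) * (c + 1) ^ 2) a ihD hl' []
        (by simpa using hv) (by simpa using hlk.le) (by simpa using hT)
      simpa using this
    have hsum : (p - 1).factorial • vl a l ∈ dsr (⊤ : AddSubgroup L) (s+1) := by
      have h1 : ∑ σ : Equiv.Perm (Fin (p - 1)), (vl a l - vl a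
          (List.ofFn (fun j : Fin (p - 1) => ((i, x (σ j)) : ℕ × L)) ++ r'))
          ∈ dsr (⊤ : AddSubgroup L) (s+1) := by
        refine sum_mem ?_
        intro σ _
        apply key
        refine hperm.trans ?_
        refine List.Perm.append_right r' ?_
        rw [hqof]
        exact (Equiv.Perm.ofFn_comp_perm σ (fun j : Fin (p - 1) => ((i, x j) : ℕ × L))).symm
      rw [Finset.sum_sub_distrib] at h1
      have h2 : ∑ σ : Equiv.Perm (Fin (p - 1)), vl a
          (List.ofFn (fun j : Fin (p - 1) => ((i, x (σ j)) : ℕ × L)) ++ r') = 0 := by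
        simp_rw [vl_append]
        unfold vl
        rw [← itb_sum]
        simp_rw [List.map_ofFn]
        have h3 := heng i hi1 x hx a
        have h4 : (∑ σ : Equiv.Perm (Fin (p - 1)), itb a (List.ofFn
            (Prod.snd ∘ fun j : Fin (p - 1) => ((i, x (σ j)) : ℕ × L)))) = 0 := by
          rw [← h3]
          rfl
        rw [h4, itb_zero]
      rw [h2, sub_zero, Finset.sum_const, Finset.card_univ, Fintype.card_perm, Fintype.card_fin] at h1
      exact h1
    refine cancel p hchar _ _ ?_ _ hsum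
    rw [Nat.coprime_comm, hp.out.coprime_iff_not_dvd, hp.out.dvd_factorial]
    have := hp.out.pos
    omega

theorem dec {Hm : ℕ → AddSubgroup L}
    (hgen : ∀ w, 1 ≤ w → ∀ z ∈ Hm (w + 1), z ∈ AddSubgroup.closure
      {z | ∃ x ∈ Hm w, ∃ y ∈ Hm 1, ⁅x, y⁆ = z}) (w : ℕ) (hw : 1 ≤ w) :
    ∀ m : ℕ, ∀ z ∈ Hm (w + m), z ∈ AddSubgroup.closure
      {z | ∃ a ∈ Hm w, ∃ l : List L, l.length = m ∧ (∀ x ∈ l, x ∈ Hm 1) ∧ itb a l = z} := by
  intro m
  induction m with
  | zero =>
    intro z hz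
    exact AddSubgroup.subset_closure ⟨z, hz, [], rfl, by simp, rfl⟩
  | succ m ih =>
    intro z hz
    have h1 := hgen (w + m) (by omega) z hz
    refine (AddSubgroup.closure_le _).2 ?_ h1
    rintro z ⟨x, hx, y, hy, rfl⟩
    have h2 := ih x hx
    refine AddSubgroup.closure_induction (p := fun x _ => ⁅x, y⁆ ∈ AddSubgroup.closure
      {z | ∃ a ∈ Hm w, ∃ l : List L, l.length = m + 1 ∧ (∀ x ∈ l, x ∈ Hm 1) ∧ itb a l = z})
      ?_ ?_ ?_ ?_ h2
    · rintro _ ⟨a, ha, l, hl, hl1, rfl⟩
      refine AddSubgroup.subset_closure ⟨a, ha, l ++ [y], by simp [hl], ?_, ?_⟩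
      · intro x hx
        rw [List.mem_append, List.mem_singleton] at hx
        rcases hx with hx | rfl
        · exact hl1 x hx
        · exact hy
      · rw [itb_append]; rfl
    · rw [zero_lie]; exact zero_mem _
    · intro a b _ _ ha hb
      rw [add_lie]; exact add_mem ha hb
    · intro a _ ha
      rw [neg_lie]; exact neg_mem ha

theorem claim {Hm : ℕ → AddSubgroup L} (hchar : ∀ x : L, p • x = 0)
    (hbr : ∀ i j, 1 ≤ i → 1 ≤ j → ∀ x ∈ Hm i, ∀ y ∈ Hm j, ⁅x, y⁆ ∈ Hm (i + j))
    (hgen : ∀ w, 1 ≤ w → ∀ z ∈ Hm (w + 1), z ∈ AddSubgroup.closure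
      {z | ∃ x ∈ Hm w, ∃ y ∈ Hm 1, ⁅x, y⁆ = z})
    (heng : ∀ i, 1 ≤ i → ∀ x : Fin (p - 1) → L, (∀ j, x j ∈ Hm i) → ∀ a : L,
      ∑ σ : Equiv.Perm (Fin (p - 1)), itb a (List.ofFn (fun j => x (σ j))) = 0) :
    ∀ s w : ℕ, hb (p - 1) s < w → Hm w ≤ dsr (⊤ : AddSubgroup L) s := by
  intro s
  induction s with
  | zero => intro w _; exact le_top
  | succ s ih =>
    intro w hw z hz
    set c := hb (p - 1) s with hcdef
    have hw' : c + (p - 1) * (c + 1) ^ 2 + 1 < w := hw
    obtain ⟨m, rfl⟩ : ∃ m, w = (c + 1) + m := ⟨w - (c + 1), by omega⟩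
    have h1 := dec hgen (c + 1) (by omega) m z hz
    refine (AddSubgroup.closure_le _).2 ?_ h1
    rintro _ ⟨a, ha, l, hl, hl1, rfl⟩
    have h2 := step p hchar hbr heng s c ih a (ih (c + 1) (by omega) ha) m
      (l.map (fun x => ((1, x) : ℕ × L))) (by simp [hl]) (by
        intro x hx
        rw [List.mem_map] at hx
        obtain ⟨y, hy, rfl⟩ := hx
        exact ⟨le_rfl, hl1 y hy⟩) (by
        rw [List.map_map]
        have : (Prod.fst ∘ fun x : L => ((1, x) : ℕ × L)) = fun _ => 1 := rfl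
        rw [this, List.map_const', List.sum_replicate, hl, smul_eq_mul, mul_one]
        omega)
    unfold vl at h2
    rw [List.map_map] at h2
    have h3 : (Prod.snd ∘ fun x : L => ((1, x) : ℕ × L)) = id := rfl
    rw [h3, List.map_id] at h2
    exact h2

end Hig78

theorem stHig_78 : StHig := by
  intro p hp L _ Hm hchar hbr hgen heng N hN w hw
  have h := Hig78.claim p hchar hbr hgen heng N w hw
  rw [hN] at h
  exact le_bot_iff.1 h

end Pool.Agent.PX
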