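import Pool.Agent.Lib.MP_2b9f9a_al.PX.Stmts

/-!
PX, module 9': the augmentation ideal of the group algebra of a finite `p`-group is nilpotent.
-/

set_option autoImplicit false

namespace Pool.Agent.PX

namespace Nil86

theorem finite_GA (p : ℕ) [Fact p.Prime] (P : Type) [Group P] [Finite P] : Finite (GA p P) := by
  have : Finite (P →₀ ZMod p) := Finite.of_equiv _ Finsupp.equivFunOnFinite.symm
  exact Finite.of_injective (fun x : GA p P => x.coeff) (fun x y h => by
    cases x; cases y; simpa using h)

theorem aug_io (p : ℕ) (P : Type) [Group P] (g : P) : aug p P (io p g) = 1 := by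
  simp [aug, io]

/-- Elements of the augmentation ideal act through the elements `g - 1`. -/
theorem mul_mem (p : ℕ) (P : Type) [Group P] (A : Submodule (GA p P) (GA p P)) (v : GA p P)
    (h : ∀ g : P, io p g * v - v ∈ A) (u : GA p P) :
    u * v - (aug p P u) • v ∈ A := by
  have hs : ∀ (c : ZMod p) (w : GA p P), w ∈ A → c • w ∈ A := by
    intro c w hw
    have : c • w = (c • (1 : GA p P)) * w := by rw [smul_mul_assoc, one_mul]
    rw [this]
    exact A.smul_mem _ hw
  induction u using MonoidAlgebra.induction_on with
  | of g =>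
    have h1 := h g
    have h2 : aug p P ((MonoidAlgebra.of (ZMod p) P) g) = 1 := aug_io p P g
    rw [h2, one_smul]
    exact h1
  | add x y hx hy =>
    have : (x + y) * v - (aug p P (x + y)) • v =
        (x * v - (aug p P x) • v) + (y * v - (aug p P y) • v) := by
      rw [map_add, add_smul, add_mul]; abel
    rw [this]
    exact A.add_mem hx hy
  | smul r x hx =>
    have : (r • x) * v - (aug p P (r • x)) • v = r • (x * v - (aug p P x) • v) := by
      rw [map_smul, smul_sub, smul_mul_assoc, smul_smul, smul_eq_mul]
    rw [this]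
    exact hs _ _ hx

/-- The left ideal of the elements killed by `Dl ^ k`. -/
def An (p : ℕ) (P : Type) [Group P] (k : ℕ) : Submodule (GA p P) (GA p P) where
  carrier := {v | ∀ u ∈ Dl p P ^ k, u * v = 0}
  add_mem' := by
    intro a b ha hb u hu
    rw [mul_add, ha u hu, hb u hu, add_zero]
  zero_mem' := by
    intro u _
    exact mul_zero u
  smul_mem' := by
    intro c x hx u hu
    rw [smul_eq_mul, ← mul_assoc]
    exact hx _ (Ideal.mul_mem_right _ _ hu)

theorem step (p : ℕ) [Fact p.Prime] (P : Type) [Group P] [Finite P] (hP : IsPGroup p P) (k : ℕ)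
    (h : An p P k ≠ ⊤) : An p P k < An p P (k + 1) := by
  have := finite_GA p P
  have hle : An p P k ≤ An p P (k + 1) := by
    intro v hv u hu
    refine hv u ?_
    rw [Submodule.pow_succ] at hu
    exact Ideal.mul_le.2 (fun r hr s _ => Ideal.mul_mem_right _ _ hr) hu
  refine lt_of_le_of_ne hle fun he => ?_
  -- the group acts on the quotient
  let : MulAction P (GA p P ⧸ An p P k) := MulAction.compHom _ (io p (P := P))
  have hact : ∀ (g : P) (x : GA p P ⧸ An p P k), g • x = (io p g) • x := fun _ _ => rfl
  have : Finite (GA p P ⧸ An p P k) := Quotient.finite _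
  have : Nontrivial (GA p P ⧸ An p P k) := Submodule.Quotient.nontrivial_iff.2 h
  have hdvd : p ∣ Nat.card (GA p P ⧸ An p P k) := by
    obtain ⟨x, hx⟩ := exists_ne (0 : GA p P ⧸ An p P k)
    have h1 : p • x = 0 := by
      have h2 : (p : GA p P) = 0 := by
        have : ((p : ZMod p) • (1 : GA p P)) = 0 := by
          rw [ZMod.natCast_self, zero_smul]
        rw [Nat.cast_smul_eq_nsmul, nsmul_one] at this
        exact this
      rw [← Nat.cast_smul_eq_nsmul (GA p P), h2, zero_smul]
    have h3 : addOrderOf x = p := addOrderOf_eq_prime h1 hx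
    have h4 := addOrderOf_dvd_natCard x
    rwa [h3] at h4
  have h0 : (0 : GA p P ⧸ An p P k) ∈ MulAction.fixedPoints P (GA p P ⧸ An p P k) := by
    intro g
    rw [hact, smul_zero]
  obtain ⟨b, hb, hb0⟩ := hP.exists_fixed_point_of_prime_dvd_card_of_fixed_point _ hdvd h0
  obtain ⟨v, rfl⟩ := Submodule.Quotient.mk_surjective _ b
  have hv : ∀ g : P, io p g * v - v ∈ An p P k := by
    intro g
    have := hb g
    rw [hact, ← Submodule.Quotient.mk_smul, Submodule.Quotient.eq, smul_eq_mul] at this
    exact this
  have hmem : v ∈ An p P (k + 1) := by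
    intro u hu
    rw [Submodule.pow_succ] at hu
    refine Submodule.smul_induction_on (p := fun u => u * v = 0) hu ?_ ?_
    · intro a ha c hc
      rw [smul_eq_mul, mul_assoc]
      have h1 := mul_mem p P (An p P k) v hv c
      have h2 : aug p P c = 0 := hc
      rw [h2, zero_smul, sub_zero] at h1
      exact h1 a ha
    · intro x y hx hy
      rw [add_mul, hx, hy, add_zero]
  rw [← he] at hmem
  exact hb0 ((Submodule.Quotient.mk_eq_zero _).2 hmem).symm

end Nil86

theorem stNil_86 : StNil := by
  intro p _ P _ _ hP
  have := Nil86.finite_GA p P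
  by_contra hcon
  push Not at hcon
  have hne : ∀ k, Nil86.An p P k ≠ ⊤ := by
    intro k hk
    refine hcon k ?_
    rw [eq_bot_iff]
    intro u hu
    have h1 : (1 : GA p P) ∈ Nil86.An p P k := by rw [hk]; trivial
    have := h1 u hu
    rw [mul_one] at this
    rw [this]
    exact Submodule.zero_mem _
  have hgrow : ∀ k, k ≤ Nat.card (Nil86.An p P k) := by
    intro k
    induction k with
    | zero => exact Nat.zero_le _
    | succ k ih =>
      have h1 := Nil86.step p P hP k (hne k)
      have h2 : Nat.card (Nil86.An p P k) < Nat.card (Nil86.An p P (k + 1)) :=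
        Set.Finite.card_lt_card (Set.toFinite _) h1
      omega
  have h3 := hgrow (Nat.card (GA p P) + 1)
  have h4 : Nat.card (Nil86.An p P (Nat.card (GA p P) + 1)) ≤ Nat.card (GA p P) :=
    Nat.card_le_card_of_injective _ Subtype.val_injective
  omega

end Pool.Agent.PX
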