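import Pool.Agent.Lib.MP_2b9f9a_al.PX.Stmts

/-!
PX, module 11: the graded Lie ring is soluble (second use of the Lie ring theorem).
-/

set_option autoImplicit false

namespace Pool.Agent.PX

namespace Sol86

open Finset

section groups

variable {P : Type} [Group P]

theorem three (A B C N : Subgroup P) [N.Normal] (h1 : ⁅⁅B, C⁆, A⁆ ≤ N) (h2 : ⁅⁅C, A⁆, B⁆ ≤ N) :
    ⁅⁅A, B⁆, C⁆ ≤ N := by
  have key : ∀ X : Subgroup P, X ≤ N ↔ X.map (QuotientGroup.mk' N) = ⊥ := by
    intro X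
    rw [Subgroup.map_eq_bot_iff, QuotientGroup.ker_mk']
  rw [key] at h1 h2 ⊢
  simp only [Subgroup.map_commutator] at h1 h2 ⊢
  exact Subgroup.commutator_commutator_eq_bot_of_rotate h1 h2

theorem lc_succ (w : ℕ) (hw : 1 ≤ w) : lc P (w + 1) = ⁅lc P w, (⊤ : Subgroup P)⁆ := by
  obtain ⟨v, rfl⟩ := Nat.exists_eq_add_of_le' hw
  rfl

theorem lc_normal (w : ℕ) : (lc P w).Normal := by
  rcases Nat.lt_or_ge w 2 with h | h
  · interval_cases w
    · change (⊤ : Subgroup P).Normal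
      infer_instance
    · change (⊤ : Subgroup P).Normal
      infer_instance
  · obtain ⟨v, rfl⟩ := Nat.exists_eq_add_of_le' h
    induction v with
    | zero =>
      change (⁅(⊤ : Subgroup P), (⊤ : Subgroup P)⁆).Normal
      infer_instance
    | succ v ih =>
      have := ih (by omega)
      change (⁅lc P (v + 2), (⊤ : Subgroup P)⁆).Normal
      infer_instance

theorem lc_comm : ∀ j, 1 ≤ j → ∀ i, 1 ≤ i → ⁅lc P i, lc P j⁆ ≤ lc P (i + j) := by
  intro j hj
  induction j, hj using Nat.le_induction with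
  | base =>
    intro i hi
    rw [lc_succ i hi]
    exact le_rfl
  | succ j hj ih =>
    intro i hi
    have := lc_normal (P := P) (i + (j + 1))
    rw [lc_succ j hj]
    refine (Subgroup.commutator_comm_le _ _).trans ?_
    refine three _ _ _ _ ?_ ?_
    · have h1 : ⁅(⊤ : Subgroup P), lc P i⁆ ≤ lc P (i + 1) := by
        rw [lc_succ i hi]
        exact Subgroup.commutator_comm_le _ _
      refine (Subgroup.commutator_mono h1 le_rfl).trans ?_
      refine (ih (i + 1) (by omega)).trans (le_of_eq ?_)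
      congr 1
      omega
    · refine (Subgroup.commutator_mono (ih i hi) le_rfl).trans (le_of_eq ?_)
      rw [← lc_succ (i + j) (by omega)]
      congr 1

theorem lc_stable {Γ : Type} [Group Γ] [MulDistribMulAction Γ P] (γ : Γ) (w : ℕ) :
    ∀ g ∈ lc P w, γ • g ∈ lc P w := by
  rcases Nat.lt_or_ge w 2 with h | h
  · interval_cases w
    · intro g _
      change _ ∈ (⊤ : Subgroup P)
      trivial
    · intro g _
      change _ ∈ (⊤ : Subgroup P)
      trivial
  · obtain ⟨v, rfl⟩ := Nat.exists_eq_add_of_le' h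
    have key : ∀ A : Subgroup P, (∀ g ∈ A, γ • g ∈ A) →
        ∀ g ∈ ⁅A, (⊤ : Subgroup P)⁆, γ • g ∈ ⁅A, (⊤ : Subgroup P)⁆ := by
      intro A hA g hg
      have h1 : (⁅A, (⊤ : Subgroup P)⁆).map (MulDistribMulAction.toMonoidHom P γ) ≤
          ⁅A, (⊤ : Subgroup P)⁆ := by
        rw [Subgroup.map_commutator]
        refine Subgroup.commutator_mono ?_ le_top
        rintro _ ⟨x, hx, rfl⟩
        exact hA x hx
      exact h1 ⟨g, hg, rfl⟩
    induction v with
    | zero => exact key ⊤ (fun _ _ => trivial)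
    | succ v ih => exact key (lc P (v + 2)) (ih (by omega))

theorem Dn_normal (p n : ℕ) : (Dn p P n).Normal := by
  refine ⟨fun a ha g => ?_⟩
  rw [mem_Dn] at ha ⊢
  have h1 : io p g * io p g⁻¹ = 1 := by
    rw [← map_mul, mul_inv_cancel, map_one]
  have h2 : io p (g * a * g⁻¹) - 1 = io p g * (io p a - 1) * io p g⁻¹ := by
    rw [mul_sub, sub_mul, mul_one, h1, map_mul, map_mul]
  rw [h2]
  exact Ideal.mul_mem_right _ _ (Ideal.mul_mem_left _ _ ha)

end groups

section graded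

variable {p : ℕ} {Γ P : Type} [Group Γ] [Group P] [MulDistribMulAction Γ P]
  {L : Type} [LieRing L] {cls : ℕ → P → L} {act : Γ →* AddMonoid.End L}

theorem cls_one (h : GrL p Γ P L cls act) (w : ℕ) (hw : 1 ≤ w) : cls w 1 = 0 := by
  have h1 := h.mul w hw 1 (one_mem _) 1 (one_mem _)
  rw [mul_one] at h1
  exact left_eq_add.1 h1

theorem cls_inv (h : GrL p Γ P L cls act) (w : ℕ) (hw : 1 ≤ w) (g : P) (hg : g ∈ lc P w) :
    cls w g⁻¹ = - cls w g := by
  have h1 := h.mul w hw g⁻¹ (inv_mem hg) g hg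
  rw [inv_mul_cancel, cls_one h w hw] at h1
  exact eq_neg_of_add_eq_zero_left h1.symm

theorem cls_dif (h : GrL p Γ P L cls act) (w : ℕ) (hw : 1 ≤ w) (g : P) (hg : g ∈ lc P w) (γ : Γ) :
    cls w (g⁻¹ * (γ • g)) = act γ (cls w g) - cls w g := by
  rw [h.mul w hw _ (inv_mem hg) _ (lc_stable γ w g hg), cls_inv h w hw g hg,
    h.act_cls γ w hw g hg]
  abel

/-- `Dn (w + 1)` inside `lc w`. -/
def Nw (p : ℕ) (P : Type) [Group P] (w : ℕ) : Subgroup P := Dn p P (w + 1) ⊓ lc P w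

theorem Nw_normal (p : ℕ) (P : Type) [Group P] (w : ℕ) : (Nw p P w).Normal := by
  have h1 := Dn_normal (P := P) p (w + 1)
  have h2 := lc_normal (P := P) w
  unfold Nw
  infer_instance

theorem mem_Nw (h : GrL p Γ P L cls act) (w : ℕ) (hw : 1 ≤ w) (g : P) (hg : g ∈ lc P w) :
    g ∈ Nw p P w ↔ cls w g = 0 := by
  rw [h.zero w hw g hg]
  exact ⟨fun h1 => h1.1, fun h1 => ⟨h1, hg⟩⟩

theorem Nw_stable (h : GrL p Γ P L cls act) (w : ℕ) (hw : 1 ≤ w) (γ : Γ) :
    ∀ g ∈ Nw p P w, γ • g ∈ Nw p P w := by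
  intro g hg
  rw [mem_Nw h w hw _ (lc_stable γ w g hg.2), ← h.act_cls γ w hw g hg.2,
    (mem_Nw h w hw g hg.2).1 hg, map_zero]

theorem fixed_dif (h : GrL p Γ P L cls act) (n : ℕ) (f : ℕ → P) (hf : ∀ w, f w ∈ lc P w) (γ : Γ)
    (hv : act γ (∑ w ∈ Icc 1 n, cls w (f w)) = ∑ w ∈ Icc 1 n, cls w (f w)) :
    ∀ w ∈ Icc 1 n, (f w)⁻¹ * (γ • f w) ∈ Nw p P w := by
  have hm : ∀ w, (f w)⁻¹ * (γ • f w) ∈ lc P w := fun w =>
    mul_mem (inv_mem (hf w)) (lc_stable γ w _ (hf w))
  have h0 : ∑ w ∈ Icc 1 n, cls w ((f w)⁻¹ * (γ • f w)) = 0 := by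
    rw [map_sum] at hv
    have h1 : ∀ w ∈ Icc 1 n, cls w ((f w)⁻¹ * (γ • f w)) = act γ (cls w (f w)) - cls w (f w) :=
      fun w hw => cls_dif h w (mem_Icc.1 hw).1 (f w) (hf w) γ
    rw [sum_congr rfl h1, sum_sub_distrib, hv, sub_self]
  intro w hw
  rw [mem_Nw h w (mem_Icc.1 hw).1 _ (hm w)]
  exact h.ind n (fun w => (f w)⁻¹ * (γ • f w)) hm h0 w hw

/-- The fixed points of `H`. -/
def fixH (P : Type) [Group P] [MulDistribMulAction Γ P] (H : Subgroup Γ) : Subgroup P where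
  carrier := {g | ∀ x ∈ H, x • g = g}
  one_mem' := fun x _ => smul_one x
  mul_mem' := by
    intro a b ha hb x hx
    rw [smul_mul', ha x hx, hb x hx]
  inv_mem' := by
    intro a ha x hx
    rw [smul_inv', ha x hx]

/-- The classes of the elements of the `k`-th derived subgroup of the fixed points. -/
def Sk (cls : ℕ → P → L) (Q : Subgroup P) (k : ℕ) : AddSubgroup L :=
  AddSubgroup.closure {z | ∃ w, 1 ≤ w ∧ ∃ c ∈ dsg Q k, c ∈ lc P w ∧ cls w c = z}

theorem Sk_brk (h : GrL p Γ P L cls act) (Q : Subgroup P) (k : ℕ) (u v : L)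
    (hu : u ∈ Sk cls Q k) (hv : v ∈ Sk cls Q k) : ⁅u, v⁆ ∈ Sk cls Q (k + 1) := by
  unfold Sk at hu
  induction hu using AddSubgroup.closure_induction with
  | mem u hu =>
    obtain ⟨i, hi, c, hc, hci, rfl⟩ := hu
    unfold Sk at hv
    induction hv using AddSubgroup.closure_induction with
    | mem v hv =>
      obtain ⟨j, hj, e, he, hej, rfl⟩ := hv
      rw [h.brk i j hi hj c hci e hej]
      refine AddSubgroup.subset_closure ⟨i + j, by omega, c * e * c⁻¹ * e⁻¹, ?_, ?_, rfl⟩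
      · exact Subgroup.commutator_mem_commutator hc he
      · exact lc_comm j hj i hi (Subgroup.commutator_mem_commutator hci hej)
    | zero => rw [lie_zero]; exact zero_mem _
    | add x y _ _ hx hy => rw [lie_add]; exact add_mem hx hy
    | neg x _ hx => rw [lie_neg]; exact neg_mem hx
  | zero => rw [zero_lie]; exact zero_mem _
  | add x y _ _ hx hy => rw [add_lie]; exact add_mem hx hy
  | neg x _ hx => rw [neg_lie]; exact neg_mem hx

end graded

end Sol86

open Finset in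
theorem stSol_86 (hLR : StLR) (hFpf : StFpf) (hCov : StCov) : StSol := by
  intro h d
  obtain ⟨N, hN⟩ := hLR h d
  refine ⟨N, ?_⟩
  intro p _ Γ P _ _ _ _ _ F H hP hF hcard hC L _ cls act hG
  refine hN L Γ act ⊤ F H (fun g x y => hG.act_lie g x y) (fun _ _ _ _ => trivial)
    (fun _ _ _ => trivial) hF.norm hF.fne hF.hne hF.free ?_ hcard ?_
  · intro y hy hy1 v _ hv
    obtain ⟨n, f, hf, rfl⟩ := hG.span v
    refine sum_eq_zero fun w hw => ?_
    have hw1 := (mem_Icc.1 hw).1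
    have h1 := Sol86.fixed_dif hG n f hf y hv w hw
    have := Sol86.Nw_normal p P w
    have h2 := hFpf p Γ P F H hP hF (Sol86.Nw p P w)
      (fun γ g hg => Sol86.Nw_stable hG w hw1 γ g hg) y hy hy1 (f w) h1
    exact (Sol86.mem_Nw hG w hw1 (f w) (hf w)).1 h2
  · intro C hCm
    have hCP : dsg (Sol86.fixH P H) d = ⊥ := hC _ (fun g => Iff.rfl)
    have key : ∀ k, dsr C k ≤ Sol86.Sk cls (Sol86.fixH P H) k := by
      intro k
      induction k with
      | zero =>
        intro v hv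
        have hv' := ((hCm v).1 hv).2
        obtain ⟨n, f, hf, rfl⟩ := hG.span v
        refine AddSubgroup.sum_mem _ fun w hw => ?_
        have hw1 := (mem_Icc.1 hw).1
        have := Sol86.Nw_normal p P w
        obtain ⟨m, hm, hfix⟩ := hCov p Γ P F H hP hF (Sol86.Nw p P w)
          (fun γ g hg => Sol86.Nw_stable hG w hw1 γ g hg) (f w)
          (fun x hx => Sol86.fixed_dif hG n f hf x (hv' x hx) w hw)
        have h3 : cls w (f w * m) = cls w (f w) := by
          rw [hG.mul w hw1 _ (hf w) _ hm.2, (Sol86.mem_Nw hG w hw1 m hm.2).1 hm, add_zero]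
        exact AddSubgroup.subset_closure ⟨w, hw1, f w * m, hfix, mul_mem (hf w) hm.2, h3⟩
      | succ k ih =>
        change AddSubgroup.closure _ ≤ _
        rw [AddSubgroup.closure_le]
        rintro _ ⟨u, hu, v, hv, rfl⟩
        exact Sol86.Sk_brk hG _ k u v (ih hu) (ih hv)
    rw [eq_bot_iff]
    refine (key d).trans ?_
    unfold Sol86.Sk
    rw [AddSubgroup.closure_le]
    rintro _ ⟨w, hw, c, hc, _, rfl⟩
    rw [hCP, Subgroup.mem_bot] at hc
    rw [hc, Sol86.cls_one hG w hw]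
    exact zero_mem _

end Pool.Agent.PX
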