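import Pool.Agent.Lib.MP_2b9f9a_al.PX.All78

/-!
# Iteration of the theorem modulo `p`-th powers, and nilpotent groups.
-/

set_option autoImplicit false

namespace Pool.Agent.PX

namespace Tower78

open Main78
open scoped commutatorElement

/-- The action on the quotient modulo `p`-th powers. -/
@[reducible] def qactG (p : ℕ) (Γ P : Type) [Group Γ] [Group P] [MulDistribMulAction Γ P] :
    MulDistribMulAction Γ (P ⧸ pw p P) where
  smul γ := QuotientGroup.map (pw p P) (pw p P) (MulDistribMulAction.toMonoidHom P γ)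
    (fun g hg => pw_map p (MulDistribMulAction.toMonoidHom P γ) g hg)
  one_smul v := by
    obtain ⟨g, rfl⟩ := QuotientGroup.mk_surjective v
    change ((((1 : Γ) • g : P)) : P ⧸ pw p P) = _
    rw [one_smul]
  mul_smul γ δ v := by
    obtain ⟨g, rfl⟩ := QuotientGroup.mk_surjective v
    change (((γ * δ) • g : P) : P ⧸ pw p P) = ((γ • (δ • g) : P) : P ⧸ pw p P)
    rw [mul_smul]
  smul_mul γ a b := map_mul _ a b
  smul_one γ := map_one _

/-- Fixed points. -/
def fixH {Γ P : Type} [Group Γ] [Group P] [MulDistribMulAction Γ P] (H : Subgroup Γ) :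
    Subgroup P where
  carrier := {g | ∀ x ∈ H, x • g = g}
  one_mem' := fun x _ => smul_one x
  mul_mem' := fun {a b} ha hb x hx => by rw [smul_mul', ha x hx, hb x hx]
  inv_mem' := fun {a} ha x hx => by rw [smul_inv', ha x hx]

/-- The theorem for a group acting. -/
theorem mainG (h d : ℕ) : ∃ N : ℕ, ∀ (p : ℕ) [Fact p.Prime] (Γ P : Type) [Group Γ]
    [Finite Γ] [Group P] [Finite P] [MulDistribMulAction Γ P] (F H : Subgroup Γ),
    IsPGroup p P → Fro P F H → Nat.card H = h →
    (∀ C : Subgroup P, (∀ g, g ∈ C ↔ ∀ x ∈ H, x • g = g) → dsg C d = ⊥) →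
    dsg (⊤ : Subgroup P) N ≤ pw p P := by
  obtain ⟨N, hN⟩ := stExpP_78 iter stGr_96 sol eng stHig_78 pbw h d
  refine ⟨N, ?_⟩
  intro p _ Γ P _ _ _ _ _ F H hPG hFro hcard hC
  have hst : ∀ γ : Γ, ∀ g ∈ pw p P, γ • g ∈ pw p P := fun γ g hg =>
    pw_map p (MulDistribMulAction.toMonoidHom P γ) g hg
  letI := qactG p Γ P
  have hsm : ∀ (γ : Γ) (g : P), γ • ((g : P) : P ⧸ pw p P) = ((γ • g : P) : P ⧸ pw p P) :=
    fun γ g => rfl
  have hFroQ : Fro (P ⧸ pw p P) F H := by
    refine ⟨hFro.norm, hFro.fne, hFro.hne, hFro.free, ?_⟩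
    intro y hy hy1 v hv
    obtain ⟨g, rfl⟩ := QuotientGroup.mk_surjective v
    rw [hsm, eq_comm, QuotientGroup.eq] at hv
    have h1 := stFpf_28 p Γ P F H hPG hFro (pw p P) hst y hy hy1 g hv
    exact (QuotientGroup.eq_one_iff g).2 h1
  have hexp : ∀ v : P ⧸ pw p P, v ^ p = 1 := by
    intro v
    obtain ⟨g, rfl⟩ := QuotientGroup.mk_surjective v
    rw [← QuotientGroup.mk_pow]
    exact (QuotientGroup.eq_one_iff _).2 (Subgroup.subset_closure ⟨g, rfl⟩)
  have hCQ : ∀ C : Subgroup (P ⧸ pw p P), (∀ v, v ∈ C ↔ ∀ x ∈ H, x • v = v) → dsg C d = ⊥ := by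
    intro C' hC'
    have h1 : dsg (fixH H : Subgroup P) d = ⊥ := hC _ fun g => Iff.rfl
    have h2 : C' ≤ (fixH H : Subgroup P).map (QuotientGroup.mk' (pw p P)) := by
      intro v hv
      rw [hC'] at hv
      obtain ⟨g, rfl⟩ := QuotientGroup.mk_surjective v
      have h3 : ∀ x ∈ H, g⁻¹ * (x • g) ∈ pw p P := by
        intro x hx
        have := hv x hx
        rw [hsm, eq_comm, QuotientGroup.eq] at this
        exact this
      obtain ⟨n, hn, hn2⟩ := stCov_28 p Γ P F H hPG hFro (pw p P) hst g h3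
      refine ⟨g * n, fun x hx => hn2 x hx, ?_⟩
      change ((g * n : P) : P ⧸ pw p P) = (g : P ⧸ pw p P)
      rw [eq_comm, QuotientGroup.eq]
      simpa using hn
    refine le_bot_iff.1 ((dsg_mono h2 d).trans ?_)
    rw [← dsg_map, h1, Subgroup.map_bot]
  have h1 := hN p Γ (P ⧸ pw p P) F H hexp hFroQ hcard hCQ
  have h2 : (dsg (⊤ : Subgroup P) N).map (QuotientGroup.mk' (pw p P)) = ⊥ := by
    rw [dsg_map, ← MonoidHom.range_eq_map,
      MonoidHom.range_eq_top.2 (QuotientGroup.mk'_surjective _), h1]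
  rw [Subgroup.map_eq_bot_iff, QuotientGroup.ker_mk'] at h2
  exact h2

theorem dsg_add {G : Type} [Group G] (S : Subgroup G) (a b : ℕ) :
    dsg S (a + b) = dsg (dsg S a) b := by
  induction b with
  | zero => rfl
  | succ b ih =>
    change ⁅dsg S (a + b), dsg S (a + b)⁆ = ⁅dsg (dsg S a) b, dsg (dsg S a) b⁆
    rw [ih]

/-- The iterated form. -/
theorem towerG (h d : ℕ) : ∃ N : ℕ, ∀ (p : ℕ) [Fact p.Prime] (Γ P : Type) [Group Γ]
    [Finite Γ] [Group P] [Finite P] [MulDistribMulAction Γ P] (F H : Subgroup Γ),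
    IsPGroup p P → Fro P F H → Nat.card H = h →
    (∀ C : Subgroup P, (∀ g, g ∈ C ↔ ∀ x ∈ H, x • g = g) → dsg C d = ⊥) →
    ∀ U : ℕ → Subgroup P, U 0 = ⊤ →
      (∀ i, U (i + 1) = Subgroup.closure {g | ∃ x ∈ U i, g = x ^ p}) →
      ∀ j, dsg (⊤ : Subgroup P) (j * N) ≤ U j := by
  obtain ⟨N, hN⟩ := mainG h d
  refine ⟨N, ?_⟩
  intro p _ Γ P _ _ _ _ _ F H hP hFro hh hC U hU0 hUS
  have hst : ∀ j, ∀ γ : Γ, ∀ g ∈ U j, γ • g ∈ U j := by
    intro j
    induction j with
    | zero => intro γ g _; rw [hU0]; exact Subgroup.mem_top _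
    | succ j ih =>
      intro γ g hg
      rw [hUS] at hg ⊢
      refine Subgroup.closure_induction
        (p := fun g _ => γ • g ∈ Subgroup.closure {g | ∃ x ∈ U j, g = x ^ p}) ?_ ?_ ?_ ?_ hg
      · rintro _ ⟨x, hx, rfl⟩
        rw [smul_pow']
        exact Subgroup.subset_closure ⟨_, ih γ x hx, rfl⟩
      · rw [smul_one]; exact one_mem _
      · intro a b _ _ ha hb; rw [smul_mul']; exact mul_mem ha hb
      · intro a _ ha; rw [smul_inv']; exact inv_mem ha
  intro j
  induction j with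
  | zero => rw [hU0]; exact le_top
  | succ j ih =>
    have hstep : (j + 1) * N = j * N + N := by ring
    rw [hstep, dsg_add]
    letI : MulDistribMulAction Γ (U j) := subAct (U j) (hst j)
    have hsm : ∀ (γ : Γ) (g : U j), ((γ • g : U j) : P) = γ • (g : P) := fun γ g => rfl
    have hFroQ : Fro (U j) F H :=
      { norm := hFro.norm
        fne := hFro.fne
        hne := hFro.hne
        free := hFro.free
        fpf := by
          intro y hy hy1 g hg
          have := hFro.fpf y hy hy1 (g : P) (by rw [← hsm, hg])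
          exact Subtype.ext this }
    have hCQ : ∀ C : Subgroup (U j), (∀ g, g ∈ C ↔ ∀ x ∈ H, x • g = g) → dsg C d = ⊥ := by
      intro C hCC
      have hCP : dsg (fixH H : Subgroup P) d = ⊥ := hC _ (fun g => Iff.rfl)
      have hle : C.map (U j).subtype ≤ fixH H := by
        rintro _ ⟨g, hg, rfl⟩ x hx
        have := (hCC g).1 hg x hx
        exact congrArg Subtype.val this
      have h1 : (dsg C d).map (U j).subtype ≤ ⊥ := by
        rw [dsg_map, ← hCP]
        exact dsg_mono hle d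
      rw [eq_bot_iff]
      intro g hg
      have h2 : (U j).subtype g ∈ (⊥ : Subgroup P) := h1 ⟨g, hg, rfl⟩
      exact Subtype.ext (Subgroup.mem_bot.1 h2)
    have hres := hN p Γ (U j) F H (hP.to_subgroup (U j)) hFroQ hh hCQ
    have h1 : dsg (dsg (⊤ : Subgroup P) (j * N)) N ≤ dsg (U j) N := dsg_mono ih N
    have h2 : dsg (U j) N = (dsg (⊤ : Subgroup (U j)) N).map (U j).subtype := by
      rw [dsg_map, ← MonoidHom.range_eq_map, Subgroup.range_subtype]
    refine h1.trans ?_
    rw [h2]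
    refine (Subgroup.map_mono hres).trans ?_
    rw [hUS]
    rintro _ ⟨g, hg, rfl⟩
    refine Subgroup.closure_induction (p := fun g _ => (U j).subtype g ∈
      Subgroup.closure {g | ∃ x ∈ U j, g = x ^ p}) ?_ ?_ ?_ ?_ hg
    · rintro _ ⟨x, rfl⟩
      exact Subgroup.subset_closure ⟨x, x.2, rfl⟩
    · exact one_mem _
    · intro a b _ _ ha hb; rw [map_mul]; exact mul_mem ha hb
    · intro a _ ha; rw [map_inv]; exact inv_mem ha

/-- Commutators of suprema of commuting normal subgroups. -/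
theorem comm_iSup {G ι : Type} [Group G] (A : ι → Subgroup G) (hn : ∀ i, (A i).Normal)
    (hc : ∀ i j, i ≠ j → ∀ a ∈ A i, ∀ b ∈ A j, a * b = b * a) (k : ℕ) :
    dsg (⨆ i, A i) k ≤ ⨆ i, dsg (A i) k ∧ (∀ i, (dsg (A i) k).Normal) ∧ (∀ i, dsg (A i) k ≤ A i) := by
  induction k with
  | zero => exact ⟨le_rfl, hn, fun i => le_rfl⟩
  | succ k ih =>
    obtain ⟨ih1, ih2, ih3⟩ := ih
    have hn' : ∀ i, (dsg (A i) (k + 1)).Normal := by
      intro i
      have := ih2 i
      change (⁅dsg (A i) k, dsg (A i) k⁆).Normal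
      infer_instance
    have hN : (⨆ i, dsg (A i) (k + 1)).Normal := by
      have := hn'
      exact Subgroup.iSup_normal _
    refine ⟨?_, hn', ?_⟩
    · change ⁅dsg (⨆ i, A i) k, dsg (⨆ i, A i) k⁆ ≤ _
      refine (Subgroup.commutator_mono ih1 ih1).trans ?_
      rw [Subgroup.commutator_le]
      -- modulo the normal subgroup `N`
      set N : Subgroup G := ⨆ i, dsg (A i) (k + 1) with hNdef
      let π := QuotientGroup.mk' N
      have hcomm : ∀ a b : G, ⁅a, b⁆ ∈ N ↔ π a * π b = π b * π a := by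
        intro a b
        rw [← QuotientGroup.eq_one_iff, ← commutatorElement_eq_one_iff_mul_comm]
        rfl
      have key : ∀ i j, ∀ a ∈ dsg (A i) k, ∀ b ∈ dsg (A j) k, π a * π b = π b * π a := by
        intro i j a ha b hb
        by_cases hij : i = j
        · subst hij
          rw [← hcomm]
          exact Subgroup.mem_iSup_of_mem i (Subgroup.commutator_mem_commutator ha hb)
        · rw [← map_mul, ← map_mul, hc i j hij a (ih3 i ha) b (ih3 j hb)]
      intro a ha b hb
      rw [hcomm]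
      refine Subgroup.iSup_induction (fun i => dsg (A i) k)
        (C := fun a => π a * π b = π b * π a) ha ?_ ?_ ?_
      · intro i a ha
        refine Subgroup.iSup_induction (fun i => dsg (A i) k)
          (C := fun b => π a * π b = π b * π a) hb ?_ ?_ ?_
        · intro j b hb
          exact key i j a ha b hb
        · rw [map_one, mul_one, one_mul]
        · intro x y hx hy
          rw [map_mul, ← mul_assoc, hx, mul_assoc, hy, mul_assoc]
      · rw [map_one, mul_one, one_mul]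
      · intro x y hx hy
        rw [map_mul, mul_assoc, hy, ← mul_assoc, hx, mul_assoc]
    · intro i
      have := ih2 i
      exact (Subgroup.commutator_le_left _ _).trans (ih3 i)

theorem nilG (h d : ℕ) : ∃ N : ℕ, ∀ (G : Type) [Group G] [Finite G] (F H : Subgroup (MulAut G)),
    Group.IsNilpotent G →
    (∀ x ∈ H, ∀ y ∈ F, x * y * x⁻¹ ∈ F) →
    F ≠ ⊥ → H ≠ ⊥ →
    (∀ x ∈ H, x ≠ 1 → ∀ y ∈ F, x * y = y * x → y = 1) →
    (∀ y ∈ F, y ≠ 1 → ∀ g : G, y g = g → g = 1) →
    Nat.card H = h →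
    (∀ C : Subgroup G, (∀ g : G, g ∈ C ↔ ∀ x ∈ H, x g = g) → derivedSeries C d = ⊥) →
    ∀ r : ℕ, Squarefree r → (∀ p : ℕ, p.Prime → p ∣ Nat.card G → p ∣ r) →
    ∀ U : ℕ → Subgroup G, U 0 = ⊤ →
      (∀ i, U (i + 1) = Subgroup.closure {g | ∃ x ∈ U i, g = x ^ r}) →
      ∀ j, derivedSeries G (j * N) ≤ U j := by
  obtain ⟨N, hN⟩ := towerG h d
  refine ⟨N, ?_⟩
  intro G _ _ F H hnil hnorm hF hH hfree hfpf hcard hC r hr hrG U hU0 hUS j
  have hnorS : ∀ (p : ℕ) [Fact p.Prime] (P : Sylow p G), (P : Subgroup G).Normal := by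
    intro p hp P
    exact (Group.isNilpotent_of_finite_tfae.out 0 3 rfl rfl).1 hnil p hp P
  let ι := {p : ℕ // p ∈ (Nat.card G).primeFactors}
  have hι : ∀ i : ι, Fact (i.1).Prime := fun i => ⟨Nat.prime_of_mem_primeFactors i.2⟩
  let S : ∀ i : ι, Sylow i.1 G := fun i => default
  have hSn : ∀ i : ι, ((S i : Sylow i.1 G) : Subgroup G).Normal := fun i => by
    have := hι i
    exact hnorS i.1 (S i)
  -- the supremum
  have hsup : (⨆ i : ι, ((S i : Sylow i.1 G) : Subgroup G)) = ⊤ := by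
    refine Subgroup.eq_top_of_card_eq _ ?_
    refine Nat.dvd_antisymm (Subgroup.card_subgroup_dvd_card _) ?_
    rw [Nat.dvd_iff_prime_pow_dvd_dvd]
    intro p k hp hk
    by_cases hk0 : k = 0
    · rw [hk0, pow_zero]; exact one_dvd _
    have hpG : p ∣ Nat.card G := (dvd_pow_self p hk0).trans hk
    have hpm : p ∈ (Nat.card G).primeFactors :=
      Nat.mem_primeFactors.2 ⟨hp, hpG, Nat.card_pos.ne'⟩
    have := hι ⟨p, hpm⟩
    have h1 : p ^ k ∣ Nat.card (S ⟨p, hpm⟩ : Subgroup G) := by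
      have h2 := (S ⟨p, hpm⟩).card_eq_multiplicity
      change Nat.card (S ⟨p, hpm⟩ : Subgroup G) = p ^ _ at h2
      rw [h2]
      exact (hp.pow_dvd_iff_dvd_ordProj Nat.card_pos.ne').1 hk
    exact h1.trans (Subgroup.card_dvd_of_le (le_iSup (fun i : ι => ((S i : Sylow i.1 G) : Subgroup G)) ⟨p, hpm⟩))
  have hcomm : ∀ i j : ι, i ≠ j → ∀ a ∈ (S i : Subgroup G), ∀ b ∈ (S j : Subgroup G),
      a * b = b * a := by
    intro i j hij a ha b hb
    have := hι i
    have := hι j
    refine Subgroup.commute_of_normal_of_disjoint _ _ (hSn i) (hSn j) ?_ a b ha hb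
    exact IsPGroup.disjoint_of_ne i.1 j.1 (fun e => hij (Subtype.ext e)) _ _ (S i).isPGroup'
      (S j).isPGroup'
  have h1 := (comm_iSup (fun i : ι => ((S i : Sylow i.1 G) : Subgroup G)) hSn hcomm (j * N)).1
  rw [hsup, dsg_top] at h1
  refine h1.trans (iSup_le ?_)
  intro i
  have hp := hι i
  set p := i.1 with hpdef
  set P : Subgroup G := (S i : Subgroup G) with hPdef
  have hPp : IsPGroup p P := (S i).isPGroup'
  have hchar : P.Characteristic := (S i).characteristic_of_normal (hSn i)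
  have hst : ∀ γ : MulAut G, ∀ g ∈ P, γ • g ∈ P := by
    intro γ g hg
    have h2 := (Subgroup.characteristic_iff_map_le.1 hchar) γ
    exact h2 ⟨g, hg, rfl⟩
  letI : MulDistribMulAction (MulAut G) P := subAct P hst
  have hsm : ∀ (γ : MulAut G) (g : P), ((γ • g : P) : G) = γ (g : G) := fun γ g => rfl
  have hFro : Fro P F H :=
    { norm := hnorm
      fne := hF
      hne := hH
      free := hfree
      fpf := by
        intro y hy hy1 g hg
        have := hfpf y hy hy1 (g : G) (by rw [← hsm, hg])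
        exact Subtype.ext this }
  have hCQ : ∀ C : Subgroup P, (∀ g, g ∈ C ↔ ∀ x ∈ H, x • g = g) → dsg C d = ⊥ := by
    intro C hCC
    have hCP : dsg (fixH H : Subgroup G) d = ⊥ := dsg_sub _ d (hC _ (fun g => Iff.rfl))
    have hle : C.map P.subtype ≤ fixH H := by
      rintro _ ⟨g, hg, rfl⟩ x hx
      have := (hCC g).1 hg x hx
      exact congrArg Subtype.val this
    have h1 : (dsg C d).map P.subtype ≤ ⊥ := by
      rw [dsg_map, ← hCP]
      exact dsg_mono hle d
    rw [eq_bot_iff]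
    intro g hg
    have h2 : P.subtype g ∈ (⊥ : Subgroup G) := h1 ⟨g, hg, rfl⟩
    exact Subtype.ext (Subgroup.mem_bot.1 h2)
  let V : ℕ → Subgroup P := fun n => Nat.rec (⊤ : Subgroup P)
    (fun _ W => Subgroup.closure {g : P | ∃ x ∈ W, g = x ^ p}) n
  have hV := hN p (MulAut G) P F H hPp hFro hcard hCQ V rfl (fun _ => rfl) j
  have h2 : dsg P (j * N) = (dsg (⊤ : Subgroup P) (j * N)).map P.subtype := by
    rw [dsg_map, ← MonoidHom.range_eq_map, Subgroup.range_subtype]
  rw [h2]
  refine (Subgroup.map_mono hV).trans ?_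
  -- comparison of the two towers
  have hpr : ∃ m : ℕ, r = p * m ∧ Nat.Coprime m p := by
    obtain ⟨m, hm⟩ := hrG p hp.out (Nat.dvd_of_mem_primeFactors i.2)
    refine ⟨m, hm, ?_⟩
    rw [Nat.coprime_comm, hp.out.coprime_iff_not_dvd]
    intro hd
    obtain ⟨m', rfl⟩ := hd
    have h3 : p * p ∣ r := ⟨m', by rw [hm, mul_assoc]⟩
    exact hp.out.one_lt.ne' (Nat.isUnit_iff.1 (hr p h3))
  obtain ⟨m, hrm, hmp⟩ := hpr
  have key : ∀ n, (V n).map P.subtype ≤ U n := by
    intro n
    induction n with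
    | zero => rw [hU0]; exact le_top
    | succ n ih =>
      rw [hUS]
      rintro _ ⟨g, hg, rfl⟩
      change g ∈ Subgroup.closure {g : P | ∃ x ∈ V n, g = x ^ p} at hg
      refine Subgroup.closure_induction (p := fun g _ => P.subtype g ∈
        Subgroup.closure {g | ∃ x ∈ U n, g = x ^ r}) ?_ ?_ ?_ ?_ hg
      · rintro _ ⟨x, hx, rfl⟩
        -- `x = y ^ m` with `y` a power of `x`
        obtain ⟨k, hk⟩ := hPp x
        have hco : m.Coprime (orderOf x) :=
          Nat.Coprime.coprime_dvd_right (orderOf_dvd_of_pow_eq_one hk) (Nat.Coprime.pow_right k hmp)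
        obtain ⟨u, hu⟩ := exists_pow_eq_self_of_coprime hco
        have hyx : (x ^ u) ^ m = x := by rw [← pow_mul, mul_comm, pow_mul, hu]
        refine Subgroup.subset_closure ⟨((x ^ u : P) : G), ih ⟨x ^ u, pow_mem hx u, rfl⟩, ?_⟩
        rw [hrm, mul_comm, pow_mul, map_pow]
        congr 1
        have := congrArg Subtype.val hyx
        exact this.symm
      · exact one_mem _
      · intro a b _ _ ha hb; rw [map_mul]; exact mul_mem ha hb
      · intro a _ ha; rw [map_inv]; exact inv_mem ha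
  exact key j

end Tower78

end Pool.Agent.PX
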